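import Pool.Agent.H69.V2.CDefs

/-!
Project V2, row C1: basic facts on `pu` and `AC`.
-/

set_option linter.unusedSectionVars false

namespace Pool.Agent.H69.V2

open scoped BigOperators
open Pool.Agent.H69.VS Pool.Agent.H69.VT

variable {σ ι : Type} [Fintype σ] [DecidableEq σ] [Fintype ι] [DecidableEq ι]

namespace C1X

theorem u1_swap (s a b : ι) (k : σ) :
    u1 s k ∘ Equiv.swap a b = u1 (Equiv.swap a b s) k := by
  funext t
  simp only [u1, Function.comp_apply, Pi.single_apply]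
  have h : (Equiv.swap a b t = s) ↔ (t = Equiv.swap a b s) := by
    constructor
    · rintro rfl
      rw [Equiv.swap_apply_self]
    · rintro rfl
      rw [Equiv.swap_apply_self]
  simp only [h]

theorem eq_swap_iff (a b x s : ι) : x = Equiv.swap a b s ↔ Equiv.swap a b x = s := by
  constructor
  · rintro rfl
    rw [Equiv.swap_apply_self]
  · rintro rfl
    rw [Equiv.swap_apply_self]

end C1X

open C1X

/-- all slots, also `t = s` -/
theorem pu_apply' (t s : ι) (k : σ) (e : ι → σ → ℕ) (x : ι) :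
    pu t s k e x = if x = s then Pi.single k 1 else e x + if x = t then e s else 0 := by
  unfold pu
  by_cases h : x = s
  · subst h
    rw [Function.update_self, if_pos rfl]
  · rw [Function.update_of_ne h, if_neg h, Pi.add_apply]
    congr 1
    by_cases h1 : x = t
    · subst h1
      rw [Pi.single_eq_same, if_pos rfl]
    · rw [Pi.single_eq_of_ne h1, if_neg h1]

theorem pu_apply {t s : ι} (hts : t ≠ s) (k : σ) (e : ι → σ → ℕ) (x : ι) :
    pu t s k e x = if x = s then Pi.single k 1 else if x = t then e t + e s else e x := by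
  rw [pu_apply']
  by_cases h : x = s
  · rw [if_pos h, if_pos h]
  · rw [if_neg h, if_neg h]
    by_cases h1 : x = t
    · rw [if_pos h1, if_pos h1, h1]
    · rw [if_neg h1, if_neg h1, add_zero]

theorem pu_swap (t s : ι) (k : σ) (e : ι → σ → ℕ) (b c : ι) :
    pu t s k e ∘ Equiv.swap b c =
      pu (Equiv.swap b c t) (Equiv.swap b c s) k (e ∘ Equiv.swap b c) := by
  funext x
  rw [Function.comp_apply, pu_apply', pu_apply']
  simp only [Function.comp_apply, Equiv.swap_apply_self, eq_swap_iff]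

theorem pu_add (t s : ι) (k : σ) (e : ι → σ → ℕ) {x : ι} (hx : x ≠ s) (k' : σ) :
    pu t s k (e + u1 x k') = pu t s k e + u1 x k' := by
  have h0 : (u1 x k' : ι → σ → ℕ) s = 0 := by
    unfold u1
    exact Pi.single_eq_of_ne (Ne.symm hx) _
  funext y
  rw [Pi.add_apply, pu_apply', pu_apply']
  by_cases h : y = s
  · rw [if_pos h, if_pos h, h, h0, add_zero]
  · rw [if_neg h, if_neg h, Pi.add_apply, Pi.add_apply, h0, add_zero]
    exact add_right_comm _ _ _

theorem pu_pu {t s t' s' : ι} (k k' : σ) (e : ι → σ → ℕ) (h1 : s ≠ s') (h2 : t ≠ s')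
    (h3 : t' ≠ s) : pu t s k (pu t' s' k' e) = pu t' s' k' (pu t s k e) := by
  funext x
  rw [pu_apply' t s, pu_apply' t' s' k' (pu t s k e) x]
  rw [pu_apply' t' s' k' e x, pu_apply' t s k e x, pu_apply' t' s' k' e s, pu_apply' t s k e s']
  rw [if_neg h1, if_neg (Ne.symm h3), add_zero, if_neg (Ne.symm h1), if_neg (Ne.symm h2),
    add_zero]
  by_cases hx : x = s
  · have hx' : x ≠ s' := by
      rw [hx]
      exact h1
    have hxt : x ≠ t' := by
      rw [hx]
      exact Ne.symm h3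
    rw [if_pos hx, if_neg hx', if_pos hx, if_neg hxt, add_zero]
  · rw [if_neg hx, if_neg hx]
    by_cases hx' : x = s'
    · have hxt : x ≠ t := by
        rw [hx']
        exact Ne.symm h2
      rw [if_pos hx', if_pos hx', if_neg hxt, add_zero]
    · rw [if_neg hx', if_neg hx']
      exact add_right_comm _ _ _

theorem AC_pos {S : Finset ι} {e : ι → σ → ℕ} (h : ∀ s ∈ S, dl (e s) = 1) (t : ι) (k : σ)
    (Φ : SF σ ι) : AC S t k Φ e = Φ (e + u1 t k) - ∑ s ∈ S, Φ (pu t s k e) :=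
  if_pos h

theorem AC_neg {S : Finset ι} {e : ι → σ → ℕ} (h : ¬ ∀ s ∈ S, dl (e s) = 1) (t : ι) (k : σ)
    (Φ : SF σ ι) : AC S t k Φ e = 0 :=
  if_neg h

theorem AC_swap {S : Finset ι} {b c : ι} (hS : ∀ x, x ∈ S ↔ Equiv.swap b c x ∈ S) (t : ι) (k : σ)
    (Φ : SF σ ι) (e : ι → σ → ℕ) : AC S t k Φ (e ∘ Equiv.swap b c) =
      AC S (Equiv.swap b c t) k (fun e' => Φ (e' ∘ Equiv.swap b c)) e := by
  have hiff : (∀ s ∈ S, dl ((e ∘ Equiv.swap b c) s) = 1) ↔ ∀ s ∈ S, dl (e s) = 1 := by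
    constructor
    · intro h s hs
      have h1 := h (Equiv.swap b c s) ((hS s).1 hs)
      rwa [Function.comp_apply, Equiv.swap_apply_self] at h1
    · intro h s hs
      exact h _ ((hS s).1 hs)
  by_cases h : ∀ s ∈ S, dl (e s) = 1
  · rw [AC_pos (hiff.2 h), AC_pos h]
    have h1 : (e + u1 (Equiv.swap b c t) k) ∘ Equiv.swap b c =
        e ∘ Equiv.swap b c + u1 t k := by
      have h2 : (e + u1 (Equiv.swap b c t) k) ∘ Equiv.swap b c =
          e ∘ Equiv.swap b c + u1 (Equiv.swap b c t) k ∘ Equiv.swap b c := rfl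
      rw [h2, u1_swap, Equiv.swap_apply_self]
    rw [h1]
    congr 1
    refine Finset.sum_bij' (fun s _ => Equiv.swap b c s) (fun s _ => Equiv.swap b c s)
      (fun s hs => (hS s).1 hs) (fun s hs => (hS s).1 hs)
      (fun s _ => Equiv.swap_apply_self b c s) (fun s _ => Equiv.swap_apply_self b c s) ?_
    intro s _
    rw [pu_swap, Equiv.swap_apply_self, Equiv.swap_apply_self]
  · rw [AC_neg (fun h' => h (hiff.1 h')), AC_neg h]

theorem AC_add (S : Finset ι) (t : ι) (k : σ) (Φ Ψ : SF σ ι) (e : ι → σ → ℕ) :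
    AC S t k (fun e => Φ e + Ψ e) e = AC S t k Φ e + AC S t k Ψ e := by
  by_cases h : ∀ s ∈ S, dl (e s) = 1
  · rw [AC_pos h, AC_pos h, AC_pos h, Finset.sum_add_distrib]
    ring
  · rw [AC_neg h, AC_neg h, AC_neg h, add_zero]

theorem AC_smul (S : Finset ι) (t : ι) (k : σ) (c : ℂ) (Φ : SF σ ι) (e : ι → σ → ℕ) :
    AC S t k (fun e => c * Φ e) e = c * AC S t k Φ e := by
  by_cases h : ∀ s ∈ S, dl (e s) = 1
  · rw [AC_pos h, AC_pos h, ← Finset.mul_sum]
    ring
  · rw [AC_neg h, AC_neg h, mul_zero]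

theorem AC_sum (S : Finset ι) (t : ι) (k : σ) {τ : Type} (A : Finset τ) (Φ : τ → SF σ ι)
    (e : ι → σ → ℕ) : AC S t k (fun e => ∑ x ∈ A, Φ x e) e = ∑ x ∈ A, AC S t k (Φ x) e := by
  by_cases h : ∀ s ∈ S, dl (e s) = 1
  · rw [AC_pos h]
    have h1 : ∀ x ∈ A, AC S t k (Φ x) e = Φ x (e + u1 t k) - ∑ s ∈ S, Φ x (pu t s k e) :=
      fun x _ => AC_pos h t k (Φ x)
    rw [Finset.sum_congr rfl h1, Finset.sum_sub_distrib]
    congr 1
    exact Finset.sum_comm
  · rw [AC_neg h]
    exact (Finset.sum_eq_zero fun x _ => AC_neg h t k (Φ x)).symm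

/-- `AC` depends on the values of the function only -/
theorem AC_congr {S : Finset ι} {t : ι} {k : σ} {Φ Ψ : SF σ ι} (h : ∀ e, Φ e = Ψ e)
    (e : ι → σ → ℕ) : AC S t k Φ e = AC S t k Ψ e := by
  have h1 : Φ = Ψ := funext h
  rw [h1]

theorem AC_zero (S : Finset ι) (t : ι) (k : σ) (e : ι → σ → ℕ) :
    AC S t k (fun _ => 0) e = 0 := by
  by_cases h : ∀ s ∈ S, dl (e s) = 1
  · rw [AC_pos h, Finset.sum_const_zero, sub_zero]
  · rw [AC_neg h]

theorem AC_neg' (S : Finset ι) (t : ι) (k : σ) (Φ : SF σ ι) (e : ι → σ → ℕ) :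
    AC S t k (fun e => - Φ e) e = - AC S t k Φ e := by
  have h := AC_smul S t k (-1) Φ e
  simp only [neg_mul, one_mul] at h
  exact h

end Pool.Agent.H69.V2
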