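import Pool.Agent.H69.V2.C1

/-!
Columns of slots (project V2, MP_fb19ec_ag): other columns.
-/

set_option linter.unusedSectionVars false

namespace Pool.Agent.H69.V2

open scoped BigOperators
open Pool.Agent.H69.VS Pool.Agent.H69.VT

variable {σ ι : Type} [Fintype σ] [DecidableEq σ] [Fintype ι] [DecidableEq ι]

namespace C3X

theorem add_u1_ne (e : ι → σ → ℕ) {t x : ι} (h : x ≠ t) (k : σ) : (e + u1 t k) x = e x := by
  simp [u1, Pi.add_apply, Pi.single_eq_of_ne h]

theorem pu_ne {t s x : ι} (hts : t ≠ s) (hs : x ≠ s) (ht : x ≠ t) (k : σ) (e : ι → σ → ℕ) :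
    pu t s k e x = e x := by
  rw [pu_apply hts k e x, if_neg hs, if_neg ht]

theorem cond_add {S : Finset ι} {e : ι → σ → ℕ} {t : ι} (ht : t ∉ S) (k : σ) :
    (∀ s ∈ S, dl ((e + u1 t k) s) = 1) ↔ ∀ s ∈ S, dl (e s) = 1 := by
  refine forall₂_congr fun s hs => ?_
  rw [add_u1_ne e (ne_of_mem_of_not_mem hs ht) k]

theorem cond_pu {S : Finset ι} {e : ι → σ → ℕ} {t s' : ι} (hts : t ≠ s') (ht : t ∉ S)
    (hs' : s' ∉ S) (k : σ) :
    (∀ s ∈ S, dl (pu t s' k e s) = 1) ↔ ∀ s ∈ S, dl (e s) = 1 := by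
  refine forall₂_congr fun s hs => ?_
  rw [pu_ne hts (ne_of_mem_of_not_mem hs hs') (ne_of_mem_of_not_mem hs ht) k e]

theorem swap_mem {S : Finset ι} {b c : ι} (hb : b ∉ S) (hc : c ∉ S) (x : ι) :
    x ∈ S ↔ Equiv.swap b c x ∈ S := by
  by_cases h1 : x = b
  · subst h1
    rw [Equiv.swap_apply_left]
    exact ⟨fun h => absurd h hb, fun h => absurd h hc⟩
  · by_cases h2 : x = c
    · subst h2
      rw [Equiv.swap_apply_right]
      exact ⟨fun h => absurd h hc, fun h => absurd h hb⟩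
    · rw [Equiv.swap_apply_of_ne_of_ne h1 h2]

end C3X

theorem col_AC {S S' X : Finset ι} {Φ : SF σ ι} (h : ColP S' X Φ) (hd : Disjoint S S') {a : ι}
    (ha : a ∉ S) (ha' : a ∉ S') (hX : ∀ t ∈ X, t ≠ a ∧ t ∉ S ∧ t ∉ S') (k : σ) :
    ColP S' X (AC S a k Φ) := by
  have hne : ∀ s ∈ S, ∀ s' ∈ S', s ≠ s' := fun s hs s' hs' =>
    (ne_of_mem_of_not_mem hs' (Finset.disjoint_left.1 hd hs)).symm
  refine ⟨?_, ?_, ?_⟩
  · intro e he s' hs'
    by_cases hc : ∀ s ∈ S, dl (e s) = 1
    · rw [AC_pos hc] at he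
      by_cases h1 : Φ (e + u1 a k) = 0
      · have h2 : ∑ s ∈ S, Φ (pu a s k e) ≠ 0 := by
          intro h3
          exact he (by rw [h1, h3, sub_zero])
        obtain ⟨s, hs, h3⟩ := Finset.exists_ne_zero_of_sum_ne_zero h2
        have h4 := h.deg1 _ h3 s' hs'
        rwa [C3X.pu_ne (ne_of_mem_of_not_mem hs ha).symm (hne s hs s' hs').symm
          (ne_of_mem_of_not_mem hs' ha') k e] at h4
      · have h4 := h.deg1 _ h1 s' hs'
        rwa [C3X.add_u1_ne e (ne_of_mem_of_not_mem hs' ha') k] at h4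
    · exact absurd (AC_neg hc a k Φ) he
  · intro s hs s' hs' hss e
    have h1 : s ∉ S := fun hh => hne s hh s hs rfl
    have h2 : s' ∉ S := fun hh => hne s' hh s' hs' rfl
    rw [AC_swap (C3X.swap_mem h1 h2) a k Φ e, Equiv.swap_apply_of_ne_of_ne
      (ne_of_mem_of_not_mem hs ha').symm (ne_of_mem_of_not_mem hs' ha').symm]
    have h3 : (fun e' : ι → σ → ℕ => Φ (e' ∘ Equiv.swap s s')) = fun e' => (-1 : ℂ) * Φ e' := by
      funext e'
      rw [h.alt s hs s' hs' hss e', neg_one_mul]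
    rw [h3, AC_smul, neg_one_mul]
  · intro t ht k' e
    obtain ⟨hta, htS, htS'⟩ := hX t ht
    by_cases hc' : ∀ s ∈ S', dl (e s) = 1
    · rw [AC_pos hc']
      have hts' : ∀ s' ∈ S', t ≠ s' := fun s' hs' => (ne_of_mem_of_not_mem hs' htS').symm
      have has' : ∀ s' ∈ S', a ≠ s' := fun s' hs' => (ne_of_mem_of_not_mem hs' ha').symm
      have hts : ∀ s ∈ S, t ≠ s := fun s hs => (ne_of_mem_of_not_mem hs htS).symm
      have has : ∀ s ∈ S, a ≠ s := fun s hs => (ne_of_mem_of_not_mem hs ha).symm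
      have hs'S : ∀ s' ∈ S', s' ∉ S := fun s' hs' hh => hne s' hh s' hs' rfl
      have hsS' : ∀ s ∈ S, s ∉ S' := fun s hs hh => hne s hs s hh rfl
      by_cases hc : ∀ s ∈ S, dl (e s) = 1
      · have e1 : AC S a k Φ (e + u1 t k') =
            Φ (e + u1 a k + u1 t k') - ∑ s ∈ S, Φ (pu a s k e + u1 t k') := by
          rw [AC_pos ((C3X.cond_add htS k').2 hc), add_right_comm]
          congr 1
          refine Finset.sum_congr rfl fun s hs => ?_
          rw [pu_add a s k e (hts s hs) k']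
        have e2 : ∀ s' ∈ S', AC S a k Φ (pu t s' k' e) =
            Φ (pu t s' k' (e + u1 a k)) - ∑ s ∈ S, Φ (pu t s' k' (pu a s k e)) := by
          intro s' hs'
          rw [AC_pos ((C3X.cond_pu (hts' s' hs') htS (hs'S s' hs') k').2 hc),
            pu_add t s' k' e (has' s' hs') k]
          congr 1
          refine Finset.sum_congr rfl fun s hs => ?_
          rw [pu_pu k k' e (hne s hs s' hs') (has' s' hs') (hts s hs)]
        rw [e1, Finset.sum_congr rfl e2, Finset.sum_sub_distrib, Finset.sum_comm]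
        have f1 := h.exc t ht k' (e + u1 a k)
        rw [AC_pos ((C3X.cond_add ha' k).2 hc')] at f1
        have f2 : ∀ s ∈ S, Φ (pu a s k e + u1 t k') = ∑ s' ∈ S', Φ (pu t s' k' (pu a s k e)) := by
          intro s hs
          have f3 := h.exc t ht k' (pu a s k e)
          rw [AC_pos ((C3X.cond_pu (has s hs) ha' (hsS' s hs) k).2 hc')] at f3
          exact sub_eq_zero.1 f3
        rw [Finset.sum_congr rfl f2, sub_eq_zero.1 f1]
        ring
      · rw [AC_neg (fun hh => hc ((C3X.cond_add htS k').1 hh)), zero_sub, neg_eq_zero]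
        refine Finset.sum_eq_zero fun s' hs' => ?_
        exact AC_neg (fun hh => hc ((C3X.cond_pu (hts' s' hs') htS (hs'S s' hs') k').1 hh)) _ _ _
    · exact AC_neg hc' _ _ _

theorem col_join {ρ : ι → Rl} {C : Finset ℕ} {q : ℕ} {Φ : SF σ ι} (h : Cls q ρ C Φ) {i : ℕ}
    (hi : i ∈ C) {s : ι} (hs : cl ρ (Rl.gr i) = {s}) (hL : (cl ρ Rl.L).Nonempty)
    {S : Finset ι} (hS : ∀ x ∈ S, ρ x = Rl.no) {j : ℕ} (hc : ColP S (fglg ρ j) Φ) :
    ColP S (fglg (Function.update ρ s Rl.L) j) Φ := by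
  refine ⟨hc.deg1, hc.alt, ?_⟩
  intro t ht k e
  by_cases hts : t = s
  · subst hts
    obtain ⟨l, hl⟩ := hL
    have hl' : ρ l = Rl.L := (Finset.mem_filter.1 hl).2
    have ht' : ρ t = Rl.gr i := by
      have : t ∈ cl ρ (Rl.gr i) := by rw [hs]; exact Finset.mem_singleton_self t
      exact (Finset.mem_filter.1 this).2
    have htS : t ∉ S := fun hh => by
      have := hS t hh
      rw [ht'] at this
      exact Rl.noConfusion this
    have hlS : l ∉ S := fun hh => by
      have := hS l hh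
      rw [hl'] at this
      exact Rl.noConfusion this
    have h1 : (fun e' : ι → σ → ℕ => Φ (e' ∘ Equiv.swap t l)) = fun e' => (-1 : ℂ) * Φ e' := by
      funext e'
      have h2 := h.ex i hi l hl' e'
      rw [hs, Finset.sum_singleton] at h2
      rw [neg_one_mul]
      exact eq_neg_of_add_eq_zero_right h2
    have h3 := AC_swap (C3X.swap_mem htS hlS) l k Φ e
    rw [Equiv.swap_apply_right, h1, AC_smul] at h3
    have h4 : l ∈ fglg ρ j := Finset.mem_filter.2 ⟨Finset.mem_univ _, Or.inr (Or.inr (Or.inl hl'))⟩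
    rw [hc.exc l h4 k (e ∘ Equiv.swap t l)] at h3
    have h5 : -AC S t k Φ e = 0 := by
      rw [← neg_one_mul]
      exact h3.symm
    exact neg_eq_zero.1 h5
  · refine hc.exc t ?_ k e
    have h1 := (Finset.mem_filter.1 ht).2
    rw [Function.update_of_ne hts] at h1
    exact Finset.mem_filter.2 ⟨Finset.mem_univ _, h1⟩

end Pool.Agent.H69.V2
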