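import Pool.Agent.H69.V2.CDefs
import Pool.Agent.H69.VT.X3

/-!
Project V2, row C4: polarizations with the column slots.
-/

set_option linter.unusedSectionVars false

namespace Pool.Agent.H69.V2

open scoped BigOperators
open Pool.Agent.H69.VT

variable {σ ι : Type} [Fintype σ] [DecidableEq σ] [Fintype ι] [DecidableEq ι]

namespace C4X

/-- polarization over slots which are fixed by the swap -/
theorem Ro_swap_out {S : Finset ι} (a b : σ) (Φ : SF σ ι) {s s' : ι} (hs : s ∉ S) (hs' : s' ∉ S)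
    (e : ι → σ → ℕ) :
    Ro S a b Φ (e ∘ Equiv.swap s s') =
      ∑ t ∈ S, (e t a : ℂ) * Φ ((mv a b t e) ∘ Equiv.swap s s') := by
  unfold Ro
  refine Finset.sum_congr rfl (fun t ht => ?_)
  have h1 : t ≠ s := fun h => hs (h ▸ ht)
  have h2 : t ≠ s' := fun h => hs' (h ▸ ht)
  rw [X3.mv_swap, Function.comp_apply, Equiv.swap_apply_of_ne_of_ne h1 h2]

theorem mv_add_out {a b : σ} {s t : ι} (h : t ≠ s) (k : σ) (e : ι → σ → ℕ) :
    mv a b t (e + u1 s k) = mv a b t e + u1 s k := by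
  funext x
  by_cases hx : x = t
  · subst hx
    simp [mv, u1, Pi.single_eq_of_ne h]
  · simp [mv, Function.update_of_ne hx]

theorem add_out_apply {s t : ι} (h : t ≠ s) (k : σ) (e : ι → σ → ℕ) : (e + u1 s k) t = e t := by
  simp [u1, Pi.single_eq_of_ne h]

theorem tri_out (S : Finset ι) {a b : σ} (Φ : SF σ ι) {s1 s2 s3 : ι} (h1 : s1 ∉ S)
    (h2 : s2 ∉ S) (h3 : s3 ∉ S) (h : ∀ k1 k2 k3 e, A3 Φ s1 s2 s3 k1 k2 k3 e = 0)
    (k1 k2 k3 : σ) (e : ι → σ → ℕ) :
    A3 (Ro S a b Φ) s1 s2 s3 k1 k2 k3 e = 0 := by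
  have hR : ∀ k1 k2 k3 : σ, Ro S a b Φ (e + u1 s1 k1 + u1 s2 k2 + u1 s3 k3) =
      ∑ t ∈ S, (e t a : ℂ) * Φ (mv a b t e + u1 s1 k1 + u1 s2 k2 + u1 s3 k3) := by
    intro k1 k2 k3
    unfold Ro
    refine Finset.sum_congr rfl (fun t ht => ?_)
    have g1 : t ≠ s1 := fun h => h1 (h ▸ ht)
    have g2 : t ≠ s2 := fun h => h2 (h ▸ ht)
    have g3 : t ≠ s3 := fun h => h3 (h ▸ ht)
    rw [mv_add_out g3, mv_add_out g2, mv_add_out g1, add_out_apply g3, add_out_apply g2,
      add_out_apply g1]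
  have hS : ∑ t ∈ S, (e t a : ℂ) * A3 Φ s1 s2 s3 k1 k2 k3 (mv a b t e) = 0 :=
    Finset.sum_eq_zero (fun t _ => by rw [h, mul_zero])
  simp only [A3, mul_add, mul_sub, Finset.sum_add_distrib, Finset.sum_sub_distrib] at hS
  simp only [A3, hR]
  linear_combination hS

end C4X

theorem cls_add {q : ℕ} {ρ : ι → Rl} {C : Finset ℕ} {Φ Ψ : SF σ ι} (h : Cls q ρ C Φ)
    (h' : Cls q ρ C Ψ) : Cls q ρ C (fun e => Φ e + Ψ e) := by
  have hne : ∀ e, Φ e + Ψ e ≠ 0 → Φ e ≠ 0 ∨ Ψ e ≠ 0 := by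
    intro e he
    by_contra hcon
    push Not at hcon
    exact he (by rw [hcon.1, hcon.2, add_zero])
  refine
    { sym := ?_
      alt := ?_
      ex := ?_
      deg1 := ?_
      degq := ?_
      symF := ?_
      symG := ?_
      tri := ?_
      fg := ?_ }
  · intro i hi s s' hs hs' e
    simp only [h.sym i hi s s' hs hs' e, h'.sym i hi s s' hs hs' e]
  · intro s s' hss hs hs' e
    simp only [h.alt s s' hss hs hs' e, h'.alt s s' hss hs hs' e]
    ring
  · intro i hi s hs e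
    have g1 := h.ex i hi s hs e
    have g2 := h'.ex i hi s hs e
    simp only [Finset.sum_add_distrib]
    linear_combination g1 + g2
  · intro e he s hs
    rcases hne e he with g | g
    · exact h.deg1 e g s hs
    · exact h'.deg1 e g s hs
  · intro e he s hs
    rcases hne e he with g | g
    · exact h.degq e g s hs
    · exact h'.degq e g s hs
  · intro s s' hs hs' e
    simp only [h.symF s s' hs hs' e, h'.symF s s' hs hs' e]
  · intro s s' hs hs' e
    simp only [h.symG s s' hs hs' e, h'.symG s s' hs hs' e]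
  · intro s1 s2 s3 h12 h13 h23 b1 b2 b3 k1 k2 k3 e
    have g1 := h.tri s1 s2 s3 h12 h13 h23 b1 b2 b3 k1 k2 k3 e
    have g2 := h'.tri s1 s2 s3 h12 h13 h23 b1 b2 b3 k1 k2 k3 e
    simp only [A3] at g1 g2 ⊢
    linear_combination g1 + g2
  · intro s hs e
    have g1 := h.fg s hs e
    have g2 := h'.fg s hs e
    simp only [Finset.sum_add_distrib]
    linear_combination g1 + g2

theorem cls_Rno {q : ℕ} {ρ : ι → Rl} {C : Finset ℕ} {Φ : SF σ ι} (h : Cls q ρ C Φ)
    {S : Finset ι} (hS : ∀ s ∈ S, ρ s = Rl.no) (a b : σ) : Cls q ρ C (Ro S a b Φ) := by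
  have out : ∀ {s r}, r ≠ Rl.no → ρ s = r → s ∉ S := fun {s r} hr hs hm => by
    rw [hS s hm] at hs
    exact hr hs.symm
  have oB : ∀ {s}, isB (ρ s) → s ∉ S := fun {s} hs => by
    rcases hs with hs | hs | hs
    · exact out (by simp) hs
    · exact out (by simp) hs
    · exact out (by simp) hs
  have hex : ∀ (T : Finset ι) (s : ι), s ∉ S → (∀ t ∈ T, t ∉ S) →
      (∀ e, Φ e + ∑ s' ∈ T, Φ (e ∘ Equiv.swap s' s) = 0) → ∀ e,
      Ro S a b Φ e + ∑ s' ∈ T, Ro S a b Φ (e ∘ Equiv.swap s' s) = 0 := by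
    intro T s hs hT hx e
    have h1 : ∑ s' ∈ T, Ro S a b Φ (e ∘ Equiv.swap s' s) =
        ∑ s' ∈ T, ∑ t ∈ S, (e t a : ℂ) * Φ ((mv a b t e) ∘ Equiv.swap s' s) :=
      Finset.sum_congr rfl (fun s' hs' => C4X.Ro_swap_out a b Φ (hT s' hs') hs e)
    rw [h1, Finset.sum_comm]
    unfold Ro
    rw [← Finset.sum_add_distrib]
    refine Finset.sum_eq_zero (fun t _ => ?_)
    rw [← Finset.mul_sum, ← mul_add, hx, mul_zero]
  have hne : ∀ e, Ro S a b Φ e ≠ 0 → ∃ t, e t a ≠ 0 ∧ Φ (mv a b t e) ≠ 0 := by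
    intro e he
    obtain ⟨t, _, ht⟩ := Finset.exists_ne_zero_of_sum_ne_zero he
    refine ⟨t, ?_, right_ne_zero_of_mul ht⟩
    have := left_ne_zero_of_mul ht
    exact_mod_cast this
  refine
    { sym := ?_
      alt := ?_
      ex := ?_
      deg1 := ?_
      degq := ?_
      symF := ?_
      symG := ?_
      tri := ?_
      fg := ?_ }
  · intro i hi s s' hs hs' e
    rw [C4X.Ro_swap_out a b Φ (out (by simp) hs) (out (by simp) hs') e]
    exact Finset.sum_congr rfl (fun t _ => by rw [h.sym i hi s s' hs hs'])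
  · intro s s' hss hs hs' e
    rw [C4X.Ro_swap_out a b Φ (out (by simp) hs) (out (by simp) hs') e]
    unfold Ro
    rw [← Finset.sum_neg_distrib]
    exact Finset.sum_congr rfl (fun t _ => by rw [h.alt s s' hss hs hs', mul_neg])
  · intro i hi s hs
    refine hex _ s (out (by simp) hs) ?_ (h.ex i hi s hs)
    intro t ht
    exact out (by simp) (Finset.mem_filter.mp ht).2
  · intro e he s hs
    obtain ⟨t, h1, h2⟩ := hne e he
    rw [← X3.dl_mv (b := b) (s := s) h1]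
    exact h.deg1 _ h2 s hs
  · intro e he s hs
    obtain ⟨t, h1, h2⟩ := hne e he
    rw [← X3.dl_mv (b := b) (s := s) h1]
    exact h.degq _ h2 s hs
  · intro s s' hs hs' e
    rw [C4X.Ro_swap_out a b Φ (out (by simp) hs) (out (by simp) hs') e]
    exact Finset.sum_congr rfl (fun t _ => by rw [h.symF s s' hs hs'])
  · intro s s' hs hs' e
    rw [C4X.Ro_swap_out a b Φ (out (by simp) hs) (out (by simp) hs') e]
    exact Finset.sum_congr rfl (fun t _ => by rw [h.symG s s' hs hs'])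
  · intro s1 s2 s3 h12 h13 h23 b1 b2 b3 k1 k2 k3 e
    exact C4X.tri_out S Φ (oB b1) (oB b2) (oB b3)
      (fun k1 k2 k3 e => h.tri s1 s2 s3 h12 h13 h23 b1 b2 b3 k1 k2 k3 e) k1 k2 k3 e
  · intro s hs
    refine hex _ s (out (by simp) hs) ?_ (h.fg s hs)
    intro t ht
    exact out (by simp) (Finset.mem_filter.mp ht).2

theorem Ro_union {A S : Finset ι} (hd : Disjoint A S) (a b : σ) (Φ : SF σ ι) :
    Ro (A ∪ S) a b Φ = fun e => Ro A a b Φ e + Ro S a b Φ e := by
  funext e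
  unfold Ro
  exact Finset.sum_union hd

theorem cls_RoU {q : ℕ} {ρ : ι → Rl} {C : Finset ℕ} {Φ : SF σ ι} (h : Cls q ρ C Φ)
    {S : Finset ι} (hS : ∀ s ∈ S, ρ s = Rl.no) {a b : σ} (hab : a ≠ b) :
    Cls q ρ C (Ro (actv ρ C ∪ S) a b Φ) := by
  have hd : Disjoint (actv ρ C) S := by
    rw [Finset.disjoint_left]
    intro s hs hm
    have h1 := hS s hm
    rw [actv, Finset.mem_filter, h1] at hs
    simp at hs
  rw [Ro_union hd]
  exact cls_add (cls_R h hab) (cls_Rno h hS a b)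

end Pool.Agent.H69.V2
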