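import Pool.Agent.H69.V2.CDefs
import Pool.Agent.H69.VT.X3

/-!
Columns are stable under polarizations (project V2, row C5).
-/

set_option linter.unusedSectionVars false

namespace Pool.Agent.H69.V2

open scoped BigOperators
open Pool.Agent.H69.VS Pool.Agent.H69.VT

variable {σ ι : Type} [Fintype σ] [DecidableEq σ] [Fintype ι] [DecidableEq ι]

namespace C5X

theorem AC_pos' {S : Finset ι} {e : ι → σ → ℕ} (h : ∀ s ∈ S, dl (e s) = 1) (t : ι) (k : σ)
    (Φ : SF σ ι) : AC S t k Φ e = Φ (e + u1 t k) - ∑ s ∈ S, Φ (pu t s k e) := by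
  unfold AC
  exact if_pos h

theorem AC_neg' {S : Finset ι} {e : ι → σ → ℕ} (h : ¬ ∀ s ∈ S, dl (e s) = 1) (t : ι) (k : σ)
    (Φ : SF σ ι) : AC S t k Φ e = 0 := by
  unfold AC
  exact if_neg h

theorem pu_s (t s : ι) (k : σ) (e : ι → σ → ℕ) : pu t s k e s = Pi.single k 1 := by
  simp [pu]

theorem pu_t {t s : ι} (hts : t ≠ s) (k : σ) (e : ι → σ → ℕ) : pu t s k e t = e t + e s := by
  simp [pu, Function.update_of_ne hts]

theorem pu_x {t s x : ι} (hs : x ≠ s) (ht : x ≠ t) (k : σ) (e : ι → σ → ℕ) :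
    pu t s k e x = e x := by
  simp [pu, Function.update_of_ne hs, Pi.single_eq_of_ne ht]

theorem mv_self (a b : σ) (x : ι) (e : ι → σ → ℕ) :
    mv a b x e x = e x - Pi.single a 1 + Pi.single b 1 := by
  simp [mv]

theorem mv_ne (a b : σ) {x y : ι} (h : y ≠ x) (e : ι → σ → ℕ) : mv a b x e y = e y := by
  simp [mv, Function.update_of_ne h]

/-- a slot which does not occur in the exchange -/
theorem mv_pu_ne {t s x : ι} (hts : t ≠ s) (hs : x ≠ s) (ht : x ≠ t) (a b k : σ)
    (e : ι → σ → ℕ) : mv a b x (pu t s k e) = pu t s k (mv a b x e) := by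
  funext y
  by_cases hy : y = x
  · subst hy
    rw [mv_self, pu_x hs ht, pu_x hs ht, mv_self]
  · rw [mv_ne a b hy]
    by_cases hys : y = s
    · subst hys
      rw [pu_s, pu_s]
    · by_cases hyt : y = t
      · subst hyt
        rw [pu_t hts, pu_t hts, mv_ne a b (Ne.symm ht), mv_ne a b (Ne.symm hs)]
      · rw [pu_x hys hyt, pu_x hys hyt, mv_ne a b hy]

/-- the slot `t`, variable from `e t` -/
theorem mv_pu_t {t s : ι} (hts : t ≠ s) (a b k : σ) (e : ι → σ → ℕ) (h0 : e t a ≠ 0) :
    mv a b t (pu t s k e) = pu t s k (mv a b t e) := by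
  funext y
  by_cases hyt : y = t
  · subst hyt
    rw [mv_self, pu_t hts, pu_t hts, mv_self, mv_ne a b (Ne.symm hts)]
    funext i
    simp only [Pi.add_apply, Pi.sub_apply]
    by_cases hi : i = a
    · subst hi
      have : 1 ≤ e y i := Nat.one_le_iff_ne_zero.mpr h0
      simp only [Pi.single_eq_same]
      omega
    · simp only [Pi.single_eq_of_ne hi]
      omega
  · rw [mv_ne a b hyt]
    by_cases hys : y = s
    · subst hys
      rw [pu_s, pu_s]
    · rw [pu_x hys hyt, pu_x hys hyt, mv_ne a b hyt]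

/-- the slot `t`, variable from `e s` -/
theorem mv_pu_s {t s : ι} (hts : t ≠ s) (a b k : σ) (e : ι → σ → ℕ) (h0 : e s a ≠ 0) :
    mv a b t (pu t s k e) = pu t s k (mv a b s e) := by
  funext y
  by_cases hyt : y = t
  · subst hyt
    rw [mv_self, pu_t hts, pu_t hts, mv_self, mv_ne a b hts]
    funext i
    simp only [Pi.add_apply, Pi.sub_apply]
    by_cases hi : i = a
    · subst hi
      have : 1 ≤ e s i := Nat.one_le_iff_ne_zero.mpr h0
      simp only [Pi.single_eq_same]
      omega
    · simp only [Pi.single_eq_of_ne hi]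
      omega
  · rw [mv_ne a b hyt]
    by_cases hys : y = s
    · subst hys
      rw [pu_s, pu_s]
    · rw [pu_x hys hyt, pu_x hys hyt, mv_ne a b hys]

/-- the slot `s` has the variable `k` -/
theorem mv_pu_self (t s : ι) (a b : σ) (e : ι → σ → ℕ) :
    mv a b s (pu t s a e) = pu t s b e := by
  funext y
  by_cases hys : y = s
  · subst hys
    rw [mv_self, pu_s, pu_s]
    simp
  · rw [mv_ne a b hys]
    simp [pu, Function.update_of_ne hys]

/-- polarization and exchange with a column slot -/
theorem shift_pu (act : Finset ι) {a b : σ} (Φ : SF σ ι) {t s : ι} (ht : t ∈ act) (hs : s ∈ act)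
    (hts : t ≠ s) (k : σ) (e : ι → σ → ℕ) :
    Ro act a b Φ (pu t s k e) =
      ∑ x ∈ act, (e x a : ℂ) * Φ (pu t s k (mv a b x e)) +
        (if k = a then 1 else 0) * Φ (pu t s b e) := by
  unfold Ro
  have ht' : t ∈ act.erase s := Finset.mem_erase.mpr ⟨hts, ht⟩
  rw [← Finset.add_sum_erase act _ hs, ← Finset.add_sum_erase act (fun x => (e x a : ℂ) * _) hs,
    ← Finset.add_sum_erase (act.erase s) _ ht',
    ← Finset.add_sum_erase (act.erase s) (fun x => (e x a : ℂ) * _) ht']
  have h1 : ∑ x ∈ (act.erase s).erase t, (pu t s k e x a : ℂ) * Φ (mv a b x (pu t s k e)) =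
      ∑ x ∈ (act.erase s).erase t, (e x a : ℂ) * Φ (pu t s k (mv a b x e)) := by
    refine Finset.sum_congr rfl ?_
    intro x hx
    have hxt : x ≠ t := Finset.ne_of_mem_erase hx
    have hxs : x ≠ s := Finset.ne_of_mem_erase (Finset.mem_of_mem_erase hx)
    rw [pu_x hxs hxt, mv_pu_ne hts hxs hxt]
  have h2 : (pu t s k e t a : ℂ) * Φ (mv a b t (pu t s k e)) =
      (e t a : ℂ) * Φ (pu t s k (mv a b t e)) + (e s a : ℂ) * Φ (pu t s k (mv a b s e)) := by
    rw [pu_t hts, Pi.add_apply]
    push_cast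
    rw [add_mul]
    congr 1
    · by_cases h0 : e t a = 0
      · simp [h0]
      · rw [mv_pu_t hts a b k e h0]
    · by_cases h0 : e s a = 0
      · simp [h0]
      · rw [mv_pu_s hts a b k e h0]
  have h3 : (pu t s k e s a : ℂ) * Φ (mv a b s (pu t s k e)) =
      (if k = a then 1 else 0) * Φ (pu t s b e) := by
    rw [pu_s]
    by_cases hk : k = a
    · subst hk
      rw [if_pos rfl, mv_pu_self]
      simp
    · rw [if_neg hk, Pi.single_eq_of_ne (Ne.symm hk)]
      simp
  rw [h1, h2, h3]
  ring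

end C5X

open C5X

theorem col_Ro {S X A : Finset ι} {Φ : SF σ ι} (h : ColP S X Φ) (hX : X ⊆ A)
    (hd : Disjoint A S) {a b : σ} (hab : a ≠ b) : ColP S X (Ro (A ∪ S) a b Φ) := by
  have _ := hab
  refine
    { deg1 := ?_
      alt := ?_
      exc := ?_ }
  · intro e he s hs
    obtain ⟨t, _, ht⟩ := Finset.exists_ne_zero_of_sum_ne_zero he
    have h1 : e t a ≠ 0 := by
      have := left_ne_zero_of_mul ht
      exact_mod_cast this
    rw [← X3.dl_mv (b := b) (s := s) h1]
    exact h.deg1 _ (right_ne_zero_of_mul ht) s hs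
  · intro s hs s' hs' hne e
    rw [X3.Ro_swap a b Φ (Finset.mem_union_right A hs) (Finset.mem_union_right A hs') e]
    unfold Ro
    rw [← Finset.sum_neg_distrib]
    exact Finset.sum_congr rfl (fun t _ => by rw [h.alt s hs s' hs' hne, mul_neg])
  · intro t ht k e
    by_cases hS : ∀ s ∈ S, dl (e s) = 1
    · have htA : t ∈ A ∪ S := Finset.mem_union_left S (hX ht)
      rw [AC_pos' hS, X3.shift (A ∪ S) Φ htA k e]
      have h1 : ∑ s ∈ S, Ro (A ∪ S) a b Φ (pu t s k e) =
          ∑ x ∈ A ∪ S, (e x a : ℂ) * ∑ s ∈ S, Φ (pu t s k (mv a b x e)) +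
            (if k = a then 1 else 0) * ∑ s ∈ S, Φ (pu t s b e) := by
        have h2 : ∀ s ∈ S, Ro (A ∪ S) a b Φ (pu t s k e) =
            ∑ x ∈ A ∪ S, (e x a : ℂ) * Φ (pu t s k (mv a b x e)) +
              (if k = a then 1 else 0) * Φ (pu t s b e) := by
          intro s hs
          have hts : t ≠ s := by
            rintro rfl
            exact (Finset.disjoint_left.mp hd) (hX ht) hs
          exact shift_pu (A ∪ S) Φ htA (Finset.mem_union_right A hs) hts k e
        rw [Finset.sum_congr rfl h2, Finset.sum_add_distrib, Finset.sum_comm, Finset.mul_sum]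
        congr 1
        exact Finset.sum_congr rfl (fun x _ => by rw [Finset.mul_sum])
      have h3 : ∑ x ∈ A ∪ S, (e x a : ℂ) *
          (Φ (mv a b x e + u1 t k) - ∑ s ∈ S, Φ (pu t s k (mv a b x e))) = 0 := by
        refine Finset.sum_eq_zero (fun x _ => ?_)
        by_cases h0 : e x a = 0
        · simp [h0]
        · have h4 : ∀ s ∈ S, dl (mv a b x e s) = 1 := by
            intro s hs
            rw [X3.dl_mv h0]
            exact hS s hs
          have h5 := h.exc t ht k (mv a b x e)
          rw [AC_pos' h4] at h5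
          rw [h5, mul_zero]
      have h6 := h.exc t ht b e
      rw [AC_pos' hS] at h6
      rw [h1]
      unfold Ro
      simp only [mul_sub, Finset.sum_sub_distrib] at h3
      linear_combination h3 + (if k = a then 1 else 0) * h6
    · exact AC_neg' hS t k _

end Pool.Agent.H69.V2
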