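import Pool.Agent.H69.V2.C1
import Pool.Agent.H69.VT.X1

/-! Project V2, row C8: other fillings of the column. -/

set_option linter.unusedSectionVars false

namespace Pool.Agent.H69.V2

open scoped BigOperators
open Pool.Agent.H69.VS Pool.Agent.H69.VT

variable {σ ι : Type} [Fintype σ] [DecidableEq σ] [Fintype ι] [DecidableEq ι]

namespace C8X

/-- labels of degree one -/
lemma single_of_dl {g : σ → ℕ} (h : dl g = 1) : ∃ c, g = Pi.single c 1 := by
  unfold dl at h
  have hne : ∃ c, g c ≠ 0 := by
    by_contra hc
    push Not at hc
    rw [Finset.sum_eq_zero (fun i _ => hc i)] at h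
    exact absurd h (by norm_num)
  obtain ⟨c, hc⟩ := hne
  refine ⟨c, ?_⟩
  have h1 : g c + ∑ i ∈ Finset.univ.erase c, g i = 1 := by
    rw [Finset.add_sum_erase _ _ (Finset.mem_univ c)]
    exact h
  have h2 : ∑ i ∈ Finset.univ.erase c, g i = 0 := by omega
  have h3 : g c = 1 := by omega
  rw [Finset.sum_eq_zero_iff] at h2
  funext k
  by_cases hk : k = c
  · subst hk
    rw [Pi.single_eq_same, h3]
  · rw [Pi.single_eq_of_ne hk]
    exact h2 k (Finset.mem_erase.mpr ⟨hk, Finset.mem_univ _⟩)

lemma single_inj {a b : σ} (h : (Pi.single a 1 : σ → ℕ) = Pi.single b 1) : a = b := by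
  by_contra hab
  have := congrFun h a
  rw [Pi.single_eq_same, Pi.single_eq_of_ne hab] at this
  exact absurd this (by norm_num)

/-- the column has different entries -/
lemma col_inj {A S : Finset ι} {Φ : SF σ ι} (h : ColP S A Φ) {e : ι → σ → ℕ} (he : Φ e ≠ 0)
    {s s' : ι} (hs : s ∈ S) (hs' : s' ∈ S) (hss : s ≠ s') : e s ≠ e s' := by
  intro heq
  apply he
  have h1 : e ∘ Equiv.swap s s' = e := by
    funext x
    rw [Function.comp_apply]
    by_cases h1 : x = s
    · subst h1
      rw [Equiv.swap_apply_left, heq]
    · by_cases h2 : x = s'
      · subst h2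
        rw [Equiv.swap_apply_right, heq]
      · rw [Equiv.swap_apply_of_ne_of_ne h1 h2]
  have h2 := h.alt s hs s' hs' hss e
  rw [h1] at h2
  have h3 : (2 : ℂ) * Φ e = 0 := by linear_combination h2
  rcases mul_eq_zero.mp h3 with h4 | h4
  · exact absurd h4 (by norm_num)
  · exact h4

end C8X

open C8X in
theorem col_other {A S : Finset ι} (hd : Disjoint A S) {Φ : SF σ ι} (h : ColP S A Φ)
    {W : σ → ℕ} {S0 : Finset σ} (hS0 : S0.card = S.card)
    (htop : ∀ b ∈ S0, ∀ z, z ∉ S0 → W z ≤ W b)
    (h0 : ∀ e, wt (A ∪ S) e = W → (∀ b ∈ S0, ∃ s ∈ S, e s = Pi.single b 1) → Φ e = 0)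
    (hR : ∀ b z, W z ≤ W b → b ≠ z → ∀ e', wt (A ∪ S) e' + Pi.single z 1 = W + Pi.single b 1 →
      Ro (A ∪ S) b z Φ e' = 0) :
    ∀ e, wt (A ∪ S) e = W → Φ e = 0 := by
  have main : ∀ n : ℕ, ∀ e, wt (A ∪ S) e = W →
      (S0.filter fun b => ∀ s ∈ S, e s ≠ Pi.single b 1).card < n → Φ e = 0 := by
    intro n
    induction n with
    | zero =>
        intro e _ hn
        exact absurd hn (Nat.not_lt_zero _)
    | succ n ih =>
        intro e hW hn
        by_contra hne
        have hdeg : ∀ s ∈ S, ∃ c, e s = Pi.single c 1 := fun s hs =>
          single_of_dl (h.deg1 e hne s hs)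
        -- the content of the column
        have hexb : ∃ b ∈ S0, ∀ s ∈ S, e s ≠ Pi.single b 1 := by
          by_contra hc
          push Not at hc
          exact hne (h0 e hW hc)
        obtain ⟨b, hb, hbS⟩ := hexb
        have hexz : ∃ s ∈ S, ∃ z, z ∉ S0 ∧ e s = Pi.single z 1 := by
          by_contra hc
          push Not at hc
          have : Nonempty σ := ⟨b⟩
          choose! c hcs using hdeg
          have hmaps : ∀ s ∈ S, c s ∈ S0.erase b := by
            intro s hs
            rw [Finset.mem_erase]
            refine ⟨?_, ?_⟩
            · intro hcb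
              exact hbS s hs (by rw [hcs s hs, hcb])
            · by_contra hcs0
              exact hc s hs (c s) hcs0 (hcs s hs)
          have hinj : Set.InjOn c S := by
            intro s hs s' hs' hss
            by_contra hne'
            exact col_inj h hne hs hs' hne' (by rw [hcs s hs, hcs s' hs', hss])
          have h1 := Finset.card_le_card_of_injOn c hmaps hinj
          have h2 : (S0.erase b).card < S0.card := Finset.card_erase_lt_of_mem hb
          omega
        obtain ⟨s, hs, z, hz, hsz⟩ := hexz
        have hbz : b ≠ z := fun h' => hz (h' ▸ hb)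
        have hsU : s ∈ A ∪ S := Finset.mem_union_right _ hs
        obtain ⟨f, hf⟩ := X1.exists_sub e s z (by rw [hsz, Pi.single_eq_same]; norm_num)
        -- the new label
        obtain ⟨e', he'⟩ : ∃ e', e' = f + u1 s b := ⟨_, rfl⟩
        have hfs : f s = 0 := by
          have h1 := congrFun hf s
          rw [hsz, Pi.add_apply] at h1
          have h2 : u1 s z s = (Pi.single z 1 : σ → ℕ) := by
            unfold u1
            rw [Pi.single_eq_same]
          rw [h2] at h1
          have h3 : f s + Pi.single z 1 = 0 + Pi.single z 1 := by rw [← h1, zero_add]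
          exact add_right_cancel h3
        have he's : e' s = Pi.single b 1 := by
          rw [he', Pi.add_apply, hfs, zero_add]
          unfold u1
          rw [Pi.single_eq_same]
        have he'x : ∀ x, x ≠ s → e' x = e x := by
          intro x hx
          rw [he', hf, Pi.add_apply, Pi.add_apply]
          unfold u1
          rw [Pi.single_eq_of_ne hx, Pi.single_eq_of_ne hx]
        have hWf : wt (A ∪ S) f + Pi.single z 1 = W := by
          rw [← X1.wt_add f hsU z, ← hf, hW]
        have hWe' : wt (A ∪ S) e' = wt (A ∪ S) f + Pi.single b 1 := by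
          rw [he', X1.wt_add f hsU b]
        have hRo := hR b z (htop b hb z hz) hbz e' (by
          rw [hWe', ← hWf]
          abel)
        unfold Ro at hRo
        rw [← Finset.add_sum_erase _ _ hsU] at hRo
        have e1 : mv b z s e' = e := by
          rw [he', X1.mv_add, hf]
        rw [he's, e1, Pi.single_eq_same] at hRo
        have hrest : ∑ x ∈ (A ∪ S).erase s, (e' x b : ℂ) * Φ (mv b z x e') = 0 := by
          apply Finset.sum_eq_zero
          intro x hx
          rw [Finset.mem_erase, Finset.mem_union] at hx
          obtain ⟨hxs, hxU⟩ := hx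
          by_cases hxb : e' x b = 0
          · rw [hxb, Nat.cast_zero, zero_mul]
          · have hxA : x ∈ A := by
              rcases hxU with hxA | hxS
              · exact hxA
              · exfalso
                apply hxb
                rw [he'x x hxs]
                obtain ⟨c, hc⟩ := hdeg x hxS
                rw [hc, Pi.single_eq_of_ne]
                intro hbc
                exact hbS x hxS (by rw [hc, hbc])
            have hxS : x ∉ S := fun hxS => (Finset.disjoint_left.mp hd hxA) hxS
            obtain ⟨f', hf'⟩ := X1.exists_sub e' x b hxb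
            have hxU' : x ∈ A ∪ S := Finset.mem_union_left _ hxA
            have e2 : mv b z x e' = f' + u1 x z := by
              conv_lhs => rw [hf']
              exact X1.mv_add f' x b z
            have e3 : wt (A ∪ S) (mv b z x e') = W := by
              rw [e2, X1.wt_add f' hxU' z, ← hWf]
              have e4 : wt (A ∪ S) f' + Pi.single b 1 = wt (A ∪ S) f + Pi.single b 1 := by
                rw [← X1.wt_add f' hxU' b, ← hf', hWe']
              rw [add_right_cancel e4]
            have e5 : ∀ y ∈ S, mv b z x e' y = e' y := by
              intro y hy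
              unfold mv
              rw [Function.update_of_ne]
              rintro rfl
              exact hxS hy
            rw [ih (mv b z x e') e3 ?_, mul_zero]
            refine lt_of_lt_of_le (Finset.card_lt_card ?_) (Nat.lt_succ_iff.mp hn)
            rw [Finset.ssubset_iff_of_subset]
            · refine ⟨b, ?_, ?_⟩
              · rw [Finset.mem_filter]
                exact ⟨hb, hbS⟩
              · rw [Finset.mem_filter]
                rintro ⟨_, h2⟩
                exact h2 s hs (by rw [e5 s hs, he's])
            · intro k hk
              rw [Finset.mem_filter] at hk ⊢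
              refine ⟨hk.1, fun y hy => ?_⟩
              by_cases hys : y = s
              · subst hys
                rw [hsz]
                intro hkz
                exact hz (single_inj hkz ▸ hk.1)
              · have := hk.2 y hy
                rw [e5 y hy, he'x y hys] at this
                exact this
        rw [hrest, add_zero, Nat.cast_one, one_mul] at hRo
        exact hne hRo
  intro e he
  exact main _ e he (Nat.lt_succ_self _)

end Pool.Agent.H69.V2
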