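import Pool.Agent.H69.V2.C7
import Pool.Agent.H69.V2.C8

/-!
Project V2, row C9: the column reduction.
-/

set_option linter.unusedSectionVars false

namespace Pool.Agent.H69.V2

open scoped BigOperators
open Pool.Agent.H69.VS Pool.Agent.H69.VT

variable {σ ι : Type} [Fintype σ] [DecidableEq σ] [Fintype ι] [DecidableEq ι]

namespace C9X

/-- a set of most frequent variables -/
theorem top_set (W : σ → ℕ) (n : ℕ) (hn : n ≤ Fintype.card σ) :
    ∃ S0 : Finset σ, S0.card = n ∧ ∀ b ∈ S0, ∀ z, z ∉ S0 → W z ≤ W b := by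
  induction n with
  | zero => exact ⟨∅, rfl, by simp⟩
  | succ n ih =>
    obtain ⟨S0, hcard, htop⟩ := ih (by omega)
    have hne : (Finset.univ \ S0).Nonempty := by
      rw [← Finset.card_pos, Finset.card_sdiff_of_subset (Finset.subset_univ _),
        Finset.card_univ]
      omega
    obtain ⟨m, hm, hmax⟩ := Finset.exists_max_image _ W hne
    have hmS : m ∉ S0 := (Finset.mem_sdiff.1 hm).2
    refine ⟨insert m S0, by rw [Finset.card_insert_of_notMem hmS, hcard], ?_⟩
    intro b hb z hz
    rw [Finset.mem_insert, not_or] at hz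
    rcases Finset.mem_insert.1 hb with rfl | hb
    · exact hmax z (Finset.mem_sdiff.2 ⟨Finset.mem_univ z, hz.2⟩)
    · exact htop b hb z hz.2

theorem wt_union {A S : Finset ι} (hd : Disjoint A S) (e : ι → σ → ℕ) :
    wt (A ∪ S) e = wt A e + wt S e := by
  unfold wt
  exact Finset.sum_union hd

theorem raise {A : Finset ι} {W : σ → ℕ} {b z : σ} (hbz : b ≠ z) (hW : W z ≤ W b)
    {e' : ι → σ → ℕ} (he' : wt A e' + Pi.single z 1 = W + Pi.single b 1) :
    X1.ms (wt A e') < X1.ms W := by
  have hz : W z ≠ 0 := by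
    intro h0
    have h1 := congrFun he' z
    simp only [Pi.add_apply, Pi.single_eq_same, Pi.single_eq_of_ne hbz.symm, h0] at h1
    omega
  have hV : W = (W - Pi.single z 1) + Pi.single z 1 := by
    funext k
    by_cases hk : k = z
    · subst hk
      simp
      omega
    · simp [hk]
  have h2 : wt A e' = (W - Pi.single z 1) + Pi.single b 1 := by
    rw [hV] at he'
    have h3 : wt A e' + Pi.single z 1 = ((W - Pi.single z 1) + Pi.single b 1) +
        Pi.single z 1 := by
      rw [he', add_right_comm]
    exact add_right_cancel h3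
  rw [h2]
  conv_rhs => rw [hV]
  apply X1.ms_lt _ hbz
  rw [← hV]
  exact hW

end C9X

theorem colred {A S : Finset ι} (hd : Disjoint A S) (P : SF σ ι → Prop)
    (hR : ∀ Φ, P Φ → ∀ a b, a ≠ b → P (Ro (A ∪ S) a b Φ)) (hC : ∀ Φ, P Φ → ColP S A Φ)
    (hN : ∀ Φ, P Φ → ∀ e, ∀ T : Finset σ, T.card ≤ S.card →
      (∀ s ∈ A, ∀ k, k ∉ T → e s k = 0) → Φ e = 0) :
    ∀ Φ, P Φ → ∀ e, Φ e = 0 := by
  have main : ∀ n : ℕ, ∀ Φ, P Φ → ∀ e, X1.ms (wt (A ∪ S) e) = n → Φ e = 0 := by
    intro n
    induction n using Nat.strong_induction_on with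
    | _ n ihn =>
      intro Φ hΦ e hn
      have hraise : ∀ b z, wt (A ∪ S) e z ≤ wt (A ∪ S) e b → b ≠ z → ∀ e',
          wt (A ∪ S) e' + Pi.single z 1 = wt (A ∪ S) e + Pi.single b 1 →
          Ro (A ∪ S) b z Φ e' = 0 := by
        intro b z hW hbz e' he'
        exact ihn _ (hn ▸ C9X.raise hbz hW he') _ (hR Φ hΦ b z hbz) e' rfl
      by_cases hcard : (Finset.univ.filter (fun k => wt (A ∪ S) e k ≠ 0)).card ≤ S.card
      · apply hN Φ hΦ e _ hcard
        intro s hs k hk
        have h1 : wt (A ∪ S) e k = 0 := by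
          by_contra h
          exact hk (Finset.mem_filter.2 ⟨Finset.mem_univ k, h⟩)
        unfold wt at h1
        rw [Finset.sum_apply, Finset.sum_eq_zero_iff] at h1
        exact h1 s (Finset.mem_union_left S hs)
      push Not at hcard
      obtain ⟨S0, hS0, htop⟩ := C9X.top_set (wt (A ∪ S) e) S.card
        (le_trans hcard.le (Finset.card_le_univ _))
      obtain ⟨z, hz, hzS⟩ : ∃ z ∈ Finset.univ.filter (fun k => wt (A ∪ S) e k ≠ 0), z ∉ S0 := by
        by_contra hcon
        push Not at hcon
        have := Finset.card_le_card hcon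
        omega
      have hz0 : wt (A ∪ S) e z ≠ 0 := (Finset.mem_filter.1 hz).2
      have hι : Nonempty ι := by
        have h1 : ∑ s ∈ A ∪ S, e s z ≠ 0 := by
          unfold wt at hz0
          rwa [Finset.sum_apply] at hz0
        obtain ⟨s, -, -⟩ := Finset.exists_ne_zero_of_sum_ne_zero h1
        exact ⟨s⟩
      refine col_other hd (hC Φ hΦ) hS0 htop ?_ hraise e rfl
      intro e' he' hfill
      choose! f hfS hf using hfill
      have hfinj : Set.InjOn f (S0 : Set σ) := by
        intro b hb b' hb' hbb
        have h1 := hf b hb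
        rw [hbb, hf b' hb'] at h1
        by_contra hne
        have h2 := congrFun h1 b
        rw [Pi.single_eq_same, Pi.single_eq_of_ne hne] at h2
        exact zero_ne_one h2
      have himg : S0.image f = S := by
        apply Finset.eq_of_subset_of_card_le
        · intro s hs
          obtain ⟨b, hb, rfl⟩ := Finset.mem_image.1 hs
          exact hfS b hb
        · rw [Finset.card_image_of_injOn hfinj, hS0]
      have hex : ∀ s ∈ S, ∃ b, b ∈ S0 ∧ f b = s := by
        intro s hs
        rw [← himg] at hs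
        obtain ⟨b, hb, hbs⟩ := Finset.mem_image.1 hs
        exact ⟨b, hb, hbs⟩
      have : Nonempty σ := ⟨z⟩
      choose! c hcS hc using hex
      refine col_top hd (hC Φ hΦ) (e := e') (c := c) ?_ ?_ (z := z) ?_ ?_ ?_
      · intro s hs
        have h1 := hf (c s) (hcS s hs)
        rwa [hc s hs] at h1
      · intro s hs s' hs' hss
        rw [← hc s hs, ← hc s' hs', hss]
      · intro s hs h1
        exact hzS (h1 ▸ hcS s hs)
      · have h1 : wt (A ∪ S) e' z ≠ 0 := by rw [he']; exact hz0
        rw [C9X.wt_union hd, Pi.add_apply] at h1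
        have h2 : wt S e' z = 0 := by
          unfold wt
          rw [Finset.sum_apply]
          apply Finset.sum_eq_zero
          intro s hs
          have h3 := hf (c s) (hcS s hs)
          rw [hc s hs] at h3
          rw [h3]
          apply Pi.single_eq_of_ne
          intro h4
          exact hzS (h4 ▸ hcS s hs)
        rwa [h2, add_zero] at h1
      · intro s hs e'' he''
        rw [he'] at he''
        exact hraise (c s) z (htop _ (hcS s hs) z hzS)
          (fun h => hzS (h ▸ hcS s hs)) e'' he''
  intro Φ hΦ e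
  exact main _ Φ hΦ e rfl

end Pool.Agent.H69.V2
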