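import Pool.Agent.H69.V2.C2
import Pool.Agent.H69.V2.C3
import Pool.Agent.H69.V2.C4
import Pool.Agent.H69.V2.C5
import Pool.Agent.H69.V2.C9
import Pool.Agent.H69.VT.X6
import Pool.Agent.H69.VT.X7

/-!
Project V2, row C10: the main induction of the column part.
-/

set_option linter.unusedSectionVars false

namespace Pool.Agent.H69.V2

open scoped BigOperators
open Pool.Agent.H69.VS Pool.Agent.H69.VT

variable {σ ι : Type} [Fintype σ] [DecidableEq σ] [Fintype ι] [DecidableEq ι]

namespace C10X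

theorem mem_cl {ρ : ι → Rl} {r : Rl} {s : ι} : s ∈ cl ρ r ↔ ρ s = r := by
  simp [cl]

theorem mem_actv {ρ : ι → Rl} {C : Finset ℕ} {s : ι} : s ∈ actv ρ C ↔
    ρ s = Rl.F ∨ ρ s = Rl.G ∨ ρ s = Rl.L ∨ ∃ i ∈ C, ρ s = Rl.gr i := by
  simp [actv]

theorem mem_fglg {ρ : ι → Rl} {i : ℕ} {s : ι} : s ∈ fglg ρ i ↔
    ρ s = Rl.F ∨ ρ s = Rl.G ∨ ρ s = Rl.L ∨ ρ s = Rl.gr i := by
  simp [fglg]

theorem cl_update_no (ρ : ι → Rl) (s : ι) {r : Rl} (hr : r ≠ Rl.no) :
    cl (Function.update ρ s Rl.no) r = (cl ρ r).erase s := by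
  ext t
  rw [Finset.mem_erase, mem_cl, mem_cl]
  by_cases hts : t = s
  · subst hts
    rw [Function.update_self]
    exact ⟨fun h => absurd h.symm hr, fun h => absurd rfl h.1⟩
  · rw [Function.update_of_ne hts]
    exact ⟨fun h => ⟨hts, h⟩, fun h => h.2⟩

theorem ne_no_of_actv {ρ : ι → Rl} {C : Finset ℕ} {s : ι} (h : s ∈ actv ρ C) :
    ρ s ≠ Rl.no := by
  intro h0
  rcases mem_actv.1 h with h1 | h1 | h1 | ⟨i, _, h1⟩
  · rw [h1] at h0
    exact Rl.noConfusion h0
  · rw [h1] at h0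
    exact Rl.noConfusion h0
  · rw [h1] at h0
    exact Rl.noConfusion h0
  · rw [h1] at h0
    exact Rl.noConfusion h0

theorem ne_no_of_fglg {ρ : ι → Rl} {i : ℕ} {s : ι} (h : s ∈ fglg ρ i) : ρ s ≠ Rl.no := by
  intro h0
  rcases mem_fglg.1 h with h1 | h1 | h1 | h1
  · rw [h1] at h0
    exact Rl.noConfusion h0
  · rw [h1] at h0
    exact Rl.noConfusion h0
  · rw [h1] at h0
    exact Rl.noConfusion h0
  · rw [h1] at h0
    exact Rl.noConfusion h0

theorem fglg_update_no {ρ : ι → Rl} {s t : ι} {j : ℕ}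
    (h : s ∈ fglg (Function.update ρ t Rl.no) j) : s ≠ t ∧ s ∈ fglg ρ j := by
  by_cases hst : s = t
  · exfalso
    refine ne_no_of_fglg h ?_
    rw [hst, Function.update_self]
  · refine ⟨hst, ?_⟩
    have h1 := mem_fglg.1 h
    rw [Function.update_of_ne hst] at h1
    exact mem_fglg.2 h1

theorem ColP.mono {S X Y : Finset ι} {Φ : SF σ ι} (h : ColP S X Φ) (hY : Y ⊆ X) :
    ColP S Y Φ :=
  ⟨h.deg1, h.alt, fun t ht => h.exc t (hY ht)⟩

/-- all groups have at least two slots -/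
theorem big {q : ℕ} (hFV : FVp q) {n : ℕ}
    (ih : ∀ (C : Finset ℕ) (ρ : ι → Rl) (J : Finset ℕ) (S : ℕ → Finset ι) (Φ : SF σ ι),
      J.card = n → Cls q ρ C Φ → 3 ≤ (cl ρ Rl.L).card →
      q + 2 ≤ (cl ρ Rl.L).card + C.card →
      ∑ i ∈ C, ((cl ρ (Rl.gr i)).card - 1) ≤ (cl ρ Rl.F).card + n →
      (∀ j ∈ J, 2 * ((S j).card - 2) < (cl ρ Rl.L).card) → (∀ j ∈ J, ∀ s ∈ S j, ρ s = Rl.no) →
      (∀ i ∈ J, ∀ j ∈ J, i ≠ j → Disjoint (S i) (S j)) →
      (∀ j ∈ J, ColP (S j) (fglg ρ j) Φ) → ∀ e, Φ e = 0)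
    (C : Finset ℕ) (ρ : ι → Rl) (J : Finset ℕ) (S : ℕ → Finset ι) (Φ : SF σ ι)
    (hJ : J.card = n + 1) (h : Cls q ρ C Φ) (hK : 3 ≤ (cl ρ Rl.L).card)
    (hq : q + 2 ≤ (cl ρ Rl.L).card + C.card)
    (hn : ∑ i ∈ C, ((cl ρ (Rl.gr i)).card - 1) ≤ (cl ρ Rl.F).card + (n + 1))
    (hS2 : ∀ j ∈ J, 2 * ((S j).card - 2) < (cl ρ Rl.L).card)
    (hSno : ∀ j ∈ J, ∀ s ∈ S j, ρ s = Rl.no)
    (hdis : ∀ i ∈ J, ∀ j ∈ J, i ≠ j → Disjoint (S i) (S j))
    (hcol : ∀ j ∈ J, ColP (S j) (fglg ρ j) Φ)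
    (h2 : ∀ i ∈ C, 2 ≤ (cl ρ (Rl.gr i)).card) : ∀ e, Φ e = 0 := by
  obtain ⟨j0, hj0⟩ := Finset.card_pos.1 (by omega : 0 < J.card)
  have hd : Disjoint (actv ρ C) (S j0) := by
    rw [Finset.disjoint_left]
    intro s hs hs'
    exact ne_no_of_actv hs (hSno j0 hj0 s hs')
  have hexcL : ∀ t, ρ t = Rl.L → ∀ k e, AC (S j0) t k Φ e = 0 := fun t ht =>
    (hcol j0 hj0).exc t (mem_fglg.2 (Or.inr (Or.inr (Or.inl ht))))
  have key : ColP (S j0) (actv ρ C) Φ := by
    refine ⟨(hcol j0 hj0).deg1, (hcol j0 hj0).alt, fun t ht k => ?_⟩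
    by_cases htf : t ∈ fglg ρ j0
    · exact (hcol j0 hj0).exc t htf k
    obtain ⟨i, hi, hti⟩ : ∃ i ∈ C, ρ t = Rl.gr i := by
      rcases mem_actv.1 ht with h1 | h1 | h1 | h1
      · exact absurd (mem_fglg.2 (Or.inl h1)) htf
      · exact absurd (mem_fglg.2 (Or.inr (Or.inl h1))) htf
      · exact absurd (mem_fglg.2 (Or.inr (Or.inr (Or.inl h1)))) htf
      · exact h1
    have htno : ρ t ≠ Rl.no := by
      rw [hti]
      exact fun h => Rl.noConfusion h
    have htS : ∀ j ∈ J, t ∉ S j := fun j hj hts => htno (hSno j hj t hts)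
    have hL : cl (Function.update ρ t Rl.no) Rl.L = cl ρ Rl.L := by
      rw [cl_update_no ρ t (by decide), Finset.erase_eq_of_notMem]
      rw [mem_cl, hti]
      exact fun h => Rl.noConfusion h
    have hF : cl (Function.update ρ t Rl.no) Rl.F = cl ρ Rl.F := by
      rw [cl_update_no ρ t (by decide), Finset.erase_eq_of_notMem]
      rw [mem_cl, hti]
      exact fun h => Rl.noConfusion h
    have hsum : ∑ l ∈ C, ((cl (Function.update ρ t Rl.no) (Rl.gr l)).card - 1) <
        ∑ l ∈ C, ((cl ρ (Rl.gr l)).card - 1) := by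
      refine Finset.sum_lt_sum (fun l _ => ?_) ⟨i, hi, ?_⟩
      · rw [cl_update_no ρ t (fun h => Rl.noConfusion h)]
        exact Nat.sub_le_sub_right (Finset.card_le_card (Finset.erase_subset _ _)) 1
      · rw [cl_update_no ρ t (fun h => Rl.noConfusion h),
          Finset.card_erase_of_mem (mem_cl.2 hti)]
        have := h2 i hi
        omega
    refine ih C (Function.update ρ t Rl.no) (J.erase j0) S (AC (S j0) t k Φ) ?_
      (cls_AC h (hSno j0 hj0) hi hti k hexcL) ?_ ?_ ?_ ?_ ?_ ?_ ?_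
    · rw [Finset.card_erase_of_mem hj0, hJ]
      rfl
    · rw [hL]
      exact hK
    · rw [hL]
      exact hq
    · rw [hF]
      omega
    · intro j hj
      rw [hL]
      exact hS2 j (Finset.mem_of_mem_erase hj)
    · intro j hj s hs
      have hj' := Finset.mem_of_mem_erase hj
      have hst : s ≠ t := by
        rintro rfl
        exact htS j hj' hs
      rw [Function.update_of_ne hst]
      exact hSno j hj' s hs
    · intro a ha b hb hab
      exact hdis a (Finset.mem_of_mem_erase ha) b (Finset.mem_of_mem_erase hb) hab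
    · intro j hj
      have hj' := Finset.mem_of_mem_erase hj
      have hne : j0 ≠ j := fun h => (Finset.mem_erase.1 hj).1 h.symm
      refine col_AC (ColP.mono (hcol j hj') fun s hs => (fglg_update_no hs).2)
        (hdis j0 hj0 j hj' hne) (htS j0 hj0) (htS j hj') ?_ k
      intro s hs
      obtain ⟨hst, hs'⟩ := fglg_update_no hs
      exact ⟨hst, fun h => ne_no_of_fglg hs' (hSno j0 hj0 s h),
        fun h => ne_no_of_fglg hs' (hSno j hj' s h)⟩
  refine colred hd (fun Ψ => Cls q ρ C Ψ ∧ ColP (S j0) (actv ρ C) Ψ) ?_ (fun Ψ hΨ => hΨ.2) ?_ Φ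
    ⟨h, key⟩
  · intro Ψ hΨ a b hab
    exact ⟨cls_RoU hΨ.1 (hSno j0 hj0) hab, col_Ro hΨ.2 (Finset.Subset.refl _) hd hab⟩
  · intro Ψ hΨ e T hT he
    refine hFV σ ι C ρ Ψ hΨ.1 hK hq T ?_ e he
    have := hS2 j0 hj0
    omega

end C10X

open C10X

theorem X2c {q : ℕ} (hFV : FVp q) : ∀ (n : ℕ) (C : Finset ℕ) (ρ : ι → Rl) (J : Finset ℕ)
    (S : ℕ → Finset ι) (Φ : SF σ ι), J.card = n → Cls q ρ C Φ → 3 ≤ (cl ρ Rl.L).card →
    q + 2 ≤ (cl ρ Rl.L).card + C.card →
    ∑ i ∈ C, ((cl ρ (Rl.gr i)).card - 1) ≤ (cl ρ Rl.F).card + n →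
    (∀ j ∈ J, 2 * ((S j).card - 2) < (cl ρ Rl.L).card) → (∀ j ∈ J, ∀ s ∈ S j, ρ s = Rl.no) →
    (∀ i ∈ J, ∀ j ∈ J, i ≠ j → Disjoint (S i) (S j)) →
    (∀ j ∈ J, ColP (S j) (fglg ρ j) Φ) → ∀ e, Φ e = 0 := by
  intro n
  induction n with
  | zero =>
    intro C ρ J S Φ _ h hK hq hn _ _ _ _
    exact Xplus C ρ Φ h hK hq hn
  | succ n ih =>
    intro C
    induction hM : C.card using Nat.strong_induction_on generalizing C with
    | _ M ih2 =>
    intro ρ J S Φ hJ h hK hq hn hS2 hSno hdis hcol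
    by_cases hsmall : ∃ i ∈ C, (cl ρ (Rl.gr i)).card < 2
    · obtain ⟨i, hi, hi2⟩ := hsmall
      rcases Nat.lt_or_ge (cl ρ (Rl.gr i)).card 1 with h0 | h1
      · -- an empty group
        intro e
        have h3 : cl ρ (Rl.gr i) = ∅ := Finset.card_eq_zero.1 (by omega)
        obtain ⟨s, hs⟩ := Finset.card_pos.1 (by omega : 0 < (cl ρ Rl.L).card)
        have h4 := h.ex i hi s (mem_cl.1 hs) e
        rw [h3, Finset.sum_empty, add_zero] at h4
        exact h4
      · -- a group with one slot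
        obtain ⟨s, hs⟩ := Finset.card_eq_one.1 (by omega : (cl ρ (Rl.gr i)).card = 1)
        have hsr : ρ s = Rl.gr i := mem_cl.1 (by rw [hs]; exact Finset.mem_singleton_self s)
        have hcls := cls_join h hi hs hK
        have hLn : (cl ρ Rl.L).Nonempty := Finset.card_pos.1 (by omega)
        have hr : ∀ r, r ≠ Rl.L → r ≠ Rl.gr i → cl (Function.update ρ s Rl.L) r = cl ρ r := by
          intro r hr1 hr2
          ext t
          rw [mem_cl, mem_cl]
          by_cases hts : t = s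
          · subst hts
            rw [Function.update_self, hsr]
            exact ⟨fun h => absurd h.symm hr1, fun h => absurd h.symm hr2⟩
          · rw [Function.update_of_ne hts]
        have hL : (cl (Function.update ρ s Rl.L) Rl.L).card = (cl ρ Rl.L).card + 1 := by
          have h5 : cl (Function.update ρ s Rl.L) Rl.L = insert s (cl ρ Rl.L) := by
            ext t
            rw [Finset.mem_insert, mem_cl, mem_cl]
            by_cases hts : t = s
            · subst hts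
              rw [Function.update_self]
              exact ⟨fun _ => Or.inl rfl, fun _ => rfl⟩
            · rw [Function.update_of_ne hts]
              exact ⟨fun h => Or.inr h, fun h => h.resolve_left hts⟩
          rw [h5, Finset.card_insert_of_notMem]
          rw [mem_cl, hsr]
          exact fun h => Rl.noConfusion h
        have hgr : ∀ j ∈ C.erase i,
            cl (Function.update ρ s Rl.L) (Rl.gr j) = cl ρ (Rl.gr j) := by
          intro j hj
          refine hr _ (fun h => Rl.noConfusion h) (fun h => ?_)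
          exact (Finset.mem_erase.1 hj).1 (Rl.gr.inj h)
        have hF : cl (Function.update ρ s Rl.L) Rl.F = cl ρ Rl.F :=
          hr _ (fun h => Rl.noConfusion h) (fun h => Rl.noConfusion h)
        have hCc := Finset.card_erase_of_mem hi
        have hCp : 0 < C.card := Finset.card_pos.2 ⟨i, hi⟩
        have hsum2 := Finset.add_sum_erase C (fun i => (cl ρ (Rl.gr i)).card - 1) hi
        have hsS : ∀ j ∈ J, ∀ x ∈ S j, x ≠ s := by
          intro j hj x hx hxs
          have h6 := hSno j hj x hx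
          rw [hxs, hsr] at h6
          exact Rl.noConfusion h6
        refine ih2 (C.erase i).card (by omega) (C.erase i) rfl (Function.update ρ s Rl.L) J S Φ
          hJ hcls ?_ ?_ ?_ ?_ ?_ hdis ?_
        · omega
        · omega
        · rw [Finset.sum_congr rfl fun j hj => by rw [hgr j hj], hF]
          omega
        · intro j hj
          have := hS2 j hj
          omega
        · intro j hj x hx
          rw [Function.update_of_ne (hsS j hj x hx)]
          exact hSno j hj x hx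
        · intro j hj
          exact col_join h hi hs hLn (hSno j hj) (hcol j hj)
    · push Not at hsmall
      exact big hFV ih C ρ J S Φ hJ h hK (by omega) hn hS2 hSno hdis hcol hsmall

end Pool.Agent.H69.V2
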