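import Pool.Agent.H69.V2.C11a
import Pool.Agent.H69.V2.C10

/-!
Numbers for the vanishing of the class with columns (project V2, MP_fb19ec_ag).
-/

set_option linter.unusedSectionVars false

namespace Pool.Agent.H69.V2

theorem XPc_of {D t : ℕ} (hD : 4 ≤ D) (ht : t + 2 ≤ 2 * D) (hFV : FVp (D - 1)) : XPc D t :=
  XPc_of' hD ht fun _ _ => X2c hFV

end Pool.Agent.H69.V2
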