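import Pool.Agent.H69.V2.CDefs

/-!
Numbers for the vanishing of the class with columns (project V2, MP_fb19ec_ag).
-/

set_option linter.unusedSectionVars false

namespace Pool.Agent.H69.V2

open scoped BigOperators
open Pool.Agent.H69.VS Pool.Agent.H69.VT

theorem exists_small (C : Finset ℕ) (m : ℕ → ℕ) : ∀ n ≤ C.card, ∃ J ⊆ C, J.card = n ∧
    ∀ j ∈ J, ∀ i ∈ C, i ∉ J → m j ≤ m i := by
  intro n
  induction n with
  | zero => exact fun _ => ⟨∅, Finset.empty_subset _, rfl, fun j hj => absurd hj (by simp)⟩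
  | succ n ih =>
    intro hn
    obtain ⟨J, hJ, hc, hm⟩ := ih (by omega)
    have hne : (C \ J).Nonempty := by
      rw [← Finset.card_pos, Finset.card_sdiff_of_subset hJ]
      omega
    obtain ⟨a, ha, hmin⟩ := Finset.exists_min_image (C \ J) m hne
    rw [Finset.mem_sdiff] at ha
    refine ⟨insert a J, ?_, ?_, ?_⟩
    · intro x hx
      rcases Finset.mem_insert.1 hx with rfl | hx
      · exact ha.1
      · exact hJ hx
    · rw [Finset.card_insert_of_notMem ha.2, hc]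
    · intro j hj i hi hi'
      rw [Finset.mem_insert, not_or] at hi'
      rcases Finset.mem_insert.1 hj with rfl | hj
      · exact hmin i (Finset.mem_sdiff.2 ⟨hi, hi'.2⟩)
      · exact hm j hj i hi hi'.2

/-- The statement of the main induction (C10). -/
def X2S (q : ℕ) : Prop := ∀ (σ ι : Type) [Fintype σ] [DecidableEq σ] [Fintype ι] [DecidableEq ι]
    (n : ℕ) (C : Finset ℕ) (ρ : ι → Rl) (J : Finset ℕ)
    (S : ℕ → Finset ι) (Φ : SF σ ι), J.card = n → Cls q ρ C Φ → 3 ≤ (cl ρ Rl.L).card →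
    q + 2 ≤ (cl ρ Rl.L).card + C.card →
    ∑ i ∈ C, ((cl ρ (Rl.gr i)).card - 1) ≤ (cl ρ Rl.F).card + n →
    (∀ j ∈ J, 2 * ((S j).card - 2) < (cl ρ Rl.L).card) → (∀ j ∈ J, ∀ s ∈ S j, ρ s = Rl.no) →
    (∀ i ∈ J, ∀ j ∈ J, i ≠ j → Disjoint (S i) (S j)) →
    (∀ j ∈ J, ColP (S j) (fglg ρ j) Φ) → ∀ e, Φ e = 0

theorem XPc_of' {D t : ℕ} (hD : 4 ≤ D) (ht : t + 2 ≤ 2 * D) (hX : X2S (D - 1)) : XPc D t := by
  intro σ ι _ _ _ _ C ρ S Φ hcls hne h2 hF hL _ hDL hS hno hdis hcol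
  set μ : ℕ → ℕ := fun i => (cl ρ (Rl.gr i)).card with hμ
  have hsum2 : 2 * C.card ≤ ∑ i ∈ C, μ i := by
    calc 2 * C.card = ∑ _i ∈ C, 2 := by rw [Finset.sum_const, smul_eq_mul, mul_comm]
      _ ≤ ∑ i ∈ C, μ i := Finset.sum_le_sum fun i hi => h2 i hi
  have hL' : (cl ρ Rl.L).card + ∑ i ∈ C, μ i = t + 1 := hL
  have hsub : ∑ i ∈ C, (μ i - 1) + C.card = ∑ i ∈ C, μ i := by
    rw [Finset.card_eq_sum_ones, ← Finset.sum_add_distrib]
    refine Finset.sum_congr rfl fun i hi => ?_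
    have := h2 i hi
    simp only [hμ]
    omega
  obtain ⟨J, hJC, hJc, hJm⟩ := exists_small C μ (t + 1 - (cl ρ Rl.L).card - D) (by omega)
  refine hX σ ι (t + 1 - (cl ρ Rl.L).card - D) C ρ J S Φ hJc hcls (by omega) (by omega) ?_ ?_
    (fun j hj => hno j (hJC hj)) (fun i hi j hj => hdis i (hJC hi) j (hJC hj))
    (fun j hj => hcol j (hJC hj))
  · change ∑ i ∈ C, (μ i - 1) ≤ _
    omega
  · intro j hj
    rw [hS j (hJC hj)]
    change 2 * (μ j + 1 - 2) < _
    have hJpos : 0 < J.card := Finset.card_pos.2 ⟨j, hj⟩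
    have hcard : 1 < (C \ J).card := by
      rw [Finset.card_sdiff_of_subset hJC]
      omega
    obtain ⟨a, ha, b, hb, hab⟩ := Finset.one_lt_card.1 hcard
    rw [Finset.mem_sdiff] at ha hb
    have hja : j ≠ a := fun h => ha.2 (h ▸ hj)
    have hjb : j ≠ b := fun h => hb.2 (h ▸ hj)
    have hma := hJm j hj a ha.1 ha.2
    have hmb := hJm j hj b hb.1 hb.2
    have e1 : ∑ i ∈ C, μ i = μ j + ∑ i ∈ C.erase j, μ i :=
      (Finset.add_sum_erase C μ (hJC hj)).symm
    have e2 : ∑ i ∈ C.erase j, μ i = μ a + ∑ i ∈ (C.erase j).erase a, μ i :=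
      (Finset.add_sum_erase _ μ (Finset.mem_erase.2 ⟨hja.symm, ha.1⟩)).symm
    have e3 : ∑ i ∈ (C.erase j).erase a, μ i = μ b + ∑ i ∈ ((C.erase j).erase a).erase b, μ i :=
      (Finset.add_sum_erase _ μ (Finset.mem_erase.2
        ⟨hab.symm, Finset.mem_erase.2 ⟨hjb.symm, hb.1⟩⟩)).symm
    have hc3 : (((C.erase j).erase a).erase b).card + 3 = C.card := by
      rw [Finset.card_erase_of_mem (Finset.mem_erase.2
        ⟨hab.symm, Finset.mem_erase.2 ⟨hjb.symm, hb.1⟩⟩),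
        Finset.card_erase_of_mem (Finset.mem_erase.2 ⟨hja.symm, ha.1⟩),
        Finset.card_erase_of_mem (hJC hj)]
      have h3 : 3 ≤ C.card := by
        have h4 := Finset.card_sdiff_add_card_eq_card hJC
        omega
      omega
    have e4 : 2 * (((C.erase j).erase a).erase b).card ≤
        ∑ i ∈ ((C.erase j).erase a).erase b, μ i := by
      calc 2 * (((C.erase j).erase a).erase b).card
          = ∑ _i ∈ ((C.erase j).erase a).erase b, 2 := by
            rw [Finset.sum_const, smul_eq_mul, mul_comm]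
        _ ≤ _ := Finset.sum_le_sum fun i hi => h2 i (Finset.mem_of_mem_erase
            (Finset.mem_of_mem_erase (Finset.mem_of_mem_erase hi)))
    omega

end Pool.Agent.H69.V2
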