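import Pool.Agent.H69.VT.T2

/-!
Project V2, row C12: exchange identities for the contractions by a column.
-/

set_option linter.unusedSectionVars false

namespace Pool.Agent.H69.V2

open scoped BigOperators
open Pool.Agent.H69.VS Pool.Agent.H69.VT

namespace C12X

/-- exchange of two signed sums over different lists -/
theorem su_su2 {α β M : Type} [AddCommGroup M] (As : List α) (Bs : List β) :
    ∀ h : α → List α → β → List β → M,
    su (fun a R => su (fun b S => h a R b S) Bs) As =
      su (fun b S => su (fun a R => h a R b S) As) Bs := by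
  induction Bs with
  | nil => intro h; simp only [su]; exact T2X.x2_su_zero As
  | cons u Bs ih =>
    intro h
    simp only [su]
    rw [T2X.x2_su_sub, ih (fun a R b S => h a R b (u :: S))]

end C12X

variable {σ ι : Type} [Fintype σ] [DecidableEq σ] [Fintype ι] [DecidableEq ι]

theorem su_upd {f : (σ → ℕ) → List (σ → ℕ) → ℂ}
    (hf : ∀ v P Q x, f v (P ++ x :: Q) = (-1 : ℂ) ^ P.length * f v (x :: (P ++ Q)))
    {l : List ι} (hl : l.Nodup) (e : ι → σ → ℕ) (x : σ → ℕ) :
    su (fun v R => f v (x :: R)) (l.map e) =
      (l.map (fun s => f (e s) (l.map (Function.update e s x)))).sum := by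
  induction l generalizing f with
  | nil => simp [su]
  | cons s l ih =>
    obtain ⟨hs, hl'⟩ := List.nodup_cons.1 hl
    have hup : ∀ t : ι, t ∉ l → l.map (Function.update e t x) = l.map e := by
      intro t ht
      refine List.map_congr_left fun y hy => ?_
      rw [Function.update_of_ne]
      rintro rfl
      exact ht hy
    -- the function for the induction
    have h1 : ∀ v P Q y, (fun v R => - f v (e s :: R)) v (P ++ y :: Q) =
        (-1 : ℂ) ^ P.length * (fun v R => - f v (e s :: R)) v (y :: (P ++ Q)) := by
      intro v P Q y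
      have h2 := hf v (e s :: P) Q y
      have h3 := hf v [e s] (P ++ Q) y
      simp only [List.cons_append, List.nil_append, List.length_cons, List.length_nil,
        zero_add, pow_one] at h2 h3
      simp only [h2, h3, pow_succ]
      ring
    have h4 := ih (f := fun v R => - f v (e s :: R)) h1 hl'
    have h5 : ∀ v R, f v (x :: e s :: R) = - f v (e s :: x :: R) := by
      intro v R
      have h3 := hf v [e s] R x
      simp only [List.cons_append, List.nil_append, List.length_cons, List.length_nil,
        zero_add, pow_one] at h3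
      rw [h3]
      ring
    simp only [List.map_cons, su, List.sum_cons, Function.update_self]
    rw [hup s hs]
    have h6 : su (fun v R => f v (x :: e s :: R)) (l.map e) =
        (l.map (fun s' => - f (e s') (e s :: l.map (Function.update e s' x)))).sum := by
      rw [← h4]
      exact su_congr (fun v R => h5 v R) _
    rw [h6]
    have h7 : l.map (fun s' => f (e s') (Function.update e s' x s ::
        l.map (Function.update e s' x))) =
        l.map (fun s' => f (e s') (e s :: l.map (Function.update e s' x))) := by
      refine List.map_congr_left fun y hy => ?_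
      rw [Function.update_of_ne]
      rintro rfl
      exact hs hy
    rw [h7, sub_eq_add_neg]
    congr 1
    have h8 : ∀ (g : ι → ℂ) (L : List ι), (L.map (fun y => - g y)).sum = - (L.map g).sum := by
      intro g L
      induction L with
      | nil => simp
      | cons y L ihL => simp only [List.map_cons, List.sum_cons, ihL]; ring
    rw [h8, neg_neg]

set_option linter.unusedVariables false in
/-- slots of the group of the column -/
theorem su_gr {u : Fn σ} (hu : SS u) (Cp al : List (σ → ℕ)) (a : σ → ℕ) :
    su (fun c R => gE R ((a + c) :: al) u) Cp = 0 := by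
  have h1 : su (fun c R => gE R ((a + c) :: al) u) Cp =
      su (fun c R => su (fun c' S => gE S al (Af (Lt.E (c' + (a + c))) u)) R) Cp :=
    su_congr (fun c R => T2X.x2_gE_cons_eq R (a + c) al u) Cp
  have h2 := T2X.x2_su_su Cp (fun c c' S => gE S al (Af (Lt.E (c' + (a + c))) u))
  have h3 : su (fun c' R => su (fun c S => gE S al (Af (Lt.E (c' + (a + c))) u)) R) Cp =
      su (fun c R => su (fun c' S => gE S al (Af (Lt.E (c' + (a + c))) u)) R) Cp := by
    refine su_congr (fun c R => su_congr (fun c' S => ?_) R) Cp
    have h4 : c + (a + c') = c' + (a + c) := by abel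
    rw [h4]
  rw [h3] at h2
  rw [h1]
  set X := su (fun c R => su (fun c' S => gE S al (Af (Lt.E (c' + (a + c))) u)) R) Cp with hX
  funext w f
  have h5 := congrFun (congrFun h2 w) f
  simp only [Pi.neg_apply] at h5
  have h6 : (2 : ℂ) * X w f = 0 := by linear_combination h5
  exact (mul_eq_zero.1 h6).resolve_left two_ne_zero

/-- slots `G` -/
theorem su_G {u : Fn σ} (hu : SS u) (Cp al ls ys : List (σ → ℕ)) :
    su (fun c R => gE ls (c :: ys) (gE R al u)) Cp =
      ((-1 : ℂ) ^ al.length) • su (fun l R => gE R ys (gE Cp (l :: al) u)) ls := by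
  have h1 : su (fun c R => gE ls (c :: ys) (gE R al u)) Cp =
      su (fun c R => su (fun l S => ((-1 : ℂ) ^ al.length) •
        gE S ys (gE R al (Af (Lt.E (l + c)) u))) ls) Cp := by
    refine su_congr (fun c R => ?_) Cp
    rw [T2X.x2_gE_cons_eq]
    refine su_congr (fun l S => ?_) ls
    rw [Af_gE hu, gE_smul]
  rw [h1, C12X.su_su2, ← su_smul]
  refine su_congr (fun l S => ?_) ls
  rw [su_smul, T2X.x2_gE_cons_eq]
  congr 1
  refine Eq.trans ?_ (su_map (gEh S ys) _ Cp)
  refine su_congr (fun c R => ?_) Cp
  rw [add_comm l c]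
  rfl

/-- slots `L` -/
theorem su_L {u : Fn σ} (hu : SS u) (Cp al ls ys : List (σ → ℕ)) (a : σ → ℕ)
    (hl : ls.length = ys.length) (hC : Cp.length = al.length + 2) :
    su (fun c R => gE ((a + c) :: ls) ys (gE R al u)) Cp =
      ((-1 : ℂ) ^ al.length) • sp (fun y R => gE ls R (gE Cp ((a + y) :: al) u)) ys := by
  have h1 : su (fun c R => gE ((a + c) :: ls) ys (gE R al u)) Cp =
      su (fun c R => sp (fun y S => ((-1 : ℂ) ^ al.length) •
        gE ls S (gE R al (Af (Lt.E (a + c + y)) u))) ys +
        ((-1 : ℂ) ^ ys.length) • sg a (gE ls ys (sg c (gE R al u)))) Cp := by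
    refine su_congr (fun c R => ?_) Cp
    rw [gE_cons (SS_gE hu R al) (a + c) ls ys hl.le, T2X.x2_sg_add_exp, gE_sg,
      T2X.x2_sg_sg a c]
    congr 1
    refine sp_congr (fun y S => ?_) ys
    rw [Af_gE hu, gE_smul]
  have h2 : su (fun c R => ((-1 : ℂ) ^ ys.length) • sg a (gE ls ys (sg c (gE R al u)))) Cp =
      0 := by
    rw [su_smul]
    have h3 : su (fun c R => sg a (gE ls ys (sg c (gE R al u)))) Cp =
        sg a (gE ls ys (su (fun c R => sg c (gE R al u)) Cp)) := by
      rw [← T2X.x2_gEh_apply, ← T2X.x2_sgh_apply, T2X.x2_su_map, T2X.x2_su_map]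
      rfl
    rw [h3, su_sg0 Cp al u hC, gE_zero]
    funext w f
    simp [sg]
  rw [h1, su_add, h2, add_zero, T2X.x2_su_sp, ← sp_smul]
  refine sp_congr (fun y S => ?_) ys
  rw [su_smul, T2X.x2_gE_cons_eq]
  congr 1
  refine Eq.trans ?_ (su_map (gEh ls S) _ Cp)
  refine su_congr (fun c R => ?_) Cp
  have h4 : a + c + y = c + (a + y) := by abel
  rw [h4]
  rfl

end Pool.Agent.H69.V2
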