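import Pool.Agent.H69.V2.CDefs
import Pool.Agent.H69.VT.T13

/-!
The hat of iterated contractions with columns is in the class of slot functions.
-/

set_option linter.unusedSectionVars false

namespace Pool.Agent.H69.V2

open scoped BigOperators
open Pool.Agent.H69.VS Pool.Agent.H69.VT

variable {σ ι : Type} [Fintype σ] [DecidableEq σ] [Fintype ι] [DecidableEq ι]

theorem mL_mE (cols : List (List σ × List (σ → ℕ))) (v : Fn σ) :
    mL (cols.map (fun p => (p.1.map ep, p.2))) v = mE cols v := by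
  induction cols with
  | nil => rfl
  | cons p cols ih =>
    simp only [List.map_cons, mL, mE]
    rw [ih]

namespace C13X

/-- the zero function is in the class -/
theorem cls_zero (q : ℕ) (ρ : ι → Rl) (C : Finset ℕ) : Cls q ρ C (fun _ => 0 : SF σ ι) := by
  refine ⟨⟨?_, ?_, ?_⟩, ?_, ?_, ?_, ?_, ?_, ?_⟩
  · intro i _ s s' _ _ e
    rfl
  · intro s s' _ _ _ e
    simp
  · intro i _ s _ e
    simp
  · intro e he
    exact absurd rfl he
  · intro e he
    exact absurd rfl he
  · intro s s' _ _ e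
    rfl
  · intro s s' _ _ e
    rfl
  · intro s1 s2 s3 _ _ _ _ _ _ k1 k2 k3 e
    simp [A3]
  · intro s _ e
    simp

theorem local_cls {D c : ℕ} {ρ : ι → Rl} {lF lG lL : List ι} {lA lC : ℕ → List ι} {v : Fn σ}
    (h : CtxC D c ρ lF lG lL lA lC v) (e : ι → σ → ℕ) :
    ∃ Ψ : SF σ ι, Cls (D - 1) ρ (Finset.range c) Ψ ∧
      ∀ e' : ι → σ → ℕ, (∀ i < c, ∀ s ∈ lC i, e' s = e s) →
        hatC D c lF lG lL lA lC v e' = Ψ e' := by
  classical
  by_cases hd : ∀ i < c, ∀ s ∈ lC i, dl (e s) = 1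
  · by_cases hz : Nonempty σ
    · obtain ⟨z0⟩ := hz
      have hch : ∀ s : ι, ∃ z : σ, (∃ i < c, s ∈ lC i) → e s = ep z := by
        intro s
        by_cases hs : ∃ i < c, s ∈ lC i
        · obtain ⟨i, hi, his⟩ := hs
          obtain ⟨z, hz⟩ := T13X.one_dg (y := e s) (hd i hi s his)
          exact ⟨z, fun _ => hz⟩
        · exact ⟨z0, fun h1 => absurd h1 hs⟩
      choose z hz using hch
      refine ⟨hatF D c lF lG lL lA (fun i => (lC i).map z) v, ?_, ?_⟩
      · refine hatCls h.nF h.nG h.nL h.nA h.hF h.hG h.hL h.hA h.hF0 h.hGL ?_ h.hv h.dv ?_ ?_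
        · intro i hi
          rw [List.length_map]
          exact h.hC i hi
        · intro A hA
          exact h.hQ _ A (fun i _ => List.length_map _) hA
        · intro i hi y A hA
          exact h.hB _ (fun i _ => List.length_map _) i hi y A hA
      · intro e' he'
        have h1 : (List.range c).map (fun i => ((lC i).map e', (lA i).map e')) =
            ((List.range c).map (fun i => ((lC i).map z, (lA i).map e'))).map
              (fun p => (p.1.map ep, p.2)) := by
          rw [List.map_map]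
          apply List.map_congr_left
          intro i hi
          have hi' := List.mem_range.1 hi
          simp only [Function.comp_apply, List.map_map, Prod.mk.injEq, and_true]
          apply List.map_congr_left
          intro s hs
          rw [he' i hi' s hs, Function.comp_apply]
          exact hz s ⟨i, hi', hs⟩
        have h2 : ∀ i < c, ∀ s ∈ lC i, dl (e' s) = 1 := by
          intro i hi s hs
          rw [he' i hi s hs]
          exact hd i hi s hs
        unfold hatC hatF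
        rw [h1, mL_mE]
        by_cases h3 : (∀ s ∈ lF ++ lG, dl (e' s) = 1) ∧ (∀ s ∈ lL, dl (e' s) + 1 = D) ∧
            (∀ i < c, ∀ s ∈ lA i, dl (e' s) + 1 = D)
        · rw [if_pos ⟨h3.1, h3.2.1, h3.2.2, h2⟩, if_pos h3]
        · rw [if_neg (fun h4 => h3 ⟨h4.1, h4.2.1, h4.2.2.1⟩), if_neg h3]
    · refine ⟨fun _ => 0, cls_zero _ _ _, ?_⟩
      intro e' _
      have hE : IsEmpty σ := not_nonempty_iff.1 hz
      unfold hatC
      rw [if_neg]
      rintro ⟨h1, -, -, -⟩
      obtain ⟨s, hs⟩ := List.exists_mem_of_ne_nil lF h.hF0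
      have h2 := h1 s (List.mem_append_left _ hs)
      simp [dl] at h2
  · refine ⟨fun _ => 0, cls_zero _ _ _, ?_⟩
    intro e' he'
    unfold hatC
    rw [if_neg]
    rintro ⟨-, -, -, h4⟩
    apply hd
    intro i hi s hs
    rw [← he' i hi s hs]
    exact h4 i hi s hs

theorem swap_no {ρ : ι → Rl} {s s' x : ι} (hs : ρ s ≠ Rl.no) (hs' : ρ s' ≠ Rl.no)
    (hx : ρ x = Rl.no) (e : ι → σ → ℕ) : (e ∘ Equiv.swap s s') x = e x := by
  have h1 : x ≠ s := by rintro rfl; exact hs hx
  have h2 : x ≠ s' := by rintro rfl; exact hs' hx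
  rw [Function.comp_apply, Equiv.swap_apply_of_ne_of_ne h1 h2]

theorem u1_no {ρ : ι → Rl} {s x : ι} (hs : ρ s ≠ Rl.no) (hx : ρ x = Rl.no) (k : σ) :
    u1 s k x = 0 := by
  have h1 : x ≠ s := by rintro rfl; exact hs hx
  exact T13X.u1_ne h1 k

theorem isB_no {r : Rl} (h : isB r) : r ≠ Rl.no := by
  rcases h with h | h | h <;> rw [h] <;> simp

end C13X

open C13X in
theorem hatC_cls {D c : ℕ} {ρ : ι → Rl} {lF lG lL : List ι} {lA lC : ℕ → List ι} {v : Fn σ}
    (h : CtxC D c ρ lF lG lL lA lC v) :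
    Cls (D - 1) ρ (Finset.range c) (hatC D c lF lG lL lA lC v) := by
  have key : ∀ e : ι → σ → ℕ, ∃ Ψ : SF σ ι, Cls (D - 1) ρ (Finset.range c) Ψ ∧
      ∀ e' : ι → σ → ℕ, (∀ x, ρ x = Rl.no → e' x = e x) →
        hatC D c lF lG lL lA lC v e' = Ψ e' := by
    intro e
    obtain ⟨Ψ, h1, h2⟩ := local_cls h e
    exact ⟨Ψ, h1, fun e' he' => h2 e' fun i hi s hs => he' s (h.hCn i hi s hs)⟩
  refine ⟨⟨?_, ?_, ?_⟩, ?_, ?_, ?_, ?_, ?_, ?_⟩
  · intro i hi s s' hs hs' e
    obtain ⟨Ψ, h1, h2⟩ := key e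
    rw [h2 e (fun _ _ => rfl), h2 _ (fun x hx => swap_no (by rw [hs]; simp) (by rw [hs']; simp) hx e)]
    exact h1.sym i hi s s' hs hs' e
  · intro s s' hss hs hs' e
    obtain ⟨Ψ, h1, h2⟩ := key e
    rw [h2 e (fun _ _ => rfl), h2 _ (fun x hx => swap_no (by rw [hs]; simp) (by rw [hs']; simp) hx e)]
    exact h1.alt s s' hss hs hs' e
  · intro i hi s hs e
    obtain ⟨Ψ, h1, h2⟩ := key e
    rw [h2 e (fun _ _ => rfl), ← h1.ex i hi s hs e]
    congr 1
    apply Finset.sum_congr rfl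
    intro s' hs'
    have hs2 : ρ s' = Rl.gr i := by
      simpa [cl] using hs'
    exact h2 _ (fun x hx => swap_no (by rw [hs2]; simp) (by rw [hs]; simp) hx e)
  · intro e he s hs
    obtain ⟨Ψ, h1, h2⟩ := key e
    rw [h2 e (fun _ _ => rfl)] at he
    exact h1.deg1 e he s hs
  · intro e he s hs
    obtain ⟨Ψ, h1, h2⟩ := key e
    rw [h2 e (fun _ _ => rfl)] at he
    exact h1.degq e he s hs
  · intro s s' hs hs' e
    obtain ⟨Ψ, h1, h2⟩ := key e
    rw [h2 e (fun _ _ => rfl), h2 _ (fun x hx => swap_no (by rw [hs]; simp) (by rw [hs']; simp) hx e)]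
    exact h1.symF s s' hs hs' e
  · intro s s' hs hs' e
    obtain ⟨Ψ, h1, h2⟩ := key e
    rw [h2 e (fun _ _ => rfl), h2 _ (fun x hx => swap_no (by rw [hs]; simp) (by rw [hs']; simp) hx e)]
    exact h1.symG s s' hs hs' e
  · intro s1 s2 s3 h12 h13 h23 b1 b2 b3 k1 k2 k3 e
    obtain ⟨Ψ, h1, h2⟩ := key e
    have h3 : ∀ a b d : σ, hatC D c lF lG lL lA lC v (e + u1 s1 a + u1 s2 b + u1 s3 d) =
        Ψ (e + u1 s1 a + u1 s2 b + u1 s3 d) := by
      intro a b d
      apply h2
      intro x hx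
      simp only [Pi.add_apply]
      rw [u1_no (isB_no b1) hx, u1_no (isB_no b2) hx, u1_no (isB_no b3) hx]
      simp
    have h4 := h1.tri s1 s2 s3 h12 h13 h23 b1 b2 b3 k1 k2 k3 e
    unfold A3 at h4 ⊢
    rw [h3, h3, h3, h3, h3, h3]
    exact h4
  · intro s hs e
    obtain ⟨Ψ, h1, h2⟩ := key e
    rw [h2 e (fun _ _ => rfl), ← h1.fg s hs e]
    congr 1
    apply Finset.sum_congr rfl
    intro s' hs'
    have hs2 : ρ s' = Rl.G := by
      simpa [cl] using hs'
    exact h2 _ (fun x hx => swap_no (by rw [hs2]; simp) (by rw [hs]; simp) hx e)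

end Pool.Agent.H69.V2
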