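import Pool.Agent.H69.V2.CDefs
import Pool.Agent.H69.VT.T13

/-!
Project V2, row C14: the columns of the hat (degrees, alternation, a column goes to the front).
-/

set_option linter.unusedSectionVars false

namespace Pool.Agent.H69.V2

open scoped BigOperators
open Pool.Agent.H69.VS Pool.Agent.H69.VT

variable {σ ι : Type} [Fintype σ] [DecidableEq σ] [Fintype ι] [DecidableEq ι]

theorem hatC_pos {D c : ℕ} {lF lG lL : List ι} {lA lC : ℕ → List ι} {v : Fn σ}
    {e : ι → σ → ℕ} (he : PC D c lF lG lL lA lC e) : hatC D c lF lG lL lA lC v e =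
      gE (lL.map e) (lG.map e)
        (mL ((List.range c).map (fun i => ((lC i).map e, (lA i).map e))) v) []
        (lF.map e).sum := if_pos he

theorem hatC_neg {D c : ℕ} {lF lG lL : List ι} {lA lC : ℕ → List ι} {v : Fn σ}
    {e : ι → σ → ℕ} (he : ¬ PC D c lF lG lL lA lC e) : hatC D c lF lG lL lA lC v e = 0 :=
  if_neg he

namespace C14X

open T13X

theorem SS_mL {v : Fn σ} (hv : SS v) (cols : List (List (σ → ℕ) × List (σ → ℕ))) :
    SS (mL cols v) := by
  induction cols with
  | nil => exact hv
  | cons p cols ih => exact SS_gE ih _ _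

theorem mL_move {v : Fn σ} (hv : SS v) (p : List (σ → ℕ) × List (σ → ℕ))
    (s t : List (List (σ → ℕ) × List (σ → ℕ))) :
    mL (s ++ p :: t) v = ((-1 : ℂ) ^ ((s.map (fun q => q.2.length * p.2.length)).sum)) •
      gE p.1 p.2 (mL (s ++ t) v) := by
  induction s with
  | nil => simp [mL]
  | cons q s ih =>
    simp only [List.cons_append, mL, List.map_cons, List.sum_cons]
    rw [ih, gE_smul, gE_gE (SS_mL hv _), smul_smul, pow_add, mul_comm]

theorem mL_ep (l : List ℕ) (g : ℕ → List σ × List (σ → ℕ)) (v : Fn σ) :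
    mL (l.map (fun k => ((g k).1.map ep, (g k).2))) v = mE (l.map g) v := by
  induction l with
  | nil => rfl
  | cons k l ih =>
    simp only [List.map_cons, mL, mE]
    rw [ih]

theorem exists_ep {l : List ι} {e : ι → σ → ℕ} (h : ∀ s ∈ l, dl (e s) = 1) :
    ∃ C : List σ, C.length = l.length ∧ l.map e = C.map ep := by
  induction l with
  | nil => exact ⟨[], rfl, rfl⟩
  | cons s l ih =>
    obtain ⟨C, h1, h2⟩ := ih fun x hx => h x (List.mem_cons_of_mem _ hx)
    obtain ⟨z, hz⟩ := one_dg (h s List.mem_cons_self)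
    exact ⟨z :: C, by simp [h1], by simp [h2, hz]⟩

/-- two slots of one list are exchanged -/
theorem gE_swap {l : List ι} (hl : l.Nodup) {s s' : ι} (hs : s ∈ l) (hs' : s' ∈ l)
    (hss : s ≠ s') (e : ι → σ → ℕ) (B : List (σ → ℕ)) (u : Fn σ) :
    gE (l.map (e ∘ Equiv.swap s s')) B u = - gE (l.map e) B u := by
  obtain ⟨n, hn⟩ := mv2 (σ := σ) hs hs' hss
  have h4 : ((l.erase s).erase s').map (e ∘ Equiv.swap s s') =
      ((l.erase s).erase s').map e := by
    apply swap_none
    · intro h5
      exact ((hl.mem_erase_iff).1 (List.mem_of_mem_erase h5)).1 rfl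
    · intro h5
      exact (((hl.erase s).mem_erase_iff).1 h5).1 rfl
  rw [hn, hn e, h4, Function.comp_apply, Function.comp_apply, Equiv.swap_apply_left,
    Equiv.swap_apply_right]
  have h6 := gE_swapA [] (((l.erase s).erase s').map e) (e s') (e s) B u
  simp only [List.nil_append] at h6
  rw [h6, smul_neg]

variable {D c : ℕ} {ρ : ι → Rl} {lF lG lL : List ι} {lA lC : ℕ → List ι} {v : Fn σ}

theorem PC_swap (h : CtxC D c ρ lF lG lL lA lC v) {i : ℕ} (hi : i < c) {s s' : ι}
    (hs : s ∈ lC i) (hs' : s' ∈ lC i) (e : ι → σ → ℕ) :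
    PC D c lF lG lL lA lC (e ∘ Equiv.swap s s') ↔ PC D c lF lG lL lA lC e := by
  have r1 := h.hCn i hi s hs
  have r2 := h.hCn i hi s' hs'
  refine and_congr ?_ (and_congr ?_ (and_congr ?_ ?_))
  · apply pred_swap (C := fun x => x ∈ lF ++ lG) (d := fun y => dl y = 1)
    rw [List.mem_append, List.mem_append, h.hF, h.hG, h.hF, h.hG, r1, r2]
  · apply pred_swap (C := fun x => x ∈ lL) (d := fun y => dl y + 1 = D)
    rw [h.hL, h.hL, r1, r2]
  · refine forall_congr' fun j => forall_congr' fun hj => ?_
    apply pred_swap (C := fun x => x ∈ lA j) (d := fun y => dl y + 1 = D)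
    rw [h.hA j hj, h.hA j hj, r1, r2]
  · refine forall_congr' fun j => forall_congr' fun hj => ?_
    apply pred_swap (C := fun x => x ∈ lC j) (d := fun y => dl y = 1)
    by_cases hij : i = j
    · subst hij
      exact ⟨fun _ => hs', fun _ => hs⟩
    · exact ⟨fun h1 => absurd h1 (h.dis i hi j hj hij s hs),
        fun h1 => absurd h1 (h.dis i hi j hj hij s' hs')⟩

end C14X

open T13X C14X

/-- the column `i` goes to the front -/
theorem mL_front {D c : ℕ} {ρ : ι → Rl} {lF lG lL : List ι} {lA lC : ℕ → List ι} {v : Fn σ}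
    (h : CtxC D c ρ lF lG lL lA lC v) {i : ℕ} (hi : i < c) (e : ι → σ → ℕ) :
    ∃ (u : Fn σ) (n : ℕ), SS u ∧
      (∀ e' : ι → σ → ℕ, (∀ j < c, j ≠ i → (lC j).map e' = (lC j).map e ∧
          (lA j).map e' = (lA j).map e) →
        mL ((List.range c).map (fun j => ((lC j).map e', (lA j).map e'))) v =
          ((-1 : ℂ) ^ n) • gE ((lC i).map e') ((lA i).map e') u) ∧
      ((∀ j < c, ∀ s ∈ lC j, dl (e s) = 1) → (∀ j < c, j ≠ i → ok D ((lA j).map e)) →
        ∀ (C' : List σ) (al : List (σ → ℕ)), C'.length = (lC i).length + 1 →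
          al.length = (lA i).length + 1 → ok D al → Cb D (gE (C'.map ep) al u)) := by
  classical
  obtain ⟨S, T, hST⟩ := List.append_of_mem (List.mem_range.2 hi)
  have hnd : (S ++ i :: T).Nodup := by rw [← hST]; exact List.nodup_range
  have hk : ∀ k ∈ S ++ T, k < c ∧ k ≠ i := by
    intro k hk
    constructor
    · apply List.mem_range.1
      rw [hST]
      simp only [List.mem_append, List.mem_cons] at hk ⊢
      tauto
    · rintro rfl
      have h1 := (List.perm_middle (a := k) (l₁ := S) (l₂ := T)).nodup_iff.1 hnd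
      exact (List.nodup_cons.1 h1).1 hk
  refine ⟨mL ((S ++ T).map (fun j => ((lC j).map e, (lA j).map e))) v,
    (S.map fun k => (lA k).length * (lA i).length).sum, SS_mL h.hv _, ?_, ?_⟩
  · intro e' he'
    rw [hST, List.map_append, List.map_cons, mL_move h.hv, ← List.map_append, List.map_map]
    have h1 : (S ++ T).map (fun j => ((lC j).map e', (lA j).map e')) =
        (S ++ T).map (fun j => ((lC j).map e, (lA j).map e)) := by
      apply List.map_congr_left
      intro k hk'
      obtain ⟨h2, h3⟩ := he' k (hk k hk').1 (hk k hk').2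
      rw [h2, h3]
    rw [h1]
    congr 3
    apply List.map_congr_left
    intro k _
    simp
  · intro hd hA C' al hC' hal hok
    have hex : ∀ j, ∃ C : List σ, j < c → C.length = (lC j).length ∧
        (lC j).map e = C.map ep := by
      intro j
      by_cases hj : j < c
      · obtain ⟨C, h1, h2⟩ := exists_ep (hd j hj)
        exact ⟨C, fun _ => ⟨h1, h2⟩⟩
      · exact ⟨[], fun h1 => absurd h1 hj⟩
    choose Cs hCs using hex
    obtain ⟨y, C'', rfl⟩ : ∃ y C'', C' = y :: C'' := by
      cases C' with
      | nil => simp at hC'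
      | cons y C'' => exact ⟨y, C'', rfl⟩
    have hC'' : C''.length = (lC i).length := by simpa using hC'
    have hcb := h.hB (fun k => if k = i then C'' else Cs k)
      (by
        intro k hk'
        by_cases hki : k = i
        · subst hki
          simp only [if_true]
          exact hC''
        · simp only [if_neg hki]
          exact (hCs k hk').1)
      i hi y (fun k => if k = i then al else (lA k).map e)
      (by
        intro k hk'
        by_cases hki : k = i
        · subst hki
          simp only [if_true]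
          exact ⟨hal, hok⟩
        · simp only [if_neg hki]
          exact ⟨by simp, hA k hk' hki⟩)
    rw [hST, col_front h.hv] at hcb
    simp only [if_true] at hcb
    have h6 : (S ++ T).map (fun k => ((if k = i then y :: (if k = i then C'' else Cs k) else
        (if k = i then C'' else Cs k)), (if k = i then al else (lA k).map e))) =
        (S ++ T).map (fun k => (Cs k, (lA k).map e)) := by
      apply List.map_congr_left
      intro k hk'
      simp only [if_neg (hk k hk').2]
    rw [h6] at hcb
    have h7 := Cb_smul hcb (((-1 : ℂ) ^ ((S.map fun k => (if k = i then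
      al else (lA k).map e).length * al.length).sum)))
    have hsq : ∀ N : ℕ, ((-1 : ℂ) ^ N * (-1 : ℂ) ^ N) = 1 := by
      intro N
      rw [← mul_pow]
      norm_num
    rw [smul_smul, hsq, one_smul] at h7
    have h8 : mL ((S ++ T).map (fun j => ((lC j).map e, (lA j).map e))) v =
        mE ((S ++ T).map (fun k => (Cs k, (lA k).map e))) v := by
      rw [← mL_ep (S ++ T) (fun k => (Cs k, (lA k).map e)) v]
      congr 1
      apply List.map_congr_left
      intro k hk'
      rw [(hCs k (hk k hk').1).2]
    rw [h8]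
    exact h7

theorem hatC_alt {D c : ℕ} {ρ : ι → Rl} {lF lG lL : List ι} {lA lC : ℕ → List ι} {v : Fn σ}
    (h : CtxC D c ρ lF lG lL lA lC v) {i : ℕ} (hi : i < c) {s s' : ι} (hs : s ∈ lC i)
    (hs' : s' ∈ lC i) (hss : s ≠ s') (e : ι → σ → ℕ) :
    hatC D c lF lG lL lA lC v (e ∘ Equiv.swap s s') = - hatC D c lF lG lL lA lC v e := by
  have hP := PC_swap h hi hs hs' e
  by_cases he : PC D c lF lG lL lA lC e
  · have r1 := h.hCn i hi s hs
    have r2 := h.hCn i hi s' hs'
    obtain ⟨u, n, _, hu, _⟩ := mL_front h hi e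
    have hA : ∀ j < c, (lA j).map (e ∘ Equiv.swap s s') = (lA j).map e := by
      intro j hj
      apply swap_none
      · rw [h.hA j hj, r1]; simp
      · rw [h.hA j hj, r2]; simp
    have h1 := hu (e ∘ Equiv.swap s s') (by
      intro j hj hji
      refine ⟨swap_none ?_ ?_ e, hA j hj⟩
      · exact h.dis i hi j hj (Ne.symm hji) s hs
      · exact h.dis i hi j hj (Ne.symm hji) s' hs')
    have h2 := hu e (fun _ _ _ => ⟨rfl, rfl⟩)
    have h3 : lL.map (e ∘ Equiv.swap s s') = lL.map e := by
      apply swap_none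
      · rw [h.hL, r1]; simp
      · rw [h.hL, r2]; simp
    have h4 : lG.map (e ∘ Equiv.swap s s') = lG.map e := by
      apply swap_none
      · rw [h.hG, r1]; simp
      · rw [h.hG, r2]; simp
    have h5 : lF.map (e ∘ Equiv.swap s s') = lF.map e := by
      apply swap_none
      · rw [h.hF, r1]; simp
      · rw [h.hF, r2]; simp
    rw [hatC_pos (hP.2 he), hatC_pos he, h1, h2, h3, h4, h5, hA i hi,
      gE_swap (h.nC i hi) hs hs' hss, smul_neg, ← neg_one_smul ℂ (((-1 : ℂ) ^ n) • _), gE_smul,
      neg_one_smul]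
    rfl
  · rw [hatC_neg he, hatC_neg fun h1 => he (hP.1 h1), neg_zero]

end Pool.Agent.H69.V2
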