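import Pool.Agent.H69.V2.C1
import Pool.Agent.H69.V2.C12
import Pool.Agent.H69.V2.C14

/-! exchange of the slots `G` and `L` (C16) -/

set_option linter.unusedSectionVars false

namespace Pool.Agent.H69.V2

open scoped BigOperators
open Pool.Agent.H69.VS Pool.Agent.H69.VT

variable {σ ι : Type} [Fintype σ] [DecidableEq σ] [Fintype ι] [DecidableEq ι]

namespace C16X

theorem single_ep (k : σ) : (Pi.single k 1 : σ → ℕ) = ep k := rfl

/-- all labels of degree one are variables -/
theorem ex_vars (e : ι → σ → ℕ) (l : List ι) (h : ∀ s ∈ l, dl (e s) = 1) :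
    ∃ C0 : List σ, C0.map ep = l.map e := by
  induction l with
  | nil => exact ⟨[], rfl⟩
  | cons a l ih =>
    obtain ⟨C0, h0⟩ := ih fun s hs => h s (List.mem_cons_of_mem _ hs)
    obtain ⟨z, hz⟩ := T13X.one_dg (y := e a) (h a List.mem_cons_self)
    exact ⟨z :: C0, by rw [List.map_cons, List.map_cons, h0, hz]⟩

theorem su_val (g : (σ → ℕ) → List (σ → ℕ) → Fn σ) (A : List (σ → ℕ)) (w : List (Lt σ))
    (f : σ → ℕ) : su g A w f = su (fun a R => g a R w f) A := by
  induction A generalizing g with
  | nil => rfl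
  | cons u C ih =>
    simp only [su]
    rw [← ih]
    rfl

theorem map_add_u1 {l : List ι} {t : ι} (h : t ∉ l) (k : σ) (e : ι → σ → ℕ) :
    l.map (e + u1 t k) = l.map e := by
  apply List.map_congr_left
  intro x hx
  have hxt : x ≠ t := fun h' => h (h' ▸ hx)
  rw [Pi.add_apply, T13X.u1_ne hxt, add_zero]

theorem map_pu {l : List ι} {t s : ι} (hts : t ≠ s) (h : t ∉ l) (h' : s ∉ l) (k : σ)
    (e : ι → σ → ℕ) : l.map (pu t s k e) = l.map e := by
  apply List.map_congr_left
  intro x hx
  have hxt : x ≠ t := fun h1 => h (h1 ▸ hx)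
  have hxs : x ≠ s := fun h1 => h' (h1 ▸ hx)
  rw [pu_apply hts, if_neg hxs, if_neg hxt]

theorem map_pu_upd {l : List ι} {t s : ι} (hts : t ≠ s) (h : t ∉ l) (k : σ)
    (e : ι → σ → ℕ) : l.map (pu t s k e) = l.map (Function.update e s (ep k)) := by
  apply List.map_congr_left
  intro x hx
  have hxt : x ≠ t := fun h1 => h (h1 ▸ hx)
  rw [pu_apply hts]
  by_cases hxs : x = s
  · subst hxs
    rw [if_pos rfl, Function.update_self]
    rfl
  · rw [if_neg hxs, if_neg hxt, Function.update_of_ne hxs]

/-- the degrees of the labels agree -/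
theorem dl_pu {t s : ι} (hts : t ≠ s) (k : σ) {e : ι → σ → ℕ} (hs : dl (e s) = 1) (x : ι) :
    dl (pu t s k e x) = dl ((e + u1 t k) x) := by
  rw [pu_apply hts, Pi.add_apply]
  by_cases hxs : x = s
  · subst hxs
    rw [if_pos rfl, T13X.u1_ne hts.symm, add_zero, hs]
    exact T13X.dl_ep k
  · rw [if_neg hxs]
    by_cases hxt : x = t
    · subst hxt
      rw [if_pos rfl, T13X.u1_self, T13X.dl_add, T13X.dl_add, hs, T13X.dl_ep]
    · rw [if_neg hxt, T13X.u1_ne hxt, add_zero]

theorem PC_congr {D c : ℕ} {lF lG lL : List ι} {lA lC : ℕ → List ι} {e e' : ι → σ → ℕ}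
    (h : ∀ x, dl (e x) = dl (e' x)) (he : PC D c lF lG lL lA lC e) :
    PC D c lF lG lL lA lC e' := by
  obtain ⟨h1, h2, h3, h4⟩ := he
  exact ⟨fun s hs => by rw [← h]; exact h1 s hs, fun s hs => by rw [← h]; exact h2 s hs,
    fun i hi s hs => by rw [← h]; exact h3 i hi s hs,
    fun i hi s hs => by rw [← h]; exact h4 i hi s hs⟩

/-- the general step: the exchange defect as a signed sum -/
theorem step {D c : ℕ} {ρ : ι → Rl} {lF lG lL : List ι} {lA lC : ℕ → List ι} {v : Fn σ}
    (h : CtxC D c ρ lF lG lL lA lC v) {i : ℕ} (hi : i < c) {t : ι}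
    (k : σ) (e : ι → σ → ℕ) (h1 : ∀ s ∈ lC i, dl (e s) = 1)
    (ε : ℂ) (K : (σ → ℕ) → Fn σ → ℂ) (u : Fn σ)
    (hv0 : hatC D c lF lG lL lA lC v (e + u1 t k) =
      ε * K (ep k) (gE ((lC i).map e) ((lA i).map e) u))
    (hvs : ∀ s ∈ lC i, hatC D c lF lG lL lA lC v (pu t s k e) =
      ε * K (e s) (gE ((lC i).map (Function.update e s (ep k))) ((lA i).map e) u))
    (hadd : ∀ (y : σ → ℕ) (a : ℂ) (F : Fn σ), K y (a • F) = a * K y F) :
    AC (lC i).toFinset t k (hatC D c lF lG lL lA lC v) e =
      ε * su (fun y R => K y (gE R ((lA i).map e) u)) (ep k :: (lC i).map e) := by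
  rw [AC_pos (fun s hs => h1 s (List.mem_toFinset.1 hs)), hv0,
    List.sum_toFinset _ (h.nC i hi)]
  have e1 : ((lC i).map (fun s => hatC D c lF lG lL lA lC v (pu t s k e))).sum =
      ε * ((lC i).map (fun s => K (e s)
        (gE ((lC i).map (Function.update e s (ep k))) ((lA i).map e) u))).sum := by
    rw [← List.sum_map_mul_left]
    congr 1
    exact List.map_congr_left hvs
  have e2 := su_upd (f := fun y R => K y (gE R ((lA i).map e) u)) (l := lC i)
    (fun y P Q x => by
      show K y (gE (P ++ x :: Q) ((lA i).map e) u) =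
        (-1 : ℂ) ^ P.length * K y (gE (x :: (P ++ Q)) ((lA i).map e) u)
      rw [gE_moveA, hadd]) (h.nC i hi) e (ep k)
  rw [e1]
  simp only [su]
  rw [e2]
  ring

end C16X

open C16X

/-- C16 -/
theorem hatC_excG {D c : ℕ} {ρ : ι → Rl} {lF lG lL : List ι} {lA lC : ℕ → List ι} {v : Fn σ}
    (h : CtxC D c ρ lF lG lL lA lC v) {i : ℕ} (hi : i < c) {t : ι}
    (ht : ρ t = Rl.G ∨ ρ t = Rl.L) (k : σ) (e : ι → σ → ℕ) :
    AC (lC i).toFinset t k (hatC D c lF lG lL lA lC v) e = 0 := by
  by_cases h1 : ∀ s ∈ (lC i).toFinset, dl (e s) = 1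
  swap
  · exact AC_neg h1 t k _
  have h1' : ∀ s ∈ lC i, dl (e s) = 1 := fun s hs => h1 s (List.mem_toFinset.2 hs)
  have hno : ρ t ≠ Rl.no := by rcases ht with ht | ht <;> rw [ht] <;> simp
  have hts : ∀ j < c, ∀ s ∈ lC j, t ≠ s := fun j hj s hs hh => hno (by rw [hh]; exact h.hCn j hj s hs)
  have htC : ∀ j < c, t ∉ lC j := fun j hj hh => hts j hj t hh rfl
  have htA : ∀ j < c, t ∉ lA j := fun j hj hh => by
    have := (h.hA j hj t).1 hh
    rcases ht with ht | ht <;> rw [ht] at this <;> simp at this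
  have htF : t ∉ lF := fun hh => by
    have := (h.hF t).1 hh
    rcases ht with ht | ht <;> rw [ht] at this <;> simp at this
  have hsF : ∀ s ∈ lC i, s ∉ lF := fun s hs hh => by
    have := (h.hF s).1 hh
    rw [h.hCn i hi s hs] at this; simp at this
  have hsG : ∀ s ∈ lC i, s ∉ lG := fun s hs hh => by
    have := (h.hG s).1 hh
    rw [h.hCn i hi s hs] at this; simp at this
  have hsL : ∀ s ∈ lC i, s ∉ lL := fun s hs hh => by
    have := (h.hL s).1 hh
    rw [h.hCn i hi s hs] at this; simp at this
  have hsA : ∀ j < c, ∀ s ∈ lC i, s ∉ lA j := fun j hj s hs hh => by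
    have := (h.hA j hj s).1 hh
    rw [h.hCn i hi s hs] at this; simp at this
  have hsC : ∀ j < c, j ≠ i → ∀ s ∈ lC i, s ∉ lC j := fun j hj hji s hs =>
    h.dis i hi j hj (Ne.symm hji) s hs
  by_cases hP : PC D c lF lG lL lA lC (e + u1 t k)
  swap
  · rw [AC_pos h1, hatC_neg hP, zero_sub, neg_eq_zero]
    refine Finset.sum_eq_zero fun s hs => hatC_neg fun hP' => hP ?_
    have hs' := List.mem_toFinset.1 hs
    exact PC_congr (fun x => dl_pu (hts i hi s hs') k (h1' s hs') x) hP'
  have hPs : ∀ s ∈ lC i, PC D c lF lG lL lA lC (pu t s k e) := fun s hs =>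
    PC_congr (fun x => (dl_pu (hts i hi s hs) k (h1' s hs) x).symm) hP
  obtain ⟨u, n, hu, hfr, hCb⟩ := mL_front h hi e
  -- degrees
  have dne : ∀ x, x ≠ t → (e + u1 t k) x = e x := fun x hx => by
    rw [Pi.add_apply, T13X.u1_ne hx, add_zero]
  have hdC : ∀ j < c, ∀ s ∈ lC j, dl (e s) = 1 := fun j hj s hs => by
    have := hP.2.2.2 j hj s hs
    rwa [dne s (hts j hj s hs).symm] at this
  have hdA : ∀ j < c, ok D ((lA j).map e) := by
    intro j hj a ha
    obtain ⟨x, hx, rfl⟩ := List.mem_map.1 ha
    have := hP.2.2.1 j hj x hx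
    rwa [dne x (fun hh => htA j hj (hh ▸ hx))] at this
  obtain ⟨C0, hC0⟩ := ex_vars e (lC i) h1'
  have hC0l : C0.length = (lC i).length := by
    have := congrArg List.length hC0
    simpa using this
  have hm0 : mL ((List.range c).map (fun j => ((lC j).map (e + u1 t k), (lA j).map (e + u1 t k)))) v
      = ((-1 : ℂ) ^ n) • gE ((lC i).map e) ((lA i).map e) u := by
    rw [hfr (e + u1 t k) (fun j hj _ => ⟨map_add_u1 (htC j hj) k e, map_add_u1 (htA j hj) k e⟩),
      map_add_u1 (htC i hi), map_add_u1 (htA i hi)]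
  have hms : ∀ s ∈ lC i,
      mL ((List.range c).map (fun j => ((lC j).map (pu t s k e), (lA j).map (pu t s k e)))) v
      = ((-1 : ℂ) ^ n) • gE ((lC i).map (Function.update e s (ep k))) ((lA i).map e) u := by
    intro s hs
    rw [hfr (pu t s k e) (fun j hj hji => ⟨map_pu (hts i hi s hs) (htC j hj) (hsC j hj hji s hs) k e,
      map_pu (hts i hi s hs) (htA j hj) (hsA j hj s hs) k e⟩),
      map_pu_upd (hts i hi s hs) (htC i hi), map_pu (hts i hi s hs) (htA i hi) (hsA i hi s hs)]
  have hF0 : (lF.map (e + u1 t k)) = lF.map e := map_add_u1 htF k e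
  have hFs : ∀ s ∈ lC i, lF.map (pu t s k e) = lF.map e := fun s hs =>
    map_pu (hts i hi s hs) htF (hsF s hs) k e
  rcases ht with ht | ht
  · -- the slot is in `G`
    have htG : t ∈ lG := (h.hG t).2 ht
    have htL : t ∉ lL := fun hh => by
      have := (h.hL t).1 hh
      rw [ht] at this; simp at this
    have htG' : t ∉ lG.erase t := fun hm => ((h.nG.mem_erase_iff).1 hm).1 rfl
    have et : e t = 0 := by
      have := hP.1 t (List.mem_append_right _ htG)
      rw [Pi.add_apply, T13X.u1_self, T13X.dl_add, T13X.dl_ep] at this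
      exact T13X.zero_dl (by omega)
    rw [step h hi k e h1' ((-1 : ℂ) ^ n)
      (fun y F => gE (lL.map e) (y :: (lG.erase t).map e) F [] (lF.map e).sum) u
      ?_ ?_ ?_]
    · rw [mul_eq_zero]
      right
      rw [← su_val (fun y R => gE (lL.map e) (y :: (lG.erase t).map e)
        (gE R ((lA i).map e) u)), su_G hu]
      rw [Pi.smul_apply, Pi.smul_apply, smul_eq_mul, mul_eq_zero]
      right
      rw [su_val, T2X.x2_su_congr (g := fun _ _ => (0 : ℂ)), T2X.x2_su_zero]
      intro l R hl hR hlen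
      have hCb' : Cb D (gE (ep k :: (lC i).map e) (l :: (lA i).map e) u) := by
        have := hCb hdC (fun j hj _ => hdA j hj) (k :: C0) (l :: (lA i).map e)
          (by simp [hC0l]) (by simp) (by
            intro a ha
            rcases List.mem_cons.1 ha with rfl | ha
            · obtain ⟨x, hx, rfl⟩ := List.mem_map.1 hl
              have := hP.2.1 x hx
              rwa [dne x (fun hh => htL (hh ▸ hx))] at this
            · exact hdA i hi a ha)
        rwa [List.map_cons, hC0] at this
      refine hat_Cb ?_ ?_ hCb' _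
      · intro a ha b hb
        obtain ⟨x, hx, rfl⟩ := List.mem_map.1 (hR a ha)
        obtain ⟨y, hy, rfl⟩ := List.mem_map.1 hb
        have h2 := hP.2.1 x hx
        have h3 := hP.1 y (List.mem_append_right _ (List.mem_of_mem_erase hy))
        rw [dne x (fun hh => htL (hh ▸ hx))] at h2
        rw [dne y (fun hh => htG' (hh ▸ hy))] at h3
        unfold dl at h2 h3
        unfold dg
        omega
      · rw [List.length_map, List.length_erase_of_mem htG]
        rw [List.length_map, h.hGL] at hlen
        have := List.length_pos_of_mem htG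
        omega
    · rw [hatC_pos hP, hm0, hF0, map_add_u1 htL, gE_smul,
        gE_permB (SS_gE hu _ _) (T13X.perm_mv htG (e + u1 t k)), map_add_u1 htG', Pi.add_apply, et,
        T13X.u1_self, zero_add]
      rfl
    · intro s hs
      have hsG' : s ∉ lG.erase t := fun hm => hsG s hs (List.mem_of_mem_erase hm)
      rw [hatC_pos (hPs s hs), hms s hs, hFs s hs, map_pu (hts i hi s hs) htL (hsL s hs),
        gE_smul, gE_permB (SS_gE hu _ _) (T13X.perm_mv htG (pu t s k e)),
        map_pu (hts i hi s hs) htG' hsG', pu_apply (hts i hi s hs),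
        if_neg (hts i hi s hs), if_pos rfl, et, zero_add]
      rfl
    · intro y a F
      show gE _ _ (a • F) [] _ = _
      rw [gE_smul]
      rfl
  · -- the slot is in `L`
    have htL : t ∈ lL := (h.hL t).2 ht
    have htG : t ∉ lG := fun hh => by
      have := (h.hG t).1 hh
      rw [ht] at this; simp at this
    have htL' : t ∉ lL.erase t := fun hm => ((h.nL.mem_erase_iff).1 hm).1 rfl
    have et : dl (e t) + 2 = D := by
      have := hP.2.1 t htL
      rw [Pi.add_apply, T13X.u1_self, T13X.dl_add, T13X.dl_ep] at this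
      omega
    obtain ⟨n1, hn1⟩ := T13X.mv1 (σ := σ) htL
    have hlen0 : ((lL.erase t).map e).length = (lG.map e).length := by
      rw [List.length_map, List.length_map, List.length_erase_of_mem htL, h.hGL]
      omega
    rw [step h hi k e h1' ((-1 : ℂ) ^ n1 * (-1 : ℂ) ^ n)
      (fun y F => gE ((e t + y) :: (lL.erase t).map e) (lG.map e) F [] (lF.map e).sum) u
      ?_ ?_ ?_]
    · rw [mul_eq_zero]
      right
      rw [← su_val (fun y R => gE ((e t + y) :: (lL.erase t).map e) (lG.map e)
        (gE R ((lA i).map e) u)), su_L hu _ _ _ _ _ hlen0 (by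
          rw [List.length_cons, List.length_map, List.length_map, h.hC i hi])]
      rw [Pi.smul_apply, Pi.smul_apply, smul_eq_mul, mul_eq_zero]
      right
      rw [T13X.sp_eval, T2X.x2_sp_congr (g := fun _ _ => (0 : ℂ)), T2X.x2_sp_zero]
      intro y R hy hR hlen
      have hdy : dl y = 1 := by
        obtain ⟨x, hx, rfl⟩ := List.mem_map.1 hy
        have := hP.1 x (List.mem_append_right _ hx)
        rwa [dne x (fun hh => htG (hh ▸ hx))] at this
      have hCb' : Cb D (gE (ep k :: (lC i).map e) ((e t + y) :: (lA i).map e) u) := by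
        have := hCb hdC (fun j hj _ => hdA j hj) (k :: C0) ((e t + y) :: (lA i).map e)
          (by simp [hC0l]) (by simp) (by
            intro a ha
            rcases List.mem_cons.1 ha with rfl | ha
            · have h5 := T13X.dl_add (e t) y
              show dl (e t + y) + 1 = D
              omega
            · exact hdA i hi a ha)
        rwa [List.map_cons, hC0] at this
      refine hat_Cb ?_ ?_ hCb' _
      · intro a ha b hb
        obtain ⟨x, hx, rfl⟩ := List.mem_map.1 ha
        obtain ⟨z, hz, rfl⟩ := List.mem_map.1 (hR b hb)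
        have h2 := hP.2.1 x (List.mem_of_mem_erase hx)
        have h3 := hP.1 z (List.mem_append_right _ hz)
        rw [dne x (fun hh => htL' (hh ▸ hx))] at h2
        rw [dne z (fun hh => htG (hh ▸ hz))] at h3
        unfold dl at h2 h3
        unfold dg
        omega
      · omega
    · rw [hatC_pos hP, hm0, hF0, map_add_u1 htG, gE_smul, hn1, map_add_u1 htL', Pi.add_apply,
        T13X.u1_self, smul_smul]
      show _ * _ = _
      rw [mul_comm ((-1 : ℂ) ^ n)]
    · intro s hs
      have hsL' : s ∉ lL.erase t := fun hm => hsL s hs (List.mem_of_mem_erase hm)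
      rw [hatC_pos (hPs s hs), hms s hs, hFs s hs, map_pu (hts i hi s hs) htG (hsG s hs),
        gE_smul, hn1, map_pu (hts i hi s hs) htL' hsL', pu_apply (hts i hi s hs),
        if_neg (hts i hi s hs), if_pos rfl, smul_smul]
      show _ * _ = _
      rw [mul_comm ((-1 : ℂ) ^ n)]
    · intro y a F
      show gE _ _ (a • F) [] _ = _
      rw [gE_smul]
      rfl

end Pool.Agent.H69.V2
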