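import Pool.Agent.H69.V2.C1
import Pool.Agent.H69.V2.C12
import Pool.Agent.H69.V2.C14
import Pool.Agent.H69.V2.C16

/-! exchange of the slots `F` and of the own group (C15) -/

set_option linter.unusedSectionVars false

namespace Pool.Agent.H69.V2

open scoped BigOperators
open Pool.Agent.H69.VS Pool.Agent.H69.VT

variable {σ ι : Type} [Fintype σ] [DecidableEq σ] [Fintype ι] [DecidableEq ι]

namespace C15X

open C16X

/-- the exchange defect as a signed sum -/
theorem stepf {D c : ℕ} {ρ : ι → Rl} {lF lG lL : List ι} {lA lC : ℕ → List ι} {v : Fn σ}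
    (h : CtxC D c ρ lF lG lL lA lC v) {i : ℕ} (hi : i < c) {t : ι}
    (k : σ) (e : ι → σ → ℕ) (h1 : ∀ s ∈ lC i, dl (e s) = 1)
    (ε : ℂ) (f : (σ → ℕ) → List (σ → ℕ) → ℂ)
    (hf : ∀ v P Q x, f v (P ++ x :: Q) = (-1 : ℂ) ^ P.length * f v (x :: (P ++ Q)))
    (hv0 : hatC D c lF lG lL lA lC v (e + u1 t k) = ε * f (ep k) ((lC i).map e))
    (hvs : ∀ s ∈ lC i, hatC D c lF lG lL lA lC v (pu t s k e) =
      ε * f (e s) ((lC i).map (Function.update e s (ep k)))) :
    AC (lC i).toFinset t k (hatC D c lF lG lL lA lC v) e =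
      ε * su f (ep k :: (lC i).map e) := by
  rw [AC_pos (fun s hs => h1 s (List.mem_toFinset.1 hs)), hv0,
    List.sum_toFinset _ (h.nC i hi)]
  have e1 : ((lC i).map (fun s => hatC D c lF lG lL lA lC v (pu t s k e))).sum =
      ε * ((lC i).map (fun s => f (e s) ((lC i).map (Function.update e s (ep k))))).sum := by
    rw [← List.sum_map_mul_left]
    congr 1
    exact List.map_congr_left hvs
  have e2 := su_upd (f := f) (l := lC i) hf (h.nC i hi) e (ep k)
  rw [e1]
  simp only [su]
  rw [e2]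
  ring

theorem su_gE (ls ys : List (σ → ℕ)) (g : (σ → ℕ) → List (σ → ℕ) → Fn σ) (A : List (σ → ℕ)) :
    su (fun y R => gE ls ys (g y R)) A = gE ls ys (su g A) := by
  rw [← T2X.x2_gEh_apply, T2X.x2_su_map]
  rfl

end C15X

open C15X C16X

/-- C15 -/
theorem hatC_excF {D c : ℕ} {ρ : ι → Rl} {lF lG lL : List ι} {lA lC : ℕ → List ι} {v : Fn σ}
    (h : CtxC D c ρ lF lG lL lA lC v) {i : ℕ} (hi : i < c) {t : ι}
    (ht : ρ t = Rl.F ∨ ρ t = Rl.gr i) (k : σ) (e : ι → σ → ℕ) :
    AC (lC i).toFinset t k (hatC D c lF lG lL lA lC v) e = 0 := by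
  by_cases h1 : ∀ s ∈ (lC i).toFinset, dl (e s) = 1
  swap
  · exact AC_neg h1 t k _
  have h1' : ∀ s ∈ lC i, dl (e s) = 1 := fun s hs => h1 s (List.mem_toFinset.2 hs)
  have hno : ρ t ≠ Rl.no := by rcases ht with ht | ht <;> rw [ht] <;> simp
  have hts : ∀ j < c, ∀ s ∈ lC j, t ≠ s := fun j hj s hs hh =>
    hno (by rw [hh]; exact h.hCn j hj s hs)
  have htC : ∀ j < c, t ∉ lC j := fun j hj hh => hts j hj t hh rfl
  have htG : t ∉ lG := fun hh => by
    have := (h.hG t).1 hh
    rcases ht with ht | ht <;> rw [ht] at this <;> simp at this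
  have htL : t ∉ lL := fun hh => by
    have := (h.hL t).1 hh
    rcases ht with ht | ht <;> rw [ht] at this <;> simp at this
  have hsF : ∀ s ∈ lC i, s ∉ lF := fun s hs hh => by
    have := (h.hF s).1 hh
    rw [h.hCn i hi s hs] at this; simp at this
  have hsG : ∀ s ∈ lC i, s ∉ lG := fun s hs hh => by
    have := (h.hG s).1 hh
    rw [h.hCn i hi s hs] at this; simp at this
  have hsL : ∀ s ∈ lC i, s ∉ lL := fun s hs hh => by
    have := (h.hL s).1 hh
    rw [h.hCn i hi s hs] at this; simp at this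
  have hsA : ∀ j < c, ∀ s ∈ lC i, s ∉ lA j := fun j hj s hs hh => by
    have := (h.hA j hj s).1 hh
    rw [h.hCn i hi s hs] at this; simp at this
  have hsC : ∀ j < c, j ≠ i → ∀ s ∈ lC i, s ∉ lC j := fun j hj hji s hs =>
    h.dis i hi j hj (Ne.symm hji) s hs
  by_cases hP : PC D c lF lG lL lA lC (e + u1 t k)
  swap
  · rw [AC_pos h1, hatC_neg hP, zero_sub, neg_eq_zero]
    refine Finset.sum_eq_zero fun s hs => hatC_neg fun hP' => hP ?_
    have hs' := List.mem_toFinset.1 hs
    exact PC_congr (fun x => dl_pu (hts i hi s hs') k (h1' s hs') x) hP'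
  have hPs : ∀ s ∈ lC i, PC D c lF lG lL lA lC (pu t s k e) := fun s hs =>
    PC_congr (fun x => (dl_pu (hts i hi s hs) k (h1' s hs) x).symm) hP
  obtain ⟨u, n, hu, hfr, -⟩ := mL_front h hi e
  have hL0 : lL.map (e + u1 t k) = lL.map e := map_add_u1 htL k e
  have hG0 : lG.map (e + u1 t k) = lG.map e := map_add_u1 htG k e
  have hLs : ∀ s ∈ lC i, lL.map (pu t s k e) = lL.map e := fun s hs =>
    map_pu (hts i hi s hs) htL (hsL s hs) k e
  have hGs : ∀ s ∈ lC i, lG.map (pu t s k e) = lG.map e := fun s hs =>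
    map_pu (hts i hi s hs) htG (hsG s hs) k e
  rcases ht with ht | ht
  · -- the slot is in `F`
    have htF : t ∈ lF := (h.hF t).2 ht
    have htF' : t ∉ lF.erase t := fun hm => ((h.nF.mem_erase_iff).1 hm).1 rfl
    have htA : ∀ j < c, t ∉ lA j := fun j hj hh => by
      have := (h.hA j hj t).1 hh
      rw [ht] at this; simp at this
    have hm0 : mL ((List.range c).map (fun j => ((lC j).map (e + u1 t k),
        (lA j).map (e + u1 t k)))) v = ((-1 : ℂ) ^ n) • gE ((lC i).map e) ((lA i).map e) u := by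
      rw [hfr (e + u1 t k) (fun j hj _ => ⟨map_add_u1 (htC j hj) k e, map_add_u1 (htA j hj) k e⟩),
        map_add_u1 (htC i hi), map_add_u1 (htA i hi)]
    have hms : ∀ s ∈ lC i,
        mL ((List.range c).map (fun j => ((lC j).map (pu t s k e), (lA j).map (pu t s k e)))) v
        = ((-1 : ℂ) ^ n) • gE ((lC i).map (Function.update e s (ep k))) ((lA i).map e) u := by
      intro s hs
      rw [hfr (pu t s k e) (fun j hj hji => ⟨map_pu (hts i hi s hs) (htC j hj)
          (hsC j hj hji s hs) k e, map_pu (hts i hi s hs) (htA j hj) (hsA j hj s hs) k e⟩),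
        map_pu_upd (hts i hi s hs) (htC i hi),
        map_pu (hts i hi s hs) (htA i hi) (hsA i hi s hs)]
    have hsum : ∀ e' : ι → σ → ℕ, (lF.map e').sum = ((lF.erase t).map e').sum + e' t := by
      intro e'
      rw [(T13X.perm_mv htF e').sum_eq, List.sum_cons, add_comm]
    rw [stepf h hi k e h1' ((-1 : ℂ) ^ n)
      (fun y R => gE (lL.map e) (lG.map e) (gE R ((lA i).map e) u) [] ((lF.map e).sum + y))
      ?_ ?_ ?_]
    · rw [mul_eq_zero]
      right
      have e3 := su_val (fun y R => sg y (gE (lL.map e) (lG.map e) (gE R ((lA i).map e) u)))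
        (ep k :: (lC i).map e) [] (lF.map e).sum
      refine e3.symm.trans ?_
      have e4 : su (fun y R => sg y (gE (lL.map e) (lG.map e) (gE R ((lA i).map e) u)))
          (ep k :: (lC i).map e) = gE (lL.map e) (lG.map e) 0 := by
        rw [← su_sg0 (ep k :: (lC i).map e) ((lA i).map e) u (by
          rw [List.length_cons, List.length_map, List.length_map, h.hC i hi]), ← su_gE]
        exact su_congr (fun y R => (gE_sg y _ _ _).symm) _
      rw [e4, gE_zero]
      rfl
    · intro y P Q x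
      show gE _ _ (gE (P ++ x :: Q) _ u) [] _ = _ * gE _ _ (gE (x :: (P ++ Q)) _ u) [] _
      rw [gE_moveA, gE_smul]
      rfl
    · rw [hatC_pos hP, hm0, hL0, hG0, gE_smul, hsum (e + u1 t k), hsum e, map_add_u1 htF',
        Pi.add_apply, T13X.u1_self, add_assoc]
      rfl
    · intro s hs
      have hsF' : s ∉ lF.erase t := fun hm => hsF s hs (List.mem_of_mem_erase hm)
      rw [hatC_pos (hPs s hs), hms s hs, hLs s hs, hGs s hs, gE_smul, hsum (pu t s k e), hsum e,
        map_pu (hts i hi s hs) htF' hsF', pu_apply (hts i hi s hs),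
        if_neg (hts i hi s hs), if_pos rfl, add_assoc]
      rfl
  · -- the slot is in the group `i`
    have htA : t ∈ lA i := (h.hA i hi t).2 ht
    have htF : t ∉ lF := fun hh => by
      have := (h.hF t).1 hh
      rw [ht] at this; simp at this
    have htA' : t ∉ (lA i).erase t := fun hm => (((h.nA i hi).mem_erase_iff).1 hm).1 rfl
    have htAj : ∀ j < c, j ≠ i → t ∉ lA j := fun j hj hji hh => by
      have := (h.hA j hj t).1 hh
      rw [ht] at this
      exact hji (Rl.gr.inj this).symm
    have hm0 : mL ((List.range c).map (fun j => ((lC j).map (e + u1 t k),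
        (lA j).map (e + u1 t k)))) v =
        ((-1 : ℂ) ^ n) • gE ((lC i).map e) ((e t + ep k) :: ((lA i).erase t).map e) u := by
      rw [hfr (e + u1 t k) (fun j hj hji => ⟨map_add_u1 (htC j hj) k e,
        map_add_u1 (htAj j hj hji) k e⟩), map_add_u1 (htC i hi),
        gE_permB hu (T13X.perm_mv htA (e + u1 t k)), map_add_u1 htA', Pi.add_apply, T13X.u1_self]
    have hms : ∀ s ∈ lC i,
        mL ((List.range c).map (fun j => ((lC j).map (pu t s k e), (lA j).map (pu t s k e)))) v
        = ((-1 : ℂ) ^ n) • gE ((lC i).map (Function.update e s (ep k)))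
          ((e t + e s) :: ((lA i).erase t).map e) u := by
      intro s hs
      have hsA' : s ∉ (lA i).erase t := fun hm => hsA i hi s hs (List.mem_of_mem_erase hm)
      rw [hfr (pu t s k e) (fun j hj hji => ⟨map_pu (hts i hi s hs) (htC j hj)
          (hsC j hj hji s hs) k e, map_pu (hts i hi s hs) (htAj j hj hji) (hsA j hj s hs) k e⟩),
        map_pu_upd (hts i hi s hs) (htC i hi),
        gE_permB hu (T13X.perm_mv htA (pu t s k e)), map_pu (hts i hi s hs) htA' hsA',
        pu_apply (hts i hi s hs), if_neg (hts i hi s hs), if_pos rfl]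
    have hF0 : lF.map (e + u1 t k) = lF.map e := map_add_u1 htF k e
    have hFs : ∀ s ∈ lC i, lF.map (pu t s k e) = lF.map e := fun s hs =>
      map_pu (hts i hi s hs) htF (hsF s hs) k e
    rw [stepf h hi k e h1' ((-1 : ℂ) ^ n)
      (fun y R => gE (lL.map e) (lG.map e) (gE R ((e t + y) :: ((lA i).erase t).map e) u) []
        (lF.map e).sum) ?_ ?_ ?_]
    · rw [mul_eq_zero]
      right
      have e3 := su_val (fun y R => gE (lL.map e) (lG.map e)
        (gE R ((e t + y) :: ((lA i).erase t).map e) u))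
        (ep k :: (lC i).map e) [] (lF.map e).sum
      refine e3.symm.trans ?_
      rw [su_gE, su_gr hu, gE_zero]
      rfl
    · intro y P Q x
      show gE _ _ (gE (P ++ x :: Q) _ u) [] _ = _ * gE _ _ (gE (x :: (P ++ Q)) _ u) [] _
      rw [gE_moveA, gE_smul]
      rfl
    · rw [hatC_pos hP, hm0, hL0, hG0, hF0, gE_smul]
      rfl
    · intro s hs
      rw [hatC_pos (hPs s hs), hms s hs, hLs s hs, hGs s hs, hFs s hs, gE_smul]
      rfl

end Pool.Agent.H69.V2
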