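import Pool.Agent.H69.V2.C1

/-!
Project V2 (MP_fb19ec_ag), row C2: the exchange defect of a class slot function with a column is
again in the class.
-/

set_option linter.unusedSectionVars false

namespace Pool.Agent.H69.V2

open scoped BigOperators
open Pool.Agent.H69.VS Pool.Agent.H69.VT

variable {σ ι : Type} [Fintype σ] [DecidableEq σ] [Fintype ι] [DecidableEq ι]

namespace C2X

theorem ne_of_upd {ρ : ι → Rl} {a s : ι} {r : Rl} (h : Function.update ρ a Rl.no s = r)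
    (hr : r ≠ Rl.no) : s ≠ a ∧ ρ s = r := by
  by_cases hs : s = a
  · subst hs
    rw [Function.update_self] at h
    exact absurd h.symm hr
  · rw [Function.update_of_ne hs] at h
    exact ⟨hs, h⟩

theorem cl_upd {ρ : ι → Rl} {a : ι} {r : Rl} (hr : r ≠ Rl.no) (har : ρ a ≠ r) :
    cl (Function.update ρ a Rl.no) r = cl ρ r := by
  ext x
  simp only [cl, Finset.mem_filter, Finset.mem_univ, true_and]
  constructor
  · intro h
    exact (ne_of_upd h hr).2
  · intro h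
    have hx : x ≠ a := by
      rintro rfl
      exact har h
    rw [Function.update_of_ne hx]
    exact h

theorem cl_upd_self {ρ : ι → Rl} {a : ι} {r : Rl} (hr : r ≠ Rl.no) :
    cl (Function.update ρ a Rl.no) r = (cl ρ r).erase a := by
  ext x
  simp only [cl, Finset.mem_filter, Finset.mem_univ, true_and, Finset.mem_erase]
  constructor
  · intro h
    exact ne_of_upd h hr
  · rintro ⟨hx, h⟩
    rw [Function.update_of_ne hx]
    exact h

theorem mem_swap {S : Finset ι} {b c : ι} (hb : b ∉ S) (hc : c ∉ S) (x : ι) :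
    x ∈ S ↔ Equiv.swap b c x ∈ S := by
  by_cases hxb : x = b
  · subst hxb
    rw [Equiv.swap_apply_left]
    exact ⟨fun h => absurd h hb, fun h => absurd h hc⟩
  · by_cases hxc : x = c
    · subst hxc
      rw [Equiv.swap_apply_right]
      exact ⟨fun h => absurd h hc, fun h => absurd h hb⟩
    · rw [Equiv.swap_apply_of_ne_of_ne hxb hxc]

theorem AC_sw {S : Finset ι} {a b c : ι} (hb : b ∉ S) (hc : c ∉ S) (hab : b ≠ a) (hac : c ≠ a)
    (k : σ) (Φ : SF σ ι) (e : ι → σ → ℕ) :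
    AC S a k Φ (e ∘ Equiv.swap b c) = AC S a k (fun e' => Φ (e' ∘ Equiv.swap b c)) e := by
  rw [AC_swap (mem_swap hb hc), Equiv.swap_apply_of_ne_of_ne hab.symm hac.symm]

theorem AC_zero (S : Finset ι) (a : ι) (k : σ) (e : ι → σ → ℕ) :
    AC S a k (fun _ => (0 : ℂ)) e = 0 := by
  have h := AC_smul S a k 0 (fun _ : ι → σ → ℕ => (0 : ℂ)) e
  simpa using h

theorem AC_sum_sw {S : Finset ι} {a s : ι} (hs : s ∉ S) (hsa : s ≠ a) (k : σ) (Φ : SF σ ι)
    (A : Finset ι) (hA : ∀ x ∈ A, x ∉ S ∧ x ≠ a) (e : ι → σ → ℕ) :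
    AC S a k Φ e + ∑ s' ∈ A, AC S a k Φ (e ∘ Equiv.swap s' s) =
      AC S a k (fun e' => Φ e' + ∑ s' ∈ A, Φ (e' ∘ Equiv.swap s' s)) e := by
  rw [AC_add S a k Φ (fun e' => ∑ s' ∈ A, Φ (e' ∘ Equiv.swap s' s)),
    AC_sum S a k A (fun s' e' => Φ (e' ∘ Equiv.swap s' s))]
  congr 1
  apply Finset.sum_congr rfl
  intro x hx
  exact AC_sw (hA x hx).1 hs (hA x hx).2 hsa k Φ e

theorem AC_ne {S : Finset ι} {a : ι} {k : σ} {Φ : SF σ ι} {e : ι → σ → ℕ}
    (h : AC S a k Φ e ≠ 0) : Φ (e + u1 a k) ≠ 0 ∨ ∃ s ∈ S, Φ (pu a s k e) ≠ 0 := by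
  by_contra hcon
  rw [not_or] at hcon
  obtain ⟨h1, h2⟩ := hcon
  rw [not_not] at h1
  apply h
  by_cases hS : ∀ s ∈ S, dl (e s) = 1
  · rw [AC_pos hS, h1]
    have : ∑ s ∈ S, Φ (pu a s k e) = 0 := by
      apply Finset.sum_eq_zero
      intro s hs
      by_contra hne
      exact h2 ⟨s, hs, hne⟩
    rw [this, sub_zero]
  · exact AC_neg hS a k Φ

theorem same_lab {S : Finset ι} {a s : ι} (ha : a ∉ S) (hsa : s ≠ a) (hsS : s ∉ S) {k : σ}
    {Φ : SF σ ι} {e : ι → σ → ℕ} (h : AC S a k Φ e ≠ 0) : ∃ e', Φ e' ≠ 0 ∧ e' s = e s := by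
  rcases AC_ne h with h | ⟨s0, hs0, h⟩
  · refine ⟨_, h, ?_⟩
    simp [u1, hsa]
  · refine ⟨_, h, ?_⟩
    have h0 : s ≠ s0 := by
      rintro rfl
      exact hsS hs0
    have ha0 : a ≠ s0 := by
      rintro rfl
      exact ha hs0
    rw [pu_apply ha0, if_neg h0, if_neg hsa]

theorem AC_A3 {S : Finset ι} {a : ι} (k : σ) (Φ : SF σ ι) {s1 s2 s3 : ι}
    (h1 : s1 ∉ S) (h2 : s2 ∉ S) (h3 : s3 ∉ S)
    (hA : ∀ k1 k2 k3 e, A3 Φ s1 s2 s3 k1 k2 k3 e = 0) (k1 k2 k3 : σ) (e : ι → σ → ℕ) :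
    A3 (AC S a k Φ) s1 s2 s3 k1 k2 k3 e = 0 := by
  have hlab : ∀ (x y z : σ) (s : ι), s ∈ S →
      (e + u1 s1 x + u1 s2 y + u1 s3 z) s = e s := by
    intro x y z s hs
    have e1 : s ≠ s1 := by rintro rfl; exact h1 hs
    have e2 : s ≠ s2 := by rintro rfl; exact h2 hs
    have e3 : s ≠ s3 := by rintro rfl; exact h3 hs
    simp [u1, e1, e2, e3]
  by_cases hS : ∀ s ∈ S, dl (e s) = 1
  · have hval : ∀ x y z : σ, AC S a k Φ (e + u1 s1 x + u1 s2 y + u1 s3 z) =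
        Φ (e + u1 a k + u1 s1 x + u1 s2 y + u1 s3 z) -
          ∑ s ∈ S, Φ (pu a s k e + u1 s1 x + u1 s2 y + u1 s3 z) := by
      intro x y z
      have hS' : ∀ s ∈ S, dl ((e + u1 s1 x + u1 s2 y + u1 s3 z) s) = 1 := by
        intro s hs
        rw [hlab x y z s hs]
        exact hS s hs
      rw [AC_pos hS']
      have hc : e + u1 s1 x + u1 s2 y + u1 s3 z + u1 a k =
          e + u1 a k + u1 s1 x + u1 s2 y + u1 s3 z := by abel
      rw [hc]
      congr 1
      apply Finset.sum_congr rfl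
      intro s hs
      have e1 : s1 ≠ s := by rintro rfl; exact h1 hs
      have e2 : s2 ≠ s := by rintro rfl; exact h2 hs
      have e3 : s3 ≠ s := by rintro rfl; exact h3 hs
      rw [pu_add a s k _ e3, pu_add a s k _ e2, pu_add a s k _ e1]
    have hm := hA k1 k2 k3 (e + u1 a k)
    have hs : ∑ s ∈ S, A3 Φ s1 s2 s3 k1 k2 k3 (pu a s k e) = 0 :=
      Finset.sum_eq_zero (fun s _ => hA k1 k2 k3 (pu a s k e))
    simp only [A3, Finset.sum_add_distrib, Finset.sum_sub_distrib] at hm hs ⊢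
    simp only [hval]
    linear_combination hm - hs
  · have hval : ∀ x y z : σ, AC S a k Φ (e + u1 s1 x + u1 s2 y + u1 s3 z) = 0 := by
      intro x y z
      apply AC_neg
      intro h
      apply hS
      intro s hs
      rw [← hlab x y z s hs]
      exact h s hs
    simp only [A3, hval]
    ring

end C2X

open C2X in
theorem cls_AC {q : ℕ} {ρ : ι → Rl} {C : Finset ℕ} {Φ : SF σ ι} (h : Cls q ρ C Φ)
    {S : Finset ι} (hS : ∀ s ∈ S, ρ s = Rl.no) {i : ℕ} (hi : i ∈ C) {a : ι}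
    (ha : ρ a = Rl.gr i) (k : σ) (hexc : ∀ t, ρ t = Rl.L → ∀ k e, AC S t k Φ e = 0) :
    Cls q (Function.update ρ a Rl.no) C (AC S a k Φ) := by
  have haS : a ∉ S := by
    intro haS
    have := hS a haS
    rw [ha] at this
    exact absurd this (by simp)
  have hnS : ∀ s, ρ s ≠ Rl.no → s ∉ S := fun s hs hsS => hs (hS s hsS)
  have hgood : ∀ (s : ι) (r : Rl), Function.update ρ a Rl.no s = r → r ≠ Rl.no →
      s ≠ a ∧ ρ s = r ∧ s ∉ S := by
    intro s r hsr hr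
    obtain ⟨h1, h2⟩ := ne_of_upd hsr hr
    exact ⟨h1, h2, hnS s (by rw [h2]; exact hr)⟩
  refine
    { sym := ?_
      alt := ?_
      ex := ?_
      deg1 := ?_
      degq := ?_
      symF := ?_
      symG := ?_
      tri := ?_
      fg := ?_ }
  · intro j hj s s' hs hs' e
    obtain ⟨a1, a2, a3⟩ := hgood s _ hs (by simp)
    obtain ⟨b1, b2, b3⟩ := hgood s' _ hs' (by simp)
    rw [AC_sw a3 b3 a1 b1]
    congr 1
    funext e'
    exact h.sym j hj s s' a2 b2 e'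
  · intro s s' hne hs hs' e
    obtain ⟨a1, a2, a3⟩ := hgood s _ hs (by simp)
    obtain ⟨b1, b2, b3⟩ := hgood s' _ hs' (by simp)
    rw [AC_sw a3 b3 a1 b1]
    have hf : (fun e' : ι → σ → ℕ => Φ (e' ∘ Equiv.swap s s')) = fun e' => (-1) * Φ e' := by
      funext e'
      rw [h.alt s s' hne a2 b2 e']
      ring
    rw [hf, AC_smul]
    ring
  · intro j hj s hs e
    obtain ⟨a1, a2, a3⟩ := hgood s _ hs (by simp)
    have hA : ∀ x ∈ cl (Function.update ρ a Rl.no) (Rl.gr j), x ∉ S ∧ x ≠ a := by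
      intro x hx
      simp only [cl, Finset.mem_filter, Finset.mem_univ, true_and] at hx
      obtain ⟨b1, _, b3⟩ := hgood x _ hx (by simp)
      exact ⟨b3, b1⟩
    rw [AC_sum_sw a3 a1 k Φ _ hA e]
    by_cases hij : j = i
    · subst hij
      rw [cl_upd_self (by simp)]
      have hmem : a ∈ cl ρ (Rl.gr j) := by
        simp only [cl, Finset.mem_filter, Finset.mem_univ, true_and]
        exact ha
      have hf : (fun e' : ι → σ → ℕ => Φ e' +
          ∑ s' ∈ (cl ρ (Rl.gr j)).erase a, Φ (e' ∘ Equiv.swap s' s)) =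
          fun e' => (-1) * Φ (e' ∘ Equiv.swap a s) := by
        funext e'
        have h1 := h.ex j hj s a2 e'
        rw [← Finset.add_sum_erase _ _ hmem] at h1
        linear_combination h1
      rw [hf, AC_smul S a k (-1) (fun e' => Φ (e' ∘ Equiv.swap a s))]
      have h2 := AC_swap (mem_swap haS a3) s k Φ e
      rw [Equiv.swap_apply_right, hexc s a2] at h2
      rw [← h2]
      ring
    · rw [cl_upd (by simp) (by rw [ha]; simpa using fun hh => hij hh.symm)]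
      have hf : (fun e' : ι → σ → ℕ => Φ e' +
          ∑ s' ∈ cl ρ (Rl.gr j), Φ (e' ∘ Equiv.swap s' s)) = fun _ => (0 : ℂ) := by
        funext e'
        exact h.ex j hj s a2 e'
      rw [hf, AC_zero]
  · intro e he s hs
    have hs' : s ≠ a ∧ (ρ s = Rl.F ∨ ρ s = Rl.G) ∧ s ∉ S := by
      rcases hs with hs | hs
      · obtain ⟨a1, a2, a3⟩ := hgood s _ hs (by simp)
        exact ⟨a1, Or.inl a2, a3⟩
      · obtain ⟨a1, a2, a3⟩ := hgood s _ hs (by simp)
        exact ⟨a1, Or.inr a2, a3⟩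
    obtain ⟨e', he', hee⟩ := same_lab haS hs'.1 hs'.2.2 he
    rw [← hee]
    exact h.deg1 e' he' s hs'.2.1
  · intro e he s hs
    have hs' : s ≠ a ∧ (ρ s = Rl.L ∨ ∃ i ∈ C, ρ s = Rl.gr i) ∧ s ∉ S := by
      rcases hs with hs | ⟨j, hj, hs⟩
      · obtain ⟨a1, a2, a3⟩ := hgood s _ hs (by simp)
        exact ⟨a1, Or.inl a2, a3⟩
      · obtain ⟨a1, a2, a3⟩ := hgood s _ hs (by simp)
        exact ⟨a1, Or.inr ⟨j, hj, a2⟩, a3⟩
    obtain ⟨e', he', hee⟩ := same_lab haS hs'.1 hs'.2.2 he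
    rw [← hee]
    exact h.degq e' he' s hs'.2.1
  · intro s s' hs hs' e
    obtain ⟨a1, a2, a3⟩ := hgood s _ hs (by simp)
    obtain ⟨b1, b2, b3⟩ := hgood s' _ hs' (by simp)
    rw [AC_sw a3 b3 a1 b1]
    congr 1
    funext e'
    exact h.symF s s' a2 b2 e'
  · intro s s' hs hs' e
    obtain ⟨a1, a2, a3⟩ := hgood s _ hs (by simp)
    obtain ⟨b1, b2, b3⟩ := hgood s' _ hs' (by simp)
    rw [AC_sw a3 b3 a1 b1]
    congr 1
    funext e'
    exact h.symG s s' a2 b2 e'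
  · intro s1 s2 s3 h12 h13 h23 hb1 hb2 hb3 k1 k2 k3 e
    have hB : ∀ s, isB (Function.update ρ a Rl.no s) → isB (ρ s) ∧ s ∉ S := by
      intro s hs
      rcases hs with hs | hs | hs
      · obtain ⟨_, a2, a3⟩ := hgood s _ hs (by simp)
        exact ⟨Or.inl a2, a3⟩
      · obtain ⟨_, a2, a3⟩ := hgood s _ hs (by simp)
        exact ⟨Or.inr (Or.inl a2), a3⟩
      · obtain ⟨_, a2, a3⟩ := hgood s _ hs (by simp)
        exact ⟨Or.inr (Or.inr a2), a3⟩
    exact AC_A3 k Φ (hB s1 hb1).2 (hB s2 hb2).2 (hB s3 hb3).2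
      (fun k1 k2 k3 e => h.tri s1 s2 s3 h12 h13 h23 (hB s1 hb1).1 (hB s2 hb2).1 (hB s3 hb3).1
        k1 k2 k3 e) k1 k2 k3 e
  · intro s hs e
    obtain ⟨a1, a2, a3⟩ := hgood s _ hs (by simp)
    have hA : ∀ x ∈ cl (Function.update ρ a Rl.no) Rl.G, x ∉ S ∧ x ≠ a := by
      intro x hx
      simp only [cl, Finset.mem_filter, Finset.mem_univ, true_and] at hx
      obtain ⟨b1, _, b3⟩ := hgood x _ hx (by simp)
      exact ⟨b3, b1⟩
    rw [AC_sum_sw a3 a1 k Φ _ hA e, cl_upd (by simp) (by rw [ha]; simp)]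
    have hf : (fun e' : ι → σ → ℕ => Φ e' +
        ∑ s' ∈ cl ρ Rl.G, Φ (e' ∘ Equiv.swap s' s)) = fun _ => (0 : ℂ) := by
      funext e'
      exact h.fg s a2 e'
    rw [hf, AC_zero]

end Pool.Agent.H69.V2
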