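import Pool.Agent.H69.V2.FDefs
import Pool.Agent.H69.VT.X1

/-!
Project V2, row F5b: adjointness of the polarizations.
-/

set_option linter.unusedSectionVars false

namespace Pool.Agent.H69.V2

open scoped BigOperators
open MvPolynomial
open VT

variable {ι σ : Type} [Fintype σ] [DecidableEq σ] [Fintype ι] [DecidableEq ι]

theorem mem_Bx {act : Finset ι} {e0 e : ι → σ → ℕ} : e ∈ Bx act e0 ↔
    (∀ s ∈ act, dl (e s) = dl (e0 s)) ∧ ∀ s ∉ act, e s = e0 s := by
  unfold Bx
  rw [Fintype.mem_piFinset]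
  constructor
  · intro h
    constructor
    · intro s hs
      have h1 := h s
      rw [if_pos hs, Finset.mem_piAntidiag] at h1
      exact h1.1
    · intro s hs
      have h1 := h s
      rw [if_neg hs, Finset.mem_singleton] at h1
      exact h1
  · rintro ⟨h1, h2⟩ s
    by_cases hs : s ∈ act
    · rw [if_pos hs, Finset.mem_piAntidiag]
      exact ⟨h1 s hs, fun i _ => Finset.mem_univ i⟩
    · rw [if_neg hs, Finset.mem_singleton]
      exact h2 s hs

namespace F5bX

theorem dl_add (f : ι → σ → ℕ) (s t : ι) (a : σ) :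
    dl ((f + u1 s a) t) = dl (f t) + (if t = s then 1 else 0) := by
  unfold dl
  by_cases h : t = s
  · subst h
    simp [u1, Finset.sum_add_distrib]
  · simp [u1, h]

theorem mem_add {act : Finset ι} {e0 f : ι → σ → ℕ} {s : ι} (hs : s ∈ act) (a b : σ) :
    f + u1 s a ∈ Bx act e0 → f + u1 s b ∈ Bx act e0 := by
  rw [mem_Bx, mem_Bx]
  rintro ⟨h1, h2⟩
  refine ⟨fun t ht => ?_, fun t ht => ?_⟩
  · rw [← h1 t ht, dl_add, dl_add]
  · have hts : t ≠ s := fun h => ht (h ▸ hs)
    rw [← h2 t ht]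
    funext k
    simp [u1, hts]

theorem fac_ne (e : ι → σ → ℕ) : fac e ≠ 0 := by
  unfold fac
  rw [Finset.prod_ne_zero_iff]
  intro s _
  rw [Finset.prod_ne_zero_iff]
  intro k _
  exact_mod_cast (e s k).factorial_ne_zero

theorem fac_add (f : ι → σ → ℕ) (s : ι) (a : σ) :
    fac (f + u1 s a) = fac f * ((f s a : ℂ) + 1) := by
  unfold fac
  rw [← Finset.mul_prod_erase Finset.univ _ (Finset.mem_univ s),
    ← Finset.mul_prod_erase Finset.univ (fun s => ∏ k, ((f s k).factorial : ℂ))
      (Finset.mem_univ s)]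
  have h1 : ∏ t ∈ Finset.univ.erase s, ∏ k, (((f + u1 s a) t k).factorial : ℂ) =
      ∏ t ∈ Finset.univ.erase s, ∏ k, ((f t k).factorial : ℂ) := by
    apply Finset.prod_congr rfl
    intro t ht
    have hts : t ≠ s := (Finset.mem_erase.1 ht).1
    simp [u1, hts]
  have h2 : ∏ k, (((f + u1 s a) s k).factorial : ℂ) =
      (∏ k, ((f s k).factorial : ℂ)) * ((f s a : ℂ) + 1) := by
    rw [← Finset.mul_prod_erase Finset.univ _ (Finset.mem_univ a),
      ← Finset.mul_prod_erase Finset.univ (fun k => ((f s k).factorial : ℂ))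
        (Finset.mem_univ a)]
    have h3 : ∏ k ∈ Finset.univ.erase a, (((f + u1 s a) s k).factorial : ℂ) =
        ∏ k ∈ Finset.univ.erase a, ((f s k).factorial : ℂ) := by
      apply Finset.prod_congr rfl
      intro k hk
      have hka : k ≠ a := (Finset.mem_erase.1 hk).1
      simp [u1, hka]
    rw [h3]
    have h4 : (((f + u1 s a) s a).factorial : ℂ) = ((f s a : ℂ) + 1) * (f s a).factorial := by
      have h5 : (f + u1 s a) s a = f s a + 1 := by simp [u1]
      rw [h5, Nat.factorial_succ]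
      push_cast
      ring
    rw [h4]
    ring
  rw [h1, h2]
  ring

end F5bX

/-- adjointness of the polarizations -/
theorem adj (act : Finset ι) {a b : σ} (hab : a ≠ b) (e0 : ι → σ → ℕ) (Φ Ψ : SF σ ι) :
    ∑ e ∈ Bx act e0, Ro act a b Φ e * Ψ e / fac e =
      ∑ e ∈ Bx act e0, Φ e * Ro act b a Ψ e / fac e := by
  have hL : ∀ e, Ro act a b Φ e * Ψ e / fac e =
      ∑ s ∈ act, (e s a : ℂ) * Φ (mv a b s e) * Ψ e / fac e := by
    intro e
    unfold Ro
    rw [Finset.sum_mul, Finset.sum_div]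
  have hR : ∀ e, Φ e * Ro act b a Ψ e / fac e =
      ∑ s ∈ act, Φ e * ((e s b : ℂ) * Ψ (mv b a s e)) / fac e := by
    intro e
    unfold Ro
    rw [Finset.mul_sum, Finset.sum_div]
  rw [Finset.sum_congr rfl (fun e _ => hL e), Finset.sum_congr rfl (fun e _ => hR e),
    Finset.sum_comm, Finset.sum_comm (s := Bx act e0)]
  apply Finset.sum_congr rfl
  intro s hs
  rw [← Finset.sum_filter_of_ne (s := Bx act e0) (p := fun e => e s a ≠ 0)
      (f := fun e => (e s a : ℂ) * Φ (mv a b s e) * Ψ e / fac e) (by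
        intro e _ hne h0
        apply hne
        rw [h0]
        simp),
    ← Finset.sum_filter_of_ne (s := Bx act e0) (p := fun e => e s b ≠ 0)
      (f := fun e => Φ e * ((e s b : ℂ) * Ψ (mv b a s e)) / fac e) (by
        intro e _ hne h0
        apply hne
        rw [h0]
        simp)]
  refine Finset.sum_nbij' (mv a b s) (mv b a s) ?_ ?_ ?_ ?_ ?_
  · intro e he
    rw [Finset.mem_filter] at he ⊢
    obtain ⟨f, rfl⟩ := X1.exists_sub e s a he.2
    rw [X1.mv_add]
    refine ⟨F5bX.mem_add hs a b he.1, ?_⟩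
    simp [u1]
  · intro e he
    rw [Finset.mem_filter] at he ⊢
    obtain ⟨f, rfl⟩ := X1.exists_sub e s b he.2
    rw [X1.mv_add]
    refine ⟨F5bX.mem_add hs b a he.1, ?_⟩
    simp [u1]
  · intro e he
    rw [Finset.mem_filter] at he
    obtain ⟨f, rfl⟩ := X1.exists_sub e s a he.2
    rw [X1.mv_add, X1.mv_add]
  · intro e he
    rw [Finset.mem_filter] at he
    obtain ⟨f, rfl⟩ := X1.exists_sub e s b he.2
    rw [X1.mv_add, X1.mv_add]
  · intro e he
    rw [Finset.mem_filter] at he
    obtain ⟨f, rfl⟩ := X1.exists_sub e s a he.2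
    rw [X1.mv_add, X1.mv_add, F5bX.fac_add, F5bX.fac_add]
    have h1 : ((f + u1 s a) s a : ℕ) = f s a + 1 := by simp [u1]
    have h2 : ((f + u1 s b) s b : ℕ) = f s b + 1 := by simp [u1]
    rw [h1, h2]
    have h3 : ((f s a : ℂ) + 1) ≠ 0 := by exact_mod_cast Nat.succ_ne_zero (f s a)
    have h4 : ((f s b : ℂ) + 1) ≠ 0 := by exact_mod_cast Nat.succ_ne_zero (f s b)
    have h5 := F5bX.fac_ne f
    push_cast
    field_simp

end Pool.Agent.H69.V2
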