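import Pool.Agent.H69.V2.CDefs
import Pool.Agent.H69.V2.F5b

/-!
Project V2, row C6: positivity.
-/

set_option linter.unusedSectionVars false

namespace Pool.Agent.H69.V2

open scoped BigOperators
open Pool.Agent.H69.VS Pool.Agent.H69.VT

variable {σ ι : Type} [Fintype σ] [DecidableEq σ] [Fintype ι] [DecidableEq ι]

namespace C6X

open Classical in
/-- restriction to a weight -/
noncomputable def cut (A : Finset ι) (W : σ → ℕ) (Φ : SF σ ι) : SF σ ι := fun e =>
  if wt A e = W then Φ e else 0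

theorem cut_pos {A : Finset ι} {W : σ → ℕ} (Φ : SF σ ι) {e : ι → σ → ℕ} (h : wt A e = W) :
    cut A W Φ e = Φ e := if_pos h

theorem cut_neg {A : Finset ι} {W : σ → ℕ} (Φ : SF σ ι) {e : ι → σ → ℕ} (h : wt A e ≠ W) :
    cut A W Φ e = 0 := if_neg h

theorem wt_mv {A : Finset ι} {s t : ι} (hs : s ∈ A) (ht : t ∈ A) {z b : σ} {e : ι → σ → ℕ}
    (h1 : e s z ≠ 0) (h2 : mv z b s e t b ≠ 0) : wt A (mv b z t (mv z b s e)) = wt A e := by
  obtain ⟨g, hg⟩ := X1.exists_sub _ t b h2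
  obtain ⟨f, hf⟩ := X1.exists_sub e s z h1
  have h3 : mv z b s e = f + u1 s b := by rw [hf, X1.mv_add]
  rw [hg, X1.mv_add, X1.wt_add g ht, hf, X1.wt_add f hs]
  have h4 : wt A (f + u1 s b) = wt A (g + u1 t b) := by rw [← h3, hg]
  rw [X1.wt_add f hs, X1.wt_add g ht] at h4
  have h5 : wt A f = wt A g := add_right_cancel h4
  rw [h5]

theorem Ro_cut {A : Finset ι} {W : σ → ℕ} (Φ : SF σ ι) (z b : σ) (e : ι → σ → ℕ) :
    Ro A z b (Ro A b z (cut A W Φ)) e =
      if wt A e = W then Ro A z b (Ro A b z Φ) e else 0 := by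
  have h0 : ∀ s ∈ A, (e s z : ℂ) * Ro A b z (cut A W Φ) (mv z b s e) =
      if wt A e = W then (e s z : ℂ) * Ro A b z Φ (mv z b s e) else 0 := by
    intro s hs
    by_cases h1 : e s z = 0
    · rw [h1]
      simp
    unfold Ro
    have h2 : ∀ t ∈ A, ((mv z b s e t b : ℕ) : ℂ) * cut A W Φ (mv b z t (mv z b s e)) =
        if wt A e = W then ((mv z b s e t b : ℕ) : ℂ) * Φ (mv b z t (mv z b s e)) else 0 := by
      intro t ht
      by_cases h3 : mv z b s e t b = 0
      · rw [h3]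
        simp
      have h4 := wt_mv hs ht h1 h3
      by_cases h5 : wt A e = W
      · rw [if_pos h5, cut_pos Φ (h4.trans h5)]
      · rw [if_neg h5, cut_neg Φ (by rw [h4]; exact h5), mul_zero]
    rw [Finset.sum_congr rfl h2]
    split_ifs with h5
    · rfl
    · simp
  unfold Ro at h0 ⊢
  rw [Finset.sum_congr rfl h0]
  split_ifs with h5
  · rfl
  · simp

theorem Ro_conj (A : Finset ι) (b z : σ) (Φ : SF σ ι) (e : ι → σ → ℕ) :
    Ro A b z (fun e => (starRingEnd ℂ) (Φ e)) e = (starRingEnd ℂ) (Ro A b z Φ e) := by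
  unfold Ro
  rw [map_sum]
  apply Finset.sum_congr rfl
  intro s _
  rw [map_mul, Complex.conj_natCast]

/-- product of factorials, real -/
noncomputable def facR (e : ι → σ → ℕ) : ℝ := ∏ s, ∏ k, ((e s k).factorial : ℝ)

theorem facR_pos (e : ι → σ → ℕ) : 0 < facR e := by
  unfold facR
  apply Finset.prod_pos
  intro s _
  apply Finset.prod_pos
  intro k _
  exact_mod_cast (e s k).factorial_pos

theorem fac_eq (e : ι → σ → ℕ) : fac e = ((facR e : ℝ) : ℂ) := by
  unfold fac facR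
  push_cast
  rfl

theorem mul_conj_div (x : ℂ) (e : ι → σ → ℕ) :
    x * (starRingEnd ℂ) x / fac e = ((Complex.normSq x / facR e : ℝ) : ℂ) := by
  rw [Complex.mul_conj, fac_eq]
  push_cast
  rfl

end C6X

open C6X in
theorem pos_zero {A : Finset ι} {z : σ} {B : Finset σ} (hz : z ∉ B) {m : ℕ} (hm : m ≠ 0)
    (W : σ → ℕ) (e0 : ι → σ → ℕ) (Φ : SF σ ι)
    (h : ∀ e, (∀ s, s ∉ A → e s = e0 s) → wt A e = W →
      (m : ℂ) * Φ e + ∑ b ∈ B, Ro A z b (Ro A b z Φ) e = 0) :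
    ∀ e, (∀ s, s ∉ A → e s = e0 s) → wt A e = W → Φ e = 0 := by
  intro e1 he1 hw1
  set Φ' : SF σ ι := cut A W Φ with hΦ'
  -- the identity for the truncated function
  have hid : ∀ e ∈ Bx A e1, (m : ℂ) * Φ' e + ∑ b ∈ B, Ro A z b (Ro A b z Φ') e = 0 := by
    intro e he
    rw [mem_Bx] at he
    have hes : ∀ s, s ∉ A → e s = e0 s := fun s hs => by rw [he.2 s hs, he1 s hs]
    have h1 : ∑ b ∈ B, Ro A z b (Ro A b z Φ') e =
        ∑ b ∈ B, if wt A e = W then Ro A z b (Ro A b z Φ) e else 0 :=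
      Finset.sum_congr rfl (fun b _ => Ro_cut Φ z b e)
    rw [h1]
    by_cases hw : wt A e = W
    · simp only [if_pos hw]
      rw [hΦ', cut_pos Φ hw]
      exact h e hes hw
    · simp only [if_neg hw]
      rw [hΦ', cut_neg Φ hw]
      simp
  -- multiply by the conjugate and sum
  have hsum : ((∑ e ∈ Bx A e1, ((m : ℝ) * (Complex.normSq (Φ' e) / facR e) +
      ∑ b ∈ B, Complex.normSq (Ro A b z Φ' e) / facR e) : ℝ) : ℂ) = 0 := by
    push_cast
    rw [Finset.sum_add_distrib]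
    have h2 : ∑ e ∈ Bx A e1, ∑ b ∈ B,
        ((Complex.normSq (Ro A b z Φ' e) : ℝ) : ℂ) / ((facR e : ℝ) : ℂ) =
        ∑ e ∈ Bx A e1, ∑ b ∈ B,
          Ro A z b (Ro A b z Φ') e * (starRingEnd ℂ) (Φ' e) / fac e := by
      rw [Finset.sum_comm, Finset.sum_comm (s := Bx A e1)]
      apply Finset.sum_congr rfl
      intro b hb
      have hzb : z ≠ b := fun h' => hz (h' ▸ hb)
      rw [adj A hzb e1 (Ro A b z Φ') (fun e => (starRingEnd ℂ) (Φ' e))]
      apply Finset.sum_congr rfl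
      intro e _
      rw [Ro_conj, mul_conj_div]
      push_cast
      rfl
    rw [h2]
    have h3 : ∀ e ∈ Bx A e1, (m : ℂ) * (((Complex.normSq (Φ' e) : ℝ) : ℂ) / ((facR e : ℝ) : ℂ)) =
        (m : ℂ) * Φ' e * (starRingEnd ℂ) (Φ' e) / fac e := by
      intro e _
      have h4 := mul_conj_div (Φ' e) e
      push_cast at h4
      rw [← h4]
      ring
    rw [Finset.sum_congr rfl h3, ← Finset.sum_add_distrib]
    apply Finset.sum_eq_zero
    intro e he
    have h5 := hid e he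
    have h6 : ∑ b ∈ B, Ro A z b (Ro A b z Φ') e * (starRingEnd ℂ) (Φ' e) / fac e =
        (∑ b ∈ B, Ro A z b (Ro A b z Φ') e) * (starRingEnd ℂ) (Φ' e) / fac e := by
      rw [Finset.sum_mul, Finset.sum_div]
    rw [h6, ← add_div, ← add_mul, h5]
    simp
  have hsumR : ∑ e ∈ Bx A e1, ((m : ℝ) * (Complex.normSq (Φ' e) / facR e) +
      ∑ b ∈ B, Complex.normSq (Ro A b z Φ' e) / facR e) = 0 := by exact_mod_cast hsum
  have hnn : ∀ e ∈ Bx A e1, 0 ≤ ((m : ℝ) * (Complex.normSq (Φ' e) / facR e) +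
      ∑ b ∈ B, Complex.normSq (Ro A b z Φ' e) / facR e) := by
    intro e _
    apply add_nonneg
    · exact mul_nonneg (Nat.cast_nonneg m) (div_nonneg (Complex.normSq_nonneg _) (facR_pos e).le)
    · exact Finset.sum_nonneg
        (fun b _ => div_nonneg (Complex.normSq_nonneg _) (facR_pos e).le)
  have hmem : e1 ∈ Bx A e1 := mem_Bx.2 ⟨fun _ _ => rfl, fun _ _ => rfl⟩
  have h7 := (Finset.sum_eq_zero_iff_of_nonneg hnn).1 hsumR e1 hmem
  have h8 : 0 ≤ ∑ b ∈ B, Complex.normSq (Ro A b z Φ' e1) / facR e1 :=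
    Finset.sum_nonneg (fun b _ => div_nonneg (Complex.normSq_nonneg _) (facR_pos e1).le)
  have h9 : 0 ≤ (m : ℝ) * (Complex.normSq (Φ' e1) / facR e1) :=
    mul_nonneg (Nat.cast_nonneg m) (div_nonneg (Complex.normSq_nonneg _) (facR_pos e1).le)
  have h10 : (m : ℝ) * (Complex.normSq (Φ' e1) / facR e1) = 0 := by linarith
  have hm' : (m : ℝ) ≠ 0 := Nat.cast_ne_zero.2 hm
  have h11 : Complex.normSq (Φ' e1) / facR e1 = 0 := (mul_eq_zero.1 h10).resolve_left hm'
  have h12 : Complex.normSq (Φ' e1) = 0 :=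
    (div_eq_zero_iff.1 h11).resolve_right (facR_pos e1).ne'
  have h13 : Φ' e1 = 0 := Complex.normSq_eq_zero.1 h12
  rwa [hΦ', cut_pos Φ hw1] at h13

end Pool.Agent.H69.V2
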