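import Pool.Agent.H69.V2.CDefs
import Pool.Agent.H69.V2.C6
import Pool.Agent.H69.VT.X1

/-! Row C7: the column filled with the most frequent variables. -/

set_option linter.unusedSectionVars false

namespace Pool.Agent.H69.V2

open scoped BigOperators
open Pool.Agent.H69.VS Pool.Agent.H69.VT

variable {σ ι : Type} [Fintype σ] [DecidableEq σ] [Fintype ι] [DecidableEq ι]

namespace C7X

theorem wt_union {A S : Finset ι} (hd : Disjoint A S) (e : ι → σ → ℕ) :
    wt (A ∪ S) e = wt A e + wt S e := by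
  unfold wt
  exact Finset.sum_union hd

theorem wt_u1 {B : Finset ι} {t : ι} (ht : t ∈ B) (f : ι → σ → ℕ) (k : σ) :
    wt B (f + u1 t k) = wt B f + Pi.single k 1 := by
  unfold wt
  simp only [Pi.add_apply]
  rw [Finset.sum_add_distrib]
  congr 1
  rw [Finset.sum_eq_single t]
  · simp [u1]
  · intro b _ hb
    simp [u1, hb]
  · intro h
    exact absurd ht h

theorem exc_pu {A S : Finset ι} (hd : Disjoint A S) {Φ : SF σ ι} (h : ColP S A Φ)
    {c : ι → σ} {t : ι} (ht : t ∈ A) (f : ι → σ → ℕ) (z : σ)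
    (hf : ∀ s ∈ S, f s = Pi.single (c s) 1) :
    Φ (f + u1 t z) = ∑ s ∈ S, Φ (mv (c s) z s (f + u1 t (c s))) := by
  classical
  have h1 := h.exc t ht z f
  have hdeg : ∀ s ∈ S, dl (f s) = 1 := by
    intro s hs
    rw [hf s hs]
    unfold dl
    rw [Finset.sum_pi_single']
    simp
  unfold AC at h1
  rw [if_pos hdeg, sub_eq_zero] at h1
  rw [h1]
  refine Finset.sum_congr rfl (fun s hs => ?_)
  congr 1
  have hts : t ≠ s := fun h' => (Finset.disjoint_left.1 hd ht) (h' ▸ hs)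
  funext x
  by_cases hx : x = s
  · subst hx
    have hu : (u1 t (c x) : ι → σ → ℕ) x = 0 := by
      unfold u1
      rw [Pi.single_eq_of_ne hts.symm]
    simp only [pu, mv, Function.update_self, Pi.add_apply, hu, add_zero, hf x hs]
    simp
  · simp only [pu, mv, Function.update_of_ne hx, Pi.add_apply]
    by_cases hxt : x = t
    · subst hxt
      simp [u1, hf s hs]
    · simp [u1, hxt]

theorem Ro_split {A S : Finset ι} (hd : Disjoint A S) {Φ : SF σ ι} {c : ι → σ}
    (hinj : ∀ s ∈ S, ∀ s' ∈ S, c s = c s' → s = s') {s : ι} (hs : s ∈ S) (z : σ)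
    (e' : ι → σ → ℕ) (he : ∀ s ∈ S, e' s = Pi.single (c s) 1) :
    Ro (A ∪ S) (c s) z Φ e' = Ro A (c s) z Φ e' + Φ (mv (c s) z s e') := by
  unfold Ro
  rw [Finset.sum_union hd]
  congr 1
  rw [Finset.sum_eq_single s]
  · rw [he s hs]
    simp
  · intro s' hs' hss
    rw [he s' hs']
    have : c s ≠ c s' := fun h' => hss (hinj s hs s' hs' h').symm
    rw [Pi.single_eq_of_ne this]
    simp
  · intro h
    exact absurd hs h

end C7X

open C7X

theorem col_top {A S : Finset ι} (hd : Disjoint A S) {Φ : SF σ ι} (h : ColP S A Φ)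
    {e : ι → σ → ℕ} {c : ι → σ} (hc : ∀ s ∈ S, e s = Pi.single (c s) 1)
    (hinj : ∀ s ∈ S, ∀ s' ∈ S, c s = c s' → s = s') {z : σ} (hz : ∀ s ∈ S, c s ≠ z)
    (hzw : wt A e z ≠ 0)
    (hR : ∀ s ∈ S, ∀ e', wt (A ∪ S) e' + Pi.single z 1 = wt (A ∪ S) e + Pi.single (c s) 1 →
      Ro (A ∪ S) (c s) z Φ e' = 0) : Φ e = 0 := by
  classical
  have hzB : z ∉ S.image c := by
    intro hm
    obtain ⟨s, hs, hsz⟩ := Finset.mem_image.1 hm
    exact hz s hs hsz
  refine pos_zero (A := A) (z := z) (B := S.image c) hzB (m := wt A e z) hzw (wt A e) e Φ ?_ e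
    (fun _ _ => rfl) rfl
  intro e1 he1 hw1
  have hS1 : ∀ s ∈ S, e1 s = Pi.single (c s) 1 := by
    intro s hs
    rw [he1 s (fun hA => Finset.disjoint_left.1 hd hA hs), hc s hs]
  have hwS : wt S e1 = wt S e := by
    unfold wt
    exact Finset.sum_congr rfl (fun s hs => by rw [hS1 s hs, hc s hs])
  have hwU : wt (A ∪ S) e1 = wt (A ∪ S) e := by
    rw [wt_union hd, wt_union hd, hw1, hwS]
  have hmz : ((wt A e z : ℕ) : ℂ) = ∑ t ∈ A, (e1 t z : ℂ) := by
    rw [← hw1]
    unfold wt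
    rw [Finset.sum_apply]
    push_cast
    rfl
  have hsum : ∑ b ∈ S.image c, Ro A z b (Ro A b z Φ) e1 =
      ∑ s ∈ S, Ro A z (c s) (Ro A (c s) z Φ) e1 := by
    rw [Finset.sum_image (fun s hs s' hs' h' => hinj s hs s' hs' h')]
  rw [hmz, hsum, Finset.sum_mul]
  have hswap : ∑ s ∈ S, Ro A z (c s) (Ro A (c s) z Φ) e1 =
      ∑ t ∈ A, ∑ s ∈ S, (e1 t z : ℂ) * Ro A (c s) z Φ (mv z (c s) t e1) := by
    rw [Finset.sum_comm]
    rfl
  rw [hswap, ← Finset.sum_add_distrib]
  refine Finset.sum_eq_zero (fun t ht => ?_)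
  by_cases hzt : e1 t z = 0
  · simp [hzt]
  obtain ⟨f, hf⟩ := X1.exists_sub e1 t z hzt
  have htS : t ∉ S := fun hs => Finset.disjoint_left.1 hd ht hs
  have hfS : ∀ s ∈ S, f s = Pi.single (c s) 1 := by
    intro s hs
    have hst : s ≠ t := fun h' => htS (h' ▸ hs)
    rw [← hS1 s hs, hf]
    simp [u1, hst]
  have h1 : Φ e1 = ∑ s ∈ S, Φ (mv (c s) z s (f + u1 t (c s))) := by
    rw [hf]
    exact exc_pu hd h ht f z hfS
  have h2 : ∀ s ∈ S, Φ (mv (c s) z s (f + u1 t (c s))) =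
      - Ro A (c s) z Φ (mv z (c s) t e1) := by
    intro s hs
    have hmv : mv z (c s) t e1 = f + u1 t (c s) := by
      rw [hf, X1.mv_add]
    have heS : ∀ s' ∈ S, (f + u1 t (c s)) s' = Pi.single (c s') 1 := by
      intro s' hs'
      have hst : s' ≠ t := fun h' => htS (h' ▸ hs')
      rw [← hfS s' hs']
      simp [u1, hst]
    have hw : wt (A ∪ S) (f + u1 t (c s)) + Pi.single z 1 =
        wt (A ∪ S) e + Pi.single (c s) 1 := by
      rw [← hwU, hf, wt_u1 (Finset.mem_union_left S ht), wt_u1 (Finset.mem_union_left S ht)]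
      abel
    have h3 := hR s hs (f + u1 t (c s)) hw
    rw [Ro_split hd hinj hs z _ heS] at h3
    rw [hmv]
    linear_combination h3
  rw [h1, Finset.sum_congr rfl h2, Finset.mul_sum, ← Finset.sum_add_distrib]
  refine Finset.sum_eq_zero (fun s _ => ?_)
  ring

end Pool.Agent.H69.V2
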