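import Pool.Agent.H69.VT.TDefs

/-!
Slot functions with columns (project V2, MP_fb19ec_ag, slope two).

A column is a finite set of slots of degree one with the role `no`, on which the slot function
alternates.
-/

set_option linter.unusedSectionVars false

namespace Pool.Agent.H69.V2

open scoped BigOperators
open Pool.Agent.H69.VS Pool.Agent.H69.VT

variable {σ ι : Type} [Fintype σ] [DecidableEq σ] [Fintype ι] [DecidableEq ι]

/-- the content of the slot `s` is added to the slot `t`, the slot `s` gets the variable `k` -/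
def pu (t s : ι) (k : σ) (e : ι → σ → ℕ) : ι → σ → ℕ :=
  Function.update (e + Pi.single t (e s)) s (Pi.single k 1)

open Classical in
/-- antisymmetrization of the variable `k` of the slot `t` with the column `S` -/
noncomputable def AC (S : Finset ι) (t : ι) (k : σ) (Φ : SF σ ι) : SF σ ι := fun e =>
  if ∀ s ∈ S, dl (e s) = 1 then Φ (e + u1 t k) - ∑ s ∈ S, Φ (pu t s k e) else 0

/-- `S` is a column for `Φ`, and the variables of the slots in `X` exchange with it -/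
structure ColP (S X : Finset ι) (Φ : SF σ ι) : Prop where
  deg1 : ∀ e, Φ e ≠ 0 → ∀ s ∈ S, dl (e s) = 1
  alt : ∀ s ∈ S, ∀ s' ∈ S, s ≠ s' → ∀ e, Φ (e ∘ Equiv.swap s s') = - Φ e
  exc : ∀ t ∈ X, ∀ k e, AC S t k Φ e = 0

/-- the slots `F`, `G`, `L` and the group `i` -/
def fglg (ρ : ι → Rl) (i : ℕ) : Finset ι :=
  Finset.univ.filter (fun s => ρ s = Rl.F ∨ ρ s = Rl.G ∨ ρ s = Rl.L ∨ ρ s = Rl.gr i)

/-- the statement of the vanishing in few variables -/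
def FVp (q : ℕ) : Prop :=
  ∀ (σ ι : Type) [Fintype σ] [DecidableEq σ] [Fintype ι] [DecidableEq ι]
    (C : Finset ℕ) (ρ : ι → Rl) (Φ : SF σ ι), Cls q ρ C Φ → 3 ≤ (cl ρ Rl.L).card →
    q + 2 ≤ (cl ρ Rl.L).card + C.card → ∀ T : Finset σ, 2 * (T.card - 2) < (cl ρ Rl.L).card →
    ∀ e : ι → σ → ℕ, (∀ s ∈ actv ρ C, ∀ k, k ∉ T → e s k = 0) → Φ e = 0

/-- the vanishing of the class with columns that is needed for `t` letters -/
def XPc (D t : ℕ) : Prop :=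
  ∀ (σ ι : Type) [Fintype σ] [DecidableEq σ] [Fintype ι] [DecidableEq ι] (C : Finset ℕ)
    (ρ : ι → Rl) (S : ℕ → Finset ι) (Φ : SF σ ι), Cls (D - 1) ρ C Φ → C.Nonempty →
    (∀ i ∈ C, 2 ≤ (cl ρ (Rl.gr i)).card) → (cl ρ Rl.F).card + C.card = D →
    (cl ρ Rl.L).card + ∑ i ∈ C, (cl ρ (Rl.gr i)).card = t + 1 →
    (cl ρ Rl.G).card + 1 = (cl ρ Rl.L).card → D + 1 ≤ (cl ρ Rl.L).card + C.card →
    (∀ i ∈ C, (S i).card = (cl ρ (Rl.gr i)).card + 1) →
    (∀ i ∈ C, ∀ s ∈ S i, ρ s = Rl.no) →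
    (∀ i ∈ C, ∀ j ∈ C, i ≠ j → Disjoint (S i) (S j)) →
    (∀ i ∈ C, ColP (S i) (fglg ρ i) Φ) →
    ∀ e, Φ e = 0

/-- iterated contractions by columns of labels -/
def mL : List (List (σ → ℕ) × List (σ → ℕ)) → Fn σ → Fn σ
  | [], v => v
  | p :: cols, v => gE p.1 p.2 (mL cols v)

open Classical in
/-- the hat of iterated contractions, with slots for the columns -/
noncomputable def hatC {ι : Type} (D c : ℕ) (lF lG lL : List ι) (lA lC : ℕ → List ι)
    (v : Fn σ) : SF σ ι := fun e =>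
  if (∀ s ∈ lF ++ lG, dl (e s) = 1) ∧ (∀ s ∈ lL, dl (e s) + 1 = D) ∧
      (∀ i < c, ∀ s ∈ lA i, dl (e s) + 1 = D) ∧ (∀ i < c, ∀ s ∈ lC i, dl (e s) = 1) then
    gE (lL.map e) (lG.map e) (mL ((List.range c).map (fun i => ((lC i).map e, (lA i).map e))) v)
      [] (lF.map e).sum
  else 0

/-- the hypotheses on lists of slots, with columns -/
structure CtxC (D c : ℕ) (ρ : ι → Rl) (lF lG lL : List ι) (lA lC : ℕ → List ι)
    (v : Fn σ) : Prop where
  nF : lF.Nodup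
  nG : lG.Nodup
  nL : lL.Nodup
  nA : ∀ i < c, (lA i).Nodup
  nC : ∀ i < c, (lC i).Nodup
  hF : ∀ s, s ∈ lF ↔ ρ s = Rl.F
  hG : ∀ s, s ∈ lG ↔ ρ s = Rl.G
  hL : ∀ s, s ∈ lL ↔ ρ s = Rl.L
  hA : ∀ i < c, ∀ s, s ∈ lA i ↔ ρ s = Rl.gr i
  hCn : ∀ i < c, ∀ s ∈ lC i, ρ s = Rl.no
  dis : ∀ i < c, ∀ j < c, i ≠ j → ∀ s ∈ lC i, s ∉ lC j
  hF0 : lF ≠ []
  hGL : lL.length = lG.length + 1
  hC : ∀ i < c, (lC i).length = (lA i).length + 1
  hv : SS v
  dv : dW D v = 0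
  hQ : ∀ (Cs : ℕ → List σ) (A : ℕ → List (σ → ℕ)), (∀ i < c, (Cs i).length = (lC i).length) →
    (∀ i < c, (A i).length = (lA i).length ∧ ok D (A i)) →
    Q3 D (mE ((List.range c).map (fun i => (Cs i, A i))) v)
  hB : ∀ (Cs : ℕ → List σ), (∀ i < c, (Cs i).length = (lC i).length) →
    ∀ i < c, ∀ (y : σ) (A : ℕ → List (σ → ℕ)),
    (∀ k < c, (A k).length = (lA k).length + (if k = i then 1 else 0) ∧ ok D (A k)) →
    Cb D (mE ((List.range c).map (fun k => (if k = i then y :: Cs k else Cs k, A k))) v)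

/-- the condition on the degrees of the labels -/
def PC (D c : ℕ) (lF lG lL : List ι) (lA lC : ℕ → List ι) (e : ι → σ → ℕ) : Prop :=
  (∀ s ∈ lF ++ lG, dl (e s) = 1) ∧ (∀ s ∈ lL, dl (e s) + 1 = D) ∧
    (∀ i < c, ∀ s ∈ lA i, dl (e s) + 1 = D) ∧ (∀ i < c, ∀ s ∈ lC i, dl (e s) = 1)

end Pool.Agent.H69.V2
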