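import Pool.Agent.H69.V2.FDefs

/-!
Algebra of substitutions and renamings (project V2, row F1).
-/

set_option linter.unusedSectionVars false

namespace Pool.Agent.H69.V2

open scoped BigOperators
open MvPolynomial

variable {ι κ lam σ τ υ R : Type} [Fintype σ] [DecidableEq σ] [Fintype τ] [DecidableEq τ]
  [Fintype υ] [DecidableEq υ]

theorem gv_add (g : σ → τ → ℂ) (u v : σ → ℂ) : gv g (u + v) = gv g u + gv g v := by
  funext l
  simp only [gv, Pi.add_apply, add_mul, Finset.sum_add_distrib]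

theorem gv_smul (g : σ → τ → ℂ) (c : ℂ) (u : σ → ℂ) : gv g (c • u) = c • gv g u := by
  funext l
  simp only [gv, Pi.smul_apply, smul_eq_mul, Finset.mul_sum, mul_assoc]

theorem gv_single (g : σ → τ → ℂ) (k : σ) : gv g (Pi.single k 1) = g k := by
  funext l
  simp only [gv]
  rw [Finset.sum_eq_single k]
  · simp
  · intro b _ hb
    simp [Pi.single_eq_of_ne hb]
  · intro h
    exact absurd (Finset.mem_univ k) h

theorem gv_gv (g : σ → τ → ℂ) (h : τ → υ → ℂ) (u : σ → ℂ) :
    gv h (gv g u) = gv (fun k => gv h (g k)) u := by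
  funext l
  simp only [gv, Finset.sum_mul, Finset.mul_sum]
  rw [Finset.sum_comm]
  refine Finset.sum_congr rfl fun k _ => Finset.sum_congr rfl fun m _ => ?_
  ring

theorem gv_id (u : σ → ℂ) : gv (fun k => Pi.single k (1 : ℂ)) u = u := by
  funext l
  simp only [gv]
  rw [Finset.sum_eq_single l]
  · simp
  · intro b _ hb
    simp [Pi.single_eq_of_ne hb.symm]
  · intro h
    exact absurd (Finset.mem_univ l) h

theorem li_add (s : ι) (u v : σ → ℂ) : li s (u + v) = li s u + li s v := by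
  simp only [li, Pi.add_apply, C_add, add_mul, Finset.sum_add_distrib]

theorem li_smul (s : ι) (c : ℂ) (u : σ → ℂ) : li s (c • u) = c • li s u := by
  simp only [li, Pi.smul_apply, smul_eq_mul, C_mul, Finset.smul_sum, smul_eq_C_mul, mul_assoc]

theorem li_single (s : ι) (k : σ) : li s (Pi.single k (1 : ℂ)) = X (s, k) := by
  simp only [li]
  rw [Finset.sum_eq_single k]
  · simp
  · intro b _ hb
    simp [Pi.single_eq_of_ne hb]
  · intro h
    exact absurd (Finset.mem_univ k) h

namespace F1X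

/-- the linear map of `li` -/
theorem li_sum {α : Type} (s : ι) (S : Finset α) (f : α → σ → ℂ) :
    li s (∑ a ∈ S, f a) = ∑ a ∈ S, li s (f a) := by
  classical
  induction S using Finset.induction_on with
  | empty => simp [li]
  | insert a S ha ih => rw [Finset.sum_insert ha, Finset.sum_insert ha, li_add, ih]

theorem vec_sum (u : σ → ℂ) : u = ∑ k, u k • (Pi.single k (1 : ℂ) : σ → ℂ) := by
  funext l
  rw [Finset.sum_apply, Finset.sum_eq_single l]
  · simp
  · intro b _ hb
    simp [Pi.single_eq_of_ne hb.symm]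
  · intro h
    exact absurd (Finset.mem_univ l) h

theorem gv_vec (g : σ → τ → ℂ) (u : σ → ℂ) : gv g u = ∑ k, u k • g k := by
  funext l
  simp [gv, Finset.sum_apply]

theorem li_gv (g : σ → τ → ℂ) (s : ι) (u : σ → ℂ) :
    li s (gv g u) = ∑ k, C (u k) * li s (g k) := by
  rw [gv_vec, li_sum]
  refine Finset.sum_congr rfl fun k _ => ?_
  rw [li_smul, smul_eq_C_mul]

theorem sb_X (g : σ → τ → ℂ) (s : ι) (k : σ) : sb g (X (s, k)) = li s (g k) := by
  simp [sb]

theorem rs_X (h : ι → κ) (s : ι) (k : σ) : rs h (X (s, k)) = (X (h s, k) : Pl κ σ) := by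
  simp [rs]

theorem at_X (s : ι) (k : σ) : at' s (X k) = (X (s, k) : Pl ι σ) := by
  simp [at']

theorem sf_X (g : σ → τ → ℂ) (k : σ) : sf g (X k) = ∑ l, C (g k l) * X l := by
  simp [sf]

theorem at_sf (g : σ → τ → ℂ) (s : ι) (k : σ) :
    at' s (∑ l, C (g k l) * X l) = li s (g k) := by
  simp only [map_sum, map_mul, at_X, li]
  refine Finset.sum_congr rfl fun l _ => ?_
  rw [at', rename_C]

theorem d3_add1 (s t r : ι) (u u' v w : σ → ℂ) :
    d3 s t r (u + u') v w = d3 s t r u v w + d3 s t r u' v w := by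
  simp only [d3, d2, li_add]
  ring

theorem d3_add2 (s t r : ι) (u v v' w : σ → ℂ) :
    d3 s t r u (v + v') w = d3 s t r u v w + d3 s t r u v' w := by
  simp only [d3, d2, li_add]
  ring

theorem d3_add3 (s t r : ι) (u v w w' : σ → ℂ) :
    d3 s t r u v (w + w') = d3 s t r u v w + d3 s t r u v w' := by
  simp only [d3, d2, li_add]
  ring

theorem d3_smul1 (s t r : ι) (c : ℂ) (u v w : σ → ℂ) :
    d3 s t r (c • u) v w = c • d3 s t r u v w := by
  simp only [d3, d2, li_smul, smul_eq_C_mul]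
  ring

theorem d3_smul2 (s t r : ι) (c : ℂ) (u v w : σ → ℂ) :
    d3 s t r u (c • v) w = c • d3 s t r u v w := by
  simp only [d3, d2, li_smul, smul_eq_C_mul]
  ring

theorem d3_smul3 (s t r : ι) (c : ℂ) (u v w : σ → ℂ) :
    d3 s t r u v (c • w) = c • d3 s t r u v w := by
  simp only [d3, d2, li_smul, smul_eq_C_mul]
  ring

theorem li_zero (s : ι) : li s (0 : σ → ℂ) = 0 := by
  simp [li]

theorem d3_sum1 {α : Type} (s t r : ι) (S : Finset α) (f : α → σ → ℂ) (v w : σ → ℂ) :
    d3 s t r (∑ a ∈ S, f a) v w = ∑ a ∈ S, d3 s t r (f a) v w := by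
  classical
  induction S using Finset.induction_on with
  | empty => simp [d3, d2, li_zero]
  | insert a S ha ih => rw [Finset.sum_insert ha, Finset.sum_insert ha, d3_add1, ih]

theorem d3_sum2 {α : Type} (s t r : ι) (S : Finset α) (f : α → σ → ℂ) (u w : σ → ℂ) :
    d3 s t r u (∑ a ∈ S, f a) w = ∑ a ∈ S, d3 s t r u (f a) w := by
  classical
  induction S using Finset.induction_on with
  | empty => simp [d3, d2, li_zero]
  | insert a S ha ih => rw [Finset.sum_insert ha, Finset.sum_insert ha, d3_add2, ih]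

theorem d3_sum3 {α : Type} (s t r : ι) (S : Finset α) (f : α → σ → ℂ) (u v : σ → ℂ) :
    d3 s t r u v (∑ a ∈ S, f a) = ∑ a ∈ S, d3 s t r u v (f a) := by
  classical
  induction S using Finset.induction_on with
  | empty => simp [d3, d2, li_zero]
  | insert a S ha ih => rw [Finset.sum_insert ha, Finset.sum_insert ha, d3_add3, ih]

theorem Dv_X (a b : σ) (s : ι) (k : σ) :
    Dv a b (X (s, k) : Pl ι σ) = if k = a then X (s, b) else 0 := by
  simp [Dv, mkDerivation_X]

end F1X

open F1X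

theorem sb_li (g : σ → τ → ℂ) (s : ι) (u : σ → ℂ) : sb g (li s u) = li s (gv g u) := by
  rw [li_gv]
  simp only [li, map_sum, map_mul]
  refine Finset.sum_congr rfl fun k _ => ?_
  rw [sb_X]
  simp only [li]
  rw [sb, aeval_C]
  rfl

theorem sb_d2 (g : σ → τ → ℂ) (s t : ι) (u v : σ → ℂ) :
    sb g (d2 s t u v) = d2 s t (gv g u) (gv g v) := by
  simp only [d2, map_sub, map_mul, sb_li]

theorem sb_d3 (g : σ → τ → ℂ) (s t r : ι) (u v w : σ → ℂ) :
    sb g (d3 s t r u v w) = d3 s t r (gv g u) (gv g v) (gv g w) := by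
  simp only [d3, map_add, map_sub, map_mul, sb_li, sb_d2]

theorem rs_li (h : ι → κ) (s : ι) (u : σ → ℂ) : rs h (li s u) = li (h s) u := by
  simp only [li, map_sum, map_mul, rs_X]
  refine Finset.sum_congr rfl fun k _ => ?_
  rw [rs, rename_C]

theorem rs_d2 (h : ι → κ) (s t : ι) (u v : σ → ℂ) :
    rs h (d2 s t u v) = d2 (h s) (h t) u v := by
  simp only [d2, map_sub, map_mul, rs_li]

theorem rs_d3 (h : ι → κ) (s t r : ι) (u v w : σ → ℂ) :
    rs h (d3 s t r u v w) = d3 (h s) (h t) (h r) u v w := by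
  simp only [d3, map_add, map_sub, map_mul, rs_li, rs_d2]

theorem rs_rs (h : ι → κ) (h' : κ → lam) (f : Pl ι σ) : rs h' (rs h f) = rs (h' ∘ h) f := by
  simp only [rs, rename_rename]
  rfl

theorem rs_id (f : Pl ι σ) : rs id f = f := by
  simp only [rs, Prod.map_id]
  exact rename_id_apply f

theorem rs_monomial (h : ι → κ) (e : ι × σ →₀ ℕ) (c : ℂ) :
    rs h (monomial e c) = monomial (e.mapDomain (Prod.map h id)) c := by
  simp only [rs, rename_monomial]

theorem sb_rs (g : σ → τ → ℂ) (h : ι → κ) (f : Pl ι σ) : sb g (rs h f) = rs h (sb g f) := by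
  have key : ((sb g : Pl κ σ →ₐ[ℂ] Pl κ τ).comp (rs h : Pl ι σ →ₐ[ℂ] Pl κ σ)) =
      (rs h : Pl ι τ →ₐ[ℂ] Pl κ τ).comp (sb g : Pl ι σ →ₐ[ℂ] Pl ι τ) := by
    apply algHom_ext
    rintro ⟨s, k⟩
    simp only [AlgHom.comp_apply, rs_X, sb_X, rs_li]
  exact congrArg (fun φ => φ f) key

theorem sb_sb (g : σ → τ → ℂ) (g' : τ → υ → ℂ) (f : Pl ι σ) :
    sb g' (sb g f) = sb (fun k => gv g' (g k)) f := by
  have key : ((sb g' : Pl ι τ →ₐ[ℂ] Pl ι υ).comp (sb g : Pl ι σ →ₐ[ℂ] Pl ι τ)) =
      (sb (fun k => gv g' (g k)) : Pl ι σ →ₐ[ℂ] Pl ι υ) := by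
    apply algHom_ext
    rintro ⟨s, k⟩
    simp only [AlgHom.comp_apply, sb_X, sb_li]
  exact congrArg (fun φ => φ f) key

theorem sb_id (f : Pl ι σ) : sb (fun k => Pi.single k (1 : ℂ)) f = f := by
  have key : (sb (fun k => Pi.single k (1 : ℂ)) : Pl ι σ →ₐ[ℂ] Pl ι σ) =
      AlgHom.id ℂ (Pl ι σ) := by
    apply algHom_ext
    rintro ⟨s, k⟩
    simp only [sb_X, li_single, AlgHom.id_apply]
  exact congrArg (fun φ => φ f) key

theorem sf_sf (g : σ → τ → ℂ) (g' : τ → υ → ℂ) (β : MvPolynomial σ ℂ) :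
    sf g' (sf g β) = sf (fun k => gv g' (g k)) β := by
  have key : ((sf g' : MvPolynomial τ ℂ →ₐ[ℂ] MvPolynomial υ ℂ).comp
      (sf g : MvPolynomial σ ℂ →ₐ[ℂ] MvPolynomial τ ℂ)) = sf (fun k => gv g' (g k)) := by
    apply algHom_ext
    intro k
    simp only [AlgHom.comp_apply, sf_X, map_sum, map_mul]
    have hC : ∀ x : ℂ, sf g' (C x) = C x := by
      intro x
      rw [sf, aeval_C]
      rfl
    simp only [hC, gv, map_sum, map_mul, Finset.sum_mul, Finset.mul_sum]
    rw [Finset.sum_comm]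
    refine Finset.sum_congr rfl fun l _ => Finset.sum_congr rfl fun m _ => ?_
    ring
  exact congrArg (fun φ => φ β) key

theorem sf_id (β : MvPolynomial σ ℂ) : sf (fun k => Pi.single k (1 : ℂ)) β = β := by
  have key : (sf (fun k => Pi.single k (1 : ℂ)) : MvPolynomial σ ℂ →ₐ[ℂ] MvPolynomial σ ℂ) =
      AlgHom.id ℂ (MvPolynomial σ ℂ) := by
    apply algHom_ext
    intro k
    simp only [sf_X, AlgHom.id_apply]
    rw [Finset.sum_eq_single k]
    · simp
    · intro b _ hb
      simp [Pi.single_eq_of_ne hb]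
    · intro h
      exact absurd (Finset.mem_univ k) h
  exact congrArg (fun φ => φ β) key

theorem sf_hom {q : ℕ} (g : σ → τ → ℂ) {β : MvPolynomial σ ℂ} (h : β.IsHomogeneous q) :
    (sf g β).IsHomogeneous q := by
  have := h.aeval (fun k => ∑ l, C (g k l) * X l) (n := 1) (fun k => by
    refine IsHomogeneous.sum _ _ _ fun l _ => ?_
    have := (isHomogeneous_C τ (g k l)).mul (isHomogeneous_X ℂ l)
    simpa using this)
  simpa [sf] using this

theorem sb_at (g : σ → τ → ℂ) (s : ι) (β : MvPolynomial σ ℂ) :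
    sb g (at' s β) = at' s (sf g β) := by
  have key : ((sb g : Pl ι σ →ₐ[ℂ] Pl ι τ).comp (at' s : MvPolynomial σ ℂ →ₐ[ℂ] Pl ι σ)) =
      (at' s : MvPolynomial τ ℂ →ₐ[ℂ] Pl ι τ).comp (sf g) := by
    apply algHom_ext
    intro k
    simp only [AlgHom.comp_apply, at_X, sb_X, sf_X, at_sf]
  exact congrArg (fun φ => φ β) key

theorem rs_at (h : ι → κ) (s : ι) (β : MvPolynomial σ ℂ) : rs h (at' s β) = at' (h s) β := by
  have key : ((rs h : Pl ι σ →ₐ[ℂ] Pl κ σ).comp (at' s : MvPolynomial σ ℂ →ₐ[ℂ] Pl ι σ)) =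
      (at' (h s) : MvPolynomial σ ℂ →ₐ[ℂ] Pl κ σ) := by
    apply algHom_ext
    intro k
    simp only [AlgHom.comp_apply, at_X, rs_X]
  exact congrArg (fun φ => φ β) key

theorem d3_two (s t r : ι) (u v w : Fin 2 → ℂ) : d3 s t r u v w = 0 := by
  simp only [d3, d2, li, Fin.sum_univ_two]
  ring

/-- functionals that factor through two variables -/
theorem R2_sb (g : σ → Fin 2 → ℂ) (θ : Du ι (Fin 2)) : R2 (θ.comp (sb g).toLinearMap) := by
  intro s t r _ _ _ u v w f
  simp only [LinearMap.comp_apply, AlgHom.toLinearMap_apply, map_mul, sb_d3, d3_two, mul_zero,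
    map_zero]

theorem Dv_li (a b : σ) (s : ι) (u : σ → ℂ) :
    Dv a b (li s u) = li s (Pi.single b (u a)) := by
  have h1 : li s (Pi.single b (u a)) = (C (u a) * X (s, b) : Pl ι σ) := by
    simp only [li]
    rw [Finset.sum_eq_single b]
    · simp
    · intro c _ hc
      simp [Pi.single_eq_of_ne hc]
    · intro h
      exact absurd (Finset.mem_univ b) h
  have h2 : ∀ k : σ, Dv a b (C (u k) * X (s, k) : Pl ι σ) =
      C (u k) * (if k = a then X (s, b) else 0) := by
    intro k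
    rw [← smul_eq_C_mul, ← smul_eq_C_mul, Derivation.map_smul, F1X.Dv_X]
  rw [h1]
  simp only [li, map_sum]
  rw [Finset.sum_congr rfl fun k _ => h2 k, Finset.sum_eq_single a]
  · rw [if_pos rfl]
  · intro c _ hc
    rw [if_neg hc, mul_zero]
  · intro h
    exact absurd (Finset.mem_univ a) h

theorem Dv_d2 (a b : σ) (s t : ι) (u v : σ → ℂ) :
    Dv a b (d2 s t u v) = d2 s t (Pi.single b (u a)) v + d2 s t u (Pi.single b (v a)) := by
  simp only [d2, map_sub, Derivation.leibniz, smul_eq_mul, Dv_li]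
  ring

theorem Dv_d3 (a b : σ) (s t r : ι) (u v w : σ → ℂ) :
    Dv a b (d3 s t r u v w) = d3 s t r (Pi.single b (u a)) v w +
      d3 s t r u (Pi.single b (v a)) w + d3 s t r u v (Pi.single b (w a)) := by
  simp only [d3, map_sub, map_add, Derivation.leibniz, smul_eq_mul, Dv_li, Dv_d2]
  ring

/-- coordinate vectors and monomials are enough -/
theorem R2_of {Θ : Du ι σ} (h : ∀ s t r : ι, s ≠ t → s ≠ r → t ≠ r → ∀ (a b c : σ)
    (e : ι × σ →₀ ℕ), Θ (monomial e 1 * d3 s t r (Pi.single a 1) (Pi.single b 1)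
      (Pi.single c 1)) = 0) : R2 Θ := by
  intro s t r hst hsr htr u v w f
  have h1 : ∀ (a b c : σ) (f : Pl ι σ),
      Θ (f * d3 s t r (Pi.single a 1) (Pi.single b 1) (Pi.single c 1)) = 0 := by
    intro a b c f
    induction f using MvPolynomial.induction_on' with
    | monomial e x =>
      have : (monomial e x : Pl ι σ) = x • monomial e 1 := by
        rw [smul_monomial, smul_eq_mul, mul_one]
      rw [this, smul_mul_assoc, map_smul, h s t r hst hsr htr a b c e, smul_zero]
    | add p q hp hq => rw [add_mul, map_add, hp, hq, add_zero]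
  rw [vec_sum u, vec_sum v, vec_sum w]
  simp only [d3_sum1, d3_sum2, d3_sum3, d3_smul1, d3_smul2, d3_smul3, Finset.mul_sum,
    mul_smul_comm, map_sum, map_smul, h1, smul_zero, Finset.sum_const_zero]

end Pool.Agent.H69.V2
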