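import Pool.Agent.H69.V2.FDefs

/-!
Multihomogeneous polynomials and products of functionals (project V2, row F2).
-/

set_option linter.unusedSectionVars false

namespace Pool.Agent.H69.V2

open scoped BigOperators
open MvPolynomial

variable {ι κ lam σ τ υ R : Type} [Fintype σ] [DecidableEq σ] [Fintype τ] [DecidableEq τ]
  [Fintype υ] [DecidableEq υ]

theorem Mh_monomial (e : ι × σ →₀ ℕ) (c : ℂ) : Mh (fun s => ∑ k, e (s, k)) (monomial e c) := by
  classical
  intro e' he' s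
  rw [coeff_monomial] at he'
  split_ifs at he' with h
  · rw [h]
  · exact absurd rfl he'

theorem Mh_zero (d : ι → ℕ) : Mh d (0 : Pl ι σ) := by
  intro e he
  simp at he

theorem Mh_add {d : ι → ℕ} {f g : Pl ι σ} (hf : Mh d f) (hg : Mh d g) : Mh d (f + g) := by
  intro e he s
  by_cases h : coeff e f = 0
  · refine hg e ?_ s
    intro h'
    apply he
    rw [coeff_add, h, h', add_zero]
  · exact hf e h s

theorem Mh_smul {d : ι → ℕ} {f : Pl ι σ} (hf : Mh d f) (c : ℂ) : Mh d (c • f) := by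
  intro e he s
  refine hf e ?_ s
  intro h'
  apply he
  rw [coeff_smul, h', smul_zero]

theorem Mh_mul {d d' : ι → ℕ} {f g : Pl ι σ} (hf : Mh d f) (hg : Mh d' g) :
    Mh (d + d') (f * g) := by
  classical
  intro e he s
  rw [coeff_mul] at he
  obtain ⟨p, hp, hpe⟩ := Finset.exists_ne_zero_of_sum_ne_zero he
  have h1 := hf p.1 (left_ne_zero_of_mul hpe) s
  have h2 := hg p.2 (right_ne_zero_of_mul hpe) s
  rw [Finset.HasAntidiagonal.mem_antidiagonal] at hp
  rw [← hp, Pi.add_apply, ← h1, ← h2, ← Finset.sum_add_distrib]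
  rfl

namespace F2X

theorem Mh_sum {α : Type} {d : ι → ℕ} (S : Finset α) {F : α → Pl ι σ} (h : ∀ a ∈ S, Mh d (F a)) :
    Mh d (∑ a ∈ S, F a) := by
  classical
  induction S using Finset.induction_on with
  | empty => rw [Finset.sum_empty]; exact Mh_zero d
  | insert a S ha ih =>
    rw [Finset.sum_insert ha]
    exact Mh_add (h a (Finset.mem_insert_self a S))
      (ih fun b hb => h b (Finset.mem_insert_of_mem hb))

theorem Mh_one : Mh (0 : ι → ℕ) (1 : Pl ι σ) := by
  classical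
  intro e he s
  rw [coeff_one] at he
  split_ifs at he with h
  · rw [← h]; simp
  · exact absurd rfl he

theorem Mh_pow {d : ι → ℕ} {f : Pl ι σ} (hf : Mh d f) (n : ℕ) : Mh (n • d) (f ^ n) := by
  induction n with
  | zero => rw [zero_smul, pow_zero]; exact Mh_one
  | succ n ih => rw [pow_succ, succ_nsmul]; exact Mh_mul ih hf

theorem sum_single [DecidableEq ι] (s t : ι) (k : σ) (n : ℕ) :
    ∑ k', (Finsupp.single (s, k) n : ι × σ →₀ ℕ) (t, k') = n * (Pi.single s 1 : ι → ℕ) t := by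
  classical
  by_cases h : t = s
  · subst h
    rw [Pi.single_eq_same, Finset.sum_eq_single k]
    · simp
    · intro k' _ hk'
      rw [Finsupp.single_eq_of_ne]
      intro h'
      exact hk' (Prod.mk.inj h').2
    · intro hk
      exact absurd (Finset.mem_univ k) hk
  · rw [Pi.single_eq_of_ne h, mul_zero]
    refine Finset.sum_eq_zero fun k' _ => ?_
    rw [Finsupp.single_eq_of_ne]
    intro h'
    exact h (Prod.mk.inj h').1

/-- a polynomial as a sum of monomials -/
theorem as_sum' (f : Pl ι σ) : f = ∑ e ∈ f.support, coeff e f • monomial e (1 : ℂ) := by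
  conv_lhs => rw [f.as_sum]
  refine Finset.sum_congr rfl fun e _ => ?_
  rw [smul_monomial, smul_eq_mul, mul_one]

/-- a linear map that preserves multihomogeneity of monomials -/
theorem Mh_lin {κ : Type} {d : ι → ℕ} {d' : κ → ℕ} (φ : Pl ι σ →ₗ[ℂ] Pl κ τ)
    (h : ∀ e : ι × σ →₀ ℕ, (∀ s, ∑ k, e (s, k) = d s) → Mh d' (φ (monomial e 1)))
    {f : Pl ι σ} (hf : Mh d f) : Mh d' (φ f) := by
  rw [as_sum' f, map_sum]
  refine Mh_sum _ fun e he => ?_
  rw [map_smul]
  exact Mh_smul (h e (hf e (mem_support_iff.mp he))) _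

end F2X

open F2X

theorem Mh_li [DecidableEq ι] (s : ι) (u : σ → ℂ) : Mh (Pi.single s 1) (li s u) := by
  unfold li
  refine Mh_sum _ fun k _ => ?_
  have h := Mh_monomial (Finsupp.single (s, k) 1) (u k)
  have h1 : (fun t => ∑ k', (Finsupp.single (s, k) 1 : ι × σ →₀ ℕ) (t, k')) =
      (Pi.single s 1 : ι → ℕ) := by
    funext t
    rw [sum_single, one_mul]
  rw [h1] at h
  have h2 : (C (u k) * X (s, k) : Pl ι σ) = monomial (Finsupp.single (s, k) 1) (u k) := by
    rw [X, C_mul_monomial, mul_one]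
  rw [h2]
  exact h

theorem Mh_at [DecidableEq ι] {q : ℕ} (s : ι) {β : MvPolynomial σ ℂ} (h : β.IsHomogeneous q) :
    Mh (Pi.single s q) (at' s β) := by
  intro e he t
  unfold at' at he
  obtain ⟨u, hu, hc⟩ := coeff_rename_ne_zero _ _ _ he
  have hinj : Function.Injective (fun k : σ => (s, k)) := fun a b hab => (Prod.mk.inj hab).2
  have hdeg : ∑ k, u k = q := by
    have := h hc
    rw [Finsupp.weight_apply, Finsupp.sum_fintype _ _ (by simp)] at this
    simpa using this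
  rw [← hu]
  by_cases ht : t = s
  · subst ht
    rw [Pi.single_eq_same, ← hdeg]
    refine Finset.sum_congr rfl fun k _ => ?_
    exact Finsupp.mapDomain_apply hinj u k
  · rw [Pi.single_eq_of_ne ht]
    refine Finset.sum_eq_zero fun k _ => ?_
    refine Finsupp.mapDomain_notin_range _ _ ?_
    rintro ⟨k', hk'⟩
    exact ht (Prod.mk.inj hk').1.symm

theorem Mh_sb {d : ι → ℕ} (g : σ → τ → ℂ) {f : Pl ι σ} (hf : Mh d f) : Mh d (sb g f) := by
  classical
  have key : ∀ e : ι × σ →₀ ℕ, Mh (fun s => ∑ k, e (s, k)) (sb g (monomial e 1)) := by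
    intro e
    induction e using Finsupp.induction_linear with
    | zero =>
      have h1 : (fun s : ι => ∑ k, (0 : ι × σ →₀ ℕ) (s, k)) = 0 := by
        funext s; simp
      rw [h1, show (monomial (0 : ι × σ →₀ ℕ) (1 : ℂ)) = 1 from rfl, map_one]
      exact Mh_one
    | add e e' h h' =>
      have h1 : (fun s : ι => ∑ k, (e + e') (s, k)) =
          (fun s => ∑ k, e (s, k)) + fun s => ∑ k, e' (s, k) := by
        funext s
        simp [Finset.sum_add_distrib]
      have h2 : (monomial (e + e') (1 : ℂ)) = monomial e 1 * monomial e' 1 := by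
        rw [monomial_mul, mul_one]
      rw [h1, h2, map_mul]
      exact Mh_mul h h'
    | single p n =>
      have h1 : (fun s : ι => ∑ k, (Finsupp.single p n : ι × σ →₀ ℕ) (s, k)) =
          n • (Pi.single p.1 1 : ι → ℕ) := by
        funext s
        obtain ⟨t, k⟩ := p
        rw [sum_single, Pi.smul_apply, smul_eq_mul]
      have h2 : (monomial (Finsupp.single p n) (1 : ℂ)) = X p ^ n := by
        rw [X_pow_eq_monomial]
      have h3 : sb g (X p : Pl ι σ) = li p.1 (g p.2) := by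
        unfold sb
        rw [aeval_X]
      rw [h1, h2, map_pow, h3]
      exact Mh_pow (Mh_li _ _) n
  refine Mh_lin (sb g).toLinearMap (fun e he => ?_) hf
  have h1 : (fun s => ∑ k, e (s, k)) = d := funext he
  rw [← h1]
  exact key e

theorem Mh_rs {d : κ → ℕ} {h : ι → κ} (hh : Function.Injective h) (hd : ∀ t, t ∉ Set.range h →
    d t = 0) {f : Pl ι σ} (hf : Mh (d ∘ h) f) : Mh d (rs h f) := by
  intro e he t
  unfold rs at he
  obtain ⟨u, hu, hc⟩ := coeff_rename_ne_zero _ _ _ he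
  have hinj : Function.Injective (Prod.map h (id : σ → σ)) := hh.prodMap Function.injective_id
  rw [← hu]
  by_cases ht : t ∈ Set.range h
  · obtain ⟨s, rfl⟩ := ht
    have h1 := hf u hc s
    rw [Function.comp_apply] at h1
    rw [← h1]
    refine Finset.sum_congr rfl fun k _ => ?_
    exact Finsupp.mapDomain_apply hinj u (s, k)
  · rw [hd t ht]
    refine Finset.sum_eq_zero fun k _ => ?_
    refine Finsupp.mapDomain_notin_range _ _ ?_
    rintro ⟨p, hp⟩
    exact ht ⟨p.1, (Prod.mk.inj hp).1⟩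

theorem Hg_ap {dg d : ι → ℕ} {Θ : Du ι σ} (h : Hg dg Θ) {f : Pl ι σ} (hf : Mh d f)
    (hd : ∃ s, d s ≠ dg s) : Θ f = 0 := by
  rw [as_sum' f, map_sum]
  refine Finset.sum_eq_zero fun e he => ?_
  rw [map_smul, h e, smul_zero]
  obtain ⟨s, hs⟩ := hd
  exact ⟨s, by rw [hf e (mem_support_iff.mp he) s]; exact hs⟩

theorem Hg_sb {dg : ι → ℕ} (g : σ → τ → ℂ) {θ : Du ι τ} (h : Hg dg θ) :
    Hg dg (θ.comp (sb g).toLinearMap) := by
  intro e he
  exact Hg_ap h (Mh_sb g (Mh_monomial e 1)) he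

namespace F2X

theorem Mh_Dv (a b : σ) (e : ι × σ →₀ ℕ) :
    Mh (fun s => ∑ k, e (s, k)) (Dv a b (monomial e 1 : Pl ι σ)) := by
  classical
  unfold Dv
  rw [mkDerivation_monomial, one_smul]
  refine Mh_sum _ fun p hp => ?_
  beta_reduce
  rw [smul_eq_mul]
  by_cases ha : p.2 = a
  · rw [if_pos ha]
    have h1 : Mh (fun s => ∑ k, (e - Finsupp.single p 1 : ι × σ →₀ ℕ) (s, k))
        (monomial (e - Finsupp.single p 1) ((e p : ℕ) : ℂ)) := Mh_monomial _ _
    have h2 : Mh (fun s => ∑ k, (Finsupp.single (p.1, b) 1 : ι × σ →₀ ℕ) (s, k))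
        (X (p.1, b) : Pl ι σ) := Mh_monomial _ _
    have h3 := Mh_mul h1 h2
    have h4 : (fun s => ∑ k, (e - Finsupp.single p 1 : ι × σ →₀ ℕ) (s, k)) +
        (fun s => ∑ k, (Finsupp.single (p.1, b) 1 : ι × σ →₀ ℕ) (s, k)) =
        fun s => ∑ k, e (s, k) := by
      funext s
      have h5 : e = (e - Finsupp.single p 1) + Finsupp.single p 1 := by
        rw [tsub_add_cancel_of_le]
        rw [Finsupp.single_le_iff]
        exact Nat.one_le_iff_ne_zero.mpr (Finsupp.mem_support_iff.mp hp)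
      have h6 : ∑ k, e (s, k) = ∑ k, (e - Finsupp.single p 1 : ι × σ →₀ ℕ) (s, k) +
          ∑ k, (Finsupp.single p 1 : ι × σ →₀ ℕ) (s, k) := by
        conv_lhs => rw [h5]
        rw [← Finset.sum_add_distrib]
        rfl
      rw [Pi.add_apply, h6]
      have h7 : ∑ k, (Finsupp.single p 1 : ι × σ →₀ ℕ) (s, k) =
          ∑ k, (Finsupp.single (p.1, b) 1 : ι × σ →₀ ℕ) (s, k) := by
        obtain ⟨t, k⟩ := p
        rw [sum_single, sum_single]
      rw [h7]
    rw [h4] at h3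
    exact h3
  · rw [if_neg ha, mul_zero]
    exact Mh_zero _

end F2X

theorem Hg_Dv {dg : ι → ℕ} (a b : σ) {Θ : Du ι σ} (h : Hg dg Θ) :
    Hg dg (Θ.comp (DvL a b)) := by
  intro e he
  exact Hg_ap h (Mh_Dv a b e) he

theorem Hg_rs {dg : κ → ℕ} (h : ι ≃ κ) {Θ : Du κ σ} (hΘ : Hg dg Θ) :
    Hg (dg ∘ h) (Θ.comp (rs h).toLinearMap) := by
  intro e he
  obtain ⟨s, hs⟩ := he
  have h1 : Mh ((fun s => ∑ k, e (s, k)) ∘ h.symm) (rs h (monomial e (1 : ℂ))) := by
    refine Mh_rs h.injective (fun t ht => absurd ⟨h.symm t, h.apply_symm_apply t⟩ ht) ?_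
    have h2 : ((fun s => ∑ k, e (s, k)) ∘ h.symm) ∘ h = fun s => ∑ k, e (s, k) := by
      funext s
      simp
    rw [h2]
    exact Mh_monomial e 1
  refine Hg_ap hΘ h1 ⟨h s, ?_⟩
  simpa using hs

namespace F2X

/-- the left part of an exponent -/
noncomputable def cl (e : (ι ⊕ κ) × σ →₀ ℕ) : ι × σ →₀ ℕ :=
  e.comapDomain (fun p : ι × σ => (Sum.inl p.1, p.2))
      (fun p _ p' _ h => by
        simp only [Prod.mk.injEq, Sum.inl.injEq] at h
        exact Prod.ext h.1 h.2)

/-- the right part of an exponent -/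
noncomputable def cr (e : (ι ⊕ κ) × σ →₀ ℕ) : κ × σ →₀ ℕ :=
  e.comapDomain (fun p : κ × σ => (Sum.inr p.1, p.2))
      (fun p _ p' _ h => by
        simp only [Prod.mk.injEq, Sum.inr.injEq] at h
        exact Prod.ext h.1 h.2)

theorem cl_apply (e : (ι ⊕ κ) × σ →₀ ℕ) (s : ι) (k : σ) : cl e (s, k) = e (Sum.inl s, k) := rfl

theorem cr_apply (e : (ι ⊕ κ) × σ →₀ ℕ) (s : κ) (k : σ) : cr e (s, k) = e (Sum.inr s, k) := rfl

theorem pr_monomial (θ : Du ι σ) (η : Du κ σ) (e : (ι ⊕ κ) × σ →₀ ℕ) (c : ℂ) :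
    pr θ η (monomial e c) = c * (θ (monomial (cl e) 1) * η (monomial (cr e) 1)) := by
  have h1 : (monomial e c : Pl (ι ⊕ κ) σ) = c • basisMonomials ((ι ⊕ κ) × σ) ℂ e := by
    rw [coe_basisMonomials, smul_monomial, smul_eq_mul, mul_one]
  rw [h1, map_smul, smul_eq_mul]
  congr 1
  unfold pr
  rw [Module.Basis.constr_basis]
  rfl

theorem inlinj : Function.Injective (Prod.map (Sum.inl : ι → ι ⊕ κ) (id : σ → σ)) :=
  Sum.inl_injective.prodMap Function.injective_id

theorem inrinj : Function.Injective (Prod.map (Sum.inr : κ → ι ⊕ κ) (id : σ → σ)) :=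
  Sum.inr_injective.prodMap Function.injective_id

theorem ml_inl (u : ι × σ →₀ ℕ) (s : ι) (k : σ) :
    (u.mapDomain (Prod.map (Sum.inl : ι → ι ⊕ κ) (id : σ → σ))) (Sum.inl s, k) = u (s, k) :=
  Finsupp.mapDomain_apply inlinj u (s, k)

theorem mr_inr (v : κ × σ →₀ ℕ) (s : κ) (k : σ) :
    (v.mapDomain (Prod.map (Sum.inr : κ → ι ⊕ κ) (id : σ → σ))) (Sum.inr s, k) = v (s, k) :=
  Finsupp.mapDomain_apply inrinj v (s, k)

theorem ml_inr (u : ι × σ →₀ ℕ) (s : κ) (k : σ) :
    (u.mapDomain (Prod.map (Sum.inl : ι → ι ⊕ κ) (id : σ → σ))) (Sum.inr s, k) = 0 := by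
  refine Finsupp.mapDomain_notin_range _ _ ?_
  rintro ⟨p, hp⟩
  have := (Prod.mk.inj hp).1
  simp at this

theorem mr_inl (v : κ × σ →₀ ℕ) (s : ι) (k : σ) :
    (v.mapDomain (Prod.map (Sum.inr : κ → ι ⊕ κ) (id : σ → σ))) (Sum.inl s, k) = 0 := by
  refine Finsupp.mapDomain_notin_range _ _ ?_
  rintro ⟨p, hp⟩
  have := (Prod.mk.inj hp).1
  simp at this

theorem rs_mul_monomial (u : ι × σ →₀ ℕ) (v : κ × σ →₀ ℕ) (a b : ℂ) :
    rs (Sum.inl : ι → ι ⊕ κ) (monomial u a) * rs (Sum.inr : κ → ι ⊕ κ) (monomial v b) =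
      monomial (u.mapDomain (Prod.map (Sum.inl : ι → ι ⊕ κ) (id : σ → σ)) +
        v.mapDomain (Prod.map (Sum.inr : κ → ι ⊕ κ) (id : σ → σ))) (a * b) := by
  unfold rs
  rw [rename_monomial, rename_monomial, monomial_mul]

end F2X

theorem pr_mul (θ : Du ι σ) (η : Du κ σ) (f : Pl ι σ) (g : Pl κ σ) :
    pr θ η (rs Sum.inl f * rs Sum.inr g) = θ f * η g := by
  induction f using MvPolynomial.induction_on' with
  | monomial u a =>
    induction g using MvPolynomial.induction_on' with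
    | monomial v b =>
      rw [rs_mul_monomial, pr_monomial]
      have h1 : cl (u.mapDomain (Prod.map (Sum.inl : ι → ι ⊕ κ) (id : σ → σ)) +
        v.mapDomain (Prod.map (Sum.inr : κ → ι ⊕ κ) (id : σ → σ))) = u := by
        ext ⟨s, k⟩
        rw [cl_apply, Finsupp.add_apply, ml_inl, mr_inl, add_zero]
      have h2 : cr (u.mapDomain (Prod.map (Sum.inl : ι → ι ⊕ κ) (id : σ → σ)) +
        v.mapDomain (Prod.map (Sum.inr : κ → ι ⊕ κ) (id : σ → σ))) = v := by
        ext ⟨s, k⟩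
        rw [cr_apply, Finsupp.add_apply, ml_inr, mr_inr, zero_add]
      rw [h1, h2]
      have h3 : (monomial u a : Pl ι σ) = a • monomial u 1 := by
        rw [smul_monomial, smul_eq_mul, mul_one]
      have h4 : (monomial v b : Pl κ σ) = b • monomial v 1 := by
        rw [smul_monomial, smul_eq_mul, mul_one]
      rw [h3, h4, map_smul, map_smul, smul_eq_mul, smul_eq_mul]
      ring
    | add p q hp hq =>
      rw [map_add, mul_add, map_add, hp, hq, map_add, mul_add]
  | add p q hp hq =>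
    rw [map_add, add_mul, map_add, hp, hq, map_add, add_mul]

theorem pr_add (θ θ' : Du ι σ) (η : Du κ σ) : pr (θ + θ') η = pr θ η + pr θ' η := by
  refine (basisMonomials ((ι ⊕ κ) × σ) ℂ).ext fun e => ?_
  rw [coe_basisMonomials, LinearMap.add_apply, pr_monomial, pr_monomial, pr_monomial,
    LinearMap.add_apply]
  ring

theorem Hg_pr {dg : ι → ℕ} {dg' : κ → ℕ} {θ : Du ι σ} {η : Du κ σ} (h : Hg dg θ)
    (h' : Hg dg' η) : Hg (Sum.elim dg dg') (pr θ η) := by
  intro e he
  rw [pr_monomial]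
  obtain ⟨s, hs⟩ := he
  rcases s with s | s
  · rw [h (cl e) ⟨s, hs⟩, zero_mul, mul_zero]
  · rw [h' (cr e) ⟨s, hs⟩, mul_zero, mul_zero]

/-- two functionals on a disjoint union of slots that agree on products are equal -/
theorem ext_pr {Θ Θ' : Du (ι ⊕ κ) σ} (h : ∀ (f : Pl ι σ) (g : Pl κ σ),
    Θ (rs Sum.inl f * rs Sum.inr g) = Θ' (rs Sum.inl f * rs Sum.inr g)) : Θ = Θ' := by
  refine (basisMonomials ((ι ⊕ κ) × σ) ℂ).ext fun e => ?_
  rw [coe_basisMonomials]
  have h1 := h (monomial (cl e) 1) (monomial (cr e) 1)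
  rw [rs_mul_monomial, mul_one] at h1
  have h2 : (cl e).mapDomain (Prod.map (Sum.inl : ι → ι ⊕ κ) (id : σ → σ)) +
      (cr e).mapDomain (Prod.map (Sum.inr : κ → ι ⊕ κ) (id : σ → σ)) = e := by
    ext ⟨s, k⟩
    rcases s with s | s
    · rw [Finsupp.add_apply, ml_inl, mr_inl, add_zero, cl_apply]
    · rw [Finsupp.add_apply, ml_inr, mr_inr, zero_add, cr_apply]
  rw [h2] at h1
  exact h1

end Pool.Agent.H69.V2
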