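import Pool.Agent.H69.V2.F1
import Pool.Agent.H69.V2.F2

/-!
Project V2, row F10: lifting for the exchange property.
-/

set_option linter.unusedSectionVars false

namespace Pool.Agent.H69.V2

open scoped BigOperators
open MvPolynomial

variable {ι κ lam σ τ υ R : Type} [Fintype σ] [DecidableEq σ] [Fintype τ] [DecidableEq τ]
  [Fintype υ] [DecidableEq υ]

namespace F10X

/-- the weight that counts the coordinate `a` -/
def wt (a : σ) : ι × σ → ℕ := fun p => if p.2 = a then 1 else 0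

/-- the lift of a functional, for coordinate vectors -/
noncomputable def ly (a b : σ) (Θ : Du ι σ) : Du ι σ :=
  (basisMonomials (ι × σ) ℂ).constr ℂ (fun e =>
    ((Finsupp.weight (wt a) e : ℕ) : ℂ)⁻¹ * Θ (Dv a b (monomial e 1)))

theorem ly_monomial (a b : σ) (Θ : Du ι σ) (e : ι × σ →₀ ℕ) :
    ly a b Θ (monomial e 1) =
      ((Finsupp.weight (wt a) e : ℕ) : ℂ)⁻¹ * Θ (Dv a b (monomial e 1)) := by
  have h := (basisMonomials (ι × σ) ℂ).constr_basis ℂ (fun e =>
    ((Finsupp.weight (wt a) e : ℕ) : ℂ)⁻¹ * Θ (Dv a b (monomial e 1))) e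
  rw [coe_basisMonomials] at h
  exact h

theorem ly_wh (a b : σ) (Θ : Du ι σ) {f : Pl ι σ} {N : ℕ}
    (hf : IsWeightedHomogeneous (wt a) f N) :
    ly a b Θ f = (N : ℂ)⁻¹ * Θ (Dv a b f) := by
  conv_lhs => rw [f.as_sum]
  conv_rhs => rw [f.as_sum]
  rw [map_sum, map_sum, map_sum, Finset.mul_sum]
  refine Finset.sum_congr rfl fun e he => ?_
  have hm : (monomial e (coeff e f) : Pl ι σ) = (coeff e f) • monomial e 1 := by
    rw [smul_monomial, smul_eq_mul, mul_one]
  rw [hm, map_smul, Derivation.map_smul, map_smul, ly_monomial, smul_eq_mul, smul_eq_mul,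
    hf (mem_support_iff.1 he)]
  ring

theorem Dv_X (a b : σ) (p : ι × σ) :
    Dv a b (X p : Pl ι σ) = if p.2 = a then X (p.1, b) else 0 := by
  rw [Dv, mkDerivation_X]

/-- exchange inside of a product -/
theorem exch {a b : σ} {Θ : Du ι σ} (h : YY (Pi.single a 1) (Pi.single b 1) Θ) (s t : ι)
    (g : Pl ι σ) : Θ (g * (X (t, b) * X (s, a))) = Θ (g * (X (t, a) * X (s, b))) := by
  by_cases hst : s = t
  · subst hst
    rw [mul_comm (X (s, b))]
  · have h1 := h s t hst g
    rw [d2, li_single, li_single, li_single, li_single, mul_sub, map_sub, sub_eq_zero] at h1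
    rw [mul_comm (X (t, b)), mul_comm (X (t, a)), h1]

theorem key {a b : σ} {Θ : Du ι σ} (h : YY (Pi.single a 1) (Pi.single b 1) Θ) (s : ι)
    (e : ι × σ →₀ ℕ) : ∀ g : Pl ι σ,
    Θ (g * (Dv a b (monomial e 1) * X (s, a))) =
      ((Finsupp.weight (wt a) e : ℕ) : ℂ) * Θ (g * (monomial e 1 * X (s, b))) := by
  have hadd : ∀ e e' : ι × σ →₀ ℕ, (∀ g : Pl ι σ,
      Θ (g * (Dv a b (monomial e 1) * X (s, a))) =
        ((Finsupp.weight (wt a) e : ℕ) : ℂ) * Θ (g * (monomial e 1 * X (s, b)))) →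
      (∀ g : Pl ι σ, Θ (g * (Dv a b (monomial e' 1) * X (s, a))) =
        ((Finsupp.weight (wt a) e' : ℕ) : ℂ) * Θ (g * (monomial e' 1 * X (s, b)))) →
      ∀ g : Pl ι σ, Θ (g * (Dv a b (monomial (e + e') 1) * X (s, a))) =
        ((Finsupp.weight (wt a) (e + e') : ℕ) : ℂ) *
          Θ (g * (monomial (e + e') 1 * X (s, b))) := by
    intro e e' he he' g
    have hm : (monomial (e + e') 1 : Pl ι σ) = monomial e 1 * monomial e' 1 := by
      rw [monomial_mul, one_mul]
    rw [hm, Derivation.leibniz, smul_eq_mul, smul_eq_mul]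
    have h1 := he (g * monomial e' 1)
    have h2 := he' (g * monomial e 1)
    have e1 : g * ((monomial e 1 * Dv a b (monomial e' 1) +
        monomial e' 1 * Dv a b (monomial e 1)) * X (s, a)) =
        (g * monomial e 1) * (Dv a b (monomial e' 1) * X (s, a)) +
        (g * monomial e' 1) * (Dv a b (monomial e 1) * X (s, a)) := by ring
    rw [e1, map_add, h1, h2, map_add, Nat.cast_add]
    have e2 : (g * monomial e 1) * (monomial e' 1 * X (s, b)) =
        g * (monomial e 1 * monomial e' 1 * X (s, b)) := by ring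
    have e3 : (g * monomial e' 1) * (monomial e 1 * X (s, b)) =
        g * (monomial e 1 * monomial e' 1 * X (s, b)) := by ring
    rw [e2, e3]
    ring
  have hone : ∀ (p : ι × σ) (g : Pl ι σ),
      Θ (g * (Dv a b (monomial (Finsupp.single p 1) 1) * X (s, a))) =
        ((Finsupp.weight (wt a) (Finsupp.single p 1) : ℕ) : ℂ) *
          Θ (g * (monomial (Finsupp.single p 1) 1 * X (s, b))) := by
    intro p g
    have hX : (monomial (Finsupp.single p 1) 1 : Pl ι σ) = X p := rfl
    have hw : Finsupp.weight (wt a) (Finsupp.single p 1) = (wt a p : ℕ) := by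
      rw [Finsupp.weight_single, one_smul]
    rw [hX, hw, Dv_X]
    by_cases hp : p.2 = a
    · rw [if_pos hp, wt, if_pos hp, Nat.cast_one, one_mul, exch h]
      have hp' : p = (p.1, a) := by rw [← hp]
      rw [← hp']
    · rw [if_neg hp, wt, if_neg hp, Nat.cast_zero, zero_mul, zero_mul, mul_zero, map_zero]
  have hzero : ∀ g : Pl ι σ, Θ (g * (Dv a b (monomial (0 : ι × σ →₀ ℕ) 1) * X (s, a))) =
      ((Finsupp.weight (wt a) (0 : ι × σ →₀ ℕ) : ℕ) : ℂ) *
        Θ (g * (monomial (0 : ι × σ →₀ ℕ) 1 * X (s, b))) := by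
    intro g
    have h1 : (monomial (0 : ι × σ →₀ ℕ) 1 : Pl ι σ) = 1 := rfl
    rw [h1, Derivation.map_one_eq_zero, zero_mul, mul_zero, map_zero, map_zero, Nat.cast_zero,
      zero_mul]
  induction e using Finsupp.induction_linear with
  | zero => exact hzero
  | add e e' he he' => exact hadd e e' he he'
  | single p m =>
    induction m with
    | zero => rw [Finsupp.single_zero]; exact hzero
    | succ m ih => rw [Finsupp.single_add]; exact hadd _ _ ih (hone p)

theorem wh_X (a : σ) (s : ι) (k : σ) :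
    IsWeightedHomogeneous (wt a) (X (s, k) : Pl ι σ) (if k = a then 1 else 0) :=
  isWeightedHomogeneous_X ℂ (wt a) (s, k)

theorem wh_m (a : σ) (e : ι × σ →₀ ℕ) :
    IsWeightedHomogeneous (wt a) (monomial e 1 : Pl ι σ) (Finsupp.weight (wt a) e) :=
  isWeightedHomogeneous_monomial (wt a) e 1 rfl

theorem wh_cast {a : σ} {f : Pl ι σ} {m n : ℕ} (h : IsWeightedHomogeneous (wt a) f m)
    (hmn : m = n) : IsWeightedHomogeneous (wt a) f n := hmn ▸ h

theorem wh_d2 (a : σ) (s t : ι) (k l : σ) :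
    IsWeightedHomogeneous (wt a) (d2 s t (Pi.single k 1) (Pi.single l 1) : Pl ι σ)
      ((if k = a then 1 else 0) + (if l = a then 1 else 0)) := by
  rw [d2, li_single, li_single, li_single, li_single]
  exact ((wh_X a s k).mul (wh_X a t l)).sub
    (wh_cast ((wh_X a s l).mul (wh_X a t k)) (add_comm _ _))

theorem wh_d3 (a : σ) (s t r : ι) (k l m : σ) :
    IsWeightedHomogeneous (wt a)
      (d3 s t r (Pi.single k 1) (Pi.single l 1) (Pi.single m 1) : Pl ι σ)
      ((if k = a then 1 else 0) + (if l = a then 1 else 0) + (if m = a then 1 else 0)) := by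
  rw [d3, li_single, li_single, li_single]
  refine ((wh_cast ((wh_X a s k).mul (wh_d2 a t r l m)) ?_).sub
    (wh_cast ((wh_X a s l).mul (wh_d2 a t r k m)) ?_)).add
    (wh_cast ((wh_X a s m).mul (wh_d2 a t r k l)) ?_) <;> ring

theorem lin_ext0 {Θ : Du ι σ} {p : Pl ι σ}
    (h : ∀ e : ι × σ →₀ ℕ, Θ (monomial e 1 * p) = 0) (f : Pl ι σ) : Θ (f * p) = 0 := by
  rw [f.as_sum, Finset.sum_mul, map_sum]
  refine Finset.sum_eq_zero fun e _ => ?_
  have hm : (monomial e (coeff e f) : Pl ι σ) = (coeff e f) • monomial e 1 := by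
    rw [smul_monomial, smul_eq_mul, mul_one]
  rw [hm, smul_mul_assoc, map_smul, h e, smul_zero]

theorem ly_Hg {dg : ι → ℕ} (a b : σ) {Θ : Du ι σ} (h : Hg dg Θ) : Hg dg (ly a b Θ) := by
  intro e he
  rw [ly_monomial]
  have := Hg_Dv a b h e he
  have h2 : Θ (Dv a b (monomial e 1)) = 0 := this
  rw [h2, mul_zero]

theorem ly_R2 (a b : σ) {Θ : Du ι σ} (h : R2 Θ) : R2 (ly a b Θ) := by
  refine R2_of fun s t r hst hsr htr k l m e => ?_
  have h1 : Θ (Dv a b (monomial e 1 *
      d3 s t r (Pi.single k 1) (Pi.single l 1) (Pi.single m 1))) = 0 := by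
    rw [Derivation.leibniz, smul_eq_mul, smul_eq_mul, map_add, Dv_d3,
      mul_comm (d3 s t r _ _ _), h s t r hst hsr htr, add_zero, mul_add, mul_add, map_add,
      map_add, h s t r hst hsr htr, h s t r hst hsr htr, h s t r hst hsr htr]
    ring
  rw [ly_wh a b Θ ((wh_m a e).mul (wh_d3 a s t r k l m)), h1, mul_zero]

theorem ly_YY {a b : σ} (hab : a ≠ b) {Θ : Du ι σ}
    (h : YY (Pi.single a 1) (Pi.single b 1) Θ) :
    YY (Pi.single a 1) (Pi.single b 1) (ly a b Θ) := by
  intro s t hst f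
  refine lin_ext0 (fun e => ?_) f
  rw [ly_wh a b Θ ((wh_m a e).mul (wh_d2 a s t a b)), Derivation.leibniz, smul_eq_mul,
    smul_eq_mul, map_add, mul_comm (d2 s t _ _), h s t hst, Dv_d2, Pi.single_eq_same,
    Pi.single_eq_of_ne hab]
  have h1 : (d2 s t (Pi.single b 1) (Pi.single b 1) : Pl ι σ) = 0 := by
    rw [d2, sub_self]
  have h2 : (d2 s t (Pi.single a 1) (Pi.single b (0 : ℂ)) : Pl ι σ) = 0 := by
    have h3 : (Pi.single b (0 : ℂ) : σ → ℂ) = 0 := Pi.single_zero b
    have h4 : ∀ s : ι, (li s (0 : σ → ℂ) : Pl ι σ) = 0 := by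
      intro s
      simp [li]
    rw [h3, d2, h4, h4, mul_zero, zero_mul, sub_zero]
  rw [h1, h2]
  simp

theorem Dv_rs (a b : σ) (h : ι → κ) (f : Pl ι σ) :
    Dv a b (rs h f) = rs h (Dv a b f) := by
  induction f using MvPolynomial.induction_on with
  | C c =>
    have h1 : rs h (C c : Pl ι σ) = C c := by
      rw [rs, rename_C]
    rw [h1]
    have h2 : ∀ {ι' : Type}, Dv a b (C c : Pl ι' σ) = 0 := by
      intro ι'
      exact (Dv a b).map_algebraMap c
    rw [h2, h2, map_zero]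
  | add p q hp hq => rw [map_add, map_add, map_add, map_add, hp, hq]
  | mul_X p n hp =>
    have h1 : ∀ q : ι × σ, rs h (X q : Pl ι σ) = X (h q.1, q.2) := by
      intro q
      rw [rs, rename_X]
      rfl
    rw [map_mul, Derivation.leibniz, Derivation.leibniz, hp, h1, Dv_X, Dv_X, smul_eq_mul,
      smul_eq_mul, smul_eq_mul, smul_eq_mul, map_add, map_mul, map_mul, h1]
    by_cases hn : n.2 = a
    · rw [if_pos hn, if_pos hn, h1]
    · rw [if_neg hn, if_neg hn, map_zero]

theorem wt_map (a : σ) (h : ι → κ) (e : ι × σ →₀ ℕ) :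
    Finsupp.weight (wt a) (e.mapDomain (Prod.map h id)) = Finsupp.weight (wt a) e := by
  induction e using Finsupp.induction_linear with
  | zero => rw [Finsupp.mapDomain_zero, map_zero, map_zero]
  | add e e' he he' => rw [Finsupp.mapDomain_add, map_add, map_add, he, he']
  | single p m =>
    rw [Finsupp.mapDomain_single, Finsupp.weight_single, Finsupp.weight_single]
    rfl

theorem ly_rs (a b : σ) (h : ι → ι) (Θ : Du ι σ) {c : ℂ} (hΘ : ∀ f, Θ (rs h f) = c * Θ f)
    (f : Pl ι σ) : ly a b Θ (rs h f) = c * ly a b Θ f := by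
  rw [f.as_sum, map_sum, map_sum, map_sum, Finset.mul_sum]
  refine Finset.sum_congr rfl fun e _ => ?_
  have hm : (monomial e (coeff e f) : Pl ι σ) = (coeff e f) • monomial e 1 := by
    rw [smul_monomial, smul_eq_mul, mul_one]
  rw [hm, map_smul, map_smul, map_smul, rs_monomial, ly_monomial, ly_monomial, wt_map,
    ← rs_monomial, Dv_rs, hΘ, smul_eq_mul, smul_eq_mul]
  ring

/-- the case of two coordinate vectors -/
theorem Yonto0 [Fintype R] [DecidableEq R] {q : ℕ} {r : R → ℕ} {a b : σ} (hab : a ≠ b)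
    {x : Fam R σ} (hx : x ∈ DD q r σ ⊓ YD (Pi.single a 1) (Pi.single b 1)) :
    ∃ y ∈ DD q r σ ⊓ YD (Pi.single a 1) (Pi.single b 1),
      ∀ (j : ℕ) (s : R ⊕ Fin j) (f : Pl (R ⊕ Fin j) σ),
      y j (f * li s (Pi.single a 1)) = x j (f * li s (Pi.single b 1)) := by
  obtain ⟨⟨h1, h2, h3, h4⟩, h5⟩ := hx
  have h5' : ∀ j, YY (Pi.single a 1) (Pi.single b 1) (x j) := h5
  refine ⟨fun j => ly a b (x j), ⟨⟨fun j => ly_Hg a b (h1 j), fun j => ly_R2 a b (h2 j),
    fun j => ?_, fun j hj => ?_⟩, fun j => ly_YY hab (h5' j)⟩, fun j s f => ?_⟩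
  · intro c d hcd f
    have h6 : ∀ f, x j (rs (Equiv.swap (Sum.inr c) (Sum.inr d)) f) = (-1) * x j f := by
      intro f
      rw [h3 j c d hcd f, neg_one_mul]
    have h7 := ly_rs a b _ (x j) h6 f
    rw [neg_one_mul] at h7
    exact h7
  · refine (basisMonomials ((R ⊕ Fin j) × σ) ℂ).ext fun e => ?_
    rw [coe_basisMonomials]
    show ly a b (x j) (monomial e 1) = 0
    rw [ly_monomial, h4 j hj, LinearMap.zero_apply, mul_zero]
  · show ly a b (x j) (f * li s (Pi.single a 1)) = x j (f * li s (Pi.single b 1))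
    rw [li_single, li_single, f.as_sum, Finset.sum_mul, Finset.sum_mul, map_sum, map_sum]
    refine Finset.sum_congr rfl fun e _ => ?_
    have hm : (monomial e (coeff e f) : Pl (R ⊕ Fin j) σ) = (coeff e f) • monomial e 1 := by
      rw [smul_monomial, smul_eq_mul, mul_one]
    rw [hm, smul_mul_assoc, smul_mul_assoc, map_smul, map_smul,
      ly_wh a b (x j) ((wh_m a e).mul (wh_X a s a)), Derivation.leibniz, smul_eq_mul,
      smul_eq_mul, smul_eq_mul, smul_eq_mul, if_pos rfl, Dv_X, if_pos rfl, map_add,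
      mul_comm (X (s, a))]
    have h6 := key (h5' j) s e 1
    rw [one_mul, one_mul] at h6
    rw [h6, Nat.cast_add, Nat.cast_one]
    have hne : ((Finsupp.weight (wt a) e : ℕ) : ℂ) + 1 ≠ 0 := Nat.cast_add_one_ne_zero _
    field_simp
    ring

/-- a basis that starts with two given vectors -/
theorem exists_basis {z z' : σ → ℂ} (hz : LinearIndependent ℂ ![z, z']) :
    ∃ (B : Module.Basis σ ℂ (σ → ℂ)) (a b : σ), a ≠ b ∧ B a = z ∧ B b = z' := by
  classical
  let B := Module.Basis.sumExtend hz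
  have hB : ∀ i, B (Sum.inl i) = ![z, z'] i := by
    intro i
    simp only [B, Module.Basis.sumExtend, Module.Basis.reindex_apply, Equiv.symm_symm,
      Module.Basis.coe_extend]
    rfl
  let φ := B.indexEquiv (Pi.basisFun ℂ σ)
  refine ⟨B.reindex φ, φ (Sum.inl 0), φ (Sum.inl 1), ?_, ?_, ?_⟩
  · intro h
    have := φ.injective h
    simp at this
  · rw [Module.Basis.reindex_apply, Equiv.symm_apply_apply, hB]
    rfl
  · rw [Module.Basis.reindex_apply, Equiv.symm_apply_apply, hB]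
    rfl

theorem pullback [DecidableEq R] {q : ℕ} {r : R → ℕ} (g : σ → σ → ℂ) (u v u' v' : σ → ℂ)
    (hu : gv g u = u') (hv : gv g v = v') {x : Fam R σ} (hx : x ∈ DD q r σ ⊓ YD u' v') :
    (fun j => (x j).comp (sb g).toLinearMap : Fam R σ) ∈ DD q r σ ⊓ YD u v := by
  obtain ⟨⟨h1, h2, h3, h4⟩, h5⟩ := hx
  have h5' : ∀ j, YY u' v' (x j) := h5
  refine ⟨⟨fun j => Hg_sb g (h1 j), fun j => ?_, fun j => ?_, fun j hj => ?_⟩, fun j => ?_⟩
  · intro s t r' hst hsr htr a b c f
    show x j (sb g (f * d3 s t r' a b c)) = 0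
    rw [map_mul, sb_d3]
    exact h2 j s t r' hst hsr htr _ _ _ _
  · intro a b hab f
    show x j (sb g (rs _ f)) = - x j (sb g f)
    rw [sb_rs]
    exact h3 j a b hab _
  · show (x j).comp (sb g).toLinearMap = 0
    rw [h4 j hj, LinearMap.zero_comp]
  · intro s t hst f
    show x j (sb g (f * d2 s t u v)) = 0
    rw [map_mul, sb_d2, hu, hv]
    exact h5' j s t hst _

end F10X

open F10X in
theorem Yonto [Fintype R] [DecidableEq R] {q : ℕ} {r : R → ℕ} {z z' : σ → ℂ}
    (hz : LinearIndependent ℂ ![z, z']) {x : Fam R σ} (hx : x ∈ DD q r σ ⊓ YD z z') :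
    ∃ y ∈ DD q r σ ⊓ YD z z', ∀ (j : ℕ) (s : R ⊕ Fin j) (f : Pl (R ⊕ Fin j) σ),
      y j (f * li s z) = x j (f * li s z') := by
  obtain ⟨B, a, b, hab, ha, hb⟩ := exists_basis hz
  let g : σ → σ → ℂ := fun k => B k
  let h : σ → σ → ℂ := fun k l => B.repr (Pi.single k 1) l
  have hg : ∀ u : σ → ℂ, gv g u = ∑ k, u k • B k := by
    intro u
    ext l
    simp [gv, g]
  have hh : ∀ u : σ → ℂ, gv h u = fun l => B.repr u l := by
    intro u
    ext l
    have h1 : u = ∑ k, u k • (Pi.single k (1 : ℂ) : σ → ℂ) := by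
      ext m
      simp [Finset.sum_apply, Pi.single_apply]
    conv_rhs => rw [h1]
    simp [gv, h, Finsupp.finsetSum_apply]
  have hgh : ∀ u : σ → ℂ, gv g (gv h u) = u := by
    intro u
    rw [hg, hh]
    exact B.sum_repr u
  have hz1 : gv g (Pi.single a 1) = z := by rw [gv_single]; exact ha
  have hz2 : gv g (Pi.single b 1) = z' := by rw [gv_single]; exact hb
  have hhB : ∀ k, gv h (B k) = Pi.single k 1 := by
    intro k
    rw [hh, B.repr_self]
    ext l
    rw [Finsupp.single_apply, Pi.single_apply]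
    by_cases hkl : k = l
    · rw [if_pos hkl, if_pos hkl.symm]
    · rw [if_neg hkl, if_neg (Ne.symm hkl)]
  have hw1 : gv h z = Pi.single a 1 := by rw [← ha]; exact hhB a
  have hw2 : gv h z' = Pi.single b 1 := by rw [← hb]; exact hhB b
  obtain ⟨y, hy, hyx⟩ := Yonto0 hab (pullback g _ _ _ _ hz1 hz2 hx)
  refine ⟨fun j => (y j).comp (sb h).toLinearMap, pullback h _ _ _ _ hw1 hw2 hy,
    fun j s f => ?_⟩
  show y j (sb h (f * li s z)) = x j (f * li s z')
  rw [map_mul, sb_li, hw1, hyx]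
  show x j (sb g (sb h f * li s (Pi.single b 1))) = x j (f * li s z')
  rw [map_mul, sb_li, hz2, sb_sb]
  have hid : (fun k => gv g (h k)) = fun k => Pi.single k (1 : ℂ) := by
    funext k
    have h1 : h k = gv h (Pi.single k 1) := (gv_single h k).symm
    rw [h1]
    exact hgh _
  rw [hid, sb_id]

end Pool.Agent.H69.V2
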