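import Pool.Agent.H69.V2.FDefs

/-! Row F4: the pencil lemma. -/

set_option linter.unusedSectionVars false

namespace Pool.Agent.H69.V2

open scoped BigOperators

namespace F4X

/-- the eigenvalue argument -/
theorem core {V V' : Type} [AddCommGroup V] [Module ℂ V] [AddCommGroup V'] [Module ℂ V']
    (Z B : Submodule ℂ V) (Z' B' : Submodule ℂ V') [FiniteDimensional ℂ Z]
    (s1 s2 : V →ₗ[ℂ] V') (hZ1 : ∀ z ∈ Z, s1 z ∈ Z') (hZ2 : ∀ z ∈ Z, s2 z ∈ Z')
    (hB1 : ∀ z ∈ B, s1 z ∈ B') (hB2 : ∀ z ∈ B, s2 z ∈ B')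
    (surj : ∀ z' ∈ Z', ∃ z ∈ Z, s2 z = z')
    (inj : ∀ a c : ℂ, (a ≠ 0 ∨ c ≠ 0) → ∀ z ∈ Z, a • s1 z + c • s2 z ∈ B' → z ∈ B) : Z ≤ B := by
  classical
  intro z0 hz0
  by_contra hz0B
  let P : Submodule ℂ Z := B.comap Z.subtype
  let P' : Submodule ℂ Z' := B'.comap Z'.subtype
  let r1 : Z →ₗ[ℂ] Z' := s1.restrict hZ1
  let r2' : Z →ₗ[ℂ] Z' := s2.restrict hZ2
  have hr1 : P ≤ P'.comap r1 := by
    intro z hz
    exact hB1 _ hz
  have hr2 : P ≤ P'.comap r2' := by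
    intro z hz
    exact hB2 _ hz
  let H1 : (Z ⧸ P) →ₗ[ℂ] (Z' ⧸ P') := P.mapQ P' r1 hr1
  let H2 : (Z ⧸ P) →ₗ[ℂ] (Z' ⧸ P') := P.mapQ P' r2' hr2
  have hmk : ∀ z : Z, P.mkQ z = 0 ↔ (z : V) ∈ B := by
    intro z
    rw [Submodule.mkQ_apply, Submodule.Quotient.mk_eq_zero]
    exact Iff.rfl
  have hinj : Function.Injective H2 := by
    rw [injective_iff_map_eq_zero]
    intro q hq
    obtain ⟨z, rfl⟩ := Submodule.mkQ_surjective P q
    rw [hmk]
    have h : P'.mkQ (r2' z) = 0 := hq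
    rw [Submodule.mkQ_apply, Submodule.Quotient.mk_eq_zero] at h
    have h' : s2 (z : V) ∈ B' := h
    refine inj 0 1 (Or.inr one_ne_zero) z z.2 ?_
    simpa using h'
  have hsurj : Function.Surjective H2 := by
    intro q
    obtain ⟨z', rfl⟩ := Submodule.mkQ_surjective P' q
    obtain ⟨z, hz, hzz⟩ := surj z' z'.2
    refine ⟨P.mkQ ⟨z, hz⟩, ?_⟩
    change P'.mkQ (r2' ⟨z, hz⟩) = P'.mkQ z'
    congr 1
    exact Subtype.ext hzz
  let e : (Z ⧸ P) ≃ₗ[ℂ] (Z' ⧸ P') := LinearEquiv.ofBijective H2 ⟨hinj, hsurj⟩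
  let f : Module.End ℂ (Z ⧸ P) := e.symm.toLinearMap.comp H1
  have : Nontrivial (Z ⧸ P) := by
    refine ⟨⟨P.mkQ ⟨z0, hz0⟩, 0, ?_⟩⟩
    intro h
    rw [hmk] at h
    exact hz0B h
  obtain ⟨μ, hμ⟩ := Module.End.exists_eigenvalue f
  obtain ⟨q, hq⟩ := hμ.exists_hasEigenvector
  have hq1 : f q = μ • q := hq.apply_eq_smul
  have hq0 : q ≠ 0 := hq.2
  obtain ⟨z, rfl⟩ := Submodule.mkQ_surjective P q
  apply hq0
  rw [hmk]
  have h2 : H1 (P.mkQ z) = μ • H2 (P.mkQ z) := by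
    have h3 : e (f (P.mkQ z)) = H1 (P.mkQ z) := by
      change e (e.symm (H1 (P.mkQ z))) = _
      rw [LinearEquiv.apply_symm_apply]
    rw [← h3, hq1, map_smul]
    rfl
  refine inj 1 (-μ) (Or.inl one_ne_zero) z z.2 ?_
  have h4 : P'.mkQ (r1 z - μ • r2' z) = 0 := by
    rw [map_sub, map_smul]
    have h5 : P'.mkQ (r1 z) = H1 (P.mkQ z) := rfl
    have h6 : P'.mkQ (r2' z) = H2 (P.mkQ z) := rfl
    rw [h5, h6, h2, sub_self]
  rw [Submodule.mkQ_apply, Submodule.Quotient.mk_eq_zero] at h4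
  have h7 : s1 (z : V) - μ • s2 (z : V) ∈ B' := h4
  have h8 : (1 : ℂ) • s1 (z : V) + (-μ) • s2 (z : V) = s1 (z : V) - μ • s2 (z : V) := by
    rw [one_smul, neg_smul, sub_eq_add_neg]
  rw [h8]
  exact h7

theorem self_neg {V : Type} [AddCommGroup V] [Module ℂ V] {v : V} (h : v = -v) : v = 0 := by
  have h2 : (2 : ℂ) • v = 0 := by
    rw [two_smul]
    nth_rewrite 2 [h]
    exact add_neg_cancel v
  rcases smul_eq_zero.1 h2 with h3 | h3
  · norm_num at h3
  · exact h3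

end F4X

open F4X

theorem pencil {V V' : Type} [AddCommGroup V] [Module ℂ V] [AddCommGroup V'] [Module ℂ V']
    {n : ℕ} {b : ℕ → V →ₗ[ℂ] V} {b' : ℕ → V' →ₗ[ℂ] V'} {D : Submodule ℂ V} {D' : Submodule ℂ V'}
    [FiniteDimensional ℂ D] [FiniteDimensional ℂ D']
    (hb : ∀ i, ∀ x ∈ D, b i x ∈ D) (hb' : ∀ i, ∀ x ∈ D', b' i x ∈ D')
    (an : ∀ i j, ∀ x ∈ D, b i (b j x) = - b j (b i x))
    (an' : ∀ i j, ∀ x ∈ D', b' i (b' j x) = - b' j (b' i x)) {s1 s2 : V →ₗ[ℂ] V'}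
    (h1 : ∀ x ∈ D, s1 x ∈ D') (h2 : ∀ x ∈ D, s2 x ∈ D')
    (c1 : ∀ i, ∀ x ∈ D, s1 (b i x) = b' i (s1 x)) (c2 : ∀ i, ∀ x ∈ D, s2 (b i x) = b' i (s2 x))
    (onto : ∀ a c : ℂ, (a ≠ 0 ∨ c ≠ 0) → ∀ y ∈ D', ∃ x ∈ D, a • s1 x + c • s2 x = y)
    (ker : ∀ a c : ℂ, (a ≠ 0 ∨ c ≠ 0) → XX n b (D ⊓ LinearMap.ker (a • s1 + c • s2))) :
    XX n b D ∧ XX n b' D' := by
  classical
  -- commutation
  have cc : ∀ a c : ℂ, ∀ i, ∀ x ∈ D, a • s1 (b i x) + c • s2 (b i x) =
      b' i (a • s1 x + c • s2 x) := by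
    intro a c i x hx
    rw [c1 i x hx, c2 i x hx, map_add, map_smul, map_smul]
  -- the elements killed by the first k operators are mapped onto those of D'
  have S : ∀ k ≤ n, ∀ a c : ℂ, (a ≠ 0 ∨ c ≠ 0) → ∀ y ∈ D', (∀ i < k, b' i y = 0) →
      ∃ x ∈ D, (∀ i < k, b i x = 0) ∧ a • s1 x + c • s2 x = y := by
    intro k
    induction k with
    | zero =>
      intro _ a c hac y hy _
      obtain ⟨x, hx, hxy⟩ := onto a c hac y hy
      exact ⟨x, hx, fun i hi => absurd hi (Nat.not_lt_zero i), hxy⟩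
    | succ k ih =>
      intro hk a c hac y hy hy0
      obtain ⟨w, hw, hw0, hwy⟩ := ih (Nat.le_of_succ_le hk) a c hac y hy
        (fun i hi => hy0 i (Nat.lt_succ_of_lt hi))
      have hbw : b k w ∈ D ⊓ LinearMap.ker (a • s1 + c • s2) := by
        refine ⟨hb k w hw, ?_⟩
        change a • s1 (b k w) + c • s2 (b k w) = 0
        rw [cc a c k w hw, hwy, hy0 k (Nat.lt_succ_self k)]
      have hbw0 : ∀ i ≤ k, b i (b k w) = 0 := by
        intro i hi
        rcases Nat.lt_or_eq_of_le hi with h | h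
        · rw [an i k w hw, hw0 i h, map_zero, neg_zero]
        · subst h
          exact self_neg (an i i w hw)
      obtain ⟨w1, hw1, hw1k, hw10⟩ := ker a c hac k (Nat.lt_of_succ_le hk) (b k w) hbw hbw0
      have hw1s : a • s1 w1 + c • s2 w1 = 0 := hw1.2
      refine ⟨w - w1, D.sub_mem hw hw1.1, ?_, ?_⟩
      · intro i hi
        rcases Nat.lt_or_eq_of_le (Nat.lt_succ_iff.1 hi) with h | h
        · rw [map_sub, hw0 i h, hw10 i h, sub_zero]
        · subst h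
          rw [map_sub, hw1k, sub_self]
      · rw [map_sub, map_sub, smul_sub, smul_sub]
        have : a • s1 w - a • s1 w1 + (c • s2 w - c • s2 w1) =
          (a • s1 w + c • s2 w) - (a • s1 w1 + c • s2 w1) := by abel
        rw [this, hwy, hw1s, sub_zero]
  -- exactness in D
  have X : ∀ k < n, ∀ x ∈ D, (∀ i ≤ k, b i x = 0) → ∃ y ∈ D, b k y = x ∧ ∀ i < k, b i y = 0 := by
    intro k hk
    let Z : Submodule ℂ V :=
      { carrier := {x | x ∈ D ∧ ∀ i ≤ k, b i x = 0}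
        add_mem' := fun {x y} hx hy => ⟨D.add_mem hx.1 hy.1, fun i hi => by
          rw [map_add, hx.2 i hi, hy.2 i hi, add_zero]⟩
        zero_mem' := ⟨D.zero_mem, fun i _ => map_zero _⟩
        smul_mem' := fun r x hx => ⟨D.smul_mem r hx.1, fun i hi => by
          rw [map_smul, hx.2 i hi, smul_zero]⟩ }
    let Z' : Submodule ℂ V' :=
      { carrier := {x | x ∈ D' ∧ ∀ i ≤ k, b' i x = 0}
        add_mem' := fun {x y} hx hy => ⟨D'.add_mem hx.1 hy.1, fun i hi => by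
          rw [map_add, hx.2 i hi, hy.2 i hi, add_zero]⟩
        zero_mem' := ⟨D'.zero_mem, fun i _ => map_zero _⟩
        smul_mem' := fun r x hx => ⟨D'.smul_mem r hx.1, fun i hi => by
          rw [map_smul, hx.2 i hi, smul_zero]⟩ }
    let B : Submodule ℂ V :=
      { carrier := {x | ∃ y ∈ D, b k y = x ∧ ∀ i < k, b i y = 0}
        add_mem' := by
          rintro x x2 ⟨y, hy, hyx, hy0⟩ ⟨y2, hy2, hyx2, hy02⟩
          exact ⟨y + y2, D.add_mem hy hy2, by rw [map_add, hyx, hyx2], fun i hi => by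
            rw [map_add, hy0 i hi, hy02 i hi, add_zero]⟩
        zero_mem' := ⟨0, D.zero_mem, map_zero _, fun i _ => map_zero _⟩
        smul_mem' := by
          rintro r x ⟨y, hy, hyx, hy0⟩
          exact ⟨r • y, D.smul_mem r hy, by rw [map_smul, hyx], fun i hi => by
            rw [map_smul, hy0 i hi, smul_zero]⟩ }
    let B' : Submodule ℂ V' :=
      { carrier := {x | ∃ y ∈ D', b' k y = x ∧ ∀ i < k, b' i y = 0}
        add_mem' := by
          rintro x x2 ⟨y, hy, hyx, hy0⟩ ⟨y2, hy2, hyx2, hy02⟩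
          exact ⟨y + y2, D'.add_mem hy hy2, by rw [map_add, hyx, hyx2], fun i hi => by
            rw [map_add, hy0 i hi, hy02 i hi, add_zero]⟩
        zero_mem' := ⟨0, D'.zero_mem, map_zero _, fun i _ => map_zero _⟩
        smul_mem' := by
          rintro r x ⟨y, hy, hyx, hy0⟩
          exact ⟨r • y, D'.smul_mem r hy, by rw [map_smul, hyx], fun i hi => by
            rw [map_smul, hy0 i hi, smul_zero]⟩ }
    have hZD : Z ≤ D := fun x hx => hx.1
    have : FiniteDimensional ℂ Z := Submodule.finiteDimensional_of_le hZD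
    have key : Z ≤ B := by
      refine core Z B Z' B' s1 s2 ?_ ?_ ?_ ?_ ?_ ?_
      · rintro z ⟨hz, hz0⟩
        exact ⟨h1 z hz, fun i hi => by rw [← c1 i z hz, hz0 i hi, map_zero]⟩
      · rintro z ⟨hz, hz0⟩
        exact ⟨h2 z hz, fun i hi => by rw [← c2 i z hz, hz0 i hi, map_zero]⟩
      · rintro z ⟨y, hy, hyz, hy0⟩
        exact ⟨s1 y, h1 y hy, by rw [← c1 k y hy, hyz], fun i hi => by
          rw [← c1 i y hy, hy0 i hi, map_zero]⟩
      · rintro z ⟨y, hy, hyz, hy0⟩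
        exact ⟨s2 y, h2 y hy, by rw [← c2 k y hy, hyz], fun i hi => by
          rw [← c2 i y hy, hy0 i hi, map_zero]⟩
      · rintro z' ⟨hz', hz0'⟩
        obtain ⟨x, hx, hx0, hxz⟩ := S (k + 1) (Nat.succ_le_of_lt hk) 0 1 (Or.inr one_ne_zero) z' hz'
          (fun i hi => hz0' i (Nat.lt_succ_iff.1 hi))
        refine ⟨x, ⟨hx, fun i hi => hx0 i (Nat.lt_succ_of_le hi)⟩, ?_⟩
        simpa using hxz
      · rintro a c hac z ⟨hz, hz0⟩ ⟨y2, hy2, hy2z, hy20⟩
        obtain ⟨y, hy, hy0, hyy⟩ := S k hk.le a c hac y2 hy2 hy20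
        have hm : z - b k y ∈ D ⊓ LinearMap.ker (a • s1 + c • s2) := by
          refine ⟨D.sub_mem hz (hb k y hy), ?_⟩
          have e1 : (a • s1 + c • s2) (b k y) = b' k y2 := by
            rw [← hyy, ← cc a c k y hy]
            rfl
          change (a • s1 + c • s2) (z - b k y) = 0
          rw [map_sub, e1, hy2z]
          exact sub_self _
        have hm0 : ∀ i ≤ k, b i (z - b k y) = 0 := by
          intro i hi
          rw [map_sub, hz0 i hi]
          rcases Nat.lt_or_eq_of_le hi with h | h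
          · rw [an i k y hy, hy0 i h, map_zero, neg_zero, sub_zero]
          · subst h
            rw [self_neg (an i i y hy), sub_zero]
        obtain ⟨y1, hy1, hy1k, hy10⟩ := ker a c hac k hk _ hm hm0
        refine ⟨y + y1, D.add_mem hy hy1.1, ?_, ?_⟩
        · rw [map_add, hy1k]
          abel
        · intro i hi
          rw [map_add, hy0 i hi, hy10 i hi, add_zero]
    intro x hx hx0
    exact key ⟨hx, hx0⟩
  refine ⟨X, ?_⟩
  intro k hk y hy hy0
  obtain ⟨z, hz, hz0, hzy⟩ := S (k + 1) (Nat.succ_le_of_lt hk) 1 0 (Or.inl one_ne_zero) y hy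
    (fun i hi => hy0 i (Nat.lt_succ_iff.1 hi))
  have hzy' : s1 z = y := by simpa using hzy
  obtain ⟨w, hw, hwz, hw0⟩ := X k hk z hz (fun i hi => hz0 i (Nat.lt_succ_of_le hi))
  exact ⟨s1 w, h1 w hw, by rw [← c1 k w hw, hwz, hzy'], fun i hi => by
    rw [← c1 i w hw, hw0 i hi, map_zero]⟩

end Pool.Agent.H69.V2
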