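import Pool.Agent.H69.V2.F3
import Pool.Agent.H69.V2.F4
import Pool.Agent.H69.V2.F10

/-! Row F11: the Y-step. -/

set_option linter.unusedSectionVars false

namespace Pool.Agent.H69.V2

open scoped BigOperators
open MvPolynomial

variable {ι κ lam σ τ υ R : Type} [Fintype σ] [DecidableEq σ] [Fintype τ] [DecidableEq τ]
  [Fintype υ] [DecidableEq υ]

namespace F11X

theorem li_comb (s : ι) (a c : ℂ) (u v : σ → ℂ) :
    li s (a • u + c • v) = a • li s u + c • li s v := by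
  simp only [li, Finset.smul_sum, ← Finset.sum_add_distrib]
  refine Finset.sum_congr rfl fun k _ => ?_
  simp only [Pi.add_apply, Pi.smul_apply, smul_eq_mul, C_add, C_mul, MvPolynomial.smul_eq_C_mul]
  ring

theorem rs_li' (h : ι → κ) (s : ι) (u : σ → ℂ) : rs h (li s u) = li (h s) u := by
  simp only [rs, li, map_sum, map_mul, rename_C, rename_X, Prod.map_apply, id_eq]

/-- moving a linear form out of a contraction -/
theorem bb_li (β : MvPolynomial σ ℂ) (x : Fam R σ) (j : ℕ) (s : R ⊕ Fin j) (u : σ → ℂ)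
    (f : Pl (R ⊕ Fin j) σ) :
    bb β x j (f * li s u) =
      x (j + 1) ((rs (Sum.map id Fin.succ) f * at' (Sum.inr 0) β) *
        li (Sum.map id Fin.succ s) u) := by
  show x (j + 1) (rs (Sum.map id Fin.succ) (f * li s u) * at' (Sum.inr 0) β) = _
  rw [map_mul (rs (σ := σ) (Sum.map id Fin.succ)) f (li s u), rs_li']
  congr 1
  ring

theorem bb_ap (β : MvPolynomial σ ℂ) (x : Fam R σ) (j : ℕ) (f : Pl (R ⊕ Fin j) σ) :
    bb β x j f = x (j + 1) (rs (Sum.map id Fin.succ) f * at' (Sum.inr 0) β) := rfl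

/-- the minor of a changed basis -/
theorem d2_comb (s t : ι) (a c a2 c2 : ℂ) (z z' : σ → ℂ) (hd : a * c2 - a2 * c = 1) :
    d2 s t (a • z + c • z') (a2 • z + c2 • z') = d2 s t z z' := by
  have h : d2 s t (a • z + c • z') (a2 • z + c2 • z') =
      C (a * c2 - a2 * c) * d2 s t z z' := by
    simp only [d2, li_comb, MvPolynomial.smul_eq_C_mul, C_sub, C_mul]
    ring
  rw [h, hd, C_1, one_mul]

theorem YD_comb {a c a2 c2 : ℂ} {z z' : σ → ℂ} (hd : a * c2 - a2 * c = 1) :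
    (YD (a • z + c • z') (a2 • z + c2 • z') : Submodule ℂ (Fam R σ)) = YD z z' := by
  ext x
  constructor
  · intro h j s t hst f
    have := h j s t hst f
    rwa [d2_comb s t a c a2 c2 z z' hd] at this
  · intro h j s t hst f
    rw [d2_comb s t a c a2 c2 z z' hd]
    exact h j s t hst f

theorem LI_comb {a c a2 c2 : ℂ} {z z' : σ → ℂ} (hd : a * c2 - a2 * c = 1)
    (hz : LinearIndependent ℂ ![z, z']) :
    LinearIndependent ℂ ![a • z + c • z', a2 • z + c2 • z'] := by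
  rw [LinearIndependent.pair_iff] at hz ⊢
  intro s t hst
  have h1 : (s * a + t * a2) • z + (s * c + t * c2) • z' = 0 := by
    rw [← hst]
    module
  obtain ⟨h2, h3⟩ := hz _ _ h1
  constructor
  · linear_combination c2 * h2 - a2 * h3 - s * hd
  · linear_combination a * h3 - c * h2 - t * hd

theorem exists_det {a c : ℂ} (h : a ≠ 0 ∨ c ≠ 0) : ∃ a2 c2 : ℂ, a * c2 - a2 * c = 1 := by
  rcases h with h | h
  · exact ⟨0, a⁻¹, by rw [mul_inv_cancel₀ h]; ring⟩
  · exact ⟨-c⁻¹, 0, by rw [neg_mul, inv_mul_cancel₀ h]; ring⟩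

theorem KK_YD {a c a2 c2 : ℂ} {z z' : σ → ℂ} (hd : a * c2 - a2 * c = 1) {T : Fam R σ}
    (hT : T ∈ (KK (a • z + c • z') : Submodule ℂ (Fam R σ))) :
    T ∈ (YD z z' : Submodule ℂ (Fam R σ)) := by
  rw [← YD_comb (R := R) (z := z) (z' := z') hd]
  intro j s t _ f
  have h1 := hT j s (f * li t (a2 • z + c2 • z'))
  have h2 := hT j t (f * li s (a2 • z + c2 • z'))
  have h3 : f * d2 s t (a • z + c • z') (a2 • z + c2 • z') =
      f * li t (a2 • z + c2 • z') * li s (a • z + c • z') -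
        f * li s (a2 • z + c2 • z') * li t (a • z + c • z') := by
    rw [d2]
    ring
  rw [h3, map_sub, h1, h2, sub_zero]

section
variable [Fintype R] [DecidableEq R]

/-- the pairs -/
def D1 (q : ℕ) (r : R → ℕ) (z z' : σ → ℂ) : Submodule ℂ (Fam R σ × Fam R σ) where
  carrier := {x | x.1 ∈ DD q r σ ⊓ YD z z' ∧ x.2 ∈ DD q r σ ⊓ YD z z' ∧
    ∀ (j : ℕ) (s : R ⊕ Fin j) (f : Pl (R ⊕ Fin j) σ),
      x.1 j (f * li s z') = x.2 j (f * li s z)}
  add_mem' := by
    rintro x y ⟨h1, h2, h3⟩ ⟨k1, k2, k3⟩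
    refine ⟨Submodule.add_mem _ h1 k1, Submodule.add_mem _ h2 k2, fun j s f => ?_⟩
    simp only [Prod.fst_add, Prod.snd_add, Pi.add_apply, LinearMap.add_apply, h3 j s f, k3 j s f]
  zero_mem' := ⟨Submodule.zero_mem _, Submodule.zero_mem _, fun _ _ _ => rfl⟩
  smul_mem' := by
    rintro c x ⟨h1, h2, h3⟩
    refine ⟨Submodule.smul_mem _ c h1, Submodule.smul_mem _ c h2, fun j s f => ?_⟩
    simp only [Prod.smul_fst, Prod.smul_snd, Pi.smul_apply, LinearMap.smul_apply, h3 j s f]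

theorem D1_fin (q : ℕ) (r : R → ℕ) (z z' : σ → ℂ) : FiniteDimensional ℂ (D1 q r z z') := by
  have h := DD_fin (σ := σ) q r
  have h1 : (DD q r σ).FG := (Submodule.fg_iff_finiteDimensional _).2 h
  have h2 : FiniteDimensional ℂ ((DD q r σ).prod (DD q r σ)) :=
    (Submodule.fg_iff_finiteDimensional _).1 (h1.prod h1)
  refine Submodule.finiteDimensional_of_le (S₂ := (DD q r σ).prod (DD q r σ)) ?_
  rintro x ⟨k1, k2, _⟩
  exact ⟨k1.1, k2.1⟩

theorem bb_D1 {q : ℕ} {r : R → ℕ} {z z' : σ → ℂ} {β : MvPolynomial σ ℂ}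
    (hβ : β.IsHomogeneous q) {x : Fam R σ × Fam R σ} (hx : x ∈ D1 q r z z') :
    (bb β).prodMap (bb β) x ∈ D1 q r z z' := by
  obtain ⟨h1, h2, h3⟩ := hx
  refine ⟨⟨bb_DD hβ h1.1, bb_YD β h1.2⟩, ⟨bb_DD hβ h2.1, bb_YD β h2.2⟩, fun j s f => ?_⟩
  show bb β x.1 j (f * li s z') = bb β x.2 j (f * li s z)
  rw [bb_li, bb_li]
  exact h3 (j + 1) _ _

/-- the map onto -/
theorem onto1 {q : ℕ} {r : R → ℕ} {z z' : σ → ℂ} (hz : LinearIndependent ℂ ![z, z']) {a c : ℂ}
    (hac : a ≠ 0 ∨ c ≠ 0) {y : Fam R σ} (hy : y ∈ DD q r σ ⊓ YD z z') :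
    ∃ x ∈ D1 q r z z', a • x.1 + c • x.2 = y := by
  obtain ⟨a2, c2, hd⟩ := exists_det hac
  have hy' : y ∈ DD q r σ ⊓ YD (a • z + c • z') (a2 • z + c2 • z') := by
    rw [YD_comb hd]
    exact hy
  obtain ⟨T, hT, hTy⟩ := Yonto (LI_comb hd hz) hy'
  rw [YD_comb hd] at hT
  refine ⟨(c2 • y - c • T, a • T - a2 • y),
    ⟨Submodule.sub_mem _ (Submodule.smul_mem _ _ hy) (Submodule.smul_mem _ _ hT),
      Submodule.sub_mem _ (Submodule.smul_mem _ _ hT) (Submodule.smul_mem _ _ hy), ?_⟩, ?_⟩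
  · intro j s f
    have h := hTy j s f
    rw [li_comb, li_comb, mul_add, mul_add, mul_smul_comm, mul_smul_comm, mul_smul_comm,
      mul_smul_comm, map_add, map_add, map_smul, map_smul, map_smul, map_smul] at h
    simp only [smul_eq_mul] at h
    simp only [Pi.sub_apply, Pi.smul_apply, LinearMap.sub_apply, LinearMap.smul_apply,
      smul_eq_mul]
    linear_combination -h
  · show a • (c2 • y - c • T) + c • (a • T - a2 • y) = y
    have : a • (c2 • y - c • T) + c • (a • T - a2 • y) = (a * c2 - a2 * c) • y := by module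
    rw [this, hd, one_smul]

end

end F11X

open F11X in
theorem Ystep [Fintype R] [DecidableEq R] {q c : ℕ} {r : R → ℕ} {β : ℕ → MvPolynomial σ ℂ}
    (hβ : ∀ i, (β i).IsHomogeneous q)
    (h : ∀ z : σ → ℂ, z ≠ 0 → XX c (fun i => bb (β i)) (DD q r σ ⊓ KK z)) {z z' : σ → ℂ}
    (hz : LinearIndependent ℂ ![z, z']) :
    XX c (fun i => bb (β i)) (DD q r σ ⊓ YD z z') := by
  have f1 : FiniteDimensional ℂ (D1 q r z z') := D1_fin q r z z'
  have f0 := DD_fin (σ := σ) q r
  have f2 : FiniteDimensional ℂ (DD q r σ ⊓ YD z z' : Submodule ℂ (Fam R σ)) :=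
    Submodule.finiteDimensional_of_le inf_le_left
  refine (pencil (V := Fam R σ × Fam R σ) (V' := Fam R σ) (n := c)
    (b := fun i => (bb (β i)).prodMap (bb (β i))) (b' := fun i => bb (β i))
    (D := D1 q r z z') (D' := DD q r σ ⊓ YD z z') ?_ ?_ ?_ ?_
    (s1 := LinearMap.fst ℂ _ _) (s2 := LinearMap.snd ℂ _ _) ?_ ?_ ?_ ?_ ?_ ?_).2
  · intro i x hx
    exact bb_D1 (hβ i) hx
  · intro i x hx
    exact ⟨bb_DD (hβ i) hx.1, bb_YD (β i) hx.2⟩
  · intro i j x hx
    exact Prod.ext (bb_anti (β i) (β j) hx.1.1) (bb_anti (β i) (β j) hx.2.1.1)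
  · intro i j x hx
    exact bb_anti (β i) (β j) hx.1
  · intro x hx
    exact hx.1
  · intro x hx
    exact hx.2.1
  · intro i x _
    rfl
  · intro i x _
    rfl
  · intro a k hak y hy
    obtain ⟨x, hx, hxy⟩ := onto1 hz hak hy
    exact ⟨x, hx, hxy⟩
  · intro a k hak
    obtain ⟨a2, c2, hd⟩ := exists_det hak
    have hw : a • z + k • z' ≠ 0 := by
      intro h0
      have := (LinearIndependent.pair_iff.1 hz) a k h0
      rcases hak with h1 | h1
      · exact h1 this.1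
      · exact h1 this.2
    intro m hm x hx hbx
    obtain ⟨⟨h1, h2, h3⟩, h4⟩ := hx
    have h4' : a • x.1 + k • x.2 = 0 := h4
    have e1 : x.1 = k • (-(a2 • x.1 + c2 • x.2)) := by
      have : x.1 = (a * c2 - a2 * k) • x.1 := by rw [hd, one_smul]
      have h5 : k • (-(a2 • x.1 + c2 • x.2)) =
          (a * c2 - a2 * k) • x.1 - c2 • (a • x.1 + k • x.2) := by module
      rw [h5, h4', smul_zero, sub_zero, hd, one_smul]
    have e2 : x.2 = -(a • (-(a2 • x.1 + c2 • x.2))) := by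
      have h5 : -(a • (-(a2 • x.1 + c2 • x.2))) =
          (a * c2 - a2 * k) • x.2 + a2 • (a • x.1 + k • x.2) := by module
      rw [h5, h4', smul_zero, add_zero, hd, one_smul]
    obtain ⟨T, hTdef⟩ : ∃ T, T = -(a2 • x.1 + c2 • x.2) := ⟨_, rfl⟩
    rw [← hTdef] at e1 e2
    have hTD : T ∈ DD q r σ := by
      rw [hTdef]
      exact Submodule.neg_mem _ (Submodule.add_mem _ (Submodule.smul_mem _ _ h1.1)
        (Submodule.smul_mem _ _ h2.1))
    have hTK : T ∈ (KK (a • z + k • z') : Submodule ℂ (Fam R σ)) := by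
      intro j s f
      have h6 := h3 j s f
      rw [e1, e2] at h6
      rw [li_comb, mul_add, mul_smul_comm, mul_smul_comm, map_add, map_smul, map_smul]
      simp only [Pi.neg_apply, Pi.smul_apply, LinearMap.neg_apply, LinearMap.smul_apply,
        smul_eq_mul] at h6 ⊢
      linear_combination h6
    have hbT : ∀ i ≤ m, bb (β i) T = 0 := by
      intro i hi
      have h7 := hbx i hi
      have h8 : bb (β i) x.1 = 0 := congrArg Prod.fst h7
      have h9 : bb (β i) x.2 = 0 := congrArg Prod.snd h7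
      rw [hTdef, map_neg, map_add, map_smul, map_smul, h8, h9, smul_zero, smul_zero, add_zero,
        neg_zero]
    obtain ⟨Y, ⟨hY1, hY2⟩, hY3, hY4⟩ := h (a • z + k • z') hw m hm T ⟨hTD, hTK⟩ hbT
    have hYY : Y ∈ (YD z z' : Submodule ℂ (Fam R σ)) := KK_YD hd hY2
    refine ⟨(k • Y, -(a • Y)), ⟨⟨Submodule.smul_mem _ _ ⟨hY1, hYY⟩,
      Submodule.neg_mem _ (Submodule.smul_mem _ _ ⟨hY1, hYY⟩), ?_⟩, ?_⟩, ?_, ?_⟩
    · intro j s f
      have h6 := hY2 j s f
      rw [li_comb, mul_add, mul_smul_comm, mul_smul_comm, map_add, map_smul, map_smul] at h6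
      simp only [Pi.neg_apply, Pi.smul_apply, LinearMap.neg_apply, LinearMap.smul_apply,
        smul_eq_mul] at h6 ⊢
      linear_combination h6
    · show a • (k • Y) + k • (-(a • Y)) = 0
      module
    · show ((bb (β m)) (k • Y), (bb (β m)) (-(a • Y))) = x
      have hY3' : bb (β m) Y = T := hY3
      refine Prod.ext ?_ ?_
      · show bb (β m) (k • Y) = x.1
        rw [map_smul, hY3', ← e1]
      · show bb (β m) (-(a • Y)) = x.2
        rw [map_neg, map_smul, hY3', ← e2]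
    · intro i hi
      have h7 : bb (β i) Y = 0 := hY4 i hi
      refine Prod.ext ?_ ?_
      · show bb (β i) (k • Y) = 0
        rw [map_smul, h7, smul_zero]
      · show bb (β i) (-(a • Y)) = 0
        rw [map_neg, map_smul, h7, smul_zero, neg_zero]

end Pool.Agent.H69.V2
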