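import Pool.Agent.H69.V2.F1
import Pool.Agent.H69.V2.F2

/-! Project V2, row F3: operators on the families `DD`. -/

set_option linter.unusedSectionVars false

namespace Pool.Agent.H69.V2

open scoped BigOperators
open MvPolynomial

variable {ι κ lam σ τ υ R : Type} [Fintype σ] [DecidableEq σ] [Fintype τ] [DecidableEq τ]
  [Fintype υ] [DecidableEq υ]

namespace F3X

/-- the shift of the labels -/
def sh (R : Type) (j : ℕ) : R ⊕ Fin j → R ⊕ Fin (j + 1) := Sum.map id Fin.succ

theorem sh_inj (j : ℕ) : Function.Injective (sh R j) :=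
  Sum.map_injective.2 ⟨Function.injective_id, Fin.succ_injective j⟩

theorem sh_ne (j : ℕ) (s : R ⊕ Fin j) : sh R j s ≠ Sum.inr 0 := by
  rcases s with s | s
  · simp [sh]
  · simp only [sh, Sum.map_inr, ne_eq, Sum.inr.injEq]
    exact Fin.succ_ne_zero s

theorem bb_apply (β : MvPolynomial σ ℂ) (x : Fam R σ) (j : ℕ) (f : Pl (R ⊕ Fin j) σ) :
    bb β x j f = x (j + 1) (rs (sh R j) f * at' (Sum.inr 0) β) := rfl

/-- the extension of degrees by zero -/
def ext0 {j : ℕ} (d : R ⊕ Fin j → ℕ) : R ⊕ Fin (j + 1) → ℕ :=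
  Sum.elim (fun r => d (Sum.inl r)) (Fin.cases 0 (fun i => d (Sum.inr i)))

theorem ext0_sh {j : ℕ} (d : R ⊕ Fin j → ℕ) (s : R ⊕ Fin j) : ext0 d (sh R j s) = d s := by
  rcases s with s | s
  · rfl
  · rfl

theorem ext0_out {j : ℕ} (d : R ⊕ Fin j → ℕ) (t : R ⊕ Fin (j + 1))
    (ht : t ∉ Set.range (sh R j)) : ext0 d t = 0 := by
  rcases t with t | t
  · exact absurd ⟨Sum.inl t, rfl⟩ ht
  · revert ht
    refine Fin.cases (fun _ => rfl) (fun i hi => ?_) t
    exact absurd ⟨Sum.inr i, rfl⟩ hi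

theorem dgq_sh (q : ℕ) (r : R → ℕ) (j : ℕ) (s : R ⊕ Fin j) :
    dgq q r (j + 1) (sh R j s) = dgq q r j s := by
  rcases s with s | s
  · rfl
  · rfl

variable [DecidableEq R]

theorem swap_sh (j : ℕ) (a b : Fin j) :
    sh R j ∘ Equiv.swap (Sum.inr a : R ⊕ Fin j) (Sum.inr b) =
      Equiv.swap (Sum.inr a.succ : R ⊕ Fin (j + 1)) (Sum.inr b.succ) ∘ sh R j := by
  have h := (sh_inj (R := R) j).swap_comp (Sum.inr a) (Sum.inr b)
  exact h.symm

theorem du_ext {ι : Type} {Θ Θ' : Du ι σ} (h : ∀ e, Θ (monomial e 1) = Θ' (monomial e 1)) :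
    Θ = Θ' := by
  refine (MvPolynomial.basisMonomials (ι × σ) ℂ).ext (fun e => ?_)
  rw [MvPolynomial.coe_basisMonomials]
  exact h e

end F3X

open F3X

section F3
variable [Fintype R] [DecidableEq R]

theorem bb_DD {q : ℕ} {r : R → ℕ} {β : MvPolynomial σ ℂ} (hβ : β.IsHomogeneous q) {x : Fam R σ}
    (hx : x ∈ DD q r σ) : bb β x ∈ DD q r σ := by
  obtain ⟨h1, h2, h3, h4⟩ := hx
  refine ⟨fun j e he => ?_, fun j s t s' h h' h'' u v w f => ?_, fun j a b hab f => ?_,
    fun j hj => ?_⟩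
  · obtain ⟨s, hs⟩ := he
    rw [bb_apply]
    have hm : Mh (ext0 (fun s => ∑ k, e (s, k))) (rs (sh R j) (monomial e (1 : ℂ))) := by
      refine Mh_rs (sh_inj j) (ext0_out _) ?_
      have h0 : (ext0 (fun s => ∑ k, e (s, k))) ∘ sh R j = fun s => ∑ k, e (s, k) := by
        funext s
        exact ext0_sh _ s
      rw [h0]
      exact Mh_monomial e 1
    refine Hg_ap (h1 (j + 1)) (Mh_mul hm (Mh_at (Sum.inr 0) hβ)) ⟨sh R j s, ?_⟩
    rw [Pi.add_apply, ext0_sh, Pi.single_eq_of_ne (sh_ne j s), dgq_sh, add_zero]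
    exact hs
  · rw [bb_apply, map_mul (rs (sh R j)), rs_d3, mul_right_comm]
    exact h2 (j + 1) _ _ _ (fun e => h (sh_inj j e)) (fun e => h' (sh_inj j e))
      (fun e => h'' (sh_inj j e)) u v w _
  · rw [bb_apply, bb_apply, rs_rs, swap_sh, ← rs_rs]
    have h0 : at' (Sum.inr 0) β =
        rs (Equiv.swap (Sum.inr a.succ : R ⊕ Fin (j + 1)) (Sum.inr b.succ))
          (at' (Sum.inr 0) β) := by
      rw [rs_at, Equiv.swap_apply_of_ne_of_ne]
      · intro h
        exact (Fin.succ_ne_zero a) (Sum.inr.inj h).symm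
      · intro h
        exact (Fin.succ_ne_zero b) (Sum.inr.inj h).symm
    rw [h0, ← map_mul, h3 (j + 1) a.succ b.succ (fun h => hab (Fin.succ_injective j h)), ← h0]
  · refine LinearMap.ext (fun f => ?_)
    rw [bb_apply, h4 (j + 1) (by omega)]
    rfl

theorem bb_anti {q : ℕ} {r : R → ℕ} (β β' : MvPolynomial σ ℂ) {x : Fam R σ}
    (hx : x ∈ DD q r σ) : bb β (bb β' x) = - bb β' (bb β x) := by
  obtain ⟨h1, h2, h3, h4⟩ := hx
  funext j
  refine LinearMap.ext (fun f => ?_)
  have key : ∀ b b' : MvPolynomial σ ℂ, bb b (bb b' x) j f =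
      x (j + 1 + 1) (rs (sh R (j + 1) ∘ sh R j) f * at' (Sum.inr 1) b * at' (Sum.inr 0) b') := by
    intro b b'
    rw [bb_apply, bb_apply, map_mul (rs (sh R (j + 1))), rs_rs, rs_at]
    rfl
  rw [Pi.neg_apply, LinearMap.neg_apply, key, key]
  have h01 : (0 : Fin (j + 1 + 1)) ≠ 1 := by
    intro h
    have := congrArg Fin.val h
    simp at this
  have hs : rs (Equiv.swap (Sum.inr 0 : R ⊕ Fin (j + 1 + 1)) (Sum.inr 1))
      (rs (sh R (j + 1) ∘ sh R j) f * at' (Sum.inr 1) β' * at' (Sum.inr 0) β) =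
      rs (sh R (j + 1) ∘ sh R j) f * at' (Sum.inr 1) β * at' (Sum.inr 0) β' := by
    rw [map_mul, map_mul, rs_rs, rs_at, rs_at, Equiv.swap_apply_left, Equiv.swap_apply_right]
    have h0 : (Equiv.swap (Sum.inr 0 : R ⊕ Fin (j + 1 + 1)) (Sum.inr 1)) ∘
        (sh R (j + 1) ∘ sh R j) = sh R (j + 1) ∘ sh R j := by
      funext s
      simp only [Function.comp_apply]
      refine Equiv.swap_apply_of_ne_of_ne (sh_ne (j + 1) _) ?_
      intro h
      have h' : sh R (j + 1) (sh R j s) = sh R (j + 1) (Sum.inr 0) := h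
      exact sh_ne j s (sh_inj (j + 1) h')
    rw [h0]
    ring
  rw [← hs, h3 (j + 1 + 1) 0 1 h01]

theorem bb_YD (β : MvPolynomial σ ℂ) {z z' : σ → ℂ} {x : Fam R σ} (hx : x ∈ YD z z') :
    bb β x ∈ YD z z' := by
  intro j s t hst f
  rw [bb_apply, map_mul (rs (sh R j)), rs_d2, mul_right_comm]
  exact hx (j + 1) _ _ (fun h => hst (sh_inj j h)) _

theorem bb_KK (β : MvPolynomial σ ℂ) {z : σ → ℂ} {x : Fam R σ} (hx : x ∈ KK z) :
    bb β x ∈ KK z := by
  intro j s f
  rw [bb_apply, map_mul (rs (sh R j)), rs_li, mul_right_comm]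
  exact hx (j + 1) _ _

namespace F3X

/-- the values of a family on the monomials with bounded exponents -/
noncomputable def val (q B : ℕ) (R σ : Type) [Finite R] [Fintype σ] [DecidableEq σ] : Fam R σ →ₗ[ℂ]
    (∀ j : Fin (q + 2), ((R ⊕ Fin j) × σ → Fin (B + 1)) → ℂ) where
  toFun x j e := x j (MvPolynomial.monomial (Finsupp.ofSupportFinite (fun p => (e p : ℕ))
    (Set.toFinite _)) 1)
  map_add' x y := by rfl
  map_smul' c x := by rfl

end F3X

theorem DD_fin (q : ℕ) (r : R → ℕ) : FiniteDimensional ℂ (DD q r σ) := by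
  set B : ℕ := q + ∑ a, r a with hB
  have hdg : ∀ (j : ℕ) (s : R ⊕ Fin j), dgq q r j s ≤ B := by
    intro j s
    rcases s with s | s
    · have h1 : dgq q r j (Sum.inl s) = r s := rfl
      have h2 : r s ≤ ∑ a, r a := Finset.single_le_sum (fun _ _ => Nat.zero_le _)
        (Finset.mem_univ s)
      omega
    · have h1 : dgq q r j (Sum.inr s) = q := rfl
      omega
  refine Module.Finite.of_injective ((val q B R σ).comp (DD q r σ).subtype) ?_
  rw [← LinearMap.ker_eq_bot, LinearMap.ker_eq_bot']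
  rintro ⟨x, h1, h2, h3, h4⟩ hx
  have hx' : val q B R σ x = 0 := hx
  refine Subtype.ext ?_
  change x = 0
  funext j
  by_cases hj : q + 2 ≤ j
  · exact h4 j hj
  · refine du_ext (fun e => ?_)
    change x j (monomial e 1) = 0
    by_cases he : ∃ s, ∑ k, e (s, k) ≠ dgq q r j s
    · exact h1 j e he
    · push Not at he
      have hle : ∀ p : (R ⊕ Fin j) × σ, e p < B + 1 := by
        rintro ⟨s, k⟩
        have h5 : e (s, k) ≤ ∑ k, e (s, k) := Finset.single_le_sum
          (f := fun k => e (s, k)) (fun _ _ => Nat.zero_le _) (Finset.mem_univ k)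
        have h6 := he s
        have h7 := hdg j s
        omega
      have h8 := congrFun (congrFun hx' ⟨j, by omega⟩) (fun p => ⟨e p, hle p⟩)
      have h9 : (Finsupp.ofSupportFinite (fun p : (R ⊕ Fin j) × σ => e p)
          (Set.toFinite _)) = e := by
        ext p
        rfl
      have h10 : x j (monomial (Finsupp.ofSupportFinite (fun p : (R ⊕ Fin j) × σ => e p)
          (Set.toFinite _)) 1) = 0 := h8
      rw [h9] at h10
      exact h10

/-- too many labels in two variables -/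
theorem alt_two {q j : ℕ} {r : R → ℕ} (hj : q + 2 ≤ j) {Θ : Du (R ⊕ Fin j) (Fin 2)}
    (h1 : Hg (dgq q r j) Θ) (h3 : Alt Θ) : Θ = 0 := by
  refine du_ext (fun e => ?_)
  rw [LinearMap.zero_apply]
  by_cases he : ∃ s, ∑ k, e (s, k) ≠ dgq q r j s
  · exact h1 e he
  · push Not at he
    have hle : ∀ a : Fin j, e (Sum.inr a, 0) < q + 1 := by
      intro a
      have h := he (Sum.inr a)
      rw [Fin.sum_univ_two] at h
      have h' : dgq q r j (Sum.inr a) = q := rfl
      omega
    obtain ⟨a, b, hab, h⟩ := Fintype.exists_ne_map_eq_of_card_lt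
      (fun a : Fin j => (⟨e (Sum.inr a, 0), hle a⟩ : Fin (q + 1))) (by simp; omega)
    have e0 : e (Sum.inr a, 0) = e (Sum.inr b, 0) := congrArg Fin.val h
    have e1 : e (Sum.inr a, 1) = e (Sum.inr b, 1) := by
      have ha := he (Sum.inr a)
      have hb := he (Sum.inr b)
      rw [Fin.sum_univ_two] at ha hb
      have h' : dgq q r j (Sum.inr a) = q := rfl
      have h'' : dgq q r j (Sum.inr b) = q := rfl
      omega
    have hall : ∀ k : Fin 2, e (Sum.inr a, k) = e (Sum.inr b, k) := by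
      intro k
      fin_cases k
      · exact e0
      · exact e1
    have hm : rs (Equiv.swap (Sum.inr a : R ⊕ Fin j) (Sum.inr b)) (monomial e (1 : ℂ)) =
        monomial e 1 := by
      rw [rs_monomial]
      refine congrArg (fun e' => monomial e' (1 : ℂ)) ?_
      have h2 : (Prod.map (Equiv.swap (Sum.inr a : R ⊕ Fin j) (Sum.inr b)) id :
          (R ⊕ Fin j) × Fin 2 → (R ⊕ Fin j) × Fin 2) =
          ((Equiv.swap (Sum.inr a : R ⊕ Fin j) (Sum.inr b)).prodCongr (Equiv.refl (Fin 2))) :=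
        rfl
      rw [h2]
      refine Finsupp.ext ?_
      rintro ⟨s, k⟩
      rw [Finsupp.mapDomain_equiv_apply]
      have h3 : ((Equiv.swap (Sum.inr a : R ⊕ Fin j) (Sum.inr b)).prodCongr
          (Equiv.refl (Fin 2))).symm (s, k) =
          (Equiv.swap (Sum.inr a : R ⊕ Fin j) (Sum.inr b) s, k) := rfl
      rw [h3]
      by_cases hs : s = Sum.inr a
      · rw [hs, Equiv.swap_apply_left]
        exact (hall k).symm
      · by_cases hs' : s = Sum.inr b
        · rw [hs', Equiv.swap_apply_right]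
          exact hall k
        · rw [Equiv.swap_apply_of_ne_of_ne hs hs']
    have h4 := h3 a b hab (monomial e 1)
    rw [hm] at h4
    linear_combination h4 / 2

end F3

end Pool.Agent.H69.V2
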