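import Pool.Agent.H69.V2.F1
import Pool.Agent.H69.V2.F2
import Pool.Agent.H69.V2.F3

/-! Project V2, row F12: families that kill a vector. -/

set_option linter.unusedSectionVars false

namespace Pool.Agent.H69.V2

open scoped BigOperators
open MvPolynomial

namespace F12X

variable {ι R σ τ : Type} [Fintype σ] [DecidableEq σ] [Fintype τ] [DecidableEq τ]

/-! ### linear algebra -/

/-- the projection along `z` to the coordinates different from `k0` -/
noncomputable def gg {N : ℕ} (z : Fin (N + 1) → ℂ) (k0 : Fin (N + 1)) : Fin (N + 1) → Fin N → ℂ :=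
  fun k l => (if k = k0.succAbove l then 1 else 0) -
    (if k = k0 then z (k0.succAbove l) / z k0 else 0)

/-- the inclusion -/
noncomputable def hh {N : ℕ} (k0 : Fin (N + 1)) : Fin N → Fin (N + 1) → ℂ :=
  fun l => Pi.single (k0.succAbove l) 1

lemma gv_gg {N : ℕ} (z : Fin (N + 1) → ℂ) (k0 : Fin (N + 1)) (u : Fin (N + 1) → ℂ) (l : Fin N) :
    gv (gg z k0) u l = u (k0.succAbove l) - u k0 * (z (k0.succAbove l) / z k0) := by
  unfold gv gg
  simp only [mul_sub, Finset.sum_sub_distrib, mul_ite, mul_one, mul_zero, Finset.sum_ite_eq',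
    Finset.mem_univ, if_true]

lemma gv_hh_same {N : ℕ} (k0 : Fin (N + 1)) (v : Fin N → ℂ) : gv (hh k0) v k0 = 0 := by
  unfold gv hh
  apply Finset.sum_eq_zero
  intro l _
  rw [Pi.single_eq_of_ne (Fin.succAbove_ne k0 l).symm, mul_zero]

lemma gv_hh_sA {N : ℕ} (k0 : Fin (N + 1)) (v : Fin N → ℂ) (l : Fin N) :
    gv (hh k0) v (k0.succAbove l) = v l := by
  unfold gv hh
  rw [Finset.sum_eq_single l]
  · rw [Pi.single_eq_same, mul_one]
  · intro b _ hb
    rw [Pi.single_eq_of_ne, mul_zero]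
    intro h
    exact hb (Fin.succAbove_right_injective h).symm
  · intro h
    exact absurd (Finset.mem_univ _) h

lemma gg_hh {N : ℕ} (z : Fin (N + 1) → ℂ) (k0 : Fin (N + 1)) (v : Fin N → ℂ) :
    gv (gg z k0) (gv (hh k0) v) = v := by
  funext l
  rw [gv_gg, gv_hh_same, gv_hh_sA, zero_mul, sub_zero]

lemma gg_z {N : ℕ} {z : Fin (N + 1) → ℂ} {k0 : Fin (N + 1)} (hz : z k0 ≠ 0) :
    gv (gg z k0) z = 0 := by
  funext l
  rw [gv_gg, mul_div_cancel₀ _ hz, sub_self]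
  rfl

lemma hh_gg {N : ℕ} {z : Fin (N + 1) → ℂ} {k0 : Fin (N + 1)} (hz : z k0 ≠ 0)
    (u : Fin (N + 1) → ℂ) : gv (hh k0) (gv (gg z k0) u) = u + (-(u k0 / z k0)) • z := by
  funext k
  by_cases hk : k = k0
  · subst hk
    rw [gv_hh_same, Pi.add_apply, Pi.smul_apply, smul_eq_mul, neg_mul, div_mul_cancel₀ _ hz]
    ring
  · obtain ⟨l, rfl⟩ := Fin.exists_succAbove_eq hk
    rw [gv_hh_sA, gv_gg, Pi.add_apply, Pi.smul_apply, smul_eq_mul]
    ring

lemma exists_gh {N : ℕ} {z : Fin (N + 1) → ℂ} (hz : z ≠ 0) :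
    ∃ (g : Fin (N + 1) → Fin N → ℂ) (h : Fin N → Fin (N + 1) → ℂ),
      (∀ v, gv g (gv h v) = v) ∧ gv g z = 0 ∧ ∀ u, ∃ c : ℂ, gv h (gv g u) = u + c • z := by
  obtain ⟨k0, hk0⟩ := Function.ne_iff.mp hz
  exact ⟨gg z k0, hh k0, gg_hh z k0, gg_z hk0, fun u => ⟨_, hh_gg hk0 u⟩⟩

/-! ### substitution in families -/

/-- substitution in a family -/
noncomputable def SB (g : σ → τ → ℂ) (x : Fam R τ) : Fam R σ :=
  fun j => (x j).comp (sb g).toLinearMap

lemma SB_apply (g : σ → τ → ℂ) (x : Fam R τ) (j : ℕ) (f : Pl (R ⊕ Fin j) σ) :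
    SB g x j f = x j (sb g f) := rfl

lemma SB_zero (g : σ → τ → ℂ) : SB g (0 : Fam R τ) = 0 := by
  funext j
  apply LinearMap.ext
  intro f
  rfl

lemma SB_DD [Fintype R] [DecidableEq R] {q : ℕ} {r : R → ℕ} (g : σ → τ → ℂ) {x : Fam R τ}
    (hx : x ∈ DD q r τ) : SB g x ∈ DD q r σ := by
  obtain ⟨h1, h2, h3, h4⟩ := hx
  refine ⟨fun j => Hg_sb g (h1 j), fun j s t r' h h' h'' u v w f => ?_, fun j a b hab f => ?_,
    fun j hj => ?_⟩
  · rw [SB_apply, map_mul, sb_d3]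
    exact h2 j s t r' h h' h'' _ _ _ _
  · rw [SB_apply, SB_apply, sb_rs]
    exact h3 j a b hab _
  · apply LinearMap.ext
    intro f
    rw [SB_apply, h4 j hj]
    rfl

lemma bb_apply (β : MvPolynomial σ ℂ) (x : Fam R σ) (j : ℕ) (f : Pl (R ⊕ Fin j) σ) :
    bb β x j f = x (j + 1) (rs (Sum.map id Fin.succ) f * at' (Sum.inr 0) β) := rfl

/-- the ideal of a vector -/
noncomputable def Iz (ι : Type) (z : σ → ℂ) : Ideal (Pl ι σ) :=
  Ideal.span (Set.range fun s : ι => li s z)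

lemma KK_ideal {z : σ → ℂ} {x : Fam R σ} (hx : x ∈ KK z) (j : ℕ) {f : Pl (R ⊕ Fin j) σ}
    (hf : f ∈ Iz (R ⊕ Fin j) z) : x j f = 0 := by
  have key : ∀ a : Pl (R ⊕ Fin j) σ, x j (a * f) = 0 := by
    unfold Iz at hf
    induction hf using Submodule.span_induction with
    | mem y hy =>
        obtain ⟨s, rfl⟩ := hy
        intro a
        exact hx j s a
    | zero =>
        intro a
        rw [mul_zero, map_zero]
    | add b c _ _ hb hc =>
        intro a
        rw [mul_add, map_add, hb, hc, add_zero]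
    | smul b c _ hc =>
        intro a
        rw [smul_eq_mul, ← mul_assoc]
        exact hc _
  have := key 1
  rwa [one_mul] at this

/-- a substitution that changes vectors by multiples of `z` -/
lemma sb_sub_mem {z : σ → ℂ} {G : σ → σ → ℂ}
    (hG : ∀ k, ∃ c : ℂ, G k = Pi.single k (1 : ℂ) + c • z) (f : Pl ι σ) :
    sb G f - f ∈ Iz ι z := by
  rw [← Ideal.Quotient.mk_eq_mk_iff_sub_mem]
  have : (Ideal.Quotient.mkₐ ℂ (Iz ι z)).comp (sb G) = Ideal.Quotient.mkₐ ℂ (Iz ι z) := by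
    apply MvPolynomial.algHom_ext
    intro p
    rw [AlgHom.comp_apply]
    obtain ⟨c, hc⟩ := hG p.2
    have e1 : sb G (X p : Pl ι σ) = X p + c • li p.1 z := by
      unfold sb
      rw [aeval_X, hc, li_add, li_smul, li_single]
    rw [e1, map_add, map_smul]
    have e2 : Ideal.Quotient.mkₐ ℂ (Iz ι z) (li p.1 z) = 0 := by
      rw [Ideal.Quotient.mkₐ_eq_mk, Ideal.Quotient.eq_zero_iff_mem]
      exact Ideal.subset_span ⟨p.1, rfl⟩
    rw [e2, smul_zero, add_zero]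
  exact DFunLike.congr_fun this f

lemma KK_sb {z : σ → ℂ} {G : σ → σ → ℂ} (hG : ∀ k, ∃ c : ℂ, G k = Pi.single k (1 : ℂ) + c • z)
    {x : Fam R σ} (hx : x ∈ KK z) (j : ℕ) (f : Pl (R ⊕ Fin j) σ) : x j (sb G f) = x j f := by
  rw [← sub_eq_zero, ← map_sub]
  exact KK_ideal hx j (sb_sub_mem hG f)

end F12X

open F12X in
theorem Kstep {R : Type} [Fintype R] [DecidableEq R] {q c N : ℕ} {r : R → ℕ}
    (h : ∀ β : ℕ → MvPolynomial (Fin N) ℂ, (∀ i, (β i).IsHomogeneous q) → Good c β →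
      XX c (fun i => bb (β i)) (DD q r (Fin N))) {β : ℕ → MvPolynomial (Fin (N + 1)) ℂ}
    (hβ : ∀ i, (β i).IsHomogeneous q) (hg : Good c β) {z : Fin (N + 1) → ℂ} (hz : z ≠ 0) :
    XX c (fun i => bb (β i)) (DD q r (Fin (N + 1)) ⊓ KK z) := by
  obtain ⟨g, h', hgh, hgz, hhg⟩ := exists_gh hz
  have hG : ∀ k, ∃ c : ℂ, gv h' (g k) = Pi.single k (1 : ℂ) + c • z := by
    intro k
    obtain ⟨c, hc⟩ := hhg (Pi.single k 1)
    rw [gv_single] at hc
    exact ⟨c, hc⟩
  have hgood : Good c (fun i => sf g (β i)) := by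
    intro g2 hg2
    have e : (fun i : Fin c => sf g2 (sf g (β i))) =
        fun i : Fin c => sf (fun k => gv g2 (g k)) (β i) := by
      funext i
      exact sf_sf g g2 _
    show LinearIndependent ℂ (fun i : Fin c => sf g2 (sf g (β i)))
    rw [e]
    apply hg
    intro w
    obtain ⟨v, hv⟩ := hg2 w
    refine ⟨gv h' v, ?_⟩
    rw [← gv_gv, hgh, hv]
  have hX := h (fun i => sf g (β i)) (fun i => sf_hom g (hβ i)) hgood
  have c1 : ∀ (b : MvPolynomial (Fin (N + 1)) ℂ) (x : Fam R (Fin (N + 1))), x ∈ KK z →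
      bb (sf g b) (SB h' x) = SB h' (bb b x) := by
    intro b x hx
    funext j
    apply LinearMap.ext
    intro f
    have e1 : sb (fun k => gv h' (g k)) (at' (Sum.inr 0) b : Pl (R ⊕ Fin (j + 1)) (Fin (N + 1))) -
        at' (Sum.inr 0) b ∈ Iz (R ⊕ Fin (j + 1)) z := sb_sub_mem hG _
    rw [bb_apply, SB_apply, SB_apply, bb_apply, map_mul, sb_rs, sb_at, sf_sf, ← sb_at,
      ← sub_eq_zero, ← map_sub, ← mul_sub]
    exact KK_ideal hx (j + 1) (Ideal.mul_mem_left _ _ e1)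
  have c2 : ∀ (b : MvPolynomial (Fin (N + 1)) ℂ) (y : Fam R (Fin N)),
      bb b (SB g y) = SB g (bb (sf g b) y) := by
    intro b y
    funext j
    apply LinearMap.ext
    intro f
    rw [bb_apply, SB_apply, SB_apply, bb_apply, map_mul, sb_rs, sb_at]
  have c3 : ∀ x : Fam R (Fin (N + 1)), x ∈ KK z → SB g (SB h' x) = x := by
    intro x hx
    funext j
    apply LinearMap.ext
    intro f
    rw [SB_apply, SB_apply, sb_sb]
    exact KK_sb hG hx j f
  have c4 : ∀ y : Fam R (Fin N), SB g y ∈ KK z := by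
    intro y j s f
    rw [SB_apply, map_mul, sb_li, hgz]
    have : li s (0 : Fin N → ℂ) = (0 : Pl (R ⊕ Fin j) (Fin N)) := by
      unfold li
      simp
    rw [this, mul_zero, map_zero]
  intro k hk x hx hx0
  obtain ⟨hxD, hxK⟩ := hx
  obtain ⟨y2, hy2, hy2k, hy2i⟩ := hX k hk (SB h' x) (SB_DD h' hxD) (fun i hi => by
    show bb (sf g (β i)) (SB h' x) = 0
    rw [c1 _ _ hxK]
    have : bb (β i) x = 0 := hx0 i hi
    rw [this, SB_zero])
  refine ⟨SB g y2, ⟨SB_DD g hy2, c4 y2⟩, ?_, fun i hi => ?_⟩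
  · show bb (β k) (SB g y2) = x
    rw [c2]
    have : bb (sf g (β k)) y2 = SB h' x := hy2k
    rw [this]
    exact c3 x hxK
  · show bb (β i) (SB g y2) = 0
    rw [c2]
    have : bb (sf g (β i)) y2 = 0 := hy2i i hi
    rw [this, SB_zero]

end Pool.Agent.H69.V2
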