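import Pool.Agent.H69.V2.F1
import Pool.Agent.H69.V2.F2
import Pool.Agent.H69.V2.F3

/-!
Project V2, row F13: two variables.
-/

set_option linter.unusedSectionVars false

namespace Pool.Agent.H69.V2

open scoped BigOperators
open MvPolynomial

namespace F13X

variable {R : Type}

/-- slot `t` becomes the separate slot -/
def ins (R : Type) {j : ℕ} (t : Fin (j + 1)) : R ⊕ Fin (j + 1) ≃ (R ⊕ Fin j) ⊕ Unit :=
  (Equiv.sumCongr (Equiv.refl R)
    ((finSuccEquiv' t).trans (Equiv.optionEquivSumPUnit (Fin j)))).trans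
    (Equiv.sumAssoc R (Fin j) Unit).symm

theorem ins_inl {j : ℕ} (t : Fin (j + 1)) (s : R) : ins R t (Sum.inl s) = Sum.inl (Sum.inl s) := by
  simp [ins]

theorem ins_same {j : ℕ} (t : Fin (j + 1)) : ins R t (Sum.inr t) = Sum.inr () := by
  simp [ins]

theorem ins_succAbove {j : ℕ} (t : Fin (j + 1)) (i : Fin j) :
    ins R t (Sum.inr (t.succAbove i)) = Sum.inl (Sum.inr i) := by
  simp [ins]

/-- the functional `eps` on forms as a functional on one slot -/
noncomputable def one {σ : Type} (q : ℕ) (ε : MvPolynomial σ ℂ →ₗ[ℂ] ℂ) : Du Unit σ :=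
  (ε.comp (homogeneousComponent q)).comp (rename (Prod.snd : Unit × σ → σ)).toLinearMap

theorem one_at {σ : Type} {q : ℕ} (ε : MvPolynomial σ ℂ →ₗ[ℂ] ℂ) {β : MvPolynomial σ ℂ}
    (hβ : β.IsHomogeneous q) : one q ε (at' () β) = ε β := by
  have h1 : rename (Prod.snd : Unit × σ → σ) (at' () β) = β := by
    rw [at', rename_rename]
    have : ((Prod.snd : Unit × σ → σ) ∘ fun k => ((), k)) = id := rfl
    rw [this, rename_id]
    rfl
  simp only [one, LinearMap.comp_apply, AlgHom.toLinearMap_apply]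
  rw [h1, homogeneousComponent_of_mem hβ, if_pos rfl]

theorem one_Hg {σ : Type} [Fintype σ] [DecidableEq σ] (q : ℕ) (ε : MvPolynomial σ ℂ →ₗ[ℂ] ℂ) :
    Hg (fun _ => q) (one q ε) := by
  rintro e ⟨s, hs⟩
  simp only [one, LinearMap.comp_apply, AlgHom.toLinearMap_apply]
  rw [rename_monomial]
  have hdeg : (monomial (e.mapDomain (Prod.snd : Unit × σ → σ)) (1 : ℂ)).IsHomogeneous
      (∑ k, e (s, k)) := by
    apply isHomogeneous_monomial
    rw [Finsupp.degree_mapDomain, Finsupp.degree_eq_sum, Fintype.sum_prod_type]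
    obtain rfl : s = () := rfl
    simp
  rw [homogeneousComponent_of_mem hdeg, if_neg (fun h => hs h.symm), map_zero]

/-- `eps` in the label slot `t` -/
noncomputable def pl {j : ℕ} (Θ : Du (R ⊕ Fin j) (Fin 2)) (η : Du Unit (Fin 2))
    (t : Fin (j + 1)) : Du (R ⊕ Fin (j + 1)) (Fin 2) :=
  (pr Θ η).comp (rs (ins R t)).toLinearMap

theorem pl_apply {j : ℕ} (Θ : Du (R ⊕ Fin j) (Fin 2)) (η : Du Unit (Fin 2)) (t : Fin (j + 1))
    (f : Pl (R ⊕ Fin (j + 1)) (Fin 2)) : pl Θ η t f = pr Θ η (rs (ins R t) f) := rfl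

/-- the wedge product with `eps` -/
noncomputable def wd (x : Fam R (Fin 2)) (η : Du Unit (Fin 2)) : Fam R (Fin 2)
  | 0 => 0
  | j + 1 => ∑ t : Fin (j + 1), ((-1 : ℂ) ^ (t : ℕ)) • pl (x j) η t

theorem wd_succ (x : Fam R (Fin 2)) (η : Du Unit (Fin 2)) (j : ℕ)
    (f : Pl (R ⊕ Fin (j + 1)) (Fin 2)) :
    wd x η (j + 1) f = ∑ t : Fin (j + 1), ((-1 : ℂ) ^ (t : ℕ)) * pl (x j) η t f := by
  simp only [wd, LinearMap.sum_apply, LinearMap.smul_apply, smul_eq_mul]

theorem pl_Hg {q j : ℕ} {r : R → ℕ} {Θ : Du (R ⊕ Fin j) (Fin 2)} {η : Du Unit (Fin 2)}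
    (h : Hg (dgq q r j) Θ) (h' : Hg (fun _ => q) η) (t : Fin (j + 1)) :
    Hg (dgq q r (j + 1)) (pl Θ η t) := by
  have h1 := Hg_rs (ins R t) (Hg_pr h h')
  have h2 : (Sum.elim (dgq q r j) (fun _ => q) ∘ ins R t) = dgq q r (j + 1) := by
    funext s
    rcases s with s | s
    · simp only [Function.comp_apply, ins_inl, Sum.elim_inl, dgq]
    · rcases Fin.eq_self_or_eq_succAbove t s with rfl | ⟨i, rfl⟩
      · simp only [Function.comp_apply, ins_same, Sum.elim_inr, dgq]
      · simp only [Function.comp_apply, ins_succAbove, Sum.elim_inl, Sum.elim_inr, dgq]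
  rw [h2] at h1
  exact h1

theorem wd_Hg {q : ℕ} {r : R → ℕ} {x : Fam R (Fin 2)} {η : Du Unit (Fin 2)}
    (h : ∀ j, Hg (dgq q r j) (x j)) (h' : Hg (fun _ => q) η) (j : ℕ) :
    Hg (dgq q r j) (wd x η j) := by
  rcases j with _ | j
  · intro e _
    rfl
  · intro e he
    rw [wd_succ]
    exact Finset.sum_eq_zero fun t _ => by rw [pl_Hg (h j) h' t e he, mul_zero]

/-- swap of two labels in the other slots -/
theorem pl_swap [DecidableEq R] {j : ℕ} {Θ : Du (R ⊕ Fin j) (Fin 2)} (η : Du Unit (Fin 2))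
    (h : Alt Θ) (t : Fin (j + 1)) {a b : Fin j} (hab : a ≠ b)
    (f : Pl (R ⊕ Fin (j + 1)) (Fin 2)) :
    pl Θ η t (rs (Equiv.swap (Sum.inr (t.succAbove a)) (Sum.inr (t.succAbove b))) f) =
      - pl Θ η t f := by
  have key : pr Θ η ∘ₗ (rs (Sum.map (Equiv.swap (Sum.inr a : R ⊕ Fin j) (Sum.inr b))
      (id : Unit → Unit))).toLinearMap = - pr Θ η := by
    refine ext_pr fun f g => ?_
    simp only [LinearMap.comp_apply, AlgHom.toLinearMap_apply, map_mul, rs_rs,
      LinearMap.neg_apply]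
    have e1 : (Sum.map (Equiv.swap (Sum.inr a : R ⊕ Fin j) (Sum.inr b)) (id : Unit → Unit)) ∘
        Sum.inl = Sum.inl ∘ Equiv.swap (Sum.inr a : R ⊕ Fin j) (Sum.inr b) := rfl
    have e2 : (Sum.map (Equiv.swap (Sum.inr a : R ⊕ Fin j) (Sum.inr b)) (id : Unit → Unit)) ∘
        Sum.inr = Sum.inr := rfl
    rw [e1, e2, ← rs_rs, pr_mul, pr_mul, h a b hab f, neg_mul]
  have e : (ins R t) ∘ (Equiv.swap (Sum.inr (t.succAbove a) : R ⊕ Fin (j + 1))
      (Sum.inr (t.succAbove b))) =
      (Sum.map (Equiv.swap (Sum.inr a : R ⊕ Fin j) (Sum.inr b)) (id : Unit → Unit)) ∘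
        (ins R t) := by
    funext s
    rcases s with s | s
    · rw [Function.comp_apply, Function.comp_apply, ins_inl, Sum.map_inl,
        Equiv.swap_apply_of_ne_of_ne (by simp) (by simp),
        Equiv.swap_apply_of_ne_of_ne (by simp) (by simp), ins_inl]
    · rcases Fin.eq_self_or_eq_succAbove t s with rfl | ⟨i, rfl⟩
      · rw [Function.comp_apply, Function.comp_apply, ins_same, Sum.map_inr,
          Equiv.swap_apply_of_ne_of_ne (by simp [(Fin.succAbove_ne s a).symm])
            (by simp [(Fin.succAbove_ne s b).symm]), ins_same]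
      · rw [Function.comp_apply, Function.comp_apply, ins_succAbove, Sum.map_inl]
        by_cases hia : i = a
        · subst hia
          rw [Equiv.swap_apply_left, Equiv.swap_apply_left, ins_succAbove]
        · by_cases hib : i = b
          · subst hib
            rw [Equiv.swap_apply_right, Equiv.swap_apply_right, ins_succAbove]
          · rw [Equiv.swap_apply_of_ne_of_ne (by simp [hia]) (by simp [hib]),
              Equiv.swap_apply_of_ne_of_ne (by simp [hia]) (by simp [hib]), ins_succAbove]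
  have k2 := LinearMap.congr_fun key (rs (ins R t) f)
  simp only [LinearMap.comp_apply, AlgHom.toLinearMap_apply, LinearMap.neg_apply, rs_rs] at k2
  rw [pl_apply, rs_rs, e, k2, pl_apply]

theorem ins_adj {j : ℕ} [DecidableEq R] (i : Fin j) :
    (ins R i.castSucc) ∘ (Equiv.swap (Sum.inr i.castSucc : R ⊕ Fin (j + 1)) (Sum.inr i.succ)) =
      ins R i.succ := by
  funext s
  rcases s with s | s
  · rw [Function.comp_apply, ins_inl, Equiv.swap_apply_of_ne_of_ne (by simp) (by simp), ins_inl]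
  · by_cases h1 : s = i.castSucc
    · subst h1
      rw [Function.comp_apply, Equiv.swap_apply_left]
      have h2 : i.castSucc.succAbove i = i.succ := Fin.succAbove_castSucc_self i
      have h3 : i.succ.succAbove i = i.castSucc := Fin.succAbove_succ_self i
      conv_lhs => rw [← h2]
      conv_rhs => rw [← h3]
      rw [ins_succAbove, ins_succAbove]
    · by_cases h2 : s = i.succ
      · subst h2
        rw [Function.comp_apply, Equiv.swap_apply_right, ins_same, ins_same]
      · rw [Function.comp_apply, Equiv.swap_apply_of_ne_of_ne (by simp [h1]) (by simp [h2])]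
        rcases Fin.eq_self_or_eq_succAbove i.castSucc s with h | ⟨l, rfl⟩
        · exact absurd h h1
        · have h4 : i.succ.succAbove l = i.castSucc.succAbove l := by
            rcases lt_trichotomy l i with hl | hl | hl
            · rw [Fin.succAbove_of_castSucc_lt _ _ (by
                rw [Fin.lt_def]; simp only [Fin.val_castSucc, Fin.val_succ]
                have := Fin.lt_def.1 hl; omega),
                Fin.succAbove_of_castSucc_lt _ _ (by
                rw [Fin.lt_def]; simp only [Fin.val_castSucc]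
                exact Fin.lt_def.1 hl)]
            · subst hl
              exact absurd (Fin.succAbove_castSucc_self l) h2
            · rw [Fin.succAbove_of_le_castSucc _ _ (by
                rw [Fin.le_def]; simp only [Fin.val_castSucc, Fin.val_succ]
                have := Fin.lt_def.1 hl; omega),
                Fin.succAbove_of_le_castSucc _ _ (by
                rw [Fin.le_def]; simp only [Fin.val_castSucc]
                have := Fin.lt_def.1 hl; omega)]
          rw [ins_succAbove, ← h4, ins_succAbove]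

theorem swap_map {j : ℕ} [DecidableEq R] (a b : Fin j) :
    ((Equiv.swap (Sum.inr a : R ⊕ Fin j) (Sum.inr b) : R ⊕ Fin j ≃ R ⊕ Fin j) :
      R ⊕ Fin j → R ⊕ Fin j) = Sum.map id (Equiv.swap a b) := by
  rw [← Equiv.Perm.sumCongr_one_swap]
  rfl

theorem alt_of_adj {j : ℕ} [DecidableEq R] {Θ : Du (R ⊕ Fin (j + 1)) (Fin 2)}
    (h : ∀ (i : Fin j) (f : Pl (R ⊕ Fin (j + 1)) (Fin 2)),
      Θ (rs (Equiv.swap (Sum.inr i.castSucc) (Sum.inr i.succ)) f) = - Θ f) : Alt Θ := by
  have key : ∀ g : Equiv.Perm (Fin (j + 1)), ∀ f : Pl (R ⊕ Fin (j + 1)) (Fin 2),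
      Θ (rs (Sum.map id g) f) = ((Equiv.Perm.sign g : ℤ) : ℂ) * Θ f := by
    intro g
    have hg : g ∈ Submonoid.closure (Set.range fun i : Fin j ↦
        Equiv.swap i.castSucc i.succ) := by
      rw [Equiv.Perm.mclosure_swap_castSucc_succ]
      exact Submonoid.mem_top g
    induction hg using Submonoid.closure_induction with
    | mem g hg =>
      obtain ⟨i, rfl⟩ := hg
      intro f
      have := h i f
      rw [swap_map] at this
      rw [this, Equiv.Perm.sign_swap i.castSucc_lt_succ.ne]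
      simp
    | one =>
      intro f
      have : (Sum.map id ((1 : Equiv.Perm (Fin (j + 1))) : Fin (j + 1) → Fin (j + 1)) :
          R ⊕ Fin (j + 1) → R ⊕ Fin (j + 1)) = id := by
        funext s
        rcases s with s | s <;> rfl
      rw [this, rs_id]
      simp
    | mul g g' _ _ ih ih' =>
      intro f
      have : (Sum.map id ((g * g' : Equiv.Perm (Fin (j + 1))) : Fin (j + 1) → Fin (j + 1)) :
          R ⊕ Fin (j + 1) → R ⊕ Fin (j + 1)) = Sum.map id g ∘ Sum.map id g' := by
        funext s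
        rcases s with s | s <;> rfl
      rw [this, ← rs_rs, ih, ih', Equiv.Perm.sign_mul]
      push_cast
      ring
  intro a b hab f
  rw [swap_map, key, Equiv.Perm.sign_swap hab]
  simp

theorem wd_Alt [DecidableEq R] {x : Fam R (Fin 2)} (η : Du Unit (Fin 2))
    (h : ∀ j, Alt (x j)) (j : ℕ) : Alt (wd x η j) := by
  rcases j with _ | j
  · intro a
    exact a.elim0
  · refine alt_of_adj fun i f => ?_
    rw [wd_succ, wd_succ]
    have h1 : ∀ t : Fin (j + 1), t ≠ i.castSucc → t ≠ i.succ →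
        pl (x j) η t (rs (Equiv.swap (Sum.inr i.castSucc) (Sum.inr i.succ)) f) =
          - pl (x j) η t f := by
      intro t h1 h2
      obtain ⟨a, ha⟩ : ∃ a, t.succAbove a = i.castSucc := by
        rcases Fin.eq_self_or_eq_succAbove t i.castSucc with h | ⟨a, ha⟩
        · exact absurd h.symm h1
        · exact ⟨a, ha.symm⟩
      obtain ⟨b, hb⟩ : ∃ b, t.succAbove b = i.succ := by
        rcases Fin.eq_self_or_eq_succAbove t i.succ with h | ⟨b, hb⟩
        · exact absurd h.symm h2
        · exact ⟨b, hb.symm⟩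
      rw [← ha, ← hb]
      refine pl_swap η (h j) t ?_ f
      rintro rfl
      rw [ha] at hb
      exact i.castSucc_lt_succ.ne hb
    have h2 : pl (x j) η i.castSucc
        (rs (Equiv.swap (Sum.inr i.castSucc) (Sum.inr i.succ)) f) = pl (x j) η i.succ f := by
      rw [pl_apply, rs_rs, ins_adj, pl_apply]
    have h3 : pl (x j) η i.succ
        (rs (Equiv.swap (Sum.inr i.castSucc) (Sum.inr i.succ)) f) = pl (x j) η i.castSucc f := by
      have e : (ins R i.succ) ∘ (Equiv.swap (Sum.inr i.castSucc : R ⊕ Fin (j + 1))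
          (Sum.inr i.succ)) = ins R i.castSucc := by
        rw [← ins_adj, Function.comp_assoc]
        have : ((Equiv.swap (Sum.inr i.castSucc : R ⊕ Fin (j + 1)) (Sum.inr i.succ)) :
            R ⊕ Fin (j + 1) → R ⊕ Fin (j + 1)) ∘
            (Equiv.swap (Sum.inr i.castSucc : R ⊕ Fin (j + 1)) (Sum.inr i.succ)) = id := by
          funext s
          simp
        rw [this, Function.comp_id]
      rw [pl_apply, rs_rs, e, pl_apply]
    have hne : i.castSucc ≠ i.succ := i.castSucc_lt_succ.ne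
    rw [← Finset.sum_erase_add _ _ (Finset.mem_univ i.castSucc),
      ← Finset.sum_erase_add _ _ (Finset.mem_erase.2 ⟨hne.symm, Finset.mem_univ i.succ⟩),
      ← Finset.sum_erase_add _ (fun t : Fin (j + 1) => (-1 : ℂ) ^ (t : ℕ) * pl (x j) η t f)
        (Finset.mem_univ i.castSucc),
      ← Finset.sum_erase_add _ (fun t : Fin (j + 1) => (-1 : ℂ) ^ (t : ℕ) * pl (x j) η t f)
        (Finset.mem_erase.2 ⟨hne.symm, Finset.mem_univ i.succ⟩), h2, h3]
    have h4 : ∑ t ∈ (Finset.univ.erase i.castSucc).erase i.succ, (-1 : ℂ) ^ (t : ℕ) *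
        pl (x j) η t (rs (Equiv.swap (Sum.inr i.castSucc) (Sum.inr i.succ)) f) =
        - ∑ t ∈ (Finset.univ.erase i.castSucc).erase i.succ, (-1 : ℂ) ^ (t : ℕ) *
          pl (x j) η t f := by
      rw [← Finset.sum_neg_distrib]
      refine Finset.sum_congr rfl fun t ht => ?_
      have ht' := Finset.mem_erase.1 ht
      rw [h1 t (Finset.mem_erase.1 ht'.2).1 ht'.1]
      ring
    rw [h4]
    simp only [Fin.val_succ, Fin.val_castSucc, pow_succ]
    ring

/-- contraction of the label slot `0` when `eps` is there -/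
theorem pl_zero {j : ℕ} (Θ : Du (R ⊕ Fin j) (Fin 2)) (η : Du Unit (Fin 2))
    (β : MvPolynomial (Fin 2) ℂ) (f : Pl (R ⊕ Fin j) (Fin 2)) :
    pl Θ η 0 (rs (Sum.map id Fin.succ) f * at' (Sum.inr 0) β) = Θ f * η (at' () β) := by
  have e : (ins R (0 : Fin (j + 1))) ∘ (Sum.map id Fin.succ) = Sum.inl := by
    funext s
    rcases s with s | s
    · simp only [Function.comp_apply, Sum.map_inl, id, ins_inl]
    · have := ins_succAbove (R := R) (0 : Fin (j + 1)) s
      rw [Fin.succAbove_zero] at this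
      simp only [Function.comp_apply, Sum.map_inr, this]
  rw [pl_apply, map_mul, rs_rs, e, rs_at, ins_same, ← rs_at (Sum.inr : Unit → _) () β, pr_mul]

/-- contraction of the label slot `0` when `eps` is elsewhere -/
theorem pl_other {j : ℕ} {Θ : Du (R ⊕ Fin (j + 1)) (Fin 2)} (η : Du Unit (Fin 2))
    {β : MvPolynomial (Fin 2) ℂ} (h : ∀ f : Pl (R ⊕ Fin j) (Fin 2),
      Θ (rs (Sum.map id Fin.succ) f * at' (Sum.inr 0) β) = 0) (t : Fin (j + 1))
    (f : Pl (R ⊕ Fin (j + 1)) (Fin 2)) :
    pl Θ η t.succ (rs (Sum.map id Fin.succ) f * at' (Sum.inr 0) β) = 0 := by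
  have key : (pr Θ η ∘ₗ LinearMap.mulRight ℂ (at' (Sum.inl (Sum.inr 0)) β)) ∘ₗ
      (rs (Sum.map (Sum.map id Fin.succ : R ⊕ Fin j → R ⊕ Fin (j + 1))
        (id : Unit → Unit))).toLinearMap = 0 := by
    refine ext_pr fun g g' => ?_
    simp only [LinearMap.comp_apply, AlgHom.toLinearMap_apply, map_mul, rs_rs,
      LinearMap.zero_apply, LinearMap.mulRight_apply]
    have e1 : (Sum.map (Sum.map id Fin.succ : R ⊕ Fin j → R ⊕ Fin (j + 1)) (id : Unit → Unit)) ∘
        Sum.inl = Sum.inl ∘ (Sum.map id Fin.succ : R ⊕ Fin j → R ⊕ Fin (j + 1)) := rfl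
    have e2 : (Sum.map (Sum.map id Fin.succ : R ⊕ Fin j → R ⊕ Fin (j + 1)) (id : Unit → Unit)) ∘
        Sum.inr = Sum.inr := rfl
    rw [e1, e2, ← rs_rs, ← rs_at (Sum.inl : R ⊕ Fin (j + 1) → _) (Sum.inr 0) β,
      mul_right_comm, ← map_mul, pr_mul, h, zero_mul]
  have e : (ins R t.succ) ∘ (Sum.map id Fin.succ) =
      (Sum.map (Sum.map id Fin.succ : R ⊕ Fin j → R ⊕ Fin (j + 1)) (id : Unit → Unit)) ∘
        (ins R t) := by
    funext s
    rcases s with s | s
    · simp only [Function.comp_apply, Sum.map_inl, id, ins_inl]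
    · rcases Fin.eq_self_or_eq_succAbove t s with rfl | ⟨i, rfl⟩
      · simp only [Function.comp_apply, Sum.map_inr, ins_same, id]
      · have h2 := ins_succAbove (R := R) t.succ i.succ
        rw [Fin.succ_succAbove_succ] at h2
        simp only [Function.comp_apply, Sum.map_inr, ins_succAbove, Sum.map_inl, h2]
  have e0 : ins R t.succ (Sum.inr 0) = Sum.inl (Sum.inr 0) := by
    have h2 := ins_succAbove (R := R) t.succ 0
    rw [Fin.succ_succAbove_zero] at h2
    exact h2
  have k2 := LinearMap.congr_fun key (rs (ins R t) f)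
  simp only [LinearMap.comp_apply, AlgHom.toLinearMap_apply, LinearMap.zero_apply, rs_rs,
    LinearMap.mulRight_apply] at k2
  rw [pl_apply, map_mul, rs_rs, e, rs_at, e0, k2]

theorem bb_apply {β : MvPolynomial (Fin 2) ℂ} {x : Fam R (Fin 2)} (j : ℕ)
    (f : Pl (R ⊕ Fin j) (Fin 2)) :
    bb β x j f = x (j + 1) (rs (Sum.map id Fin.succ) f * at' (Sum.inr 0) β) := rfl

theorem bb_wd {x : Fam R (Fin 2)} (η : Du Unit (Fin 2)) {β : MvPolynomial (Fin 2) ℂ}
    (h : bb β x = 0) : bb β (wd x η) = η (at' () β) • x := by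
  funext j
  refine LinearMap.ext fun f => ?_
  rw [bb_apply, wd_succ, Fin.sum_univ_succ, pl_zero]
  have hz : ∑ t : Fin j, (-1 : ℂ) ^ ((t.succ : Fin (j + 1)) : ℕ) * pl (x j) η t.succ
      (rs (Sum.map id Fin.succ) f * at' (Sum.inr 0) β) = 0 := by
    rcases j with _ | j
    · simp
    · refine Finset.sum_eq_zero fun t _ => ?_
      rw [pl_other η (fun g => ?_) t f, mul_zero]
      rw [← bb_apply, h]
      rfl
  rw [hz]
  simp only [Fin.val_zero, pow_zero, one_mul, add_zero, Pi.smul_apply, LinearMap.smul_apply,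
    smul_eq_mul]
  ring

end F13X

variable {R : Type}

theorem base2 [Fintype R] [DecidableEq R] {q c : ℕ} (r : R → ℕ)
    {β : ℕ → MvPolynomial (Fin 2) ℂ} (hβ : ∀ i, (β i).IsHomogeneous q) (hg : Good c β) :
    XX c (fun i => bb (β i)) (DD q r (Fin 2)) := by
  intro k hk x hx hbx
  have hind : LinearIndependent ℂ (fun i : Fin c => β i) := by
    have h := hg (fun k => Pi.single k (1 : ℂ)) (fun u => ⟨u, gv_id u⟩)
    simpa only [sf_id] using h
  obtain ⟨ε, hε⟩ : ∃ ε : MvPolynomial (Fin 2) ℂ →ₗ[ℂ] ℂ, ∀ i : Fin c,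
      ε (β i) = if (i : ℕ) = k then 1 else 0 := by
    obtain ⟨ε, hε⟩ := LinearMap.exists_extend ((Module.Basis.span hind).coord ⟨k, hk⟩)
    refine ⟨ε, fun i => ?_⟩
    have h1 : ε (β i) = (Module.Basis.span hind).coord ⟨k, hk⟩ (Module.Basis.span hind i) := by
      rw [← hε, LinearMap.comp_apply, Submodule.subtype_apply, Module.Basis.span_apply]
    rw [h1, Module.Basis.coord_apply, Module.Basis.repr_self, Finsupp.single_apply]
    exact if_congr (by rw [Fin.ext_iff]) rfl rfl
  obtain ⟨h1, h2, h3, h4⟩ := hx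
  have hb0 : ∀ i ≤ k, bb (β i) (F13X.wd x (F13X.one q ε)) = ε (β i) • x := by
    intro i hi
    rw [F13X.bb_wd _ (hbx i hi), F13X.one_at ε (hβ i)]
  have hA := F13X.wd_Alt (F13X.one q ε) h3
  have hH := F13X.wd_Hg h1 (F13X.one_Hg q ε)
  refine ⟨F13X.wd x (F13X.one q ε), ⟨hH, fun j s t u _ _ _ a b c f => ?_, hA,
    fun j hj => alt_two hj (hH j) (hA j)⟩, ?_, fun i hi => ?_⟩
  · rw [d3_two, mul_zero, map_zero]
  · rw [hb0 k le_rfl, hε ⟨k, hk⟩, if_pos rfl, one_smul]
  · rw [hb0 i hi.le, hε ⟨i, hi.trans hk⟩, if_neg (by simpa using hi.ne), zero_smul]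

end Pool.Agent.H69.V2
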