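import Pool.Agent.H69.V2.F14a

/-!
Project V2, F14: good forms exist.
-/

set_option linter.unusedSectionVars false

namespace Pool.Agent.H69.V2

open scoped BigOperators
open MvPolynomial

namespace F14X

/-- the avoiding lemma with parameter sets that depend on the chart -/
theorem avoid2 {B κ : Type} {A : κ → Type} [∀ k, Fintype (A k)] [Fintype B] [Finite κ]
    (h : ∀ k, Fintype.card (A k) < Fintype.card B) (f : ∀ k, B → MvPolynomial (A k) ℂ) :
    ∃ v : B → ℂ, ∀ (k : κ) (x : A k → ℂ), ∃ i, eval x (f k i) ≠ v i := by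
  classical
  have : Fintype κ := Fintype.ofFinite κ
  choose P hP0 hP using fun k => F14aX.dep (h k) (f k)
  have hprod : (∏ k, P k) ≠ 0 := Finset.prod_ne_zero_iff.mpr fun k _ => hP0 k
  obtain ⟨v, hv⟩ : ∃ v : B → ℂ, eval v (∏ k, P k) ≠ 0 := by
    by_contra hc
    push Not at hc
    exact hprod (MvPolynomial.funext fun v => by rw [hc v, map_zero])
  refine ⟨v, fun k x => ?_⟩
  by_contra hc
  push Not at hc
  rw [map_prod] at hv
  have hk : eval v (P k) ≠ 0 := fun h0 => hv (Finset.prod_eq_zero (Finset.mem_univ k) h0)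
  apply hk
  have h1 : eval x (aeval (f k) (P k)) = 0 := by rw [hP k, map_zero]
  have h2 : eval x (aeval (f k) (P k)) = eval (fun i => eval x (f k i)) (P k) := by
    rw [aeval_def, eval₂_eq', map_sum, eval_eq']
    refine Finset.sum_congr rfl fun d _ => ?_
    rw [map_mul, map_prod, algebraMap_eq, eval_C]
    simp only [map_pow]
  rw [h2] at h1
  have h3 : (fun i => eval x (f k i)) = v := funext hc
  rw [h3] at h1
  exact h1

variable {N : ℕ}

/-- a surjection has two independent columns -/
theorem exists_pair {g : Fin N → Fin 2 → ℂ} (hg : Function.Surjective (gv g)) :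
    ∃ k1 k2, g k1 0 * g k2 1 - g k1 1 * g k2 0 ≠ 0 := by
  by_contra hc
  push Not at hc
  obtain ⟨u, hu⟩ := hg (Pi.single 0 1)
  obtain ⟨v, hv⟩ := hg (Pi.single 1 1)
  have e1 : gv g u 0 * gv g v 1 - gv g u 1 * gv g v 0 = 1 := by
    rw [hu, hv]; simp
  have e2 : gv g u 0 * gv g v 1 - gv g u 1 * gv g v 0 =
      ∑ k1, ∑ k2, u k1 * v k2 * (g k1 0 * g k2 1 - g k1 1 * g k2 0) := by
    simp only [gv]
    rw [Finset.sum_mul_sum, Finset.sum_mul_sum, ← Finset.sum_sub_distrib]
    refine Finset.sum_congr rfl fun k1 _ => ?_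
    rw [← Finset.sum_sub_distrib]
    refine Finset.sum_congr rfl fun k2 _ => ?_
    ring
  rw [e2] at e1
  simp [hc] at e1

theorem sf_X (g : Fin N → Fin 2 → ℂ) (k : Fin N) : sf g (X k) = ∑ l, C (g k l) * X l := by
  simp [sf]

theorem sf_comp (g : Fin N → Fin 2 → ℂ) (b : Fin 2 → Fin 2 → ℂ) (β : MvPolynomial (Fin N) ℂ) :
    sf b (sf g β) = sf (fun k => gv b (g k)) β := by
  have : (sf b).comp (sf g) = sf (fun k => gv b (g k)) := by
    ext1 k
    simp only [AlgHom.comp_apply, sf, aeval_X, map_sum, map_mul, gv]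
    simp only [Fin.sum_univ_two, algHom_C, algebraMap_eq]
    ring
  rw [← this]
  rfl

/-- monomials of degree `q` -/
abbrev Bq (N q : ℕ) : Type :=
  {e : Fin N →₀ ℕ // e ∈ (Finset.univ : Finset (Fin N)).finsuppAntidiag q}

/-- charts -/
abbrev Ch (N : ℕ) : Type := {k : Fin N × Fin N // k.1 ≠ k.2}

/-- the monomial involves only the two variables of the chart -/
def two (k : Ch N) {q : ℕ} (m : Bq N q) : Prop := ∀ j, j ≠ k.1.1 → j ≠ k.1.2 → m.1 j = 0

/-- parameters -/
abbrev Pa (q c : ℕ) (k : Ch N) : Type :=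
  ({j : Fin N // j ≠ k.1.1 ∧ j ≠ k.1.2} × Fin 2) ⊕ (Fin c ⊕ {m : Bq N q // ¬ two k m})

/-- the generic substitution of the chart -/
noncomputable def gen (q c : ℕ) (k : Ch N) (j : Fin N) :
    MvPolynomial (Fin 2) (MvPolynomial (Pa q c k) ℂ) :=
  if h : j ≠ k.1.1 ∧ j ≠ k.1.2 then ∑ l, C (X (Sum.inl (⟨j, h⟩, l))) * X l
  else if j = k.1.1 then X 0 else X 1

/-- the generic substitution -/
noncomputable def Gn (q c : ℕ) (k : Ch N) :
    MvPolynomial (Fin N) ℂ →+* MvPolynomial (Fin 2) (MvPolynomial (Pa q c k) ℂ) :=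
  eval₂Hom ((C : _ →+* MvPolynomial (Fin 2) (MvPolynomial (Pa q c k) ℂ)).comp C) (gen q c k)

/-- the substitution at a point -/
noncomputable def at2 {q c : ℕ} (k : Ch N) (x : Pa q c k → ℂ) (j : Fin N) (l : Fin 2) : ℂ :=
  if h : j ≠ k.1.1 ∧ j ≠ k.1.2 then x (Sum.inl (⟨j, h⟩, l))
  else if j = k.1.1 then (Pi.single 0 1 : Fin 2 → ℂ) l else (Pi.single 1 1 : Fin 2 → ℂ) l

theorem map_Gn {q c : ℕ} (k : Ch N) (x : Pa q c k → ℂ) (F : MvPolynomial (Fin N) ℂ) :
    map (eval x) (Gn q c k F) = sf (at2 k x) F := by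
  have : (map (eval x)).comp (Gn q c k) = (sf (at2 k x)).toRingHom := by
    apply MvPolynomial.ringHom_ext
    · intro r
      simp [Gn, sf]
    · intro j
      simp only [RingHom.comp_apply, Gn, coe_eval₂Hom, eval₂_X, AlgHom.toRingHom_eq_coe,
        RingHom.coe_coe, sf_X]
      by_cases h : j ≠ k.1.1 ∧ j ≠ k.1.2
      · simp only [gen, at2, h, dif_pos, ne_eq, not_false_eq_true, and_self, map_sum, map_mul,
          map_C, map_X, eval_X]
      · by_cases h' : j = k.1.1
        · simp [gen, at2, h', map_X]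
        · have h2 : j = k.1.2 := by
            by_contra h3
            exact h ⟨h', h3⟩
          have h3 : k.1.2 ≠ k.1.1 := fun e => k.2 e.symm
          simp [gen, at2, h2, h3, map_X]
  have h2 := RingHom.congr_fun this F
  simpa using h2

/-- the exponent in two variables -/
noncomputable def pe {q : ℕ} (k : Ch N) (m : Bq N q) : Fin 2 →₀ ℕ :=
  Finsupp.single 0 (m.1 k.1.1) + Finsupp.single 1 (m.1 k.1.2)

theorem pe_zero {q : ℕ} (k : Ch N) (m : Bq N q) : pe k m 0 = m.1 k.1.1 := by
  simp [pe]

theorem pe_one {q : ℕ} (k : Ch N) (m : Bq N q) : pe k m 1 = m.1 k.1.2 := by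
  simp [pe]

theorem pe_inj {q : ℕ} (k : Ch N) {m m' : Bq N q} (h : two k m) (h' : two k m')
    (e : pe k m = pe k m') : m = m' := by
  apply Subtype.ext
  ext j
  by_cases h1 : j = k.1.1
  · rw [h1, ← pe_zero, ← pe_zero, e]
  · by_cases h2 : j = k.1.2
    · rw [h2, ← pe_one, ← pe_one, e]
    · rw [h j h1 h2, h' j h1 h2]

open Classical in
/-- the parametrized bad forms -/
noncomputable def bad (q c : ℕ) (β : ℕ → MvPolynomial (Fin N) ℂ) (k : Ch N) (m : Bq N q) :
    MvPolynomial (Pa q c k) ℂ :=
  if h : two k m then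
    coeff (pe k m) (∑ i : Fin c, C (X (Sum.inr (Sum.inl i))) * Gn q c k (β i) -
      ∑ m' : {m' : Bq N q // ¬ two k m'}, C (X (Sum.inr (Sum.inr m'))) *
        Gn q c k (monomial m'.1.1 1))
  else X (Sum.inr (Sum.inr ⟨m, h⟩))

open Classical in
theorem eval_bad {q c : ℕ} (β : ℕ → MvPolynomial (Fin N) ℂ) (k : Ch N) (m : Bq N q)
    (h : two k m) (x : Pa q c k → ℂ) : eval x (bad q c β k m) =
    coeff (pe k m) (∑ i : Fin c, C (x (Sum.inr (Sum.inl i))) * sf (at2 k x) (β i) -
      ∑ m' : {m' : Bq N q // ¬ two k m'}, C (x (Sum.inr (Sum.inr m'))) *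
        sf (at2 k x) (monomial m'.1.1 1)) := by
  rw [bad, dif_pos h, ← coeff_map]
  simp only [map_sub, map_sum, map_mul, map_Gn, map_C, eval_X]

/-- a monomial in the two variables of the chart -/
theorem sf_two {q c : ℕ} (k : Ch N) (x : Pa q c k → ℂ) (m : Bq N q) (h : two k m) :
    sf (at2 k x) (monomial m.1 1) = monomial (pe k m) 1 := by
  have h3 : k.1.2 ≠ k.1.1 := fun e => k.2 e.symm
  have e1 : (∑ l, C (at2 k x k.1.1 l) * X l : MvPolynomial (Fin 2) ℂ) = X 0 := by
    simp [at2]
  have e2 : (∑ l, C (at2 k x k.1.2 l) * X l : MvPolynomial (Fin 2) ℂ) = X 1 := by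
    simp [at2, h3]
  rw [sf, aeval_monomial, map_one, one_mul, Finsupp.prod_fintype _ _ (by simp),
    Finset.prod_eq_mul k.1.1 k.1.2 k.2 (fun j _ hj => by rw [h j hj.1 hj.2, pow_zero])
      (by simp) (by simp), e1, e2, X_pow_eq_monomial, X_pow_eq_monomial, monomial_mul, one_mul, pe]

open Classical in
theorem card_lt {q c : ℕ} (hN : 2 ≤ N) (h : 2 * (N - 2) + (c + 1) ≤ q + 1) (k : Ch N) :
    Fintype.card (Pa q c k) < Fintype.card (Bq N q) := by
  have e1 : Fintype.card (Bq N q) = Fintype.card {m : Bq N q // two k m} +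
      Fintype.card {m : Bq N q // ¬ two k m} := by
    rw [← Fintype.card_sum]
    exact Fintype.card_congr (Equiv.sumCompl _).symm
  have e2 : Fintype.card {j : Fin N // j ≠ k.1.1 ∧ j ≠ k.1.2} = N - 2 := by
    rw [Fintype.card_of_subtype ((Finset.univ.erase k.1.1).erase k.1.2) (fun j => by
      simp [and_comm])]
    rw [Finset.card_erase_of_mem (Finset.mem_erase.2 ⟨fun e => k.2 e.symm, Finset.mem_univ _⟩),
      Finset.card_erase_of_mem (Finset.mem_univ _), Finset.card_univ, Fintype.card_fin]
    omega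
  have e3 : q + 1 ≤ Fintype.card {m : Bq N q // two k m} := by
    let F : Fin (q + 1) → {m : Bq N q // two k m} := fun i =>
      ⟨⟨Finsupp.single k.1.1 i.1 + Finsupp.single k.1.2 (q - i.1), by
        rw [Finset.mem_finsuppAntidiag]
        refine ⟨?_, Finset.subset_univ _⟩
        have hi := i.2
        simp only [Finsupp.coe_add, Pi.add_apply, Finset.sum_add_distrib]
        rw [Finset.sum_eq_single k.1.1 (fun b _ hb => by simp [Ne.symm hb])
          (by simp), Finset.sum_eq_single k.1.2
          (fun b _ hb => by simp [Ne.symm hb]) (by simp)]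
        simp only [Finsupp.single_eq_same]
        omega⟩, fun j h1 h2 => by
        simp [Ne.symm h1, Ne.symm h2]⟩
    have hF : Function.Injective F := by
      intro i j hij
      have h3 : k.1.2 ≠ k.1.1 := fun e => k.2 e.symm
      have := DFunLike.congr_fun (congrArg (fun z => z.1.1) hij) k.1.1
      simp only [F, Finsupp.coe_add, Pi.add_apply, Finsupp.single_eq_same,
        Finsupp.single_apply, h3, if_false, add_zero] at this
      exact Fin.ext this
    have := Fintype.card_le_of_injective F hF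
    simpa using this
  rw [e1, Fintype.card_sum, Fintype.card_sum, Fintype.card_prod, e2, Fintype.card_fin,
    Fintype.card_fin]
  omega

open Classical in
/-- in a chart the bad forms are parametrized -/
theorem eval_eq {q c : ℕ} (β : ℕ → MvPolynomial (Fin N) ℂ) (k : Ch N) (v : Bq N q → ℂ)
    (a : Fin c → ℂ) (g : Fin N → Fin 2 → ℂ) (h0 : g k.1.1 = Pi.single 0 1)
    (h1 : g k.1.2 = Pi.single 1 1)
    (h : sf g (∑ m : Bq N q, C (v m) * monomial m.1 1) = ∑ i, a i • sf g (β i)) :
    ∃ x : Pa q c k → ℂ, ∀ m, eval x (bad q c β k m) = v m := by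
  let x : Pa q c k → ℂ := Sum.elim (fun p => g p.1.1 p.2) (Sum.elim a (fun m => v m.1))
  have hx : at2 k x = g := by
    funext j l
    by_cases hj : j ≠ k.1.1 ∧ j ≠ k.1.2
    · rw [at2, dif_pos hj]
      rfl
    · rw [at2, dif_neg hj]
      by_cases h' : j = k.1.1
      · rw [if_pos h', h', h0]
      · have h2 : j = k.1.2 := by
          by_contra h3
          exact hj ⟨h', h3⟩
        rw [if_neg h', h2, h1]
  refine ⟨x, fun m => ?_⟩
  by_cases hm : two k m
  · rw [eval_bad β k m hm, hx]
    have e1 : (∑ i : Fin c, C (x (Sum.inr (Sum.inl i))) * sf g (β i)) =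
        ∑ i, a i • sf g (β i) := by
      refine Finset.sum_congr rfl fun i _ => ?_
      rw [smul_eq_C_mul]
      rfl
    have e2 : ∑ m' : {m' : Bq N q // ¬ two k m'}, C (x (Sum.inr (Sum.inr m'))) *
        sf g (monomial m'.1.1 1) = ∑ m' : {m' : Bq N q // ¬ two k m'},
          C (v m'.1) * sf g (monomial m'.1.1 1) := rfl
    have e3 : sf g (∑ m : Bq N q, C (v m) * monomial m.1 1) =
        ∑ m' : {m' : Bq N q // two k m'}, C (v m'.1) * sf g (monomial m'.1.1 1) +
        ∑ m' : {m' : Bq N q // ¬ two k m'}, C (v m'.1) * sf g (monomial m'.1.1 1) := by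
      rw [Fintype.sum_subtype_add_sum_subtype (two k) (fun m' : Bq N q =>
        C (v m') * sf g (monomial m'.1 1)), map_sum]
      refine Finset.sum_congr rfl fun i _ => ?_
      rw [map_mul, algHom_C, algebraMap_eq]
    rw [e1, e2, ← h, e3, add_sub_cancel_right, coeff_sum]
    rw [Finset.sum_eq_single (⟨m, hm⟩ : {m' : Bq N q // two k m'})]
    · rw [← hx, sf_two k x m hm, coeff_C_mul, coeff_monomial, if_pos rfl, mul_one]
    · intro b _ hb
      rw [← hx, sf_two k x b.1 b.2, coeff_C_mul, coeff_monomial, if_neg, mul_zero]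
      intro he
      exact hb (Subtype.ext (pe_inj k b.2 hm he))
    · intro hh
      exact absurd (Finset.mem_univ _) hh
  · rw [bad, dif_neg hm, eval_X]
    rfl

end F14X

open F14X in
theorem exists_good {N q c : ℕ} (hN : 2 ≤ N) (h : 2 * (N - 2) + c ≤ q + 1) :
    ∃ β : ℕ → MvPolynomial (Fin N) ℂ, (∀ i, (β i).IsHomogeneous q) ∧ Good c β := by
  classical
  induction c with
  | zero =>
    refine ⟨fun _ => 0, fun _ => isHomogeneous_zero _ _ _, fun g _ => ?_⟩
    exact linearIndependent_empty_type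
  | succ c ih =>
    obtain ⟨β, hβ, hG⟩ := ih (by omega)
    obtain ⟨v, hv⟩ := avoid2 (fun k : Ch N => card_lt hN h k) (fun k m => bad q c β k m)
    set w : MvPolynomial (Fin N) ℂ := ∑ m : Bq N q, C (v m) * monomial m.1 1 with hw
    have hwh : w.IsHomogeneous q := by
      rw [hw]
      refine IsHomogeneous.sum _ _ _ fun m _ => ?_
      have h1 : (C (v m) * monomial m.1 1 : MvPolynomial (Fin N) ℂ) = monomial m.1 (v m) := by
        rw [C_mul_monomial, mul_one]
      rw [h1]
      apply isHomogeneous_monomial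
      have h2 := (Finset.mem_finsuppAntidiag.1 m.2).1
      rw [Finsupp.degree_eq_sum]
      exact h2
    refine ⟨Function.update β c w, fun i => ?_, fun g hg => ?_⟩
    · by_cases hi : i = c
      · rw [hi, Function.update_self]
        exact hwh
      · rw [Function.update_of_ne hi]
        exact hβ i
    · rw [linearIndependent_finSucc']
      have e1 : (Fin.init fun i : Fin (c + 1) => sf g (Function.update β c w i.1)) =
          fun i : Fin c => sf g (β i) := by
        funext i
        simp only [Fin.init, Fin.val_castSucc]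
        rw [Function.update_of_ne (by have := i.2; omega)]
      rw [e1]
      refine ⟨hG g hg, fun hmem => ?_⟩
      simp only [Fin.val_last, Function.update_self] at hmem
      rw [Submodule.mem_span_range_iff_exists_fun] at hmem
      obtain ⟨a, ha⟩ := hmem
      obtain ⟨k1, k2, hk⟩ := exists_pair hg
      have hne : k1 ≠ k2 := by
        intro e
        apply hk
        rw [e]
        ring
      set D := g k1 0 * g k2 1 - g k1 1 * g k2 0 with hD
      let b : Fin 2 → Fin 2 → ℂ := ![![g k2 1 / D, - g k1 1 / D], ![- g k2 0 / D, g k1 0 / D]]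
      have g1 : gv b (g k1) = Pi.single 0 1 := by
        funext l
        fin_cases l
        · simp only [gv, b, Fin.sum_univ_two]
          simp
          field_simp
          rw [hD]
          ring
        · simp only [gv, b, Fin.sum_univ_two]
          simp
          ring
      have g2 : gv b (g k2) = Pi.single 1 1 := by
        funext l
        fin_cases l
        · simp only [gv, b, Fin.sum_univ_two]
          simp
          ring
        · simp only [gv, b, Fin.sum_univ_two]
          simp
          field_simp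
          rw [hD]
          ring
      obtain ⟨x, hx⟩ := eval_eq (q := q) β ⟨(k1, k2), hne⟩ v a (fun k => gv b (g k)) g1 g2 (by
        rw [← hw, ← sf_comp, ← ha, map_sum]
        refine Finset.sum_congr rfl fun i _ => ?_
        rw [map_smul, sf_comp])
      obtain ⟨m, hm⟩ := hv ⟨(k1, k2), hne⟩ x
      exact hm (hx m)

end Pool.Agent.H69.V2
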