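import Pool.Agent.H69.V2.FDefs

/-!
Project V2, F14a: polynomial maps to a larger space are not onto.
-/

set_option linter.unusedSectionVars false

namespace Pool.Agent.H69.V2

open scoped BigOperators
open MvPolynomial

namespace F14aX

/-- more polynomials than variables are algebraically dependent -/
theorem dep {A B : Type} [Fintype A] [Fintype B] (h : Fintype.card A < Fintype.card B)
    (f : B → MvPolynomial A ℂ) : ∃ P : MvPolynomial B ℂ, P ≠ 0 ∧ aeval f P = 0 := by
  by_contra hc
  push Not at hc
  have hi : AlgebraicIndependent ℂ f := by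
    rw [algebraicIndependent_iff]
    intro P hP
    by_contra h0
    exact hc P h0 hP
  have h1 := hi.cardinalMk_le_trdeg
  rw [MvPolynomial.trdeg_of_isDomain] at h1
  simp only [Cardinal.mk_fintype, Cardinal.lift_natCast, Nat.cast_le] at h1
  omega

end F14aX

theorem avoid {A B κ : Type} [Fintype A] [Fintype B] [Finite κ]
    (h : Fintype.card A < Fintype.card B) (f : κ → B → MvPolynomial A ℂ) :
    ∃ v : B → ℂ, ∀ (k : κ) (x : A → ℂ), ∃ i, eval x (f k i) ≠ v i := by
  classical
  haveI : Fintype κ := Fintype.ofFinite κ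
  choose P hP0 hP using fun k => F14aX.dep h (f k)
  have hprod : (∏ k, P k) ≠ 0 := Finset.prod_ne_zero_iff.mpr fun k _ => hP0 k
  obtain ⟨v, hv⟩ : ∃ v : B → ℂ, eval v (∏ k, P k) ≠ 0 := by
    by_contra hc
    push Not at hc
    exact hprod (MvPolynomial.funext fun v => by rw [hc v, map_zero])
  refine ⟨v, fun k x => ?_⟩
  by_contra hc
  push Not at hc
  rw [map_prod] at hv
  have hk : eval v (P k) ≠ 0 := fun h0 => hv (Finset.prod_eq_zero (Finset.mem_univ k) h0)
  apply hk
  have h1 : eval x (aeval (f k) (P k)) = 0 := by rw [hP k, map_zero]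
  have h2 : eval x (aeval (f k) (P k)) = eval (fun i => eval x (f k i)) (P k) := by
    rw [aeval_def, eval₂_eq', map_sum, eval_eq']
    refine Finset.sum_congr rfl fun d _ => ?_
    rw [map_mul, map_prod, algebraMap_eq, eval_C]
    simp only [map_pow]
  rw [h2] at h1
  have h3 : (fun i => eval x (f k i)) = v := funext hc
  rw [h3] at h1
  exact h1

end Pool.Agent.H69.V2
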