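import Pool.Agent.H69.V2.FDefs

/-!
# Polynomial curves of functionals (project V2, row F6)
-/

set_option linter.unusedSectionVars false

namespace Pool.Agent.H69.V2

open scoped BigOperators
open MvPolynomial

variable {ι κ lam σ τ υ R : Type} [Fintype σ] [DecidableEq σ] [Fintype τ] [DecidableEq τ]
  [Fintype υ] [DecidableEq υ]

theorem poly_mem {V : Type} [AddCommGroup V] [Module ℂ V] {W : Submodule ℂ V} {n : ℕ}
    {v : ℕ → V} {S : Set ℂ} (hS : S.Infinite)
    (h : ∀ t ∈ S, ∑ i ∈ Finset.range n, t ^ i • v i ∈ W) : ∀ i < n, v i ∈ W := by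
  intro i hi
  rw [← Submodule.Quotient.mk_eq_zero, ← Module.forall_dual_apply_eq_zero_iff ℂ]
  intro φ
  set p : Polynomial ℂ := ∑ j ∈ Finset.range n,
    Polynomial.monomial j (φ (Submodule.Quotient.mk (v j))) with hp
  have hz : p = 0 := by
    apply Polynomial.eq_zero_of_infinite_isRoot
    refine hS.mono fun t ht => ?_
    have h1 := h t ht
    rw [← Submodule.Quotient.mk_eq_zero] at h1
    have h2 := congrArg φ h1
    rw [map_zero] at h2
    show Polynomial.eval t p = 0
    rw [hp, Polynomial.eval_finsetSum, ← h2]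
    have h3 : (Submodule.Quotient.mk (∑ i ∈ Finset.range n, t ^ i • v i) : V ⧸ W) =
        ∑ i ∈ Finset.range n, t ^ i • (Submodule.Quotient.mk (v i) : V ⧸ W) := by
      rw [← Submodule.mkQ_apply, map_sum]
      simp
    rw [h3, map_sum]
    refine Finset.sum_congr rfl fun j _ => ?_
    rw [Polynomial.eval_monomial, map_smul, smul_eq_mul, mul_comm]
  have hc : p.coeff i = φ (Submodule.Quotient.mk (v i)) := by
    rw [hp, Polynomial.finsetSum_coeff]
    simp only [Polynomial.coeff_monomial]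
    rw [Finset.sum_ite_eq' (Finset.range n) i, if_pos (Finset.mem_range.2 hi)]
  rw [← hc, hz, Polynomial.coeff_zero]

namespace F6X

section sc
open Classical in
/-- scaling of one slot -/
noncomputable def sc (s : ι) (c : ℂ) : Pl ι σ →ₐ[ℂ] Pl ι σ :=
  aeval (fun p => C (if p.1 = s then c else 1) * X p)

theorem sc_monomial [Fintype ι] (s : ι) (c : ℂ) (e : ι × σ →₀ ℕ) :
    sc s c (monomial e (1 : ℂ)) = c ^ (∑ k, e (s, k)) • monomial e (1 : ℂ) := by
  classical
  rw [sc, aeval_monomial, map_one, one_mul, Finsupp.prod_fintype _ _ (fun _ => pow_zero _)]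
  simp only [mul_pow]
  rw [Finset.prod_mul_distrib]
  have h1 : ∏ p : ι × σ, (X p : Pl ι σ) ^ e p = monomial e (1 : ℂ) := by
    rw [monomial_eq, C_1, one_mul, Finsupp.prod_fintype _ _ (fun _ => pow_zero _)]
  have h2 : ∏ p : ι × σ, (C (if p.1 = s then c else 1) : Pl ι σ) ^ e p =
      C (c ^ (∑ k, e (s, k))) := by
    rw [Fintype.prod_prod_type]
    rw [Finset.prod_eq_single s]
    · simp only [if_true]
      rw [← Finset.prod_pow_eq_pow_sum, map_prod]
      simp only [map_pow]
    · intro t _ ht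
      simp only [if_neg ht, map_one, one_pow, Finset.prod_const_one]
    · intro h
      exact absurd (Finset.mem_univ s) h
  rw [h1, h2, smul_eq_C_mul]

theorem sc_sb (s : ι) (c : ℂ) (g : σ → τ → ℂ) (f : Pl ι σ) :
    sc s c (sb g f) = sb g (sc s c f) := by
  classical
  have h : (sc s c).comp (sb g : Pl ι σ →ₐ[ℂ] Pl ι τ) = (sb g).comp (sc s c) := by
    apply MvPolynomial.algHom_ext
    intro p
    simp only [AlgHom.comp_apply, sb, sc, aeval_X, map_mul, li, map_sum, aeval_C,
      MvPolynomial.algebraMap_eq, Finset.mul_sum]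
    exact Finset.sum_congr rfl fun k _ => by ring
  exact AlgHom.congr_fun h f

theorem ap_sc [Fintype ι] {dg : ι → ℕ} {θ : Du ι σ} (hθ : Hg dg θ) (s : ι) (c : ℂ)
    (f : Pl ι σ) : θ (sc s c f) = c ^ dg s * θ f := by
  have h : θ.comp (sc s c).toLinearMap = c ^ dg s • θ := by
    apply (basisMonomials (ι × σ) ℂ).ext
    intro e
    rw [coe_basisMonomials, LinearMap.comp_apply, AlgHom.toLinearMap_apply, sc_monomial,
      map_smul, LinearMap.smul_apply]
    by_cases he : ∑ k, e (s, k) = dg s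
    · rw [he]
    · rw [hθ e ⟨s, he⟩, smul_zero, smul_zero]
  have h2 := LinearMap.congr_fun h f
  rw [LinearMap.comp_apply, AlgHom.toLinearMap_apply, LinearMap.smul_apply, smul_eq_mul] at h2
  exact h2

theorem hg_sb [Fintype ι] {dg : ι → ℕ} (g : σ → τ → ℂ) {θ : Du ι τ} (h : Hg dg θ) :
    Hg dg (θ.comp (sb g).toLinearMap) := by
  rintro e ⟨s, hs⟩
  rw [LinearMap.comp_apply, AlgHom.toLinearMap_apply]
  have h1 := ap_sc h s 2 (sb g (monomial e 1))
  rw [sc_sb, sc_monomial, map_smul, map_smul, smul_eq_mul] at h1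
  by_contra hne
  apply hs
  have h2 : (2 : ℂ) ^ (∑ k, e (s, k)) = 2 ^ dg s := mul_right_cancel₀ hne h1
  have h3 : (2 : ℕ) ^ (∑ k, e (s, k)) = 2 ^ dg s := by exact_mod_cast h2
  exact Nat.pow_right_injective le_rfl h3

end sc

/-- substitution with a parameter -/
noncomputable def sbT (g0 g1 : σ → τ → ℂ) : Pl ι σ →ₐ[ℂ] Polynomial (Pl ι τ) :=
  aeval (fun p => Polynomial.C (li p.1 (g0 p.2)) + Polynomial.X * Polynomial.C (li p.1 (g1 p.2)))

theorem eval_sbT (g0 g1 : σ → τ → ℂ) (t : ℂ) (f : Pl ι σ) :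
    sb (g0 + t • g1) f = Polynomial.eval (C t) (sbT g0 g1 f) := by
  induction f using MvPolynomial.induction_on with
  | C a =>
    rw [← MvPolynomial.algebraMap_eq, AlgHom.commutes, AlgHom.commutes]
    rw [Polynomial.algebraMap_apply, Polynomial.eval_C]
  | add p q hp hq => rw [map_add, map_add, Polynomial.eval_add, hp, hq]
  | mul_X p i hp =>
    rw [map_mul, map_mul, Polynomial.eval_mul, hp]
    congr 1
    rw [sb, sbT, aeval_X, aeval_X, Polynomial.eval_add, Polynomial.eval_mul, Polynomial.eval_C,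
      Polynomial.eval_C, Polynomial.eval_X]
    simp only [li, Pi.add_apply, Pi.smul_apply, smul_eq_mul, map_add, map_mul, add_mul,
      Finset.sum_add_distrib, Finset.mul_sum, mul_assoc]

theorem degree_sbT [Fintype ι] (g0 g1 : σ → τ → ℂ) (e : ι × σ →₀ ℕ) :
    (sbT g0 g1 (monomial e (1 : ℂ)) : Polynomial (Pl ι τ)).natDegree ≤
      ∑ s, ∑ k, e (s, k) := by
  rw [sbT, aeval_monomial, map_one, one_mul, ← Fintype.sum_prod_type' (fun s k => e (s, k))]
  rw [Finsupp.prod_fintype _ _ (fun _ => pow_zero _)]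
  refine (Polynomial.natDegree_prod_le _ _).trans ?_
  refine Finset.sum_le_sum fun p _ => ?_
  refine (Polynomial.natDegree_pow_le).trans ?_
  refine (Nat.mul_le_mul_left _ ?_).trans (le_of_eq (Nat.mul_one _))
  refine (Polynomial.natDegree_add_le _ _).trans ?_
  rw [Polynomial.natDegree_C]
  refine max_le (Nat.zero_le _) ?_
  refine (Polynomial.natDegree_mul_le).trans ?_
  rw [Polynomial.natDegree_C, add_zero]
  exact Polynomial.natDegree_X_le

/-- the coefficients of the curve -/
noncomputable def cv (θ : Du ι τ) (g0 g1 : σ → τ → ℂ) (i : ℕ) : Du ι σ where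
  toFun f := θ ((sbT g0 g1 f).coeff i)
  map_add' f g := by rw [map_add, Polynomial.coeff_add, map_add]
  map_smul' c f := by
    rw [map_smul (sbT g0 g1) c f, Polynomial.coeff_smul, map_smul, RingHom.id_apply]

theorem cv_apply (θ : Du ι τ) (g0 g1 : σ → τ → ℂ) (i : ℕ) (f : Pl ι σ) :
    cv θ g0 g1 i f = θ ((sbT g0 g1 f).coeff i) := rfl

theorem eval_range {n : ℕ} {p : Polynomial (Pl ι τ)} (hp : p.natDegree < n) (θ : Du ι τ)
    (t : ℂ) : θ (Polynomial.eval (C t) p) = ∑ i ∈ Finset.range n, t ^ i * θ (p.coeff i) := by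
  rw [Polynomial.eval_eq_sum_range' hp, map_sum]
  refine Finset.sum_congr rfl fun i _ => ?_
  rw [← map_pow, mul_comm, ← MvPolynomial.smul_eq_C_mul, map_smul, smul_eq_mul]

theorem curve' [Fintype ι] {dg : ι → ℕ} {θ : Du ι τ} (hθ : Hg dg θ) (g0 g1 : σ → τ → ℂ)
    {n : ℕ} (hn : ∑ s, dg s < n) (t : ℂ) : θ.comp (sb (g0 + t • g1)).toLinearMap =
      ∑ i ∈ Finset.range n, t ^ i • cv θ g0 g1 i := by
  apply (basisMonomials (ι × σ) ℂ).ext
  intro e
  rw [coe_basisMonomials]
  simp only [LinearMap.sum_apply, LinearMap.smul_apply, smul_eq_mul, LinearMap.comp_apply,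
    AlgHom.toLinearMap_apply, cv_apply]
  by_cases he : ∃ s, ∑ k, e (s, k) ≠ dg s
  · have key : ∀ i, θ ((sbT g0 g1 (monomial e (1 : ℂ))).coeff i) = 0 := by
      intro i
      set p := sbT g0 g1 (monomial e (1 : ℂ)) with hp
      by_cases hi : i < p.natDegree + 1
      · have h1 := poly_mem (V := ℂ) (W := ⊥) (n := p.natDegree + 1)
          (v := fun i => θ (p.coeff i)) (S := Set.univ) Set.infinite_univ (fun t _ => by
            rw [Submodule.mem_bot]
            have h2 : θ (sb (g0 + t • g1) (monomial e 1)) = 0 := hg_sb _ hθ e he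
            rw [eval_sbT, ← hp, eval_range (Nat.lt_succ_self _)] at h2
            simpa using h2) i hi
        simpa using h1
      · rw [Polynomial.coeff_eq_zero_of_natDegree_lt (by omega), map_zero]
    have h2 : θ (sb (g0 + t • g1) (monomial e 1)) = 0 := hg_sb _ hθ e he
    rw [h2]
    simp only [key, mul_zero, Finset.sum_const_zero]
  · push Not at he
    rw [eval_sbT, eval_range]
    refine lt_of_le_of_lt (degree_sbT g0 g1 e) ?_
    simpa only [he] using hn

theorem cv_zero [Fintype ι] {dg : ι → ℕ} {θ : Du ι τ} (hθ : Hg dg θ) (g0 g1 : σ → τ → ℂ) :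
    cv θ g0 g1 0 = θ.comp (sb g0).toLinearMap := by
  have h := curve' hθ g0 g1 (Nat.lt_succ_self _) 0
  rw [zero_smul, add_zero] at h
  rw [h, Finset.sum_range_succ', pow_zero, one_smul]
  simp

theorem coeff_zero_sbT (g0 g1 : σ → τ → ℂ) (f : Pl ι σ) :
    (sbT g0 g1 f).coeff 0 = sb g0 f := by
  have h := eval_sbT g0 g1 0 f
  rw [zero_smul, add_zero, map_zero, ← Polynomial.coeff_zero_eq_eval_zero] at h
  exact h.symm

theorem coeff_one_mul {A : Type} [CommRing A] (p q : Polynomial A) :
    (p * q).coeff 1 = p.coeff 0 * q.coeff 1 + p.coeff 1 * q.coeff 0 := by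
  rw [Polynomial.coeff_mul, Finset.Nat.sum_antidiagonal_eq_sum_range_succ_mk]
  simp [Finset.sum_range_succ]

theorem coeff_one_sbT (g : σ → τ → ℂ) (a b : σ) (f : Pl ι σ) :
    (sbT g (Pi.single a (g b)) f).coeff 1 = sb g (Dv a b f) := by
  induction f using MvPolynomial.induction_on with
  | C c =>
    rw [← MvPolynomial.algebraMap_eq, AlgHom.commutes, Derivation.map_algebraMap, map_zero,
      Polynomial.algebraMap_apply, Polynomial.coeff_C]
    simp
  | add p q hp hq => rw [map_add, Polynomial.coeff_add, hp, hq, map_add, map_add]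
  | mul_X p i hp =>
    rw [map_mul, coeff_one_mul, hp, coeff_zero_sbT, coeff_zero_sbT, Derivation.leibniz, map_add,
      smul_eq_mul, smul_eq_mul, map_mul, map_mul]
    have h1 : (sbT g (Pi.single a (g b)) (X i : Pl ι σ)).coeff 1 = sb g (Dv a b (X i)) := by
      rw [sbT, aeval_X, Polynomial.coeff_add, Polynomial.coeff_C, Polynomial.coeff_X_mul,
        Polynomial.coeff_C_zero, Dv, mkDerivation_X]
      by_cases h : i.2 = a
      · rw [if_pos h, h, Pi.single_eq_same, sb, aeval_X]
        simp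
      · rw [if_neg h, Pi.single_eq_of_ne h, map_zero]
        simp [li]
    rw [h1]
    ring

end F6X

open F6X

theorem curve [Fintype ι] {dg : ι → ℕ} {θ : Du ι τ} (hθ : Hg dg θ) (g0 g1 : σ → τ → ℂ) :
    ∃ (n : ℕ) (v : ℕ → Du ι σ), (∀ t : ℂ, θ.comp (sb (g0 + t • g1)).toLinearMap =
      ∑ i ∈ Finset.range n, t ^ i • v i) :=
  ⟨_, cv θ g0 g1, fun t => curve' hθ g0 g1 (Nat.lt_succ_self _) t⟩

theorem E2_Dv [Fintype ι] {dg : ι → ℕ} {Θ : Du ι σ} (h : Θ ∈ E2 dg) {a b : σ} (hab : a ≠ b) :
    Θ.comp (DvL a b) ∈ (E2 dg : Submodule ℂ (Du ι σ)) := by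
  induction h using Submodule.span_induction with
  | mem x hx =>
    obtain ⟨g, θ, hθ, rfl⟩ := hx
    have h1 := poly_mem (W := (E2 dg : Submodule ℂ (Du ι σ))) (n := ∑ s, dg s + 2)
      (v := cv θ g (Pi.single a (g b))) (S := Set.univ) Set.infinite_univ (fun t _ => by
        rw [← curve' hθ g (Pi.single a (g b)) (by omega) t]
        exact Submodule.subset_span ⟨_, θ, hθ, rfl⟩) 1 (by omega)
    have h2 : (θ.comp (sb g).toLinearMap).comp (DvL a b) = cv θ g (Pi.single a (g b)) 1 := by
      refine LinearMap.ext fun f => ?_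
      rw [cv_apply, coeff_one_sbT]
      rfl
    rw [h2]
    exact h1
  | zero => rw [LinearMap.zero_comp]; exact Submodule.zero_mem _
  | add x y _ _ hx hy => rw [LinearMap.add_comp]; exact Submodule.add_mem _ hx hy
  | smul c x _ hx => rw [LinearMap.smul_comp]; exact Submodule.smul_mem _ c hx

namespace F6X

theorem exists_g1 {z z' : σ → ℂ} (hz : LinearIndependent ℂ ![z, z']) :
    ∃ g : σ → Fin 2 → ℂ, dt g z z' = 1 := by
  obtain ⟨φ, hφ⟩ := LinearMap.exists_leftInverse_of_injective
    (Fintype.linearCombination ℂ ![z, z'])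
    (LinearMap.ker_eq_bot.2 (linearIndependent_iff_injective_fintypeLinearCombination.1 hz))
  refine ⟨fun k => φ (Pi.single k 1), ?_⟩
  have hg : ∀ u : σ → ℂ, gv (fun k => φ (Pi.single k 1)) u = φ u := by
    intro u
    have hu : u = ∑ k, u k • (Pi.single k (1 : ℂ) : σ → ℂ) := by
      funext l
      simp [Finset.sum_apply, Pi.single_apply]
    funext l
    rw [gv]
    conv_rhs => rw [hu]
    rw [map_sum, Finset.sum_apply]
    refine Finset.sum_congr rfl fun k _ => ?_
    rw [map_smul, Pi.smul_apply, smul_eq_mul]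
  have h0 : φ z = Pi.single 0 1 := by
    have h := LinearMap.congr_fun hφ (Pi.single 0 1)
    rw [LinearMap.comp_apply, Fintype.linearCombination_apply_single, one_smul] at h
    simpa using h
  have h1 : φ z' = Pi.single 1 1 := by
    have h := LinearMap.congr_fun hφ (Pi.single 1 1)
    rw [LinearMap.comp_apply, Fintype.linearCombination_apply_single, one_smul] at h
    simpa using h
  rw [dt, hg, hg, h0, h1]
  simp

end F6X

theorem E2_dense [Fintype ι] {dg : ι → ℕ} {z z' : σ → ℂ} (hz : LinearIndependent ℂ ![z, z'])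
    {Θ : Du ι σ} (h : Θ ∈ E2 dg) :
    Θ ∈ Submodule.span ℂ {Θ | ∃ (g : σ → Fin 2 → ℂ) (θ : Du ι (Fin 2)), Hg dg θ ∧
      dt g z z' ≠ 0 ∧ Θ = θ.comp (sb g).toLinearMap} := by
  induction h using Submodule.span_induction with
  | mem x hx =>
    obtain ⟨g, θ, hθ, rfl⟩ := hx
    obtain ⟨g1, hg1⟩ := exists_g1 hz
    set p : Polynomial ℂ := Polynomial.C (dt g z z') + Polynomial.C
      (gv g z 0 * gv g1 z' 1 + gv g1 z 0 * gv g z' 1 - gv g z 1 * gv g1 z' 0 -
        gv g1 z 1 * gv g z' 0) * Polynomial.X + Polynomial.X ^ 2 with hp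
    have hp0 : p ≠ 0 := by
      intro h0
      have h1 : p.coeff 2 = 1 := by
        rw [hp]
        simp
      rw [h0, Polynomial.coeff_zero] at h1
      exact zero_ne_one h1
    have hev : ∀ t : ℂ, dt (g + t • g1) z z' = p.eval t := by
      intro t
      have hgv : ∀ u : σ → ℂ, ∀ l, gv (g + t • g1) u l = gv g u l + t * gv g1 u l := by
        intro u l
        simp only [gv, Pi.add_apply, Pi.smul_apply, smul_eq_mul, mul_add,
          Finset.sum_add_distrib, Finset.mul_sum]
        congr 1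
        exact Finset.sum_congr rfl fun k _ => by ring
      rw [hp, dt, hgv, hgv, hgv, hgv]
      simp only [Polynomial.eval_add, Polynomial.eval_mul, Polynomial.eval_C, Polynomial.eval_X,
        Polynomial.eval_pow]
      rw [dt] at hg1
      rw [dt]
      linear_combination t ^ 2 * hg1
    have hinf : {t : ℂ | dt (g + t • g1) z z' ≠ 0}.Infinite := by
      have hfin : {t : ℂ | Polynomial.IsRoot p t}.Finite := Polynomial.finite_setOfPred_isRoot hp0
      have := hfin.infinite_compl
      refine this.mono fun t ht => ?_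
      show dt (g + t • g1) z z' ≠ 0
      rw [hev]
      exact ht
    have h1 := poly_mem (W := Submodule.span ℂ {Θ : Du ι σ | ∃ (g : σ → Fin 2 → ℂ)
        (θ : Du ι (Fin 2)), Hg dg θ ∧ dt g z z' ≠ 0 ∧ Θ = θ.comp (sb g).toLinearMap})
        (n := ∑ s, dg s + 1) (v := cv θ g g1) hinf (fun t ht => by
        rw [← curve' hθ g g1 (Nat.lt_succ_self _) t]
        exact Submodule.subset_span ⟨_, θ, hθ, ht, rfl⟩) 0 (Nat.succ_pos _)
    rw [cv_zero hθ] at h1
    exact h1
  | zero => exact Submodule.zero_mem _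
  | add x y _ _ hx hy => exact Submodule.add_mem _ hx hy
  | smul c x _ hx => exact Submodule.smul_mem _ c hx

end Pool.Agent.H69.V2
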