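import Pool.Agent.H69.V2.FDefs
import Pool.Agent.H69.VT.X1

/-!
Project V2, row F5: slot functions and functionals.
-/

set_option linter.unusedSectionVars false

namespace Pool.Agent.H69.V2

open scoped BigOperators
open MvPolynomial
open VT

variable {ι σ : Type} [Fintype σ] [DecidableEq σ] [Fintype ι] [DecidableEq ι]

theorem toDu_monomial (Φ : SF σ ι) (e : ι × σ →₀ ℕ) :
    toDu Φ (monomial e 1) = Φ (fun s k => e (s, k)) := by
  unfold toDu
  have h := (basisMonomials (ι × σ) ℂ).constr_basis ℂ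
    (fun e : ι × σ →₀ ℕ => Φ (fun s k => e (s, k))) e
  rw [coe_basisMonomials] at h
  exact h

theorem toDu_ex (Φ : SF σ ι) (e : ι → σ → ℕ) : toDu Φ (monomial (ex e) 1) = Φ e := by
  rw [toDu_monomial]
  rfl

namespace F5X

theorem ex_coe (e : ι × σ →₀ ℕ) : ex (fun s k => e (s, k)) = e := by
  ext p
  rfl

theorem du_ext {M : Type} [AddCommGroup M] [Module ℂ M] {A B : Pl ι σ →ₗ[ℂ] M}
    (h : ∀ e : ι × σ →₀ ℕ, A (monomial e 1) = B (monomial e 1)) : A = B := by
  apply (basisMonomials (ι × σ) ℂ).ext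
  intro e
  rw [coe_basisMonomials]
  exact h e

theorem li_s (s : ι) (k : σ) : (li s (Pi.single k (1 : ℂ)) : Pl ι σ) = X (s, k) := by
  unfold li
  rw [Finset.sum_eq_single k]
  · simp
  · intro b _ hb
    simp [hb]
  · intro h
    exact absurd (Finset.mem_univ k) h

theorem ex_u1 (e : ι → σ → ℕ) (s : ι) (a : σ) :
    ex e + Finsupp.single (s, a) 1 = ex (e + u1 s a) := by
  ext p
  obtain ⟨t, k⟩ := p
  by_cases ht : t = s
  · subst ht
    by_cases hk : k = a
    · subst hk
      simp [ex, u1]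
    · simp [ex, u1, hk]
  · simp [ex, u1, ht]

theorem mon_X (e : ι → σ → ℕ) (s : ι) (a : σ) :
    (monomial (ex e) (1 : ℂ) * X (s, a) : Pl ι σ) = monomial (ex (e + u1 s a)) 1 := by
  rw [X, monomial_mul, one_mul, ex_u1]

theorem ex_mv (e : ι → σ → ℕ) (s : ι) {a b : σ} (hab : a ≠ b) :
    ex e - Finsupp.single (s, a) 1 + Finsupp.single (s, b) 1 = ex (mv a b s e) := by
  ext p
  obtain ⟨t, k⟩ := p
  by_cases ht : t = s
  · subst ht
    by_cases hk : k = a
    · subst hk
      simp [ex, mv, hab]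
    · by_cases hk' : k = b
      · subst hk'
        simp [ex, mv, hk]
      · simp [ex, mv, hk, hk']
  · simp [ex, mv, ht]

theorem prod3 (A B C : σ → Pl ι σ) : (∑ a, A a) * (∑ b, B b) * (∑ c, C c) =
    ∑ a, ∑ b, ∑ c, A a * B b * C c := by
  rw [Finset.sum_mul_sum, Finset.sum_mul]
  refine Finset.sum_congr rfl (fun a _ => ?_)
  rw [Finset.sum_mul]
  refine Finset.sum_congr rfl (fun b _ => ?_)
  rw [Finset.mul_sum]

theorem d3_tri (s t r : ι) (u v w : σ → ℂ) : (d3 s t r u v w : Pl ι σ) =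
    ∑ a, ∑ b, ∑ c, C (u a * v b * w c) *
      d3 s t r (Pi.single a 1) (Pi.single b 1) (Pi.single c 1) := by
  have e0 : ∀ x : ι, ∀ y : σ → ℂ, (li x y : Pl ι σ) = ∑ k, C (y k) * X (x, k) := fun _ _ => rfl
  have h1 : (li s u * li t v * li r w : Pl ι σ) = ∑ a, ∑ b, ∑ c,
      C (u a * v b * w c) * (X (s, a) * X (t, b) * X (r, c)) := by
    rw [e0, e0, e0, prod3]
    refine Finset.sum_congr rfl (fun a _ => Finset.sum_congr rfl (fun b _ =>
      Finset.sum_congr rfl (fun c _ => ?_)))
    rw [C_mul, C_mul]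
    ring
  have h2 : (li s u * li t w * li r v : Pl ι σ) = ∑ a, ∑ b, ∑ c,
      C (u a * v b * w c) * (X (s, a) * X (t, c) * X (r, b)) := by
    rw [show (li s u * li t w * li r v : Pl ι σ) = li s u * li r v * li t w by ring,
      e0, e0, e0, prod3]
    refine Finset.sum_congr rfl (fun a _ => Finset.sum_congr rfl (fun b _ =>
      Finset.sum_congr rfl (fun c _ => ?_)))
    rw [C_mul, C_mul]
    ring
  have h3 : (li s v * li t u * li r w : Pl ι σ) = ∑ a, ∑ b, ∑ c,
      C (u a * v b * w c) * (X (s, b) * X (t, a) * X (r, c)) := by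
    rw [show (li s v * li t u * li r w : Pl ι σ) = li t u * li s v * li r w by ring,
      e0, e0, e0, prod3]
    refine Finset.sum_congr rfl (fun a _ => Finset.sum_congr rfl (fun b _ =>
      Finset.sum_congr rfl (fun c _ => ?_)))
    rw [C_mul, C_mul]
    ring
  have h4 : (li s v * li t w * li r u : Pl ι σ) = ∑ a, ∑ b, ∑ c,
      C (u a * v b * w c) * (X (s, b) * X (t, c) * X (r, a)) := by
    rw [show (li s v * li t w * li r u : Pl ι σ) = li r u * li s v * li t w by ring,
      e0, e0, e0, prod3]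
    refine Finset.sum_congr rfl (fun a _ => Finset.sum_congr rfl (fun b _ =>
      Finset.sum_congr rfl (fun c _ => ?_)))
    rw [C_mul, C_mul]
    ring
  have h5 : (li s w * li t u * li r v : Pl ι σ) = ∑ a, ∑ b, ∑ c,
      C (u a * v b * w c) * (X (s, c) * X (t, a) * X (r, b)) := by
    rw [show (li s w * li t u * li r v : Pl ι σ) = li t u * li r v * li s w by ring,
      e0, e0, e0, prod3]
    refine Finset.sum_congr rfl (fun a _ => Finset.sum_congr rfl (fun b _ =>
      Finset.sum_congr rfl (fun c _ => ?_)))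
    rw [C_mul, C_mul]
    ring
  have h6 : (li s w * li t v * li r u : Pl ι σ) = ∑ a, ∑ b, ∑ c,
      C (u a * v b * w c) * (X (s, c) * X (t, b) * X (r, a)) := by
    rw [show (li s w * li t v * li r u : Pl ι σ) = li r u * li t v * li s w by ring,
      e0, e0, e0, prod3]
    refine Finset.sum_congr rfl (fun a _ => Finset.sum_congr rfl (fun b _ =>
      Finset.sum_congr rfl (fun c _ => ?_)))
    rw [C_mul, C_mul]
    ring
  have hd : (d3 s t r u v w : Pl ι σ) = li s u * li t v * li r w - li s u * li t w * li r v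
      - li s v * li t u * li r w + li s v * li t w * li r u + li s w * li t u * li r v
      - li s w * li t v * li r u := by
    unfold d3 d2
    ring
  rw [hd, h1, h2, h3, h4, h5, h6]
  simp only [← Finset.sum_sub_distrib, ← Finset.sum_add_distrib]
  refine Finset.sum_congr rfl (fun a _ => Finset.sum_congr rfl (fun b _ =>
    Finset.sum_congr rfl (fun c _ => ?_)))
  unfold d3 d2
  simp only [li_s]
  ring

theorem rs_mon (g : Equiv.Perm ι) (e : ι × σ →₀ ℕ) :
    rs g (monomial e (1 : ℂ)) = monomial (e.mapDomain (Prod.map g id)) 1 := by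
  unfold rs
  rw [rename_monomial]

theorem toDu_rs (Φ : SF σ ι) (s t : ι) (e : ι × σ →₀ ℕ) :
    toDu Φ (rs (Equiv.swap s t) (monomial e 1)) =
      Φ ((fun s' k => e (s', k)) ∘ Equiv.swap s t) := by
  rw [rs_mon, toDu_monomial]
  congr 1
  funext s' k
  have hinj : Function.Injective (Prod.map (Equiv.swap s t) (id : σ → σ)) :=
    (Equiv.swap s t).injective.prodMap Function.injective_id
  have h := Finsupp.mapDomain_apply hinj e (Equiv.swap s t s', k)
  simp only [Prod.map_apply, Equiv.swap_apply_self, id_eq] at h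
  rw [h]
  rfl

end F5X

theorem toDu_ofDu (Θ : Du ι σ) : toDu (ofDu Θ) = Θ := by
  apply F5X.du_ext
  intro e
  rw [toDu_monomial]
  unfold ofDu
  rw [F5X.ex_coe]

theorem ofDu_toDu (Φ : SF σ ι) : ofDu (toDu Φ) = Φ := by
  funext e
  exact toDu_ex Φ e

theorem ofDu_Dv {a b : σ} (hab : a ≠ b) (Θ : Du ι σ) :
    ofDu (Θ.comp (DvL a b)) = Ro Finset.univ a b (ofDu Θ) := by
  funext e
  unfold ofDu Ro DvL Dv
  rw [LinearMap.comp_apply]
  have h1 : (mkDerivation ℂ (fun p : ι × σ => if p.2 = a then (X (p.1, b) : Pl ι σ) else 0))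
      (monomial (ex e) 1) = ∑ s, (e s a : ℂ) • (monomial (ex (mv a b s e)) (1 : ℂ) : Pl ι σ) := by
    rw [mkDerivation_monomial, one_smul, Finsupp.sum_fintype _ _ (by
      intro p
      simp), Fintype.sum_prod_type]
    apply Finset.sum_congr rfl
    intro s _
    rw [Finset.sum_eq_single a]
    · rw [if_pos rfl, smul_eq_mul, X, monomial_mul, mul_one, smul_monomial, smul_eq_mul, mul_one]
      rw [show ex e - Finsupp.single (s, a) 1 + Finsupp.single ((s, a).1, b) 1 =
        ex (mv a b s e) from F5X.ex_mv e s hab]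
      rfl
    · intro k _ hk
      rw [if_neg hk, smul_zero]
    · intro h
      exact absurd (Finset.mem_univ a) h
  have h2 : ((mkDerivation ℂ (fun p : ι × σ => if p.2 = a then (X (p.1, b) : Pl ι σ) else 0) :
      Derivation ℂ (Pl ι σ) (Pl ι σ)).toLinearMap) (monomial (ex e) 1) =
      ∑ s, (e s a : ℂ) • (monomial (ex (mv a b s e)) (1 : ℂ) : Pl ι σ) := h1
  rw [h2, map_sum]
  apply Finset.sum_congr rfl
  intro s _
  rw [map_smul, smul_eq_mul]

theorem ofDu_A3 (Θ : Du ι σ) (s t r : ι) (a b c : σ) (e : ι → σ → ℕ) :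
    A3 (ofDu Θ) s t r a b c e = Θ (monomial (ex e) 1 *
      d3 s t r (Pi.single a 1) (Pi.single b 1) (Pi.single c 1)) := by
  have h : (monomial (ex e) 1 * d3 s t r (Pi.single a 1) (Pi.single b 1) (Pi.single c 1) :
      Pl ι σ) = monomial (ex (e + u1 s a + u1 t b + u1 r c)) 1
      - monomial (ex (e + u1 s b + u1 t a + u1 r c)) 1
      - monomial (ex (e + u1 s a + u1 t c + u1 r b)) 1
      - monomial (ex (e + u1 s c + u1 t b + u1 r a)) 1
      + monomial (ex (e + u1 s b + u1 t c + u1 r a)) 1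
      + monomial (ex (e + u1 s c + u1 t a + u1 r b)) 1 := by
    unfold d3 d2
    simp only [F5X.li_s, ← F5X.mon_X]
    ring
  rw [h]
  simp only [map_add, map_sub]
  rfl

theorem toDu_swap {Φ : SF σ ι} {s t : ι} {c : ℂ} (h : ∀ e, Φ (e ∘ Equiv.swap s t) = c * Φ e)
    (f : Pl ι σ) : toDu Φ (rs (Equiv.swap s t) f) = c * toDu Φ f := by
  have h1 : (toDu Φ).comp (rs (Equiv.swap s t)).toLinearMap = c • toDu Φ := by
    apply F5X.du_ext
    intro e
    rw [LinearMap.comp_apply, LinearMap.smul_apply, AlgHom.toLinearMap_apply, F5X.toDu_rs,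
      toDu_monomial, h, smul_eq_mul]
  have h2 := LinearMap.congr_fun h1 f
  rw [LinearMap.comp_apply, LinearMap.smul_apply, AlgHom.toLinearMap_apply, smul_eq_mul] at h2
  exact h2

theorem toDu_ex4 {Φ : SF σ ι} {s : ι} {S : Finset ι}
    (h : ∀ e, Φ e + ∑ s' ∈ S, Φ (e ∘ Equiv.swap s' s) = 0) (f : Pl ι σ) :
    toDu Φ f + ∑ s' ∈ S, toDu Φ (rs (Equiv.swap s' s) f) = 0 := by
  have h1 : toDu Φ + ∑ s' ∈ S, (toDu Φ).comp (rs (Equiv.swap s' s)).toLinearMap = 0 := by
    apply F5X.du_ext
    intro e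
    rw [LinearMap.add_apply, LinearMap.sum_apply, LinearMap.zero_apply, toDu_monomial,
      ← h (fun s' k => e (s', k))]
    congr 1
    apply Finset.sum_congr rfl
    intro s' _
    rw [LinearMap.comp_apply, AlgHom.toLinearMap_apply, F5X.toDu_rs]
  have h2 := LinearMap.congr_fun h1 f
  rw [LinearMap.add_apply, LinearMap.sum_apply, LinearMap.zero_apply] at h2
  exact h2

theorem toDu_A3 {Φ : SF σ ι} {s t r : ι} (h : ∀ a b c e, A3 Φ s t r a b c e = 0)
    (u v w : σ → ℂ) (f : Pl ι σ) : toDu Φ (f * d3 s t r u v w) = 0 := by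
  have h1 : (toDu Φ).comp (LinearMap.mulRight ℂ (d3 s t r u v w)) = 0 := by
    apply F5X.du_ext
    intro e
    rw [LinearMap.comp_apply, LinearMap.mulRight_apply, LinearMap.zero_apply, F5X.d3_tri]
    simp only [Finset.mul_sum, map_sum]
    refine Finset.sum_eq_zero (fun a _ => Finset.sum_eq_zero (fun b _ =>
      Finset.sum_eq_zero (fun c _ => ?_)))
    have h2 : (monomial e 1 * (C (u a * v b * w c) *
        d3 s t r (Pi.single a 1) (Pi.single b 1) (Pi.single c 1)) : Pl ι σ) =
        (u a * v b * w c) • (monomial (ex (fun s k => e (s, k))) 1 *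
          d3 s t r (Pi.single a 1) (Pi.single b 1) (Pi.single c 1)) := by
      rw [F5X.ex_coe, smul_eq_C_mul]
      ring
    rw [h2, map_smul, ← ofDu_A3, ofDu_toDu, h, smul_zero]
  have h2 := LinearMap.congr_fun h1 f
  rw [LinearMap.comp_apply, LinearMap.mulRight_apply, LinearMap.zero_apply] at h2
  exact h2

end Pool.Agent.H69.V2
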