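import Pool.Agent.H69.V2.FDefs
import Pool.Agent.H69.V2.F1
import Pool.Agent.H69.V2.F2
import Pool.Agent.H69.V2.F5
import Pool.Agent.H69.V2.F5b
import Pool.Agent.H69.V2.F6
import Pool.Agent.H69.VT.X1

/-!
Project V2, row F7: the spanning lemma.
-/

set_option linter.unusedSectionVars false

namespace Pool.Agent.H69.V2

open scoped BigOperators
open MvPolynomial

variable {ι κ lam σ τ υ R : Type} [Fintype σ] [DecidableEq σ] [Fintype τ] [DecidableEq τ]
  [Fintype υ] [DecidableEq υ]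

namespace F7X

/-- on monomials in the variables of `S` the substitution is a renaming -/
theorem sb_mono (S : Finset σ) (c : σ → Fin 2) (m : ι × σ →₀ ℕ)
    (hm : ∀ p ∈ m.support, p.2 ∈ S) :
    sb (fun k => if k ∈ S then Pi.single (c k) (1 : ℂ) else 0) (monomial m 1 : Pl ι σ) =
      monomial (m.mapDomain (Prod.map id c)) 1 := by
  have h1 : (monomial (m.mapDomain (Prod.map id c)) 1 : Pl ι (Fin 2)) =
      rename (Prod.map id c) (monomial m 1 : Pl ι σ) := by
    rw [rename_monomial]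
  have h2 : (rename (Prod.map id c) : Pl ι σ →ₐ[ℂ] Pl ι (Fin 2)) =
      aeval (fun p => X (Prod.map id c p)) := by
    refine algHom_ext fun p => ?_
    rw [rename_X, aeval_X]
  rw [h1, h2, sb, aeval_monomial, aeval_monomial]
  congr 1
  refine Finsupp.prod_congr fun p hp => ?_
  have hp2 := hm p hp
  simp only [hp2, if_true]
  rw [li_single]
  rfl

/-- the degrees of a renamed exponent -/
theorem sum_md [DecidableEq ι] (c : σ → Fin 2) (m : ι × σ →₀ ℕ) (s : ι) :
    ∑ j, (m.mapDomain (Prod.map id c)) (s, j) = ∑ k, m (s, k) := by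
  induction m using Finsupp.induction_linear with
  | zero => simp
  | add f g hf hg =>
    rw [Finsupp.mapDomain_add]
    simp only [Finsupp.add_apply, Finset.sum_add_distrib, hf, hg]
  | single p n =>
    obtain ⟨t, l⟩ := p
    rw [Finsupp.mapDomain_single]
    by_cases hts : t = s
    · subst hts
      simp only [Prod.map_apply, id_eq]
      rw [Finset.sum_eq_single (c l), Finset.sum_eq_single l]
      · simp
      · intro k _ hk
        exact Finsupp.single_eq_of_ne (by simpa using hk)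
      · simp
      · intro k _ hk
        exact Finsupp.single_eq_of_ne (by simpa using hk)
      · simp
    · rw [Finset.sum_eq_zero, Finset.sum_eq_zero]
      · intro k _
        exact Finsupp.single_eq_of_ne (by simpa using fun h => absurd h.symm hts)
      · intro k _
        exact Finsupp.single_eq_of_ne (by simpa using fun h => absurd h.symm hts)

/-- monomials with another variable go to zero -/
theorem sb_mono0 (S : Finset σ) (c : σ → Fin 2) (m : ι × σ →₀ ℕ)
    (hm : ¬ ∀ p ∈ m.support, p.2 ∈ S) :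
    sb (fun k => if k ∈ S then Pi.single (c k) (1 : ℂ) else 0) (monomial m 1 : Pl ι σ) = 0 := by
  push Not at hm
  obtain ⟨p, hp, hpS⟩ := hm
  rw [sb, aeval_monomial, Finsupp.prod]
  rw [Finset.prod_eq_zero hp, mul_zero]
  have : m p ≠ 0 := Finsupp.mem_support_iff.mp hp
  simp only [hpS, if_false]
  rw [show (li p.1 (0 : Fin 2 → ℂ) : Pl ι (Fin 2)) = 0 by simp [li]]
  exact zero_pow this

variable [Fintype ι] [DecidableEq ι]

theorem ex_apply (e : ι → σ → ℕ) (s : ι) (k : σ) : ex e (s, k) = e s k := rfl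

theorem ex_inj {e f : ι → σ → ℕ} (h : ex e = ex f) : e = f := by
  funext s k
  have := DFunLike.congr_fun h (s, k)
  simpa [ex_apply] using this

/-- the evaluation at a label -/
noncomputable def ev1 (e : ι → σ → ℕ) : Du ι σ →ₗ[ℂ] ℂ :=
  LinearMap.applyₗ (monomial (ex e) (1 : ℂ) : Pl ι σ)

theorem ev1_apply (e : ι → σ → ℕ) (Θ : Du ι σ) : ev1 e Θ = Θ (monomial (ex e) 1) := rfl

/-- the pairing -/
noncomputable def BB (e0 : ι → σ → ℕ) : Du ι σ →ₗ[ℂ] Du ι σ →ₗ[ℂ] ℂ :=
  ∑ e ∈ Bx Finset.univ e0, (fac e)⁻¹ • (ev1 e).smulRight (ev1 e)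

theorem BB_apply (e0 : ι → σ → ℕ) (Θ Ψ : Du ι σ) :
    BB e0 Θ Ψ = ∑ e ∈ Bx Finset.univ e0, ofDu Θ e * ofDu Ψ e / fac e := by
  rw [BB, LinearMap.sum_apply, LinearMap.sum_apply]
  refine Finset.sum_congr rfl fun e _ => ?_
  simp only [LinearMap.smul_apply, LinearMap.smulRight_apply, smul_eq_mul, ev1_apply, ofDu]
  rw [div_eq_mul_inv]
  ring

theorem fac_ne (e : ι → σ → ℕ) : fac e ≠ 0 := by
  rw [fac]
  refine Finset.prod_ne_zero_iff.mpr fun s _ => Finset.prod_ne_zero_iff.mpr fun k _ => ?_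
  exact_mod_cast Nat.factorial_ne_zero _

theorem E2_Hg {dg : ι → ℕ} {Θ : Du ι σ} (h : Θ ∈ (E2 dg : Submodule ℂ (Du ι σ))) : Hg dg Θ := by
  rw [E2] at h
  induction h using Submodule.span_induction with
  | mem x hx =>
    obtain ⟨g, θ, hθ, rfl⟩ := hx
    exact Hg_sb g hθ
  | zero => exact fun _ _ => rfl
  | add x y _ _ hx hy =>
    intro e he
    rw [LinearMap.add_apply, hx e he, hy e he, add_zero]
  | smul c x _ hx =>
    intro e he
    rw [LinearMap.smul_apply, hx e he, smul_zero]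

theorem E2_R2 {dg : ι → ℕ} {Θ : Du ι σ} (h : Θ ∈ (E2 dg : Submodule ℂ (Du ι σ))) : R2 Θ := by
  rw [E2] at h
  induction h using Submodule.span_induction with
  | mem x hx =>
    obtain ⟨g, θ, hθ, rfl⟩ := hx
    exact R2_sb g θ
  | zero => exact fun _ _ _ _ _ _ _ _ _ _ => rfl
  | add x y _ _ hx hy =>
    intro s t r h1 h2 h3 u v w f
    rw [LinearMap.add_apply, hx s t r h1 h2 h3, hy s t r h1 h2 h3, add_zero]
  | smul c x _ hx =>
    intro s t r h1 h2 h3 u v w f
    rw [LinearMap.smul_apply, hx s t r h1 h2 h3, smul_zero]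

theorem R2_Dv {Θ : Du ι σ} (h : R2 Θ) (a b : σ) : R2 (Θ.comp (DvL a b)) := by
  intro s t r h1 h2 h3 u v w f
  have key : DvL a b (f * d3 s t r u v w) = Dv a b f * d3 s t r u v w +
      f * d3 s t r (Pi.single b (u a)) v w + f * d3 s t r u (Pi.single b (v a)) w +
      f * d3 s t r u v (Pi.single b (w a)) := by
    change Dv a b (f * d3 s t r u v w) = _
    rw [Derivation.leibniz, Dv_d3, smul_eq_mul, smul_eq_mul]
    ring
  rw [LinearMap.comp_apply, key, map_add, map_add, map_add, h s t r h1 h2 h3, h s t r h1 h2 h3,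
    h s t r h1 h2 h3, h s t r h1 h2 h3]
  simp

/-- the functionals of the class -/
def Dd (dg : ι → ℕ) : Submodule ℂ (Du ι σ) where
  carrier := {Θ | Hg dg Θ ∧ R2 Θ}
  add_mem' := by
    rintro x y ⟨h1, h2⟩ ⟨k1, k2⟩
    refine ⟨fun e he => ?_, fun s t r h h' h'' u v w f => ?_⟩
    · rw [LinearMap.add_apply, h1 e he, k1 e he, add_zero]
    · rw [LinearMap.add_apply, h2 s t r h h' h'' u v w f, k2 s t r h h' h'' u v w f, add_zero]
  zero_mem' := ⟨fun _ _ => rfl, fun _ _ _ _ _ _ _ _ _ _ => rfl⟩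
  smul_mem' := by
    rintro c x ⟨h1, h2⟩
    refine ⟨fun e he => ?_, fun s t r h h' h'' u v w f => ?_⟩
    · rw [LinearMap.smul_apply, h1 e he, smul_zero]
    · rw [LinearMap.smul_apply, h2 s t r h h' h'' u v w f, smul_zero]

/-- the main point: nothing in the class is orthogonal to `E2` -/
theorem main {dg : ι → ℕ} (e0 : ι → σ → ℕ) (he0 : ∀ s, VT.dl (e0 s) = dg s) {Θ : Du ι σ}
    (h1 : Hg dg Θ) (h2 : R2 Θ)
    (h3 : ∀ Ψ ∈ (E2 dg : Submodule ℂ (Du ι σ)), BB e0 Θ Ψ = 0) (e : ι → σ → ℕ) :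
    ofDu Θ e = 0 := by
  refine VT.test3 (Finset.univ : Finset ι) (fun Φ => ∃ Θ : Du ι σ, ofDu Θ = Φ ∧ Hg dg Θ ∧ R2 Θ ∧
    ∀ Ψ ∈ (E2 dg : Submodule ℂ (Du ι σ)), BB e0 Θ Ψ = 0) ?_ ?_ ?_ _ ⟨Θ, rfl, h1, h2, h3⟩ e
  · rintro Φ ⟨Θ, rfl, k1, k2, k3⟩ a b hab
    refine ⟨Θ.comp (DvL a b), ofDu_Dv hab Θ, Hg_Dv a b k1, R2_Dv k2 a b, fun Ψ hΨ => ?_⟩
    have hΨ' := k3 _ (E2_Dv hΨ hab.symm)
    rw [BB_apply] at hΨ' ⊢
    rw [ofDu_Dv hab.symm] at hΨ'
    rw [ofDu_Dv hab, adj Finset.univ hab]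
    exact hΨ'
  · rintro Φ ⟨Θ, rfl, k1, k2, k3⟩ s _ t _ r _ hst hsr htr a b c e
    rw [ofDu_A3]
    exact k2 s t r hst hsr htr _ _ _ _
  · rintro Φ ⟨Θ, rfl, k1, k2, k3⟩ e hcard
    by_cases hdeg : ∃ s, ∑ k, ex e (s, k) ≠ dg s
    · exact k1 _ hdeg
    push Not at hdeg
    set S : Finset σ := Finset.univ.filter (fun k => VT.wt Finset.univ e k ≠ 0) with hS
    have hmem : ∀ s k, e s k ≠ 0 → k ∈ S := by
      intro s k hk
      rw [hS, Finset.mem_filter]
      refine ⟨Finset.mem_univ _, ?_⟩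
      rw [VT.wt, Finset.sum_apply]
      intro h0
      rw [Finset.sum_eq_zero_iff] at h0
      exact hk (h0 s (Finset.mem_univ _))
    obtain ⟨c, hc⟩ : ∃ c : σ → Fin 2, Set.InjOn c (S : Set σ) := by
      have hcard' : Fintype.card S ≤ Fintype.card (Fin 2) := by simpa using hcard
      obtain ⟨c'⟩ := Function.Embedding.nonempty_of_card_le hcard'
      refine ⟨fun k => if hk : k ∈ S then c' ⟨k, hk⟩ else 0, ?_⟩
      intro x hx y hy hxy
      have hx' : x ∈ S := hx
      have hy' : y ∈ S := hy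
      simp only [hx', hy', dif_pos] at hxy
      exact congrArg Subtype.val (c'.injective hxy)
    set e' : ι × Fin 2 →₀ ℕ := (ex e).mapDomain (Prod.map id c) with he'
    have hexS : ∀ p ∈ (ex e).support, p.2 ∈ S := by
      intro p hp
      exact hmem p.1 p.2 (by simpa [ex] using hp)
    -- the coefficient functional
    set θ : Du ι (Fin 2) := lcoeff ℂ e' with hθ
    set Ψ : Du ι σ := θ.comp (sb (fun k => if k ∈ S then Pi.single (c k) (1 : ℂ) else
      0)).toLinearMap with hΨ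
    have hΨe : ∀ f : ι → σ → ℕ, Ψ (monomial (ex f) 1) = if f = e then 1 else 0 := by
      intro f
      rw [hΨ, LinearMap.comp_apply, AlgHom.toLinearMap_apply]
      by_cases hf : ∀ p ∈ (ex f).support, p.2 ∈ S
      · rw [sb_mono S c _ hf, hθ, lcoeff_apply, coeff_monomial]
        refine if_congr ?_ rfl rfl
        constructor
        · intro heq
          have hinj : Set.InjOn (Prod.map (id : ι → ι) c) {p : ι × σ | p.2 ∈ S} := by
            rintro ⟨s, k⟩ hk ⟨t, l⟩ hl hkl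
            simp only [Prod.map_apply, id_eq, Prod.mk.injEq] at hkl
            exact Prod.ext hkl.1 (hc hk hl hkl.2)
          exact ex_inj (Finsupp.mapDomain_injOn _ hinj (by intro p hp; exact hf p hp)
            (by intro p hp; exact hexS p hp) heq)
        · rintro rfl
          rfl
      · rw [sb_mono0 S c _ hf, map_zero, if_neg]
        rintro rfl
        exact hf hexS
    have hθg : Hg dg θ := by
      rintro m ⟨s, hs⟩
      rw [hθ, lcoeff_apply, coeff_monomial, if_neg]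
      rintro rfl
      apply hs
      rw [← hdeg s, he']
      exact sum_md c (ex e) s
    have hΨE : Ψ ∈ (E2 dg : Submodule ℂ (Du ι σ)) := Submodule.subset_span ⟨_, θ, hθg, rfl⟩
    have h0 := k3 Ψ hΨE
    rw [BB_apply, Finset.sum_eq_single e] at h0
    · have : ofDu Ψ e = 1 := by
        rw [ofDu, hΨe, if_pos rfl]
      rw [this, mul_one] at h0
      exact (div_eq_zero_iff.mp h0).resolve_right (fac_ne e)
    · intro f _ hf
      have : ofDu Ψ f = 0 := by
        rw [ofDu, hΨe, if_neg hf]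
      rw [this, mul_zero, zero_div]
    · intro hne
      exfalso
      apply hne
      rw [mem_Bx]
      refine ⟨fun s _ => ?_, fun s hs => absurd (Finset.mem_univ s) hs⟩
      rw [he0, ← hdeg s]
      rfl

end F7X

theorem span2 [Fintype ι] [DecidableEq ι] [Nonempty σ] {dg : ι → ℕ} {Θ : Du ι σ} (h1 : Hg dg Θ)
    (h2 : R2 Θ) : Θ ∈ E2 dg := by
  obtain ⟨k0⟩ := (inferInstance : Nonempty σ)
  set e0 : ι → σ → ℕ := fun s => Pi.single k0 (dg s) with he0
  have hd0 : ∀ s, VT.dl (e0 s) = dg s := by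
    intro s
    rw [VT.dl, he0]
    simp
  -- values at the labels determine a homogeneous functional
  have hz : ∀ Φ : Du ι σ, Hg dg Φ → (∀ e, ofDu Φ e = 0) → Φ = 0 := by
    intro Φ _ h
    rw [← toDu_ofDu Φ, show ofDu Φ = 0 from funext h]
    rw [← toDu_ofDu (0 : Du ι σ)]
    rfl
  -- finite dimensional
  let res : Du ι σ →ₗ[ℂ] (↥(Bx Finset.univ e0) → ℂ) :=
    LinearMap.pi fun e => F7X.ev1 e.1
  have hfin : FiniteDimensional ℂ (F7X.Dd dg : Submodule ℂ (Du ι σ)) := by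
    refine FiniteDimensional.of_injective (res.comp (F7X.Dd dg).subtype) ?_
    rw [← LinearMap.ker_eq_bot, LinearMap.ker_eq_bot']
    rintro ⟨Φ, hΦ⟩ h
    refine Subtype.ext (hz Φ hΦ.1 fun e => ?_)
    by_cases hdeg : ∃ s, ∑ k, ex e (s, k) ≠ dg s
    · exact hΦ.1 _ hdeg
    push Not at hdeg
    have he : e ∈ Bx Finset.univ e0 := by
      rw [mem_Bx]
      refine ⟨fun s _ => ?_, fun s hs => absurd (Finset.mem_univ s) hs⟩
      rw [hd0, ← hdeg s]
      rfl
    exact congrFun h ⟨e, he⟩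
  have hle : (E2 dg : Submodule ℂ (Du ι σ)) ≤ F7X.Dd dg :=
    fun Φ hΦ => ⟨F7X.E2_Hg hΦ, F7X.E2_R2 hΦ⟩
  have hfin2 : FiniteDimensional ℂ (E2 dg : Submodule ℂ (Du ι σ)) :=
    Submodule.finiteDimensional_of_le hle
  let Bm : (F7X.Dd dg : Submodule ℂ (Du ι σ)) →ₗ[ℂ]
      Module.Dual ℂ (E2 dg : Submodule ℂ (Du ι σ)) :=
    (LinearMap.lcomp ℂ ℂ (E2 dg : Submodule ℂ (Du ι σ)).subtype).comp
      ((F7X.BB e0).comp (F7X.Dd dg).subtype)
  have hinj : Function.Injective Bm := by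
    rw [← LinearMap.ker_eq_bot, LinearMap.ker_eq_bot']
    rintro ⟨Φ, hΦ⟩ h
    refine Subtype.ext (hz Φ hΦ.1 fun e => F7X.main e0 hd0 hΦ.1 hΦ.2 (fun Ψ hΨ => ?_) e)
    exact LinearMap.congr_fun h ⟨Ψ, hΨ⟩
  have hrank : Module.finrank ℂ (F7X.Dd dg : Submodule ℂ (Du ι σ)) ≤
      Module.finrank ℂ (E2 dg : Submodule ℂ (Du ι σ)) := by
    have := LinearMap.finrank_le_finrank_of_injective hinj
    rwa [Subspace.dual_finrank_eq] at this
  have heq := Submodule.eq_of_le_of_finrank_le hle hrank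
  rw [heq]
  exact ⟨h1, h2⟩

end Pool.Agent.H69.V2
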