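import Pool.Agent.H69.V2.F1
import Pool.Agent.H69.V2.F2
import Pool.Agent.H69.V2.F6
import Pool.Agent.H69.V2.F7

/-!
Lifting of families to two additional slots (project V2, row F8).
-/

set_option linter.unusedSectionVars false

namespace Pool.Agent.H69.V2

open scoped BigOperators
open MvPolynomial

variable {ι κ lam σ τ υ R : Type} [Fintype σ] [DecidableEq σ] [Fintype τ] [DecidableEq τ]
  [Fintype υ] [DecidableEq υ]

namespace F8X

/-- the exponent of the diagonal -/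
noncomputable def ea : Fin 2 × Fin 2 →₀ ℕ :=
  Finsupp.single (0, 0) 1 + Finsupp.single (1, 1) 1

/-- the exponent of the antidiagonal -/
noncomputable def eb : Fin 2 × Fin 2 →₀ ℕ :=
  Finsupp.single (0, 1) 1 + Finsupp.single (1, 0) 1

/-- the determinant functional -/
noncomputable def det2 : Du (Fin 2) (Fin 2) := lcoeff ℂ ea - lcoeff ℂ eb

theorem det2_ap (f : Pl (Fin 2) (Fin 2)) : det2 f = coeff ea f - coeff eb f := rfl

theorem li_two (s : Fin 2) (u : Fin 2 → ℂ) : (li s u : Pl (Fin 2) (Fin 2)) =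
    monomial (Finsupp.single (s, 0) 1) (u 0) + monomial (Finsupp.single (s, 1) 1) (u 1) := by
  unfold li
  rw [Fin.sum_univ_two, C_mul_X_eq_monomial, C_mul_X_eq_monomial]

theorem det2_li (u v : Fin 2 → ℂ) : det2 (li 0 u * li 1 v) = u 0 * v 1 - u 1 * v 0 := by
  classical
  have n1 : ¬ (Finsupp.single ((0 : Fin 2), (0 : Fin 2)) 1 + Finsupp.single (1, 0) 1 = ea) := by
    intro h
    have := DFunLike.congr_fun h (1, 1)
    simp [ea] at this
  have n2 : ¬ (Finsupp.single ((0 : Fin 2), (1 : Fin 2)) 1 + Finsupp.single (1, 0) 1 = ea) := by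
    intro h
    have := DFunLike.congr_fun h (1, 1)
    simp [ea] at this
  have n3 : ¬ (Finsupp.single ((0 : Fin 2), (1 : Fin 2)) 1 + Finsupp.single (1, 1) 1 = ea) := by
    intro h
    have := DFunLike.congr_fun h (0, 0)
    simp [ea] at this
  have m1 : ¬ (Finsupp.single ((0 : Fin 2), (0 : Fin 2)) 1 + Finsupp.single (1, 0) 1 = eb) := by
    intro h
    have := DFunLike.congr_fun h (0, 1)
    simp [eb] at this
  have m2 : ¬ (Finsupp.single ((0 : Fin 2), (0 : Fin 2)) 1 + Finsupp.single (1, 1) 1 = eb) := by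
    intro h
    have := DFunLike.congr_fun h (0, 1)
    simp [eb] at this
  have m3 : ¬ (Finsupp.single ((0 : Fin 2), (1 : Fin 2)) 1 + Finsupp.single (1, 1) 1 = eb) := by
    intro h
    have := DFunLike.congr_fun h (1, 0)
    simp [eb] at this
  have p1 : Finsupp.single ((0 : Fin 2), (0 : Fin 2)) 1 + Finsupp.single (1, 1) 1 = ea := rfl
  have p2 : Finsupp.single ((0 : Fin 2), (1 : Fin 2)) 1 + Finsupp.single (1, 0) 1 = eb := rfl
  rw [det2_ap, li_two, li_two, add_mul, mul_add, mul_add, monomial_mul, monomial_mul,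
    monomial_mul, monomial_mul]
  simp only [coeff_add, coeff_monomial]
  rw [if_neg n1, if_pos p1, if_neg n2, if_neg n3, if_neg m1, if_neg m2, if_pos p2, if_neg m3]
  ring

theorem det2_swap (g : Pl (Fin 2) (Fin 2)) :
    det2 (rs (Equiv.swap (0 : Fin 2) 1) g) = - det2 g := by
  have hi : Function.Injective (Prod.map (Equiv.swap (0 : Fin 2) 1) (id : Fin 2 → Fin 2)) :=
    Function.Injective.prodMap (Equiv.injective _) Function.injective_id
  have h1 : ea = eb.mapDomain (Prod.map (Equiv.swap (0 : Fin 2) 1) (id : Fin 2 → Fin 2)) := by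
    simp [ea, eb, Finsupp.mapDomain_add, Finsupp.mapDomain_single, add_comm]
  have h2 : eb = ea.mapDomain (Prod.map (Equiv.swap (0 : Fin 2) 1) (id : Fin 2 → Fin 2)) := by
    simp [ea, eb, Finsupp.mapDomain_add, Finsupp.mapDomain_single, add_comm]
  have e1 : coeff ea (rs (Equiv.swap (0 : Fin 2) 1) g) = coeff eb g := by
    rw [h1]
    exact coeff_rename_mapDomain _ hi g eb
  have e2 : coeff eb (rs (Equiv.swap (0 : Fin 2) 1) g) = coeff ea g := by
    rw [h2]
    exact coeff_rename_mapDomain _ hi g ea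
  rw [det2_ap, det2_ap, e1, e2]
  ring

theorem Hg_det2 : Hg (fun _ => 1) det2 := by
  classical
  rintro e ⟨s, hs⟩
  rw [det2_ap, coeff_monomial, coeff_monomial, if_neg, if_neg, sub_zero]
  · rintro rfl
    apply hs
    rw [Fin.sum_univ_two]
    fin_cases s <;> simp [eb]
  · rintro rfl
    apply hs
    rw [Fin.sum_univ_two]
    fin_cases s <;> simp [ea]

theorem Hg_smul' {dg : ι → ℕ} {Θ : Du ι σ} (h : Hg dg Θ) (c : ℂ) : Hg dg (c • Θ) := by
  intro e he
  rw [LinearMap.smul_apply, h e he, smul_zero]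

theorem Hg_add' {dg : ι → ℕ} {Θ Θ' : Du ι σ} (h : Hg dg Θ) (h' : Hg dg Θ') :
    Hg dg (Θ + Θ') := by
  intro e he
  rw [LinearMap.add_apply, h e he, h' e he, add_zero]

theorem Hg_sum' {α : Type} (S : Finset α) {dg : ι → ℕ} (Θ : α → Du ι σ)
    (h : ∀ a ∈ S, Hg dg (Θ a)) : Hg dg (∑ a ∈ S, Θ a) := by
  intro e he
  rw [LinearMap.sum_apply]
  exact Finset.sum_eq_zero fun a ha => h a ha e he

theorem R2_smul' {Θ : Du ι σ} (h : R2 Θ) (c : ℂ) : R2 (c • Θ) := by
  intro s t r h1 h2 h3 u v w f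
  rw [LinearMap.smul_apply, h s t r h1 h2 h3 u v w f, smul_zero]

theorem R2_add' {Θ Θ' : Du ι σ} (h : R2 Θ) (h' : R2 Θ') : R2 (Θ + Θ') := by
  intro s t r h1 h2 h3 u v w f
  rw [LinearMap.add_apply, h s t r h1 h2 h3 u v w f, h' s t r h1 h2 h3 u v w f, add_zero]

theorem R2_sum' {α : Type} (S : Finset α) (Θ : α → Du ι σ)
    (h : ∀ a ∈ S, R2 (Θ a)) : R2 (∑ a ∈ S, Θ a) := by
  intro s t r h1 h2 h3 u v w f
  rw [LinearMap.sum_apply]
  exact Finset.sum_eq_zero fun a ha => h a ha s t r h1 h2 h3 u v w f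

theorem R2_rs {Θ : Du κ σ} (h : R2 Θ) (g : ι → κ) (hg : Function.Injective g) :
    R2 (Θ.comp (rs g : Pl ι σ →ₐ[ℂ] Pl κ σ).toLinearMap) := by
  intro s t r h1 h2 h3 u v w f
  rw [LinearMap.comp_apply, AlgHom.toLinearMap_apply, map_mul, rs_d3]
  exact h _ _ _ (hg.ne h1) (hg.ne h2) (hg.ne h3) u v w _

theorem pr_swap (θ : Du ι (Fin 2)) [DecidableEq ι] (G : Pl (ι ⊕ Fin 2) (Fin 2)) :
    pr θ det2 (rs (Equiv.swap (Sum.inr 0) (Sum.inr 1)) G) = - pr θ det2 G := by
  have key : (pr θ det2).comp (rs (Equiv.swap (Sum.inr 0 : ι ⊕ Fin 2) (Sum.inr 1)) :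
      Pl (ι ⊕ Fin 2) (Fin 2) →ₐ[ℂ] Pl (ι ⊕ Fin 2) (Fin 2)).toLinearMap = - pr θ det2 := by
    apply ext_pr
    intro f g
    rw [LinearMap.comp_apply, AlgHom.toLinearMap_apply, map_mul, rs_rs, rs_rs,
      LinearMap.neg_apply, pr_mul]
    have e1 : (Equiv.swap (Sum.inr 0 : ι ⊕ Fin 2) (Sum.inr 1)) ∘ (Sum.inl : ι → ι ⊕ Fin 2) =
        Sum.inl := by
      funext a
      exact Equiv.swap_apply_of_ne_of_ne (by simp) (by simp)
    have e2 : (Equiv.swap (Sum.inr 0 : ι ⊕ Fin 2) (Sum.inr 1)) ∘ (Sum.inr : Fin 2 → ι ⊕ Fin 2) =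
        Sum.inr ∘ (Equiv.swap (0 : Fin 2) 1) := by
      funext a
      fin_cases a
      · simp
      · simp
    rw [e1, e2, ← rs_rs, pr_mul, det2_swap]
    ring
  have := LinearMap.congr_fun key G
  simpa using this

/-- the reindexing of the slots -/
def ro (R : Type) (j : ℕ) : (R ⊕ Fin 2) ⊕ Fin j ≃ (R ⊕ Fin j) ⊕ Fin 2 where
  toFun := Sum.elim (Sum.elim (fun a => Sum.inl (Sum.inl a)) Sum.inr)
    (fun l => Sum.inl (Sum.inr l))
  invFun := Sum.elim (Sum.elim (fun a => Sum.inl (Sum.inl a)) Sum.inr)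
    (fun l => Sum.inl (Sum.inr l))
  left_inv := by rintro ((a | a) | a) <;> rfl
  right_inv := by rintro ((a | a) | a) <;> rfl

section lift
variable [Fintype R] [DecidableEq R]

/-- functionals that can be lifted to the two additional slots -/
def Lf (q : ℕ) (r : R → ℕ) (j : ℕ) (z z' : σ → ℂ) (Θ : Du (R ⊕ Fin j) σ) : Prop :=
  ∃ Ξ : Du ((R ⊕ Fin 2) ⊕ Fin j) σ, Hg (dgq q (r2 r) j) Ξ ∧ R2 Ξ ∧
    (∀ f, Ξ (rs (Equiv.swap (Sum.inl (Sum.inr 0)) (Sum.inl (Sum.inr 1))) f) = - Ξ f) ∧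
    ∀ f, Ξ (rs (Sum.map Sum.inl id) f * (li (Sum.inl (Sum.inr 0)) z *
      li (Sum.inl (Sum.inr 1)) z')) = Θ f

theorem Lf_gen {q : ℕ} {r : R → ℕ} {j : ℕ} {z z' : σ → ℂ} {g : σ → Fin 2 → ℂ}
    (hg : dt g z z' ≠ 0) {θ : Du (R ⊕ Fin j) (Fin 2)} (hθ : Hg (dgq q r j) θ) :
    Lf q r j z z' (θ.comp (sb g : Pl (R ⊕ Fin j) σ →ₐ[ℂ] Pl (R ⊕ Fin j) (Fin 2)).toLinearMap) := by
  have hdg : (Sum.elim (dgq q r j) (fun _ => 1)) ∘ (ro R j) = dgq q (r2 r) j := by
    funext s
    rcases s with ((a | a) | a) <;> rfl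
  have h2 : Hg (dgq q (r2 r) j) ((dt g z z')⁻¹ • (pr θ det2).comp
      (rs (ro R j) : Pl ((R ⊕ Fin 2) ⊕ Fin j) (Fin 2) →ₐ[ℂ]
        Pl ((R ⊕ Fin j) ⊕ Fin 2) (Fin 2)).toLinearMap) := by
    apply Hg_smul'
    rw [← hdg]
    exact Hg_rs (ro R j) (Hg_pr hθ Hg_det2)
  refine ⟨((dt g z z')⁻¹ • (pr θ det2).comp
      (rs (ro R j) : Pl ((R ⊕ Fin 2) ⊕ Fin j) (Fin 2) →ₐ[ℂ]
        Pl ((R ⊕ Fin j) ⊕ Fin 2) (Fin 2)).toLinearMap).comp (sb g).toLinearMap,
    Hg_sb g h2, R2_sb g _, fun f => ?_, fun f => ?_⟩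
  · simp only [LinearMap.comp_apply, AlgHom.toLinearMap_apply, LinearMap.smul_apply]
    rw [sb_rs, rs_rs]
    have e1 : (ro R j) ∘ (Equiv.swap (Sum.inl (Sum.inr 0) : (R ⊕ Fin 2) ⊕ Fin j)
        (Sum.inl (Sum.inr 1))) =
        (Equiv.swap (Sum.inr 0 : (R ⊕ Fin j) ⊕ Fin 2) (Sum.inr 1)) ∘ (ro R j) := by
      funext s
      rcases s with ((a | a) | a)
      · rw [Function.comp_apply, Function.comp_apply,
          Equiv.swap_apply_of_ne_of_ne (by simp) (by simp)]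
        exact (Equiv.swap_apply_of_ne_of_ne (by simp [ro]) (by simp [ro])).symm
      · fin_cases a
        · simp [ro]
        · simp [ro]
      · rw [Function.comp_apply, Function.comp_apply,
          Equiv.swap_apply_of_ne_of_ne (by simp) (by simp)]
        exact (Equiv.swap_apply_of_ne_of_ne (by simp [ro]) (by simp [ro])).symm
    rw [e1, ← rs_rs, pr_swap, smul_neg]
  · simp only [LinearMap.comp_apply, AlgHom.toLinearMap_apply, LinearMap.smul_apply]
    rw [map_mul (sb g), map_mul (sb g), sb_rs, sb_li, sb_li, map_mul (rs (ro R j)),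
      map_mul (rs (ro R j)), rs_li, rs_li, rs_rs]
    have e1 : (ro R j) ∘ (Sum.map Sum.inl id : R ⊕ Fin j → (R ⊕ Fin 2) ⊕ Fin j) = Sum.inl := by
      funext s
      rcases s with (a | a) <;> rfl
    have e2 : (ro R j) (Sum.inl (Sum.inr 0)) = Sum.inr 0 := rfl
    have e3 : (ro R j) (Sum.inl (Sum.inr 1)) = Sum.inr 1 := rfl
    rw [e1, e2, e3]
    have e4 : (li (Sum.inr 0) (gv g z) * li (Sum.inr 1) (gv g z') :
        Pl ((R ⊕ Fin j) ⊕ Fin 2) (Fin 2)) = rs Sum.inr (li 0 (gv g z) * li 1 (gv g z')) := by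
      rw [map_mul, rs_li, rs_li]
    rw [e4, pr_mul, det2_li, smul_eq_mul]
    have e5 : gv g z 0 * gv g z' 1 - gv g z 1 * gv g z' 0 = dt g z z' := rfl
    rw [e5]
    field_simp

theorem Lf_span {q : ℕ} {r : R → ℕ} {j : ℕ} {z z' : σ → ℂ} {Θ : Du (R ⊕ Fin j) σ}
    (h : Θ ∈ Submodule.span ℂ {Θ : Du (R ⊕ Fin j) σ | ∃ (g : σ → Fin 2 → ℂ)
      (θ : Du (R ⊕ Fin j) (Fin 2)), Hg (dgq q r j) θ ∧
      dt g z z' ≠ 0 ∧ Θ = θ.comp (sb g).toLinearMap}) : Lf q r j z z' Θ := by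
  induction h using Submodule.span_induction with
  | mem x hx =>
    obtain ⟨g, θ, h1, h2, rfl⟩ := hx
    exact Lf_gen h2 h1
  | zero =>
    exact ⟨0, fun _ _ => rfl, fun _ _ _ _ _ _ _ _ _ _ => rfl, fun _ => by simp, fun _ => rfl⟩
  | add x y _ _ hx hy =>
    obtain ⟨A, a1, a2, a3, a4⟩ := hx
    obtain ⟨B, b1, b2, b3, b4⟩ := hy
    refine ⟨A + B, Hg_add' a1 b1, R2_add' a2 b2, fun f => ?_, fun f => ?_⟩
    · rw [LinearMap.add_apply, LinearMap.add_apply, a3, b3]
      ring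
    · rw [LinearMap.add_apply, LinearMap.add_apply, a4, b4]
  | smul c x _ hx =>
    obtain ⟨A, a1, a2, a3, a4⟩ := hx
    refine ⟨c • A, Hg_smul' a1 c, R2_smul' a2 c, fun f => ?_, fun f => ?_⟩
    · rw [LinearMap.smul_apply, LinearMap.smul_apply, a3, smul_neg]
    · rw [LinearMap.smul_apply, LinearMap.smul_apply, a4]

/-- the sign of a permutation as a complex number -/
noncomputable def sg {j : ℕ} (p : Equiv.Perm (Fin j)) : ℂ := ((Equiv.Perm.sign p : ℤ) : ℂ)

theorem sg_sq {j : ℕ} (p : Equiv.Perm (Fin j)) : sg p * sg p = 1 := by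
  unfold sg
  rw [← Int.cast_mul, ← Units.val_mul, Int.units_mul_self]
  simp

theorem sg_mul_swap {j : ℕ} (p : Equiv.Perm (Fin j)) {a b : Fin j} (h : a ≠ b) :
    sg (p * Equiv.swap a b) = - sg p := by
  unfold sg
  rw [Equiv.Perm.sign_mul, Equiv.Perm.sign_swap h]
  simp

theorem sg_swap_mul {j : ℕ} (p : Equiv.Perm (Fin j)) {a b : Fin j} (h : a ≠ b) :
    sg (Equiv.swap a b * p) = - sg p := by
  unfold sg
  rw [Equiv.Perm.sign_mul, Equiv.Perm.sign_swap h]
  simp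

theorem map_swap {A : Type} [DecidableEq A] {j : ℕ} (a b : Fin j) :
    (Sum.map id (Equiv.swap a b) : A ⊕ Fin j → A ⊕ Fin j) =
      Equiv.swap (Sum.inr a) (Sum.inr b) := by
  funext s
  rcases s with (c | c)
  · rw [Equiv.swap_apply_of_ne_of_ne (by simp) (by simp)]
    rfl
  · simp only [Sum.map_inr]
    by_cases h1 : c = a
    · subst h1
      simp
    · by_cases h2 : c = b
      · subst h2
        simp
      · rw [Equiv.swap_apply_of_ne_of_ne h1 h2, Equiv.swap_apply_of_ne_of_ne]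
        · simpa using h1
        · simpa using h2

theorem alt_perm {j : ℕ} {Θ : Du (R ⊕ Fin j) σ} (h : Alt Θ) (p : Equiv.Perm (Fin j))
    (f : Pl (R ⊕ Fin j) σ) : Θ (rs (Sum.map id p) f) = sg p * Θ f := by
  induction p using Equiv.Perm.swap_induction_on generalizing f with
  | one =>
    have : (Sum.map id ⇑(1 : Equiv.Perm (Fin j)) : R ⊕ Fin j → R ⊕ Fin j) = id := by
      funext s
      rcases s with (c | c) <;> rfl
    rw [this, rs_id]
    simp [sg]
  | swap_mul p a b hab ih =>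
    have : (Sum.map id ⇑(Equiv.swap a b * p) : R ⊕ Fin j → R ⊕ Fin j) =
        (Equiv.swap (Sum.inr a) (Sum.inr b)) ∘ Sum.map id p := by
      rw [← map_swap]
      funext s
      rcases s with (c | c) <;> rfl
    rw [this, ← rs_rs, h a b hab, ih, sg_swap_mul p hab]
    ring

/-- the antisymmetrization over the labels -/
noncomputable def asy {A : Type} {j : ℕ} (Ξ : Du (A ⊕ Fin j) σ) : Du (A ⊕ Fin j) σ :=
  ((j.factorial : ℂ)⁻¹) • ∑ p : Equiv.Perm (Fin j),
    sg p • Ξ.comp (rs (Sum.map id p) : Pl (A ⊕ Fin j) σ →ₐ[ℂ] Pl (A ⊕ Fin j) σ).toLinearMap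

theorem asy_ap {A : Type} {j : ℕ} (Ξ : Du (A ⊕ Fin j) σ) (f : Pl (A ⊕ Fin j) σ) :
    asy Ξ f = ((j.factorial : ℂ)⁻¹) * ∑ p : Equiv.Perm (Fin j),
      sg p * Ξ (rs (Sum.map id p) f) := by
  unfold asy
  rw [LinearMap.smul_apply, LinearMap.sum_apply, smul_eq_mul]
  rfl

theorem asy_Hg {A : Type} {q : ℕ} {r : A → ℕ} {j : ℕ} {Ξ : Du (A ⊕ Fin j) σ}
    (h : Hg (dgq q r j) Ξ) : Hg (dgq q r j) (asy Ξ) := by
  unfold asy
  apply Hg_smul'
  apply Hg_sum'
  intro p _
  apply Hg_smul'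
  have h1 := Hg_rs (Equiv.sumCongr (Equiv.refl A) p) h
  have h2 : (dgq q r j) ∘ (Equiv.sumCongr (Equiv.refl A) p) = dgq q r j := by
    funext s
    rcases s with (c | c) <;> rfl
  rw [h2] at h1
  exact h1

theorem asy_R2 {A : Type} {j : ℕ} {Ξ : Du (A ⊕ Fin j) σ} (h : R2 Ξ) : R2 (asy Ξ) := by
  unfold asy
  apply R2_smul'
  apply R2_sum'
  intro p _
  apply R2_smul'
  exact R2_rs h _ (Sum.map_injective.mpr ⟨Function.injective_id, p.injective⟩)

theorem asy_Alt {A : Type} [DecidableEq A] {j : ℕ} (Ξ : Du (A ⊕ Fin j) σ) : Alt (asy Ξ) := by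
  intro a b hab f
  rw [asy_ap, asy_ap, ← mul_neg]
  congr 1
  rw [← Finset.sum_neg_distrib]
  apply Fintype.sum_equiv (Equiv.mulRight (Equiv.swap a b))
  intro p
  rw [Equiv.coe_mulRight, sg_mul_swap p hab, rs_rs]
  have : (Sum.map id ⇑(p * Equiv.swap a b) : A ⊕ Fin j → A ⊕ Fin j) =
      Sum.map id p ∘ (Equiv.swap (Sum.inr a) (Sum.inr b)) := by
    rw [← map_swap]
    funext s
    rcases s with (c | c) <;> rfl
  simp only [this]
  ring

end lift

end F8X

section F8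
variable [Fintype R] [DecidableEq R]

theorem GRonto {q : ℕ} {r : R → ℕ} {z z' : σ → ℂ} (hz : LinearIndependent ℂ ![z, z'])
    {y : Fam R σ} (hy : y ∈ DD q r σ) :
    ∃ x ∈ DD q (r2 r) σ ⊓ AL, ev z z' x = y := by
  classical
  obtain ⟨y1, y2, y3, y4⟩ := hy
  have hne : Nonempty σ := by
    by_contra hc
    rw [not_nonempty_iff] at hc
    exact hz.ne_zero 0 (funext fun k => hc.elim k)
  have hl : ∀ j, F8X.Lf q r j z z' (y j) := fun j =>
    F8X.Lf_span (E2_dense hz (span2 (y1 j) (y2 j)))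
  choose Ξ x1 x2 x3 x4 using hl
  refine ⟨fun j => if j < q + 2 then F8X.asy (Ξ j) else 0, ⟨⟨fun j => ?_, fun j => ?_,
    fun j => ?_, fun j hj => ?_⟩, fun j f => ?_⟩, ?_⟩
  · by_cases hj : j < q + 2
    · simp only [if_pos hj]
      exact F8X.asy_Hg (x1 j)
    · simp only [if_neg hj]
      exact fun _ _ => rfl
  · by_cases hj : j < q + 2
    · simp only [if_pos hj]
      exact F8X.asy_R2 (x2 j)
    · simp only [if_neg hj]
      exact fun _ _ _ _ _ _ _ _ _ _ => rfl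
  · by_cases hj : j < q + 2
    · simp only [if_pos hj]
      exact F8X.asy_Alt (Ξ j)
    · simp only [if_neg hj]
      exact fun _ _ _ _ => by simp
  · exact if_neg (by omega)
  · by_cases hj : j < q + 2
    · simp only [if_pos hj]
      rw [F8X.asy_ap, F8X.asy_ap, ← mul_neg, ← Finset.sum_neg_distrib]
      congr 1
      apply Finset.sum_congr rfl
      intro p _
      rw [← mul_neg, ← x3 j, rs_rs, rs_rs]
      have : (Sum.map id p : (R ⊕ Fin 2) ⊕ Fin j → (R ⊕ Fin 2) ⊕ Fin j) ∘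
          (Equiv.swap (Sum.inl (Sum.inr 0)) (Sum.inl (Sum.inr 1))) =
          (Equiv.swap (Sum.inl (Sum.inr 0)) (Sum.inl (Sum.inr 1))) ∘ Sum.map id p := by
        funext s
        rcases s with ((a | a) | a)
        · rw [Function.comp_apply, Function.comp_apply,
            Equiv.swap_apply_of_ne_of_ne (by simp) (by simp)]
          exact (Equiv.swap_apply_of_ne_of_ne (by simp) (by simp)).symm
        · fin_cases a
          · simp
          · simp
        · rw [Function.comp_apply, Function.comp_apply,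
            Equiv.swap_apply_of_ne_of_ne (by simp) (by simp)]
          exact (Equiv.swap_apply_of_ne_of_ne (by simp) (by simp)).symm
      rw [this]
    · simp only [if_neg hj, LinearMap.zero_apply, neg_zero]
  · funext j
    refine LinearMap.ext fun f => ?_
    have e0 : ev z z' (fun j => if j < q + 2 then F8X.asy (Ξ j) else 0) j f =
        (if j < q + 2 then F8X.asy (Ξ j) else 0) (rs (Sum.map Sum.inl id) f *
          (li (Sum.inl (Sum.inr 0)) z * li (Sum.inl (Sum.inr 1)) z')) := rfl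
    rw [e0]
    by_cases hj : j < q + 2
    · rw [if_pos hj, F8X.asy_ap]
      have e1 : ∀ p : Equiv.Perm (Fin j), F8X.sg p * Ξ j (rs (Sum.map id p)
          (rs (Sum.map Sum.inl id) f * (li (Sum.inl (Sum.inr 0)) z *
            li (Sum.inl (Sum.inr 1)) z'))) = y j f := by
        intro p
        have e2 : ∀ F : Pl (R ⊕ Fin j) σ, rs (Sum.map id p :
            (R ⊕ Fin 2) ⊕ Fin j → (R ⊕ Fin 2) ⊕ Fin j) (rs (Sum.map Sum.inl id) F) =
            rs (Sum.map Sum.inl id) (rs (Sum.map id p : R ⊕ Fin j → R ⊕ Fin j) F) := by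
          intro F
          rw [rs_rs, rs_rs]
          congr 2
          funext s
          rcases s with (a | a) <;> rfl
        have e3 : rs (Sum.map id p : (R ⊕ Fin 2) ⊕ Fin j → (R ⊕ Fin 2) ⊕ Fin j)
            (rs (Sum.map Sum.inl id) f * (li (Sum.inl (Sum.inr 0)) z *
            li (Sum.inl (Sum.inr 1)) z')) = rs (Sum.map Sum.inl id)
            (rs (Sum.map id p : R ⊕ Fin j → R ⊕ Fin j) f) *
            (li (Sum.inl (Sum.inr 0)) z * li (Sum.inl (Sum.inr 1)) z') := by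
          rw [map_mul, map_mul, rs_li, rs_li, e2]
          rfl
        rw [e3, x4 j, F8X.alt_perm (y3 j), ← mul_assoc, F8X.sg_sq, one_mul]
      rw [Finset.sum_congr rfl (fun p _ => e1 p), Finset.sum_const, Finset.card_univ,
        Fintype.card_perm, Fintype.card_fin, nsmul_eq_mul, ← mul_assoc,
        inv_mul_cancel₀ (Nat.cast_ne_zero.mpr (Nat.factorial_ne_zero j)), one_mul]
    · rw [if_neg hj, y4 j (by omega)]
      rfl

end F8

end Pool.Agent.H69.V2
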