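import Pool.Agent.H69.V2.F1
import Pool.Agent.H69.V2.F2
import Pool.Agent.H69.V2.F3
import Pool.Agent.H69.V2.F7

/-!
Too many alternating labels of degree `q`: functionals with two rows vanish (project V2, row F8a).
-/

set_option linter.unusedSectionVars false

namespace Pool.Agent.H69.V2

open scoped BigOperators
open MvPolynomial

variable {ι κ lam σ τ υ R : Type} [Fintype σ] [DecidableEq σ] [Fintype τ] [DecidableEq τ]
  [Fintype υ] [DecidableEq υ]

namespace F8aX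

variable [Fintype R] [DecidableEq R] {j : ℕ}

/-- permutations of the labels -/
def pm (π : Equiv.Perm (Fin j)) : R ⊕ Fin j ≃ R ⊕ Fin j := Equiv.sumCongr (Equiv.refl R) π

lemma pm_one : ((pm (1 : Equiv.Perm (Fin j)) : R ⊕ Fin j ≃ R ⊕ Fin j) : R ⊕ Fin j → R ⊕ Fin j) =
    id := by
  funext x
  rcases x with x | x <;> rfl

lemma pm_mul (π π' : Equiv.Perm (Fin j)) :
    ((pm (π * π') : R ⊕ Fin j ≃ R ⊕ Fin j) : R ⊕ Fin j → R ⊕ Fin j) =
      (pm π : R ⊕ Fin j → R ⊕ Fin j) ∘ (pm π' : R ⊕ Fin j → R ⊕ Fin j) := by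
  funext x
  rcases x with x | x <;> rfl

lemma pm_swap (a b : Fin j) :
    ((pm (Equiv.swap a b) : R ⊕ Fin j ≃ R ⊕ Fin j) : R ⊕ Fin j → R ⊕ Fin j) =
      (Equiv.swap (Sum.inr a) (Sum.inr b) : Equiv.Perm (R ⊕ Fin j)) := by
  funext x
  rcases x with x | x
  · rw [Equiv.swap_apply_of_ne_of_ne (by simp) (by simp)]
    rfl
  · have h1 : (pm (Equiv.swap a b) : R ⊕ Fin j ≃ R ⊕ Fin j) (Sum.inr x) =
        Sum.inr (Equiv.swap a b x) := rfl
    rw [h1]
    by_cases hxa : x = a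
    · subst hxa
      rw [Equiv.swap_apply_left, Equiv.swap_apply_left]
    · by_cases hxb : x = b
      · subst hxb
        rw [Equiv.swap_apply_right, Equiv.swap_apply_right]
      · rw [Equiv.swap_apply_of_ne_of_ne hxa hxb, Equiv.swap_apply_of_ne_of_ne]
        · intro h
          exact hxa (Sum.inr_injective h)
        · intro h
          exact hxb (Sum.inr_injective h)

/-- the antisymmetrization in the labels -/
noncomputable def An (Φ : Du (R ⊕ Fin j) σ) : Du (R ⊕ Fin j) σ :=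
  ∑ π : Equiv.Perm (Fin j), (((Equiv.Perm.sign π : ℤˣ) : ℤ) : ℂ) •
    Φ.comp (rs (pm π : R ⊕ Fin j → R ⊕ Fin j)).toLinearMap

lemma An_apply (Φ : Du (R ⊕ Fin j) σ) (f : Pl (R ⊕ Fin j) σ) :
    An Φ f = ∑ π : Equiv.Perm (Fin j), (((Equiv.Perm.sign π : ℤˣ) : ℤ) : ℂ) *
      Φ (rs (pm π : R ⊕ Fin j → R ⊕ Fin j) f) := by
  unfold An
  rw [LinearMap.sum_apply]
  rfl

lemma An_add (Φ Ψ : Du (R ⊕ Fin j) σ) : An (Φ + Ψ) = An Φ + An Ψ := by
  refine LinearMap.ext fun f => ?_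
  rw [LinearMap.add_apply, An_apply, An_apply, An_apply, ← Finset.sum_add_distrib]
  refine Finset.sum_congr rfl fun π _ => ?_
  rw [LinearMap.add_apply]
  ring

lemma An_smul (c : ℂ) (Φ : Du (R ⊕ Fin j) σ) : An (c • Φ) = c • An Φ := by
  refine LinearMap.ext fun f => ?_
  rw [LinearMap.smul_apply, An_apply, An_apply, smul_eq_mul, Finset.mul_sum]
  refine Finset.sum_congr rfl fun π _ => ?_
  rw [LinearMap.smul_apply, smul_eq_mul]
  ring

lemma An_zero : An (0 : Du (R ⊕ Fin j) σ) = 0 := by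
  refine LinearMap.ext fun f => ?_
  rw [An_apply]
  simp

lemma An_sb (g : σ → τ → ℂ) (θ : Du (R ⊕ Fin j) τ) :
    An (θ.comp (sb g).toLinearMap) = (An θ).comp (sb g).toLinearMap := by
  refine LinearMap.ext fun f => ?_
  rw [LinearMap.comp_apply, An_apply, An_apply]
  refine Finset.sum_congr rfl fun π _ => ?_
  rw [LinearMap.comp_apply, AlgHom.toLinearMap_apply, AlgHom.toLinearMap_apply, sb_rs]

lemma An_alt (θ : Du (R ⊕ Fin j) σ) : Alt (An θ) := by
  intro a b hab f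
  rw [An_apply, An_apply, ← Finset.sum_neg_distrib]
  refine Fintype.sum_equiv (Equiv.mulRight (Equiv.swap a b)) _ _ fun π => ?_
  rw [rs_rs, ← pm_swap, ← pm_mul, Equiv.coe_mulRight, Equiv.Perm.sign_mul,
    Equiv.Perm.sign_swap hab]
  push_cast
  ring

lemma An_Hg {q : ℕ} {r : R → ℕ} {θ : Du (R ⊕ Fin j) σ} (h : Hg (dgq q r j) θ) :
    Hg (dgq q r j) (An θ) := by
  intro e he
  rw [An_apply]
  refine Finset.sum_eq_zero fun π _ => ?_
  have h1 := Hg_rs (pm π : R ⊕ Fin j ≃ R ⊕ Fin j) h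
  have h2 : (dgq q r j) ∘ (pm π : R ⊕ Fin j ≃ R ⊕ Fin j) = dgq q r j := by
    funext x
    rcases x with x | x <;> rfl
  rw [h2] at h1
  have h3 := h1 e he
  rw [LinearMap.comp_apply, AlgHom.toLinearMap_apply] at h3
  rw [h3, mul_zero]

lemma alt_pm {Θ : Du (R ⊕ Fin j) σ} (h : Alt Θ) (π : Equiv.Perm (Fin j))
    (f : Pl (R ⊕ Fin j) σ) : Θ (rs (pm π : R ⊕ Fin j → R ⊕ Fin j) f) =
      (((Equiv.Perm.sign π : ℤˣ) : ℤ) : ℂ) * Θ f := by
  induction π using Equiv.Perm.swap_induction_on with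
  | one =>
    rw [pm_one, rs_id]
    simp
  | swap_mul π x y hxy ih =>
    rw [pm_mul, ← rs_rs, pm_swap, h x y hxy, ih, Equiv.Perm.sign_mul, Equiv.Perm.sign_swap hxy]
    push_cast
    ring

lemma An_of_alt {Θ : Du (R ⊕ Fin j) σ} (h : Alt Θ) : An Θ = ((j.factorial : ℕ) : ℂ) • Θ := by
  refine LinearMap.ext fun f => ?_
  rw [An_apply, LinearMap.smul_apply, smul_eq_mul]
  have h1 : ∀ π ∈ (Finset.univ : Finset (Equiv.Perm (Fin j))),
      (((Equiv.Perm.sign π : ℤˣ) : ℤ) : ℂ) * Θ (rs (pm π : R ⊕ Fin j → R ⊕ Fin j) f) = Θ f := by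
    intro π _
    rw [alt_pm h, ← mul_assoc]
    have h2 : (((Equiv.Perm.sign π : ℤˣ) : ℤ) : ℂ) * (((Equiv.Perm.sign π : ℤˣ) : ℤ) : ℂ) = 1 := by
      rw [← Int.cast_mul, ← Units.val_mul, Int.units_mul_self]
      simp
    rw [h2, one_mul]
  rw [Finset.sum_congr rfl h1, Finset.sum_const, Finset.card_univ, Fintype.card_perm,
    Fintype.card_fin, nsmul_eq_mul]

end F8aX

section F8
variable [Fintype R] [DecidableEq R]

theorem alt2 [Nonempty σ] {q j : ℕ} {r : R → ℕ} (hj : q + 2 ≤ j) {Θ : Du (R ⊕ Fin j) σ}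
    (h1 : Hg (dgq q r j) Θ) (h2 : R2 Θ) (h3 : Alt Θ) : Θ = 0 := by
  have h4 : Θ ∈ (E2 (dgq q r j) : Submodule ℂ (Du (R ⊕ Fin j) σ)) := span2 h1 h2
  have h5 : F8aX.An Θ = 0 := by
    clear h1 h2 h3
    unfold E2 at h4
    induction h4 using Submodule.span_induction with
    | mem x hx =>
      obtain ⟨g, θ, hθ, rfl⟩ := hx
      rw [F8aX.An_sb, alt_two hj (F8aX.An_Hg hθ) (F8aX.An_alt θ), LinearMap.zero_comp]
    | zero => exact F8aX.An_zero
    | add x y _ _ hx hy => rw [F8aX.An_add, hx, hy, add_zero]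
    | smul a x _ hx => rw [F8aX.An_smul, hx, smul_zero]
  rw [F8aX.An_of_alt h3] at h5
  rcases smul_eq_zero.1 h5 with h6 | h6
  · exact absurd h6 (by exact_mod_cast Nat.factorial_ne_zero j)
  · exact h6

end F8

end Pool.Agent.H69.V2
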