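import Pool.Agent.H69.V2.F1
import Pool.Agent.H69.V2.F2

/-!
The kernel of the evaluation of the two additional slots (project V2, row F9).
-/

set_option linter.unusedSectionVars false

namespace Pool.Agent.H69.V2

open scoped BigOperators

open MvPolynomial

variable {ι κ σ τ R : Type} [Fintype σ] [DecidableEq σ] [Fintype τ] [DecidableEq τ]

namespace F9X

/-- reduction to monomials -/
theorem of_mono {Θ : Du ι σ} {G : Pl ι σ} (h : ∀ e : ι × σ →₀ ℕ, Θ (monomial e 1 * G) = 0)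
    (f : Pl ι σ) : Θ (f * G) = 0 := by
  induction f using MvPolynomial.induction_on' with
  | monomial e c =>
    have h1 : (monomial e c : Pl ι σ) = c • monomial e 1 := by
      rw [smul_monomial, smul_eq_mul, mul_one]
    rw [h1, smul_mul_assoc, map_smul, h e, smul_zero]
  | add p q hp hq => rw [add_mul, map_add, hp, hq, add_zero]

/-- homogeneity -/
theorem Hg_d2 [DecidableEq ι] {dg : ι → ℕ} {Θ : Du ι σ} (h : Hg dg Θ) (e : ι × σ →₀ ℕ)
    (s t : ι) (u v : σ → ℂ) (hd : ∃ p, (∑ k, e (p, k)) + (Pi.single s 1 : ι → ℕ) p +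
      (Pi.single t 1 : ι → ℕ) p ≠ dg p) : Θ (monomial e 1 * d2 s t u v) = 0 := by
  have key : ∀ u v : σ → ℂ, Θ (monomial e 1 * (li s u * li t v)) = 0 := by
    intro u v
    have hM := Mh_mul (Mh_monomial e (1 : ℂ)) (Mh_mul (Mh_li s u) (Mh_li t v))
    refine Hg_ap h hM ?_
    obtain ⟨p, hp⟩ := hd
    refine ⟨p, ?_⟩
    simpa [Pi.add_apply, add_assoc] using hp
  rw [d2, mul_sub, map_sub, key u v, key v u, sub_zero]

/-- a monomial that contains the slot `s` once -/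
theorem split_one (e : ι × σ →₀ ℕ) (s : ι) (h : ∑ k, e (s, k) = 1) :
    ∃ (e0 : ι × σ →₀ ℕ) (w : σ), (monomial e (1 : ℂ) : Pl ι σ) =
      monomial e0 1 * li s (Pi.single w 1) ∧ (∀ k, e0 (s, k) = 0) ∧
      ∀ t, t ≠ s → ∀ k, e0 (t, k) = e (t, k) := by
  classical
  have hw : ∃ w, e (s, w) ≠ 0 := by
    by_contra hc
    push Not at hc
    simp [hc] at h
  obtain ⟨w, hw⟩ := hw
  have hle : e (s, w) + ∑ k ∈ Finset.univ.erase w, e (s, k) = 1 := by
    rw [← h]
    exact Finset.add_sum_erase _ (fun k => e (s, k)) (Finset.mem_univ w)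
  have hw1 : e (s, w) = 1 := by omega
  have hk : ∀ k, k ≠ w → e (s, k) = 0 := by
    intro k hk
    have h0 : ∑ k ∈ Finset.univ.erase w, e (s, k) = 0 := by omega
    exact (Finset.sum_eq_zero_iff.mp h0) k (Finset.mem_erase.mpr ⟨hk, Finset.mem_univ k⟩)
  refine ⟨e.erase (s, w), w, ?_, ?_, ?_⟩
  · rw [li_single]
    have h1 : e = e.erase (s, w) + Finsupp.single (s, w) 1 := by
      ext p
      by_cases hp : p = (s, w)
      · subst hp
        simp [hw1]
      · simp [Finsupp.erase_ne hp, Ne.symm hp]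
    have h2 : (X (s, w) : Pl ι σ) = monomial (Finsupp.single (s, w) 1) 1 := rfl
    rw [h2, monomial_mul, mul_one, ← h1]
  · intro k
    by_cases hkw : k = w
    · subst hkw
      simp
    · rw [Finsupp.erase_ne (by simp [hkw])]
      exact hk k hkw
  · intro t ht k
    rw [Finsupp.erase_ne (by simp [ht])]

variable {j : ℕ}

/-- the inclusion of the old slots -/
abbrev inc (R : Type) (j : ℕ) : R ⊕ Fin j → (R ⊕ Fin 2) ⊕ Fin j := Sum.map Sum.inl id

/-- the first additional slot -/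
abbrev p1 (R : Type) (j : ℕ) : (R ⊕ Fin 2) ⊕ Fin j := Sum.inl (Sum.inr 0)

/-- the second additional slot -/
abbrev p2 (R : Type) (j : ℕ) : (R ⊕ Fin 2) ⊕ Fin j := Sum.inl (Sum.inr 1)

theorem inc_inj : Function.Injective (inc R j) :=
  Sum.map_injective.mpr ⟨Sum.inl_injective, Function.injective_id⟩

theorem swap_inc [DecidableEq R] :
    (Equiv.swap (p1 R j) (p2 R j)) ∘ inc R j = inc R j := by
  funext s
  rcases s with s | s
  · exact Equiv.swap_apply_of_ne_of_ne (by simp [p1]) (by simp [p2])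
  · exact Equiv.swap_apply_of_ne_of_ne (by simp [p1]) (by simp [p2])

/-- a monomial without the additional slots -/
theorem split_zero (e : ((R ⊕ Fin 2) ⊕ Fin j) × σ →₀ ℕ) (h1 : ∀ k, e (p1 R j, k) = 0)
    (h2 : ∀ k, e (p2 R j, k) = 0) :
    ∃ f : Pl (R ⊕ Fin j) σ, (monomial e (1 : ℂ) : Pl ((R ⊕ Fin 2) ⊕ Fin j) σ) =
      rs (inc R j) f := by
  classical
  have hinj : Function.Injective (Prod.map (inc R j) (id : σ → σ)) :=
    inc_inj.prodMap Function.injective_id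
  refine ⟨monomial (e.comapDomain (Prod.map (inc R j) id) hinj.injOn) 1, ?_⟩
  rw [rs_monomial]
  refine congrArg (fun e => monomial e (1 : ℂ)) (Eq.symm ?_)
  refine Finsupp.mapDomain_comapDomain _ hinj e ?_
  intro x hx
  rcases x with ⟨s, k⟩
  have hx0 : e (s, k) ≠ 0 := by simpa using hx
  rcases s with (s | s) | s
  · exact ⟨(Sum.inl s, k), rfl⟩
  · exfalso
    fin_cases s
    · exact hx0 (h1 k)
    · exact hx0 (h2 k)
  · exact ⟨(Sum.inr s, k), rfl⟩

/-- the hypotheses on a single functional -/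
structure Hyp [DecidableEq R] (dg : (R ⊕ Fin 2) ⊕ Fin j → ℕ)
    (Θ : Du ((R ⊕ Fin 2) ⊕ Fin j) σ) : Prop where
  hg : Hg dg Θ
  d1 : dg (p1 R j) = 1
  d2 : dg (p2 R j) = 1
  r2 : R2 Θ
  al : ∀ f, Θ (rs (Equiv.swap (p1 R j) (p2 R j)) f) = - Θ f

section one

variable [DecidableEq R] {dg : (R ⊕ Fin 2) ⊕ Fin j → ℕ} {Θ : Du ((R ⊕ Fin 2) ⊕ Fin j) σ}
  {z z' : σ → ℂ}

theorem rs_swap_inc (f : Pl (R ⊕ Fin j) σ) :
    rs (Equiv.swap (p1 R j) (p2 R j)) (rs (inc R j) f) = rs (inc R j) f := by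
  rw [rs_rs, swap_inc]

theorem swap_p1 : Equiv.swap (p1 R j) (p2 R j) (p1 R j) = p2 R j := Equiv.swap_apply_left _ _

theorem swap_p2 : Equiv.swap (p1 R j) (p2 R j) (p2 R j) = p1 R j := Equiv.swap_apply_right _ _

theorem swap_of {s : (R ⊕ Fin 2) ⊕ Fin j} (h1 : s ≠ p1 R j) (h2 : s ≠ p2 R j) :
    Equiv.swap (p1 R j) (p2 R j) s = s := Equiv.swap_apply_of_ne_of_ne h1 h2

/-- both evaluations -/
theorem ev_two (H : Hyp dg Θ) (f : Pl (R ⊕ Fin j) σ) :
    Θ (rs (inc R j) f * V2.d2 (p1 R j) (p2 R j) z z') =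
      2 * Θ (rs (inc R j) f * (li (p1 R j) z * li (p2 R j) z')) := by
  have h := H.al (rs (inc R j) f * (li (p1 R j) z * li (p2 R j) z'))
  rw [map_mul (rs (Equiv.swap (p1 R j) (p2 R j))), map_mul (rs (Equiv.swap (p1 R j) (p2 R j))), rs_li, rs_li,
    rs_swap_inc, swap_p1, swap_p2] at h
  rw [V2.d2, mul_sub, map_sub, mul_comm (li (p1 R j) z') (li (p2 R j) z), h]
  ring

/-- case (a): both additional slots -/
theorem case_a (H : Hyp dg Θ)
    (h : ∀ f : Pl (R ⊕ Fin j) σ,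
      Θ (rs (inc R j) f * (li (p1 R j) z * li (p2 R j) z')) = 0)
    (f : Pl ((R ⊕ Fin 2) ⊕ Fin j) σ) : Θ (f * V2.d2 (p1 R j) (p2 R j) z z') = 0 := by
  refine of_mono (fun e => ?_) f
  by_cases h1 : ∀ k, e (p1 R j, k) = 0
  · by_cases h2 : ∀ k, e (p2 R j, k) = 0
    · obtain ⟨f', hf'⟩ := split_zero e h1 h2
      rw [hf', ev_two H, h f', mul_zero]
    · refine Hg_d2 H.hg e _ _ _ _ ⟨p2 R j, ?_⟩
      rw [H.d2]
      push Not at h2
      obtain ⟨k, hk⟩ := h2
      have hpos : 0 < ∑ k, e (p2 R j, k) :=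
        lt_of_lt_of_le (Nat.pos_of_ne_zero hk)
          (Finset.single_le_sum (f := fun k => e (p2 R j, k)) (fun _ _ => Nat.zero_le _)
            (Finset.mem_univ k))
      have : (Pi.single (p2 R j) 1 : (R ⊕ Fin 2) ⊕ Fin j → ℕ) (p2 R j) = 1 := by simp
      omega
  · refine Hg_d2 H.hg e _ _ _ _ ⟨p1 R j, ?_⟩
    rw [H.d1]
    push Not at h1
    obtain ⟨k, hk⟩ := h1
    have hpos : 0 < ∑ k, e (p1 R j, k) :=
      lt_of_lt_of_le (Nat.pos_of_ne_zero hk)
        (Finset.single_le_sum (f := fun k => e (p1 R j, k)) (fun _ _ => Nat.zero_le _)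
          (Finset.mem_univ k))
    have : (Pi.single (p1 R j) 1 : (R ⊕ Fin 2) ⊕ Fin j → ℕ) (p1 R j) = 1 := by simp
    omega

theorem d2_swap (s t : ι) (u v : σ → ℂ) :
    (V2.d2 s t u v : Pl ι σ) = - V2.d2 t s u v := by
  rw [V2.d2, V2.d2]
  ring

/-- case (b): the first additional slot and another slot -/
theorem case_b (H : Hyp dg Θ)
    (h : ∀ f, Θ (f * V2.d2 (p1 R j) (p2 R j) z z') = 0) {t : (R ⊕ Fin 2) ⊕ Fin j}
    (ht1 : t ≠ p1 R j) (ht2 : t ≠ p2 R j)
    (f : Pl ((R ⊕ Fin 2) ⊕ Fin j) σ) : Θ (f * V2.d2 (p1 R j) t z z') = 0 := by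
  have hp : p2 R j ≠ p1 R j := by simp [p1, p2]
  refine of_mono (fun e => ?_) f
  by_cases h1 : ∑ k, e (p1 R j, k) = 0
  · by_cases h2 : ∑ k, e (p2 R j, k) = 1
    · obtain ⟨e0, w, he, he0, hne⟩ := split_one e (p2 R j) h2
      have h1' : ∀ k, e0 (p1 R j, k) = 0 := by
        intro k
        rw [hne _ hp.symm k]
        exact (Finset.sum_eq_zero_iff.mp h1) k (Finset.mem_univ k)
      obtain ⟨f', hf'⟩ := split_zero e0 h1' he0
      rw [he, hf']
      set y : σ → ℂ := Pi.single w 1 with hy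
      have hal := H.al (rs (inc R j) f' * li (p2 R j) y * V2.d2 (p1 R j) t z z')
      rw [map_mul (rs (Equiv.swap (p1 R j) (p2 R j))), map_mul (rs (Equiv.swap (p1 R j) (p2 R j))),
        rs_li, rs_d2, rs_swap_inc, swap_p1, swap_p2, swap_of ht1 ht2] at hal
      have hid : rs (inc R j) f' * li (p2 R j) y * V2.d2 (p1 R j) t z z' -
          rs (inc R j) f' * li (p1 R j) y * V2.d2 (p2 R j) t z z' =
          (rs (inc R j) f' * li t y) * V2.d2 (p1 R j) (p2 R j) z z' -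
            rs (inc R j) f' * V2.d3 (p1 R j) (p2 R j) t y z z' := by
        simp only [V2.d3, V2.d2]
        ring
      have h3 := congrArg Θ hid
      rw [map_sub, map_sub, hal, h, H.r2 _ _ _ hp.symm ht1.symm ht2.symm] at h3
      have h4 : (2 : ℂ) * Θ (rs (inc R j) f' * li (p2 R j) y * V2.d2 (p1 R j) t z z') = 0 := by
        linear_combination h3
      rcases mul_eq_zero.mp h4 with h5 | h5
      · norm_num at h5
      · exact h5
    · refine Hg_d2 H.hg e _ _ _ _ ⟨p2 R j, ?_⟩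
      rw [H.d2, Pi.single_eq_of_ne hp, Pi.single_eq_of_ne ht2.symm]
      omega
  · refine Hg_d2 H.hg e _ _ _ _ ⟨p1 R j, ?_⟩
    have : (Pi.single (p1 R j) 1 : (R ⊕ Fin 2) ⊕ Fin j → ℕ) (p1 R j) = 1 := by simp
    rw [H.d1]
    omega

/-- case (c): the second additional slot and another slot -/
theorem case_c (H : Hyp dg Θ)
    (h : ∀ f, Θ (f * V2.d2 (p1 R j) (p2 R j) z z') = 0) {t : (R ⊕ Fin 2) ⊕ Fin j}
    (ht1 : t ≠ p1 R j) (ht2 : t ≠ p2 R j)
    (f : Pl ((R ⊕ Fin 2) ⊕ Fin j) σ) : Θ (f * V2.d2 (p2 R j) t z z') = 0 := by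
  have hal := H.al (f * V2.d2 (p2 R j) t z z')
  rw [map_mul (rs (Equiv.swap (p1 R j) (p2 R j))), rs_d2, swap_p2, swap_of ht1 ht2,
    case_b H h ht1 ht2] at hal
  linear_combination hal

/-- case (d): two other slots -/
theorem case_d (H : Hyp dg Θ)
    (h : ∀ f, Θ (f * V2.d2 (p1 R j) (p2 R j) z z') = 0) {s t : (R ⊕ Fin 2) ⊕ Fin j}
    (hst : s ≠ t) (hs1 : s ≠ p1 R j) (hs2 : s ≠ p2 R j)
    (ht1 : t ≠ p1 R j) (ht2 : t ≠ p2 R j)
    (f : Pl ((R ⊕ Fin 2) ⊕ Fin j) σ) : Θ (f * V2.d2 s t z z') = 0 := by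
  have hp : p2 R j ≠ p1 R j := by simp [p1, p2]
  refine of_mono (fun e => ?_) f
  by_cases h1 : ∑ k, e (p1 R j, k) = 1
  · by_cases h2 : ∑ k, e (p2 R j, k) = 1
    · obtain ⟨e0, w, he, he0, hne⟩ := split_one e (p1 R j) h1
      have h2' : ∑ k, e0 (p2 R j, k) = 1 := by
        rw [← h2]
        exact Finset.sum_congr rfl (fun k _ => hne _ hp k)
      obtain ⟨e1, y, he1, he10, hne1⟩ := split_one e0 (p2 R j) h2'
      have h1' : ∀ k, e1 (p1 R j, k) = 0 := by
        intro k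
        rw [hne1 _ hp.symm k, he0 k]
      obtain ⟨f', hf'⟩ := split_zero e1 h1' he10
      rw [he, he1, hf']
      set w' : σ → ℂ := Pi.single w 1 with hw
      set y' : σ → ℂ := Pi.single y 1 with hy
      have hal := H.al (rs (inc R j) f' * li (p2 R j) y' * li (p1 R j) w' * V2.d2 s t z z')
      rw [map_mul (rs (Equiv.swap (p1 R j) (p2 R j))), map_mul (rs (Equiv.swap (p1 R j) (p2 R j))),
        map_mul (rs (Equiv.swap (p1 R j) (p2 R j))), rs_li, rs_li, rs_d2, rs_swap_inc, swap_p1,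
        swap_p2, swap_of ht1 ht2, swap_of hs1 hs2] at hal
      have hid : rs (inc R j) f' * li (p2 R j) y' * li (p1 R j) w' * V2.d2 s t z z' -
          rs (inc R j) f' * li (p1 R j) y' * li (p2 R j) w' * V2.d2 s t z z' =
          (rs (inc R j) f' * V2.d2 s t w' y') * V2.d2 (p1 R j) (p2 R j) z z' +
            (rs (inc R j) f' * li (p2 R j) y') * V2.d3 (p1 R j) s t w' z z' -
            (rs (inc R j) f' * li s w') * V2.d3 (p1 R j) (p2 R j) t y' z z' +
            (rs (inc R j) f' * li t w') * V2.d3 (p1 R j) (p2 R j) s y' z z' -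
            (rs (inc R j) f' * li (p1 R j) y') * V2.d3 (p2 R j) s t w' z z' := by
        simp only [V2.d3, V2.d2]
        ring
      have h3 := congrArg Θ hid
      rw [map_sub, map_sub, map_add, map_sub, map_add, hal, h,
        H.r2 _ _ _ hs1.symm ht1.symm hst, H.r2 _ _ _ hp.symm ht1.symm ht2.symm,
        H.r2 _ _ _ hp.symm hs1.symm hs2.symm, H.r2 _ _ _ hs2.symm ht2.symm hst] at h3
      have h4 : (2 : ℂ) * Θ (rs (inc R j) f' * li (p2 R j) y' * li (p1 R j) w' *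
          V2.d2 s t z z') = 0 := by
        linear_combination h3
      rcases mul_eq_zero.mp h4 with h5 | h5
      · norm_num at h5
      · exact h5
    · refine Hg_d2 H.hg e _ _ _ _ ⟨p2 R j, ?_⟩
      rw [H.d2, Pi.single_eq_of_ne hs2.symm, Pi.single_eq_of_ne ht2.symm]
      omega
  · refine Hg_d2 H.hg e _ _ _ _ ⟨p1 R j, ?_⟩
    rw [H.d1, Pi.single_eq_of_ne hs1.symm, Pi.single_eq_of_ne ht1.symm]
    omega

/-- all cases -/
theorem case_all (H : Hyp dg Θ)
    (h : ∀ f, Θ (f * V2.d2 (p1 R j) (p2 R j) z z') = 0) : YY z z' Θ := by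
  intro s t hst f
  have hneg : ∀ {a b : (R ⊕ Fin 2) ⊕ Fin j}, (∀ f, Θ (f * V2.d2 a b z z') = 0) →
      ∀ f, Θ (f * V2.d2 b a z z') = 0 := by
    intro a b hab f
    rw [d2_swap b a, mul_neg, map_neg, hab f, neg_zero]
  by_cases hs1 : s = p1 R j
  · subst hs1
    by_cases ht2 : t = p2 R j
    · subst ht2
      exact h f
    · exact case_b H h hst.symm ht2 f
  · by_cases hs2 : s = p2 R j
    · subst hs2
      by_cases ht1 : t = p1 R j
      · subst ht1
        exact hneg h f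
      · exact case_c H h ht1 hst.symm f
    · by_cases ht1 : t = p1 R j
      · subst ht1
        exact hneg (case_b H h hs1 hs2) f
      · by_cases ht2 : t = p2 R j
        · subst ht2
          exact hneg (case_c H h hs1 hs2) f
        · exact case_d H h hst hs1 hs2 ht1 ht2 f

end one

end F9X

open F9X in
theorem ev_ker [Fintype R] [DecidableEq R] {q : ℕ} {r : R → ℕ} {z z' : σ → ℂ}
    {x : Fam (R ⊕ Fin 2) σ}
    (hx : x ∈ DD q (r2 r) σ) (ha : x ∈ AL) : ev z z' x = 0 ↔ x ∈ YD z z' := by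
  have hH : ∀ j, Hyp (dgq q (r2 r) j) (x j) := fun j =>
    ⟨hx.1 j, rfl, rfl, hx.2.1 j, ha j⟩
  constructor
  · intro h j
    refine case_all (hH j) (fun f => case_a (hH j) (fun f => ?_) f)
    exact congrArg (fun y : Fam R σ => y j f) h
  · intro h
    funext j
    refine LinearMap.ext (fun f => ?_)
    have h1 := ev_two (z := z) (z' := z') (hH j) f
    have h2 := h j (p1 R j) (p2 R j) (by simp [p1, p2]) (rs (inc R j) f)
    rw [h2] at h1
    have h3 : (2 : ℂ) * (x j) (rs (inc R j) f * (li (p1 R j) z * li (p2 R j) z')) = 0 := h1.symm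
    rcases mul_eq_zero.mp h3 with h5 | h5
    · norm_num at h5
    · exact h5

end Pool.Agent.H69.V2
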