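import Pool.Agent.H69.V2.F1
import Pool.Agent.H69.V2.F2

/-! Evaluation of the two additional slots, and the alternating part. -/

set_option linter.unusedSectionVars false

namespace Pool.Agent.H69.V2

open scoped BigOperators
open MvPolynomial

variable {ι κ lam σ τ υ R : Type} [Fintype σ] [DecidableEq σ] [Fintype τ] [DecidableEq τ]
  [Fintype υ] [DecidableEq υ]

namespace F9aX

/-- the inclusion of the old slots -/
def gj (R : Type) (j : ℕ) : R ⊕ Fin j → (R ⊕ Fin 2) ⊕ Fin j := Sum.map Sum.inl id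

/-- one more label -/
def sj (R : Type) (j : ℕ) : R ⊕ Fin j → R ⊕ Fin (j + 1) := Sum.map id Fin.succ

theorem gj_inj (R : Type) (j : ℕ) : Function.Injective (gj R j) :=
  Sum.map_injective.mpr ⟨Sum.inl_injective, Function.injective_id⟩

/-- exchange of the two additional slots -/
def sw (R : Type) [DecidableEq R] (j : ℕ) :
    ((R ⊕ Fin 2) ⊕ Fin j) ≃ ((R ⊕ Fin 2) ⊕ Fin j) :=
  Equiv.swap (Sum.inl (Sum.inr 0)) (Sum.inl (Sum.inr 1))

theorem rs_mul (h : ι → κ) (f g : Pl ι σ) : rs h (f * g) = rs h f * rs h g := map_mul _ _ _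

theorem ev_app (z z' : σ → ℂ) (x : Fam (R ⊕ Fin 2) σ) (j : ℕ) (f : Pl (R ⊕ Fin j) σ) :
    ev z z' x j f = x j (rs (gj R j) f * (li (Sum.inl (Sum.inr 0)) z *
      li (Sum.inl (Sum.inr 1)) z')) := rfl

theorem bb_app (β : MvPolynomial σ ℂ) (x : Fam R σ) (j : ℕ) (f : Pl (R ⊕ Fin j) σ) :
    bb β x j f = x (j + 1) (rs (sj R j) f * at' (Sum.inr 0) β) := rfl

variable [DecidableEq R]

theorem sw_inr (j : ℕ) (a : Fin j) : sw R j (Sum.inr a) = Sum.inr a :=
  Equiv.swap_apply_of_ne_of_ne (by simp) (by simp)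

theorem sw_sj (j : ℕ) : sj (R ⊕ Fin 2) j ∘ sw R j = sw R (j + 1) ∘ sj (R ⊕ Fin 2) j := by
  funext s
  have hinj : Function.Injective (sj (R ⊕ Fin 2) j) :=
    Sum.map_injective.mpr ⟨Function.injective_id, Fin.succ_injective j⟩
  simp only [Function.comp_apply, sw, Equiv.swap_apply_def]
  have h0 : sj (R ⊕ Fin 2) j (Sum.inl (Sum.inr 0)) = Sum.inl (Sum.inr 0) := rfl
  have h1 : sj (R ⊕ Fin 2) j (Sum.inl (Sum.inr 1)) = Sum.inl (Sum.inr 1) := rfl
  by_cases c0 : s = Sum.inl (Sum.inr 0)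
  · subst c0
    simp only [h0, h1, if_true]
  · by_cases c1 : s = Sum.inl (Sum.inr 1)
    · subst c1
      simp only [h1, if_true]
      rw [if_neg (by simp), if_neg (by simp)]
      exact h0
    · rw [if_neg c0, if_neg c1, if_neg, if_neg]
      · rw [← h1]
        exact fun h => c1 (hinj h)
      · rw [← h0]
        exact fun h => c0 (hinj h)

/-- composition with the exchange of the two additional slots -/
noncomputable def W : Fam (R ⊕ Fin 2) σ →ₗ[ℂ] Fam (R ⊕ Fin 2) σ where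
  toFun x j := (x j).comp (rs (sw R j)).toLinearMap
  map_add' x y := by ext; simp
  map_smul' c x := by ext; simp

theorem W_app (x : Fam (R ⊕ Fin 2) σ) (j : ℕ) (f : Pl ((R ⊕ Fin 2) ⊕ Fin j) σ) :
    W x j f = x j (rs (sw R j) f) := rfl

theorem W_W (x : Fam (R ⊕ Fin 2) σ) : W (W x) = x := by
  funext j
  refine LinearMap.ext fun f => ?_
  rw [W_app, W_app, rs_rs]
  have : (sw R j : (R ⊕ Fin 2) ⊕ Fin j → (R ⊕ Fin 2) ⊕ Fin j) ∘ sw R j = id := by
    funext s
    exact Equiv.swap_apply_self _ _ _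
  rw [this, rs_id]

theorem mem_AL (x : Fam (R ⊕ Fin 2) σ) : x ∈ (AL : Submodule ℂ (Fam (R ⊕ Fin 2) σ)) ↔
    W x = - x := by
  constructor
  · intro h
    funext j
    refine LinearMap.ext fun f => ?_
    exact h j f
  · intro h j f
    have := congrFun h j
    exact congrArg (fun Θ : Du ((R ⊕ Fin 2) ⊕ Fin j) σ => Θ f) this

theorem W_bb (β : MvPolynomial σ ℂ) (x : Fam (R ⊕ Fin 2) σ) : W (bb β x) = bb β (W x) := by
  funext j
  refine LinearMap.ext fun f => ?_
  rw [W_app, bb_app, bb_app, W_app, rs_mul, rs_rs, rs_rs, rs_at, sw_sj, sw_inr]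

theorem W_YD {z z' : σ → ℂ} {x : Fam (R ⊕ Fin 2) σ} (hx : x ∈ YD z z') : W x ∈ YD z z' := by
  intro j s t hst f
  rw [W_app, rs_mul, rs_d2]
  exact hx j _ _ (fun h => hst ((sw R j).injective h)) _

theorem W_DD {q : ℕ} {r : R → ℕ} {x : Fam (R ⊕ Fin 2) σ} (hx : x ∈ DD q (r2 r) σ) :
    W x ∈ DD q (r2 r) σ := by
  obtain ⟨h1, h2, h3, h4⟩ := hx
  refine ⟨fun j => ?_, fun j s t u hst hsu htu a b c f => ?_, fun j a b hab f => ?_,
    fun j hj => ?_⟩
  · have hd : dgq q (r2 r) j ∘ sw R j = dgq q (r2 r) j := by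
      funext s
      simp only [Function.comp_apply, sw, Equiv.swap_apply_def]
      by_cases c0 : s = Sum.inl (Sum.inr 0)
      · subst c0
        rw [if_pos rfl]
        rfl
      · by_cases c1 : s = Sum.inl (Sum.inr 1)
        · subst c1
          rw [if_neg c0, if_pos rfl]
          rfl
        · rw [if_neg c0, if_neg c1]
    have := Hg_rs (sw R j) (h1 j)
    rw [hd] at this
    exact this
  · rw [W_app, rs_mul, rs_d3]
    exact h2 j _ _ _ (fun h => hst ((sw R j).injective h))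
      (fun h => hsu ((sw R j).injective h)) (fun h => htu ((sw R j).injective h)) _ _ _ _
  · rw [W_app, W_app, rs_rs]
    have hc : (sw R j : (R ⊕ Fin 2) ⊕ Fin j → (R ⊕ Fin 2) ⊕ Fin j) ∘
        Equiv.swap (Sum.inr a) (Sum.inr b) =
        Equiv.swap (Sum.inr a) (Sum.inr b) ∘ sw R j := by
      funext s
      simp only [Function.comp_apply, Equiv.swap_apply_def]
      by_cases c0 : s = Sum.inr a
      · rw [if_pos c0, c0, sw_inr, sw_inr, if_pos rfl]
      · by_cases c1 : s = Sum.inr b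
        · rw [if_neg c0, if_pos c1, c1, sw_inr, sw_inr, if_neg, if_pos rfl]
          intro h
          exact hab (Sum.inr_injective h).symm
        · rw [if_neg c0, if_neg c1, if_neg, if_neg]
          · rw [← sw_inr (R := R) j b]
            exact fun h => c1 ((sw R j).injective h)
          · rw [← sw_inr (R := R) j a]
            exact fun h => c0 ((sw R j).injective h)
    rw [hc, ← rs_rs]
    exact h3 j a b hab _
  · refine LinearMap.ext fun f => ?_
    rw [W_app, h4 j hj]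
    rfl

end F9aX

open F9aX

section F9
variable [Fintype R] [DecidableEq R]

theorem ev_DD {q : ℕ} {r : R → ℕ} (z z' : σ → ℂ) {x : Fam (R ⊕ Fin 2) σ}
    (hx : x ∈ DD q (r2 r) σ) : ev z z' x ∈ DD q r σ := by
  obtain ⟨h1, h2, h3, h4⟩ := hx
  refine ⟨fun j e he => ?_, fun j s t u hst hsu htu a b c f => ?_, fun j a b hab f => ?_,
    fun j hj => ?_⟩
  · rw [ev_app]
    have hm : Mh (Sum.elim (Sum.elim (fun a => ∑ k, e (Sum.inl a, k)) (fun _ => 0))
        (fun b => ∑ k, e (Sum.inr b, k))) (rs (gj R j) (monomial e (1 : ℂ))) := by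
      refine Mh_rs (gj_inj R j) ?_ ?_
      · rintro ((a | a) | b) ht
        · exact (ht ⟨Sum.inl a, rfl⟩).elim
        · rfl
        · exact (ht ⟨Sum.inr b, rfl⟩).elim
      · have : (Sum.elim (Sum.elim (fun a => ∑ k, e (Sum.inl a, k)) (fun _ => 0))
            (fun b => ∑ k, e (Sum.inr b, k))) ∘ gj R j = fun s => ∑ k, e (s, k) := by
          funext s
          rcases s with a | b <;> rfl
        rw [this]
        exact Mh_monomial e 1
    refine Hg_ap (h1 j) (Mh_mul hm (Mh_mul (Mh_li _ z) (Mh_li _ z'))) ?_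
    obtain ⟨s, hs⟩ := he
    refine ⟨gj R j s, ?_⟩
    rcases s with a | b
    · intro h
      apply hs
      simpa [gj, dgq, r2] using h
    · intro h
      apply hs
      simpa [gj, dgq, r2] using h
  · rw [ev_app, rs_mul, rs_d3]
    have := h2 j (gj R j s) (gj R j t) (gj R j u) (fun h => hst (gj_inj R j h))
      (fun h => hsu (gj_inj R j h)) (fun h => htu (gj_inj R j h)) a b c
      (rs (gj R j) f * (li (Sum.inl (Sum.inr 0)) z * li (Sum.inl (Sum.inr 1)) z'))
    rw [← this]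
    congr 1
    ring
  · rw [ev_app, ev_app, ← h3 j a b hab, rs_mul, rs_mul, rs_li, rs_li, rs_rs, rs_rs]
    have hc : gj R j ∘ Equiv.swap (Sum.inr a) (Sum.inr b) =
        Equiv.swap (Sum.inr a) (Sum.inr b) ∘ gj R j := by
      funext s
      simp only [Function.comp_apply, Equiv.swap_apply_def]
      have e1 : gj R j (Sum.inr a) = Sum.inr a := rfl
      have e2 : gj R j (Sum.inr b) = Sum.inr b := rfl
      by_cases c0 : s = Sum.inr a
      · rw [if_pos c0, c0, e1, e2, if_pos rfl]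
      · by_cases c1 : s = Sum.inr b
        · rw [if_neg c0, if_pos c1, c1, e1, e2, if_neg, if_pos rfl]
          intro h
          exact hab (Sum.inr_injective h).symm
        · rw [if_neg c0, if_neg c1, if_neg, if_neg]
          · rw [← e2]
            exact fun h => c1 (gj_inj R j h)
          · rw [← e1]
            exact fun h => c0 (gj_inj R j h)
    rw [hc, Equiv.swap_apply_of_ne_of_ne (by simp) (by simp),
      Equiv.swap_apply_of_ne_of_ne (by simp) (by simp)]
  · refine LinearMap.ext fun f => ?_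
    rw [ev_app, h4 j hj]
    rfl

theorem ev_bb (z z' : σ → ℂ) (β : MvPolynomial σ ℂ) (x : Fam (R ⊕ Fin 2) σ) :
    ev z z' (bb β x) = bb β (ev z z' x) := by
  funext j
  refine LinearMap.ext fun f => ?_
  rw [ev_app, bb_app, bb_app, ev_app, rs_mul, rs_mul, rs_mul, rs_rs, rs_rs, rs_li, rs_li,
    rs_at]
  have hc : sj (R ⊕ Fin 2) j ∘ gj R j = gj R (j + 1) ∘ sj R j := by
    funext s
    rcases s with a | b <;> rfl
  rw [hc]
  have e0 : sj (R ⊕ Fin 2) j (Sum.inl (Sum.inr 0)) = Sum.inl (Sum.inr 0) := rfl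
  have e1 : sj (R ⊕ Fin 2) j (Sum.inl (Sum.inr 1)) = Sum.inl (Sum.inr 1) := rfl
  have e2 : gj R (j + 1) (Sum.inr 0) = Sum.inr 0 := rfl
  rw [e0, e1, e2]
  congr 1
  ring

theorem ev_lin (z z' z'' : σ → ℂ) (a c : ℂ) :
    (ev z (a • z' + c • z'') : Fam (R ⊕ Fin 2) σ →ₗ[ℂ] Fam R σ) =
      a • ev z z' + c • ev z z'' := by
  refine LinearMap.ext fun x => ?_
  funext j
  refine LinearMap.ext fun f => ?_
  rw [ev_app, li_add, li_smul, li_smul]
  have : rs (gj R j) f * (li (Sum.inl (Sum.inr 0)) z * (a • li (Sum.inl (Sum.inr 1)) z' +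
      c • li (Sum.inl (Sum.inr 1)) z'')) =
      a • (rs (gj R j) f * (li (Sum.inl (Sum.inr 0)) z * li (Sum.inl (Sum.inr 1)) z')) +
      c • (rs (gj R j) f * (li (Sum.inl (Sum.inr 0)) z * li (Sum.inl (Sum.inr 1)) z'')) := by
    simp only [smul_eq_C_mul]
    ring
  rw [this, map_add, map_smul, map_smul]
  rfl

theorem bb_AL (β : MvPolynomial σ ℂ) {x : Fam (R ⊕ Fin 2) σ} (hx : x ∈ AL) : bb β x ∈ AL := by
  rw [mem_AL] at hx ⊢
  rw [W_bb, hx, map_neg]

/-- the alternating part -/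
theorem XX_AL {q c : ℕ} {r : R → ℕ} {z z' : σ → ℂ} {β : ℕ → MvPolynomial σ ℂ}
    (h : XX c (fun i => bb (β i)) (DD q (r2 r) σ ⊓ YD z z')) :
    XX c (fun i => bb (β i)) (DD q (r2 r) σ ⊓ YD z z' ⊓ AL) := by
  intro k hk x hx h0
  obtain ⟨⟨hx1, hx2⟩, hx3⟩ := hx
  obtain ⟨y, ⟨hy1, hy2⟩, hy3, hy4⟩ := h k hk x ⟨hx1, hx2⟩ h0
  replace hx3 : W x = - x := (mem_AL x).1 hx3
  refine ⟨(1 / 2 : ℂ) • (y - W y), ⟨⟨?_, ?_⟩, ?_⟩, ?_, fun i hi => ?_⟩
  · exact Submodule.smul_mem _ _ (Submodule.sub_mem _ hy1 (W_DD hy1))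
  · exact Submodule.smul_mem _ _ (Submodule.sub_mem _ hy2 (W_YD hy2))
  · refine (mem_AL _).2 ?_
    rw [map_smul, map_sub, W_W, ← smul_neg, neg_sub]
  · have e1 : bb (β k) y = x := hy3
    change bb (β k) ((1 / 2 : ℂ) • (y - W y)) = x
    rw [map_smul, map_sub, ← W_bb, e1, hx3, sub_neg_eq_add, ← two_smul ℂ x, smul_smul]
    norm_num
  · have e1 : bb (β i) y = 0 := hy4 i hi
    change bb (β i) ((1 / 2 : ℂ) • (y - W y)) = 0
    rw [map_smul, map_sub, ← W_bb, e1, map_zero, sub_zero, smul_zero]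

end F9

end Pool.Agent.H69.V2
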