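import Pool.Agent.H69.V2.F3
import Pool.Agent.H69.V2.F4
import Pool.Agent.H69.V2.F8a
import Pool.Agent.H69.V2.F8
import Pool.Agent.H69.V2.F9a
import Pool.Agent.H69.V2.F9
import Pool.Agent.H69.V2.F11
import Pool.Agent.H69.V2.F12
import Pool.Agent.H69.V2.F13

/-!
Row F15 of project V2: the induction on the number of variables, and the vanishing theorem.
-/

set_option linter.unusedSectionVars false

namespace Pool.Agent.H69.V2

open scoped BigOperators
open MvPolynomial

namespace F15X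

/-- two different coordinate vectors, the second replaced by a combination -/
theorem li_comb {N : ℕ} (i j k : Fin N) (hij : i ≠ j) (hik : i ≠ k) (hjk : j ≠ k) {a c : ℂ}
    (h : a ≠ 0 ∨ c ≠ 0) :
    LinearIndependent ℂ ![(Pi.single i 1 : Fin N → ℂ),
      a • (Pi.single j 1 : Fin N → ℂ) + c • (Pi.single k 1 : Fin N → ℂ)] := by
  rw [LinearIndependent.pair_iff]
  intro s t hst
  have hi := congrFun hst i
  have hj := congrFun hst j
  have hk := congrFun hst k
  simp only [Pi.add_apply, Pi.smul_apply, smul_eq_mul, Pi.single_eq_same, Pi.zero_apply,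
    Pi.single_eq_of_ne hij, Pi.single_eq_of_ne hik, Pi.single_eq_of_ne hij.symm,
    Pi.single_eq_of_ne hik.symm, Pi.single_eq_of_ne hjk, Pi.single_eq_of_ne hjk.symm,
    mul_one, mul_zero, add_zero, zero_add] at hi hj hk
  refine ⟨hi, ?_⟩
  rcases h with h | h
  · rcases mul_eq_zero.1 hj with h' | h'
    · exact h'
    · exact absurd h' h
  · rcases mul_eq_zero.1 hk with h' | h'
    · exact h'
    · exact absurd h' h

/-- the step of the induction -/
theorem step {q c N : ℕ} (hN : 2 ≤ N)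
    (IH : ∀ (R : Type) [Fintype R] [DecidableEq R] (r : R → ℕ)
      (β : ℕ → MvPolynomial (Fin N) ℂ), (∀ i, (β i).IsHomogeneous q) → Good c β →
      XX c (fun i => bb (β i)) (DD q r (Fin N)))
    (R : Type) [Fintype R] [DecidableEq R] (r : R → ℕ)
    (β : ℕ → MvPolynomial (Fin (N + 1)) ℂ) (hβ : ∀ i, (β i).IsHomogeneous q) (hg : Good c β) :
    XX c (fun i => bb (β i)) (DD q r (Fin (N + 1))) := by
  have hK : ∀ z : Fin (N + 1) → ℂ, z ≠ 0 →
      XX c (fun i => bb (β i)) (DD q (r2 r) (Fin (N + 1)) ⊓ KK z) := fun z hz =>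
    Kstep (fun β' hβ' hg' => IH (R ⊕ Fin 2) (r2 r) β' hβ' hg') hβ hg hz
  have hA : ∀ z z' : Fin (N + 1) → ℂ, LinearIndependent ℂ ![z, z'] →
      XX c (fun i => bb (β i)) (DD q (r2 r) (Fin (N + 1)) ⊓ YD z z' ⊓ AL) := fun z z' hz =>
    XX_AL (Ystep hβ hK hz)
  have h0 : (0 : Fin (N + 1)) ≠ ⟨1, by omega⟩ := by
    intro h; have := congrArg Fin.val h; simp at this
  have h0' : (0 : Fin (N + 1)) ≠ ⟨2, by omega⟩ := by
    intro h; have := congrArg Fin.val h; simp at this
  have h1' : (⟨1, by omega⟩ : Fin (N + 1)) ≠ ⟨2, by omega⟩ := by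
    intro h; have := congrArg Fin.val h; simp at this
  set z1 : Fin (N + 1) → ℂ := Pi.single 0 1 with hz1
  set z2 : Fin (N + 1) → ℂ := Pi.single ⟨1, by omega⟩ 1 with hz2
  set z3 : Fin (N + 1) → ℂ := Pi.single ⟨2, by omega⟩ 1 with hz3
  have hli : ∀ a d : ℂ, (a ≠ 0 ∨ d ≠ 0) → LinearIndependent ℂ ![z1, a • z2 + d • z3] :=
    fun a d h => li_comb 0 ⟨1, by omega⟩ ⟨2, by omega⟩ h0 h0' h1' h
  have hev : ∀ (a d : ℂ) (x : Fam (R ⊕ Fin 2) (Fin (N + 1))),
      a • ev z1 z2 x + d • ev z1 z3 x = ev z1 (a • z2 + d • z3) x := by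
    intro a d x
    rw [ev_lin]
    rfl
  have : FiniteDimensional ℂ (DD q (r2 r) (Fin (N + 1))) := DD_fin q (r2 r)
  have : FiniteDimensional ℂ (DD q r (Fin (N + 1))) := DD_fin q r
  have : FiniteDimensional ℂ
      (DD q (r2 r) (Fin (N + 1)) ⊓ AL : Submodule ℂ (Fam (R ⊕ Fin 2) (Fin (N + 1)))) :=
    Submodule.finiteDimensional_inf_left _ _
  refine (pencil (n := c) (b := fun i => bb (β i)) (b' := fun i => bb (β i))
    (D := DD q (r2 r) (Fin (N + 1)) ⊓ AL) (D' := DD q r (Fin (N + 1)))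
    (s1 := ev z1 z2) (s2 := ev z1 z3) ?_ ?_ ?_ ?_ ?_ ?_ ?_ ?_ ?_ ?_).2
  · intro i x hx
    exact ⟨bb_DD (hβ i) hx.1, bb_AL (β i) hx.2⟩
  · intro i x hx
    exact bb_DD (hβ i) hx
  · intro i j x hx
    exact bb_anti (β i) (β j) hx.1
  · intro i j x hx
    exact bb_anti (β i) (β j) hx
  · intro x hx
    exact ev_DD z1 z2 hx.1
  · intro x hx
    exact ev_DD z1 z3 hx.1
  · intro i x _
    exact ev_bb z1 z2 (β i) x
  · intro i x _
    exact ev_bb z1 z3 (β i) x
  · intro a d had y hy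
    obtain ⟨x, hx, hxy⟩ := GRonto (hli a d had) hy
    exact ⟨x, hx, by rw [hev, hxy]⟩
  · intro a d had k hk x hx hbx
    have hker : ∀ w : Fam (R ⊕ Fin 2) (Fin (N + 1)),
        w ∈ LinearMap.ker (a • ev z1 z2 + d • ev z1 z3) ↔ ev z1 (a • z2 + d • z3) w = 0 := by
      intro w
      rw [LinearMap.mem_ker, ← hev]
      rfl
    have hx' : x ∈ DD q (r2 r) (Fin (N + 1)) ⊓ YD z1 (a • z2 + d • z3) ⊓ AL :=
      ⟨⟨hx.1.1, (ev_ker hx.1.1 hx.1.2).1 ((hker x).1 hx.2)⟩, hx.1.2⟩
    obtain ⟨y, hy, hy1, hy2⟩ := hA _ _ (hli a d had) k hk x hx' hbx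
    exact ⟨y, ⟨⟨hy.1.1, hy.2⟩, (hker y).2 ((ev_ker hy.1.1 hy.2).2 hy.1.2)⟩, hy1, hy2⟩

/-- families killed by the first forms vanish in high degrees -/
theorem van {σ R : Type} [Fintype σ] [DecidableEq σ] [Fintype R] [DecidableEq R] {q c : ℕ}
    {r : R → ℕ} {β : ℕ → MvPolynomial σ ℂ}
    (hX : XX c (fun i => bb (β i)) (DD q r σ)) :
    ∀ m ≤ c, ∀ x ∈ DD q r σ, (∀ i < m, bb (β i) x = 0) → ∀ j, q + 2 ≤ j + m → x j = 0 := by
  intro m
  induction m with
  | zero =>
    intro _ x hx _ j hj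
    exact hx.2.2.2 j hj
  | succ m ih =>
    intro hm x hx hb j hj
    obtain ⟨y, hy, hyx, hyb⟩ := hX m hm x hx (fun i hi => hb i (Nat.lt_succ_of_le hi))
    have h := ih (Nat.le_of_succ_le hm) y hy hyb (j + 1) (by omega)
    have hxj : x j = (bb (β m) y) j := by rw [← hyx]
    rw [hxj]
    change (y (j + 1)).comp _ = 0
    rw [h, LinearMap.zero_comp]

end F15X

theorem XDD {q c : ℕ} : ∀ N : ℕ, 2 ≤ N → ∀ (R : Type) [Fintype R] [DecidableEq R] (r : R → ℕ)
    (β : ℕ → MvPolynomial (Fin N) ℂ), (∀ i, (β i).IsHomogeneous q) → Good c β →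
    XX c (fun i => bb (β i)) (DD q r (Fin N)) := by
  intro N hN
  induction N, hN using Nat.le_induction with
  | base =>
    intro R _ _ r β hβ hg
    exact base2 r hβ hg
  | succ N hN ih =>
    intro R _ _ r β hβ hg
    exact F15X.step hN ih R r β hβ hg

theorem FVmain {R : Type} [Fintype R] [DecidableEq R] {N q K c : ℕ} (hN : 2 ≤ N) {r : R → ℕ}
    {β : ℕ → MvPolynomial (Fin N) ℂ} (hβ : ∀ i, (β i).IsHomogeneous q) (hg : Good c β)
    (hK : q + 2 ≤ K + c) {Θ : Du (R ⊕ Fin K) (Fin N)} (h1 : Hg (dgq q r K) Θ) (h2 : R2 Θ)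
    (h3 : Alt Θ) (h4 : ∀ i < c, ∀ (s : Fin K) (f : Pl (R ⊕ Fin K) (Fin N)),
      Θ (f * at' (Sum.inr s) (β i)) = 0) : Θ = 0 := by
  have : Nonempty (Fin N) := ⟨⟨0, by omega⟩⟩
  by_cases hq : q + 2 ≤ K
  · exact alt2 hq h1 h2 h3
  · set x : Fam R (Fin N) := Function.update 0 K Θ with hx
    have hxK : x K = Θ := by rw [hx, Function.update_self]
    have hxj : ∀ j, j ≠ K → x j = 0 := by
      intro j hj
      rw [hx, Function.update_of_ne hj]
      rfl
    have hD : x ∈ DD q r (Fin N) := by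
      refine ⟨fun j => ?_, fun j => ?_, fun j => ?_, fun j hj => ?_⟩
      · by_cases hj : j = K
        · subst hj
          rw [hxK]
          exact h1
        · rw [hxj j hj]
          intro e _
          rfl
      · by_cases hj : j = K
        · subst hj
          rw [hxK]
          exact h2
        · rw [hxj j hj]
          intro s t u _ _ _ _ _ _ _
          rfl
      · by_cases hj : j = K
        · subst hj
          rw [hxK]
          exact h3
        · rw [hxj j hj]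
          intro a b _ f
          simp
      · exact hxj j (by rintro rfl; exact hq hj)
    have hb : ∀ i < c, bb (β i) x = 0 := by
      intro i hi
      funext j
      refine LinearMap.ext fun f => ?_
      change (x (j + 1)) (rs (Sum.map id Fin.succ) f * at' (Sum.inr 0) (β i)) = 0
      by_cases hj : j + 1 = K
      · subst hj
        rw [hxK]
        exact h4 i hi 0 _
      · rw [hxj _ hj]
        rfl
    have := F15X.van (XDD N hN R r β hβ hg) c le_rfl x hD hb K hK
    rw [hxK] at this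
    exact this

end Pool.Agent.H69.V2
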