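import Pool.Agent.H69.V2.F1
import Pool.Agent.H69.V2.F2
import Pool.Agent.H69.V2.F14
import Pool.Agent.H69.V2.F15

/-!
A few slots of a functional: interface between `FVmain` and functionals on many slots.
-/

set_option linter.unusedSectionVars false

namespace Pool.Agent.H69.V2

open scoped BigOperators
open MvPolynomial

variable {ι κ lam σ τ υ R : Type} [Fintype σ] [DecidableEq σ] [Fintype τ] [DecidableEq τ]
  [Fintype υ] [DecidableEq υ]

namespace F16aX

/-- the inclusion of coordinates as a substitution -/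
def gg (w : τ → σ) : τ → σ → ℂ := fun k => Pi.single (w k) 1

/-- the map on polynomials -/
noncomputable def J (h : κ → ι) (w : τ → σ) : Pl κ τ →ₐ[ℂ] Pl ι σ :=
  (sb (gg w)).comp (rs h)

theorem J_apply (h : κ → ι) (w : τ → σ) (f : Pl κ τ) : J h w f = sb (gg w) (rs h f) := rfl

theorem J_eq (h : κ → ι) (w : τ → σ) (f : Pl κ τ) :
    J h w f = rename (Prod.map h w) f := by
  have : J h w = rename (Prod.map h w) := by
    apply MvPolynomial.algHom_ext
    rintro ⟨s, k⟩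
    rw [J_apply]
    simp only [rs, sb, rename_X, Prod.map_apply, id, aeval_X, gg, li_single]
  rw [this]

theorem sf_gg (w : τ → σ) (β : MvPolynomial τ ℂ) : sf (gg w) β = rename w β := by
  have : sf (gg w) = rename w := by
    apply MvPolynomial.algHom_ext
    intro k
    simp only [sf, aeval_X, rename_X, gg]
    rw [Finset.sum_eq_single (w k)]
    · simp
    · intro l _ hl
      rw [Pi.single_eq_of_ne hl]
      simp
    · intro hh
      exact absurd (Finset.mem_univ _) hh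
  rw [this]

theorem J_d3 (h : κ → ι) (w : τ → σ) (s t r : κ) (u v x : τ → ℂ) :
    J h w (d3 s t r u v x) = d3 (h s) (h t) (h r) (gv (gg w) u) (gv (gg w) v) (gv (gg w) x) := by
  rw [J_apply, rs_d3, sb_d3]

theorem J_at (h : κ → ι) (w : τ → σ) (s : κ) (β : MvPolynomial τ ℂ) :
    J h w (at' s β) = at' (h s) (rename w β) := by
  rw [J_apply, rs_at, sb_at, sf_gg]

theorem J_swap [DecidableEq ι] [DecidableEq κ] {h : κ → ι} (hh : Function.Injective h)
    (w : τ → σ) (a b : κ) (f : Pl κ τ) :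
    J h w (rs (Equiv.swap a b) f) = rs (Equiv.swap (h a) (h b)) (J h w f) := by
  rw [J_apply, J_apply, rs_rs, ← sb_rs, rs_rs]
  have hf : h ∘ ⇑(Equiv.swap a b) = ⇑(Equiv.swap (h a) (h b)) ∘ h := by
    funext x
    exact (hh.swap_apply a b x).symm
  rw [hf]

/-- the degree function on the big set of slots -/
noncomputable def dd (h : κ → ι) (d : κ → ℕ) : ι → ℕ := fun t =>
  open Classical in if ht : ∃ s, h s = t then d ht.choose else 0

theorem dd_comp {h : κ → ι} (hh : Function.Injective h) (d : κ → ℕ) : dd h d ∘ h = d := by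
  funext s
  simp only [Function.comp_apply, dd]
  have ht : ∃ s', h s' = h s := ⟨s, rfl⟩
  rw [dif_pos ht, hh ht.choose_spec]

theorem dd_out {h : κ → ι} (d : κ → ℕ) {t : ι} (ht : t ∉ Set.range h) : dd h d t = 0 := by
  simp only [dd]
  rw [dif_neg]
  rintro ⟨s, hs⟩
  exact ht ⟨s, hs⟩

theorem Mh_J {h : κ → ι} (hh : Function.Injective h) (w : τ → σ) {d : κ → ℕ} {f : Pl κ τ}
    (hf : Mh d f) : Mh (dd h d) (J h w f) := by
  rw [J_apply]
  apply Mh_sb
  apply Mh_rs hh (fun t ht => dd_out d ht)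
  rw [dd_comp hh]
  exact hf

/-- the pushed exponent -/
noncomputable def pe (h : κ → ι) (w : τ → σ) (e : κ × τ →₀ ℕ) : ι → σ → ℕ := fun t k =>
  (e.mapDomain (Prod.map h w)) (t, k)

theorem J_monomial [Fintype ι] (h : κ → ι) (w : τ → σ) (e : κ × τ →₀ ℕ) :
    J h w (monomial e 1) = monomial (ex (pe h w e)) 1 := by
  rw [J_eq, rename_monomial]
  congr 1
  ext p
  simp [ex, pe]

theorem dl_pe [Fintype ι] {h : κ → ι} (hh : Function.Injective h) (w : τ → σ)
    {e : κ × τ →₀ ℕ} {d : κ → ℕ} (hd : ∀ s, ∑ k, e (s, k) = d s) (t : ι) :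
    ∑ k, pe h w e t k = dd h d t := by
  have h1 : Mh d (monomial e (1 : ℂ) : Pl κ τ) := by
    have := Mh_monomial (ι := κ) (σ := τ) e 1
    have h2 : (fun s => ∑ k, e (s, k)) = d := funext hd
    rw [h2] at this
    exact this
  have h2 := Mh_J hh w h1
  rw [J_monomial] at h2
  classical
  have h3 := h2 (ex (pe h w e)) (by rw [coeff_monomial, if_pos rfl]; exact one_ne_zero) t
  rw [← h3]
  apply Finset.sum_congr rfl
  intro k _
  simp [ex]

/-- the truncated functional -/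
noncomputable def T2 (h : κ → ι) (w : τ → σ) (dg : κ → ℕ) (Θ : Du ι σ) : Du κ τ :=
  (basisMonomials (κ × τ) ℂ).constr ℂ (fun e =>
    open Classical in if ∀ s, ∑ k, e (s, k) = dg s then Θ (J h w (monomial e 1)) else 0)

theorem T2_monomial (h : κ → ι) (w : τ → σ) (dg : κ → ℕ) (Θ : Du ι σ) (e : κ × τ →₀ ℕ) :
    T2 h w dg Θ (monomial e 1) =
      open Classical in if ∀ s, ∑ k, e (s, k) = dg s then Θ (J h w (monomial e 1)) else 0 := by
  have := (basisMonomials (κ × τ) ℂ).constr_basis ℂ (fun e =>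
    open Classical in if ∀ s, ∑ k, e (s, k) = dg s then Θ (J h w (monomial e 1)) else 0) e
  rw [coe_basisMonomials] at this
  exact this

theorem T2_Hg (h : κ → ι) (w : τ → σ) (dg : κ → ℕ) (Θ : Du ι σ) : Hg dg (T2 h w dg Θ) := by
  rintro e ⟨s, hs⟩
  rw [T2_monomial, if_neg]
  intro hh
  exact hs (hh s)

/-- on multihomogeneous polynomials of the right degree -/
theorem T2_Mh (h : κ → ι) (w : τ → σ) {dg : κ → ℕ} (Θ : Du ι σ) {f : Pl κ τ} (hf : Mh dg f) :
    T2 h w dg Θ f = Θ (J h w f) := by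
  rw [f.as_sum, map_sum, map_sum, map_sum]
  apply Finset.sum_congr rfl
  intro e he
  have h1 : (monomial e (coeff e f) : Pl κ τ) = coeff e f • monomial e 1 := by
    rw [smul_monomial, smul_eq_mul, mul_one]
  rw [h1, map_smul, map_smul, map_smul, T2_monomial, if_pos (hf e (mem_support_iff.1 he))]

theorem T2_zero (h : κ → ι) (w : τ → σ) {dg d : κ → ℕ} (Θ : Du ι σ) {f : Pl κ τ} (hf : Mh d f)
    (hz : d = dg → Θ (J h w f) = 0) : T2 h w dg Θ f = 0 := by
  by_cases hd : d = dg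
  · subst hd
    rw [T2_Mh h w Θ hf]
    exact hz rfl
  · apply Hg_ap (T2_Hg h w dg Θ) hf
    by_contra hc
    push Not at hc
    exact hd (funext hc)

theorem T2_R2 [DecidableEq κ] {h : κ → ι} (w : τ → σ) {dg : κ → ℕ} {Θ : Du ι σ}
    (hΘ : ∀ s t r : κ, s ≠ t → s ≠ r → t ≠ r → ∀ (u v x : σ → ℂ) (f : Pl ι σ),
      Θ (f * d3 (h s) (h t) (h r) u v x) = 0) : R2 (T2 h w dg Θ) := by
  apply R2_of
  intro s t r hst hsr htr a b c e
  have h1 : Mh (Pi.single s 1 + (Pi.single t 1 + Pi.single r 1))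
      (d3 s t r (Pi.single a 1) (Pi.single b 1) (Pi.single c 1) : Pl κ τ) := by
    have hm : ∀ (x y : τ → ℂ), Mh (Pi.single t 1 + Pi.single r 1) (d2 t r x y : Pl κ τ) := by
      intro x y
      have h3 := Mh_add (Mh_mul (Mh_li t x) (Mh_li r y))
        (Mh_smul (Mh_mul (Mh_li t y) (Mh_li r x)) (-1))
      rw [d2, sub_eq_add_neg, ← neg_one_smul ℂ (li t y * li r x)]
      exact h3
    have h4 : ∀ (x y z : τ → ℂ), Mh (Pi.single s 1 + (Pi.single t 1 + Pi.single r 1))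
        (li s x * d2 t r y z : Pl κ τ) := fun x y z => Mh_mul (Mh_li s x) (hm y z)
    rw [d3]
    have h5 := Mh_add (Mh_add (h4 (Pi.single a 1) (Pi.single b 1) (Pi.single c 1))
      (Mh_smul (h4 (Pi.single b 1) (Pi.single a 1) (Pi.single c 1)) (-1)))
      (h4 (Pi.single c 1) (Pi.single a 1) (Pi.single b 1))
    rw [neg_one_smul, ← sub_eq_add_neg] at h5
    exact h5
  apply T2_zero h w Θ (Mh_mul (Mh_monomial e 1) h1)
  intro _
  rw [map_mul, J_d3]
  exact hΘ s t r hst hsr htr _ _ _ _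

theorem T2_Alt [DecidableEq ι] [DecidableEq κ] {h : κ → ι} (hh : Function.Injective h)
    (w : τ → σ) {dg : κ → ℕ} {Θ : Du ι σ} {a b : κ} (hab : dg a = dg b)
    (hΘ : ∀ f, Θ (rs (Equiv.swap (h a) (h b)) f) = - Θ f) (f : Pl κ τ) :
    T2 h w dg Θ (rs (Equiv.swap a b) f) = - T2 h w dg Θ f := by
  have hdg : dg ∘ ⇑(Equiv.swap a b) = dg := by
    funext x
    simp only [Function.comp_apply]
    rcases eq_or_ne x a with rfl | hxa
    · rw [Equiv.swap_apply_left, hab]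
    · rcases eq_or_ne x b with rfl | hxb
      · rw [Equiv.swap_apply_right, hab]
      · rw [Equiv.swap_apply_of_ne_of_ne hxa hxb]
  have key : ∀ e : κ × τ →₀ ℕ, T2 h w dg Θ (rs (Equiv.swap a b) (monomial e 1)) =
      - T2 h w dg Θ (monomial e 1) := by
    intro e
    have h1 : Mh (fun s => ∑ k, e (s, k)) (monomial e (1 : ℂ) : Pl κ τ) := Mh_monomial e 1
    have hsw : ∀ x, Equiv.swap a b (Equiv.swap a b x) = x := fun x => Equiv.swap_apply_self a b x
    have h2 : Mh ((fun s => ∑ k, e (s, k)) ∘ ⇑(Equiv.swap a b))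
        (rs (Equiv.swap a b) (monomial e (1 : ℂ)) : Pl κ τ) := by
      apply Mh_rs (Equiv.swap a b).injective
      · intro t ht
        exact absurd ⟨Equiv.swap a b t, hsw t⟩ ht
      · have : ((fun s => ∑ k, e (s, k)) ∘ ⇑(Equiv.swap a b)) ∘ ⇑(Equiv.swap a b) =
            fun s => ∑ k, e (s, k) := by
          funext x
          simp only [Function.comp_apply, hsw]
        rw [this]
        exact h1
    by_cases hd : (fun s => ∑ k, e (s, k)) = dg
    · rw [hd, hdg] at h2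
      rw [hd] at h1
      rw [T2_Mh h w Θ h2, T2_Mh h w Θ h1, J_swap hh, hΘ]
    · have hd' : (fun s => ∑ k, e (s, k)) ∘ ⇑(Equiv.swap a b) ≠ dg := by
        intro hc
        apply hd
        funext x
        have := congrFun hc (Equiv.swap a b x)
        simp only [Function.comp_apply, hsw] at this
        rw [this]
        exact congrFun hdg x
      rw [T2_zero h w Θ h2 (fun hc => absurd hc hd'), T2_zero h w Θ h1 (fun hc => absurd hc hd),
        neg_zero]
  rw [f.as_sum, map_sum, map_sum, map_sum, ← Finset.sum_neg_distrib]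
  apply Finset.sum_congr rfl
  intro e _
  have h1 : (monomial e (coeff e f) : Pl κ τ) = coeff e f • monomial e 1 := by
    rw [smul_monomial, smul_eq_mul, mul_one]
  rw [h1, map_smul, map_smul, map_smul, key, smul_neg]

theorem T2_kill [DecidableEq κ] {h : κ → ι} (w : τ → σ) {dg : κ → ℕ} {Θ : Du ι σ} {q : ℕ}
    {s : κ} {β : MvPolynomial τ ℂ} (hβ : β.IsHomogeneous q) (hs : dg s = q)
    (hΘ : ∀ e : κ × τ →₀ ℕ, (∀ t, ∑ k, e (t, k) = if t = s then 0 else dg t) →
      Θ (J h w (monomial e 1) * at' (h s) (rename w β)) = 0) (f : Pl κ τ) :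
    T2 h w dg Θ (f * at' s β) = 0 := by
  rw [f.as_sum, Finset.sum_mul, map_sum]
  apply Finset.sum_eq_zero
  intro e _
  have h1 : (monomial e (coeff e f) : Pl κ τ) = coeff e f • monomial e 1 := by
    rw [smul_monomial, smul_eq_mul, mul_one]
  rw [h1, smul_mul_assoc, map_smul]
  have h2 : T2 h w dg Θ (monomial e 1 * at' s β) = 0 := by
    apply T2_zero h w Θ (Mh_mul (Mh_monomial e 1) (Mh_at s hβ))
    intro hd
    rw [map_mul, J_at]
    apply hΘ
    intro t
    have h3 := congrFun hd t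
    simp only [Pi.add_apply] at h3
    split_ifs with hts
    · subst hts
      rw [Pi.single_eq_same, hs] at h3
      omega
    · rw [Pi.single_eq_of_ne hts] at h3
      omega
  rw [h2, smul_zero]

theorem dd_h {h : κ → ι} (hh : Function.Injective h) (d : κ → ℕ) (s : κ) :
    dd h d (h s) = d s := congrFun (dd_comp hh d) s

/-- the statement for fixed enumerations of the slots and of the coordinates -/
theorem core [Fintype ι] [DecidableEq ι] {q c N K : ℕ} [Fintype R] [DecidableEq R]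
    {A L : Finset ι} {T : Finset σ} (hN : 2 ≤ N) (hc : q + 2 ≤ K + c)
    {β' : ℕ → MvPolynomial (Fin N) ℂ} (hβ' : ∀ i, (β' i).IsHomogeneous q) (hg : Good c β')
    {w : Fin N → σ} (hw : Function.Injective w)
    (hwS : ∀ x ∈ T, ∃ k, w k = x)
    (hwsum : ∀ F : σ → ℕ, (∀ x ∉ T, F x = 0) → ∑ k, F (w k) = ∑ x, F x)
    {h : R ⊕ Fin K → ι} (hh : Function.Injective h) (hhL : ∀ j, h (Sum.inr j) ∈ L)
    (hhA : ∀ a, h (Sum.inl a) ∈ A) (hLs : ∀ x ∈ L, ∃ j, h (Sum.inr j) = x)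
    (hAs : ∀ x ∈ A, ∃ a, h (Sum.inl a) = x) {Θ : Du ι σ}
    (hR : ∀ s ∈ A ∪ L, ∀ t ∈ A ∪ L, ∀ r ∈ A ∪ L, s ≠ t → s ≠ r → t ≠ r →
      ∀ (u v w : σ → ℂ) (f : Pl ι σ), Θ (f * d3 s t r u v w) = 0)
    (hA : ∀ a ∈ L, ∀ b ∈ L, a ≠ b → ∀ f, Θ (rs (Equiv.swap a b) f) = - Θ f)
    (hK : ∀ i < c, ∀ s ∈ L, ∀ e : ι → σ → ℕ, e s = 0 → (∀ t ∈ A, VT.dl (e t) = 1) →
      (∀ t ∈ L, t ≠ s → VT.dl (e t) = q) → (∀ t ∉ A ∪ L, e t = 0) →
      Θ (monomial (ex e) 1 * at' s (rename w (β' i))) = 0)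
    {e : ι → σ → ℕ} (heA : ∀ t ∈ A, VT.dl (e t) = 1) (heL : ∀ t ∈ L, VT.dl (e t) = q)
    (heO : ∀ t ∉ A ∪ L, e t = 0) (heT : ∀ t ∈ A ∪ L, ∀ k ∉ T, e t k = 0) :
    Θ (monomial (ex e) 1) = 0 := by
  have hhU : ∀ x, h x ∈ A ∪ L := by
    rintro (a | j)
    · exact Finset.mem_union_left _ (hhA a)
    · exact Finset.mem_union_right _ (hhL j)
  have hUs : ∀ x ∈ A ∪ L, ∃ y, h y = x := by
    intro x hx
    rcases Finset.mem_union.1 hx with hx | hx
    · obtain ⟨a, ha⟩ := hAs x hx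
      exact ⟨_, ha⟩
    · obtain ⟨a, ha⟩ := hLs x hx
      exact ⟨_, ha⟩
  have g2 : R2 (T2 h w (dgq q (fun _ => 1) K) Θ) :=
    T2_R2 w (fun s t r hst hsr htr u v x f =>
      hR _ (hhU s) _ (hhU t) _ (hhU r) (hh.ne hst) (hh.ne hsr) (hh.ne htr) u v x f)
  have g3 : Alt (T2 h w (dgq q (fun _ => 1) K) Θ) := by
    intro a b hab f
    exact T2_Alt hh w (dg := dgq q (fun _ => 1) K) (a := Sum.inr a) (b := Sum.inr b) rfl
      (hA _ (hhL a) _ (hhL b) (hh.ne (fun hc => hab (Sum.inr_injective hc)))) f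
  have g4 : ∀ i < c, ∀ (s : Fin K) (f : Pl (R ⊕ Fin K) (Fin N)),
      T2 h w (dgq q (fun _ => 1) K) Θ (f * at' (Sum.inr s) (β' i)) = 0 := by
    intro i hi s f
    apply T2_kill w (dg := dgq q (fun _ => 1) K) (s := Sum.inr s) (hβ' i) rfl
    intro e' he'
    rw [J_monomial]
    have hdl : ∀ t, VT.dl (pe h w e' t) = dd h
        (fun t => if t = Sum.inr s then 0 else dgq q (fun _ => 1) K t) t :=
      fun t => dl_pe hh w he' t
    have hz : ∀ t, VT.dl (pe h w e' t) = 0 → pe h w e' t = 0 := by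
      intro t ht
      funext k
      exact Finset.sum_eq_zero_iff.1 ht k (Finset.mem_univ _)
    apply hK i hi _ (hhL s)
    · apply hz
      rw [hdl, dd_h hh, if_pos rfl]
    · intro t ht
      obtain ⟨a, rfl⟩ := hAs t ht
      rw [hdl, dd_h hh, if_neg Sum.inl_ne_inr]
      rfl
    · intro t ht hts
      obtain ⟨j, rfl⟩ := hLs t ht
      rw [hdl, dd_h hh, if_neg (fun hc => hts (congrArg h hc))]
      rfl
    · intro t ht
      apply hz
      rw [hdl, dd_out]
      rintro ⟨y, rfl⟩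
      exact ht (hhU y)
  have hzero : T2 h w (dgq q (fun _ => 1) K) Θ = 0 :=
    FVmain hN hβ' hg hc (T2_Hg h w _ Θ) g2 g3 g4
  let e0 : (R ⊕ Fin K) × Fin N →₀ ℕ :=
    Finsupp.equivFunOnFinite.symm (fun p => e (h p.1) (w p.2))
  have he0 : ∀ y k, e0 (y, k) = e (h y) (w k) := fun y k => rfl
  have hmd' : ∀ t k, e0.mapDomain (Prod.map h w) (t, k) = ex e (t, k) := by
    intro t k
    by_cases hk : ∃ p, Prod.map h w p = (t, k)
    · obtain ⟨⟨x, y⟩, hp⟩ := hk
      rw [← hp, Finsupp.mapDomain_apply (hh.prodMap hw)]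
      rfl
    · rw [Finsupp.mapDomain_of_notMem_range _ _ hk]
      have h3 : e t k = 0 := by
        by_cases ht : t ∈ A ∪ L
        · apply heT t ht
          intro hkT
          obtain ⟨y, rfl⟩ := hUs t ht
          obtain ⟨z, rfl⟩ := hwS k hkT
          exact hk ⟨(y, z), rfl⟩
        · rw [heO t ht]
          rfl
      exact h3.symm
  have h2 : J h w (monomial e0 1) = monomial (ex e) 1 := by
    have hmd : e0.mapDomain (Prod.map h w) = ex e := by
      ext p
      obtain ⟨t, k⟩ := p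
      exact hmd' t k
    rw [J_eq, rename_monomial, hmd]
  have hsum : ∀ y, ∑ k : Fin N, e0 (y, k) = VT.dl (e (h y)) := by
    intro y
    simp only [he0]
    exact hwsum (e (h y)) (fun x hx => heT _ (hhU y) x hx)
  have h5 : Mh (dgq q (fun _ => 1) K) (monomial e0 (1 : ℂ) : Pl (R ⊕ Fin K) (Fin N)) := by
    have h6 := Mh_monomial (ι := R ⊕ Fin K) (σ := Fin N) e0 1
    have h7 : (fun s => ∑ k, e0 (s, k)) = dgq q (fun _ => 1) K := by
      funext y
      rw [hsum y]
      rcases y with a | j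
      · exact heA _ (hhA a)
      · exact heL _ (hhL j)
    rw [h7] at h6
    exact h6
  rw [← h2, ← T2_Mh h w Θ h5, hzero]
  rfl

end F16aX

section F16
open VT

theorem FVn [Fintype ι] [DecidableEq ι] {q c : ℕ} {A L : Finset ι} (hAL : Disjoint A L)
    {T : Finset σ} (hT2 : 2 ≤ T.card) (hT : 2 * (T.card - 2) < L.card) (hc : q + 2 ≤ L.card + c) :
    ∃ β : ℕ → MvPolynomial σ ℂ, (∀ i, (β i).IsHomogeneous q) ∧
      (∀ i e, coeff e (β i) ≠ 0 → ∀ k ∉ T, e k = 0) ∧
      ∀ Θ : Du ι σ,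
        (∀ s ∈ A ∪ L, ∀ t ∈ A ∪ L, ∀ r ∈ A ∪ L, s ≠ t → s ≠ r → t ≠ r →
          ∀ (u v w : σ → ℂ) (f : Pl ι σ), Θ (f * d3 s t r u v w) = 0) →
        (∀ a ∈ L, ∀ b ∈ L, a ≠ b → ∀ f, Θ (rs (Equiv.swap a b) f) = - Θ f) →
        (∀ i < c, ∀ s ∈ L, ∀ e : ι → σ → ℕ, e s = 0 → (∀ t ∈ A, dl (e t) = 1) →
          (∀ t ∈ L, t ≠ s → dl (e t) = q) → (∀ t ∉ A ∪ L, e t = 0) →
          Θ (monomial (ex e) 1 * at' s (β i)) = 0) →
        ∀ e : ι → σ → ℕ, (∀ t ∈ A, dl (e t) = 1) → (∀ t ∈ L, dl (e t) = q) →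
          (∀ t ∉ A ∪ L, e t = 0) → (∀ t ∈ A ∪ L, ∀ k ∉ T, e t k = 0) →
          Θ (monomial (ex e) 1) = 0 := by
  obtain ⟨β', hβ', hg⟩ : ∃ β : ℕ → MvPolynomial (Fin T.card) ℂ,
      (∀ i, (β i).IsHomogeneous q) ∧ Good (q + 2 - L.card) β := by
    by_cases hq : q + 2 ≤ L.card
    · refine ⟨fun _ => 0, fun _ => isHomogeneous_zero _ _ _, ?_⟩
      intro g _
      have h0 : q + 2 - L.card = 0 := by omega
      rw [h0]
      exact linearIndependent_empty_type
    · exact exists_good hT2 (by omega)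
  obtain ⟨w, hw, hwT, hwS, hwsum⟩ : ∃ w : Fin T.card → σ, Function.Injective w ∧
      (∀ k, w k ∈ T) ∧ (∀ x ∈ T, ∃ k, w k = x) ∧
      ∀ F : σ → ℕ, (∀ x ∉ T, F x = 0) → ∑ k, F (w k) = ∑ x, F x := by
    refine ⟨fun k => (T.equivFin.symm k : σ),
      Subtype.val_injective.comp T.equivFin.symm.injective, fun k => (T.equivFin.symm k).2,
      fun x hx => ⟨T.equivFin ⟨x, hx⟩, by simp⟩, ?_⟩
    intro F hF
    have h3 : ∑ k : Fin T.card, F (T.equivFin.symm k : σ) = ∑ x ∈ T, F x := by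
      rw [← Finset.sum_coe_sort T]
      exact Equiv.sum_comp T.equivFin.symm (fun x : {x // x ∈ T} => F (x : σ))
    rw [h3]
    exact Finset.sum_subset (Finset.subset_univ _) (fun x _ hx => hF x hx)
  obtain ⟨h, hh, hhL, hhA, hLs, hAs⟩ : ∃ h : {x // x ∈ A} ⊕ Fin L.card → ι,
      Function.Injective h ∧ (∀ j, h (Sum.inr j) ∈ L) ∧ (∀ a, h (Sum.inl a) ∈ A) ∧
      (∀ x ∈ L, ∃ j, h (Sum.inr j) = x) ∧ (∀ x ∈ A, ∃ a, h (Sum.inl a) = x) := by
    refine ⟨Sum.elim (fun a => (a : ι)) (fun j => (L.equivFin.symm j : ι)), ?_,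
      fun j => (L.equivFin.symm j).2, fun a => a.2,
      fun x hx => ⟨L.equivFin ⟨x, hx⟩, by simp⟩, fun x hx => ⟨⟨x, hx⟩, rfl⟩⟩
    rintro (a | j) (a' | j') he
    · exact congrArg Sum.inl (Subtype.val_injective he)
    · exact absurd he (hAL.forall_ne_finset a.2 (L.equivFin.symm j').2)
    · exact absurd he.symm (hAL.forall_ne_finset a'.2 (L.equivFin.symm j).2)
    · exact congrArg Sum.inr (L.equivFin.symm.injective (Subtype.val_injective he))
  refine ⟨fun i => rename w (β' i), fun i => (hβ' i).rename_isHomogeneous, ?_, ?_⟩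
  · intro i e he k hk
    obtain ⟨e', rfl, _⟩ := coeff_rename_ne_zero _ _ _ he
    rw [Finsupp.mapDomain_of_notMem_range]
    rintro ⟨k', hk'⟩
    exact hk (hk' ▸ hwT k')
  · intro Θ hR hA hK e heA heL heO heT
    exact F16aX.core hT2 (by omega) hβ' hg hw hwS hwsum hh hhL hhA hLs hAs hR hA
      (fun i hi => hK i (by omega)) heA heL heO heT

end F16

end Pool.Agent.H69.V2
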