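import Pool.Agent.H69.V2.F5
import Pool.Agent.H69.V2.F16a
import Pool.Agent.H69.VT.X7

/-!
The interface to the class (project V2, row F16): the slots of the groups are replaced one after
the other by the good forms.
-/

set_option linter.unusedSectionVars false

namespace Pool.Agent.H69.V2

open scoped BigOperators

open MvPolynomial

open VT

variable {ι κ σ : Type} [Fintype σ] [DecidableEq σ]

namespace F16X

section ExLemmas

variable [Fintype ι] [DecidableEq ι]

theorem ex_apply (e : ι → σ → ℕ) (p : ι × σ) : ex e p = e p.1 p.2 := rfl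

theorem ex_add (e e' : ι → σ → ℕ) : ex (e + e') = ex e + ex e' := by
  ext p
  rfl

theorem mon_mul (e e' : ι → σ → ℕ) :
    (monomial (ex e) (1 : ℂ) * monomial (ex e') 1 : Pl ι σ) = monomial (ex (e + e')) 1 := by
  rw [monomial_mul, ex_add, one_mul]

theorem rs_ex (a b : ι) (e : ι → σ → ℕ) :
    rs (Equiv.swap a b) (monomial (ex e) (1 : ℂ) : Pl ι σ) =
      monomial (ex (e ∘ Equiv.swap a b)) 1 := by
  unfold rs
  rw [rename_monomial]
  refine congrArg (fun d => (monomial d (1 : ℂ) : Pl ι σ)) ?_
  have h1 : (Prod.map (⇑(Equiv.swap a b)) id : ι × σ → ι × σ) =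
      ⇑(Equiv.prodCongr (Equiv.swap a b) (Equiv.refl σ)) := rfl
  rw [h1]
  ext p
  rw [Finsupp.mapDomain_equiv_apply, ex_apply, ex_apply]
  simp

end ExLemmas

theorem rs_at1 (h : ι → κ) (s : ι) (β : MvPolynomial σ ℂ) : rs h (at' s β) = at' (h s) β := by
  unfold rs at'
  rw [rename_rename]
  rfl

/-- the projection to the variables in `T` -/
noncomputable def Pr (T : Finset σ) : Pl ι σ →ₐ[ℂ] Pl ι σ :=
  aeval (fun p => if p.2 ∈ T then X p else 0)

theorem Pr_li (T : Finset σ) (s : ι) (u : σ → ℂ) :
    Pr T (li s u) = li s (fun k => if k ∈ T then u k else 0) := by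
  unfold Pr li
  rw [map_sum]
  refine Finset.sum_congr rfl fun k _ => ?_
  rw [map_mul, aeval_X, algHom_C]
  by_cases hk : k ∈ T
  · simp [hk]
  · simp [hk]

theorem Pr_d3 (T : Finset σ) (s t r : ι) (u v w : σ → ℂ) :
    Pr T (d3 s t r u v w) = d3 s t r (fun k => if k ∈ T then u k else 0)
      (fun k => if k ∈ T then v k else 0) (fun k => if k ∈ T then w k else 0) := by
  unfold d3 d2
  simp only [map_add, map_sub, map_mul, Pr_li]

theorem Pr_rs (T : Finset σ) (h : ι → ι) (f : Pl ι σ) : Pr T (rs h f) = rs h (Pr T f) := by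
  have : (Pr T).comp (rs h) = (rs h).comp (Pr T : Pl ι σ →ₐ[ℂ] Pl ι σ) := by
    apply MvPolynomial.algHom_ext
    intro p
    unfold Pr rs
    simp only [AlgHom.comp_apply, rename_X, aeval_X, Prod.map_snd, id_eq]
    by_cases hk : p.2 ∈ T
    · simp [hk]
    · simp [hk]
  exact DFunLike.congr_fun this f

section PrEx

variable [Fintype ι] [DecidableEq ι]

theorem Pr_mon_in (T : Finset σ) (e : ι → σ → ℕ) (he : ∀ s, ∀ k ∉ T, e s k = 0) :
    Pr T (monomial (ex e) (1 : ℂ) : Pl ι σ) = monomial (ex e) 1 := by
  unfold Pr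
  rw [aeval_monomial, map_one, one_mul, monomial_eq, C_1, one_mul]
  refine Finsupp.prod_congr fun p hp => ?_
  have hp' : p.2 ∈ T := by
    by_contra hcon
    exact (Finsupp.mem_support_iff.1 hp) (he p.1 p.2 hcon)
  rw [if_pos hp']

theorem Pr_mon_out (T : Finset σ) (e : ι → σ → ℕ) {s : ι} {k : σ} (hk : k ∉ T)
    (he : e s k ≠ 0) : Pr T (monomial (ex e) (1 : ℂ) : Pl ι σ) = 0 := by
  unfold Pr
  rw [aeval_monomial, map_one, one_mul, Finsupp.prod]
  refine Finset.prod_eq_zero (i := (s, k)) (Finsupp.mem_support_iff.2 he) ?_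
  rw [if_neg hk]
  exact zero_pow he

end PrEx

theorem Pr_at (T : Finset σ) (s : ι) (β : MvPolynomial σ ℂ)
    (h : ∀ e, coeff e β ≠ 0 → ∀ k ∉ T, e k = 0) :
    Pr T (at' s β : Pl ι σ) = at' s β := by
  have h1 : ((Pr T : Pl ι σ →ₐ[ℂ] Pl ι σ).comp (at' s)).toRingHom β =
      ((at' s : MvPolynomial σ ℂ →ₐ[ℂ] Pl ι σ)).toRingHom β := by
    refine hom_congr_vars ?_ ?_ rfl
    · ext z
      · simp
    · intro k hk _
      have hkT : k ∈ T := by
        by_contra hcon
        obtain ⟨d, hd, hkd⟩ := (mem_vars_iff_mem_support k).1 hk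
        exact (Finsupp.mem_support_iff.1 hkd) (h d (mem_support_iff.1 hd) k hcon)
      unfold Pr at'
      simp [hkT]
  exact h1

/-- product of the forms over the replaced slots -/
noncomputable def Mp (b : ι → MvPolynomial σ ℂ) (Z : Finset ι) : Pl ι σ := ∏ s ∈ Z, at' s (b s)

theorem Mp_off [DecidableEq ι] (b : ι → MvPolynomial σ ℂ) {Z : Finset ι} {x y : ι}
    (hx : x ∉ Z) (hy : y ∉ Z) : rs (Equiv.swap x y) (Mp b Z) = Mp b Z := by
  unfold Mp
  rw [map_prod]
  refine Finset.prod_congr rfl fun s hs => ?_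
  have h1 : s ≠ x := by
    rintro rfl
    exact hx hs
  have h2 : s ≠ y := by
    rintro rfl
    exact hy hs
  rw [rs_at1, Equiv.swap_apply_of_ne_of_ne h1 h2]

theorem Mp_erase [DecidableEq ι] (b : ι → MvPolynomial σ ℂ) {Z : Finset ι} {x : ι}
    (hx : x ∈ Z) : Mp b Z = at' x (b x) * Mp b (Z.erase x) := by
  unfold Mp
  rw [Finset.mul_prod_erase Z (fun s => at' s (b s)) hx]

theorem Mp_insert [DecidableEq ι] (b : ι → MvPolynomial σ ℂ) {Z : Finset ι} {x : ι}
    (hx : x ∉ Z) : Mp b (insert x Z) = at' x (b x) * Mp b Z := by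
  unfold Mp
  rw [Finset.prod_insert hx]

section Main

variable [Fintype ι] [DecidableEq ι]

theorem comp_swap_off {e : ι → σ → ℕ} {x y : ι} (hx : e x = 0) (hy : e y = 0) :
    e ∘ Equiv.swap x y = e := by
  funext t
  rw [Function.comp_apply]
  by_cases h1 : t = x
  · rw [h1, Equiv.swap_apply_left, hx, hy]
  · by_cases h2 : t = y
    · rw [h2, Equiv.swap_apply_right, hx, hy]
    · rw [Equiv.swap_apply_of_ne_of_ne h1 h2]

theorem claim {q : ℕ} {ρ : ι → Rl} {C : Finset ℕ} {Φ : SF σ ι} (h : Cls q ρ C Φ)
    {T : Finset σ} {c : ℕ} {β : ℕ → MvPolynomial σ ℂ}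
    (hβT : ∀ i e, coeff e (β i) ≠ 0 → ∀ k ∉ T, e k = 0)
    {A L G : Finset ι} (hA : ∀ s, s ∈ A ↔ ρ s = Rl.F ∨ ρ s = Rl.G)
    (hL : ∀ s, s ∈ L ↔ ρ s = Rl.L) (hG : ∀ s, s ∈ G ↔ ∃ i ∈ C, ρ s = Rl.gr i)
    (hFV : ∀ Θ : Du ι σ,
        (∀ s ∈ A ∪ L, ∀ t ∈ A ∪ L, ∀ r ∈ A ∪ L, s ≠ t → s ≠ r → t ≠ r →
          ∀ (u v w : σ → ℂ) (f : Pl ι σ), Θ (f * d3 s t r u v w) = 0) →
        (∀ a ∈ L, ∀ b ∈ L, a ≠ b → ∀ f, Θ (rs (Equiv.swap a b) f) = - Θ f) →
        (∀ i < c, ∀ s ∈ L, ∀ e : ι → σ → ℕ, e s = 0 → (∀ t ∈ A, dl (e t) = 1) →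
          (∀ t ∈ L, t ≠ s → dl (e t) = q) → (∀ t ∉ A ∪ L, e t = 0) →
          Θ (monomial (ex e) 1 * at' s (β i)) = 0) →
        ∀ e : ι → σ → ℕ, (∀ t ∈ A, dl (e t) = 1) → (∀ t ∈ L, dl (e t) = q) →
          (∀ t ∉ A ∪ L, e t = 0) → (∀ t ∈ A ∪ L, ∀ k ∉ T, e t k = 0) →
          Θ (monomial (ex e) 1) = 0)
    (b : ι → MvPolynomial σ ℂ) (j : ℕ → ℕ) (hj : ∀ n < c, ∃ i ∈ C, j i = n)
    (hb : ∀ i ∈ C, ∀ s, ρ s = Rl.gr i → b s = β (j i)) :
    ∀ m : ℕ, ∀ Z ⊆ G, (G \ Z).card = m → ∀ e : ι → σ → ℕ,
      (∀ s ∈ A ∪ L ∪ G, ∀ k ∉ T, e s k = 0) → (∀ t ∈ A, dl (e t) = 1) →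
      (∀ t ∈ L ∪ G, dl (e t) = q) →
      toDu Φ (Mp b Z * monomial (ex (fun s => if s ∈ Z then 0 else e s)) 1) = 0 := by
  have hAL : ∀ s, s ∈ A → s ∉ L := by
    intro s h1 h2
    rw [hA] at h1
    rw [hL] at h2
    rw [h2] at h1
    rcases h1 with h1 | h1 <;> exact absurd h1 (by decide)
  have hGAL : ∀ s, s ∈ G → s ∉ A ∪ L := by
    intro s h1 h2
    obtain ⟨i, _, hi⟩ := (hG s).1 h1
    rw [Finset.mem_union, hA, hL, hi] at h2
    rcases h2 with (h2 | h2) | h2 <;> exact absurd h2 (fun h => Rl.noConfusion h)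
  have hisB : ∀ s, s ∈ A ∪ L → isB (ρ s) := by
    intro s hs
    rw [Finset.mem_union, hA, hL] at hs
    unfold isB
    tauto
  intro m
  induction m using Nat.strong_induction_on with
  | _ m ih =>
  intro Z hZ hm e heT heA heq
  have hZAL : ∀ s, s ∈ Z → s ∉ A ∪ L := fun s hs => hGAL s (hZ hs)
  set ein : ι → σ → ℕ := fun s => if s ∈ A ∪ L ∨ s ∈ Z then 0 else e s with hein
  set M : Pl ι σ := Mp b Z * monomial (ex ein) 1 with hM
  set Θ : Du ι σ := (toDu Φ).comp ((LinearMap.mulRight ℂ M).comp (Pr T).toLinearMap) with hΘdef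
  have hΘ : ∀ f, Θ f = toDu Φ (Pr T f * M) := fun f => rfl
  have hkey : Θ (monomial (ex (fun s => if s ∈ A ∪ L then e s else 0)) 1) = 0 := by
    refine hFV Θ ?_ ?_ ?_ _ ?_ ?_ ?_ ?_
    · -- three slots
      intro s hs t ht r hr hst hsr htr u v w f
      rw [hΘ, map_mul (Pr T), Pr_d3, mul_right_comm]
      exact toDu_A3 (fun a b c e => h.tri s t r hst hsr htr (hisB s hs) (hisB t ht) (hisB r hr)
        a b c e) _ _ _ _
    · -- alternating
      intro x hx y hy hxy f
      rw [hΘ, hΘ, Pr_rs]
      have hxZ : x ∉ Z := fun h' => hZAL x h' (Finset.mem_union_right _ hx)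
      have hyZ : y ∉ Z := fun h' => hZAL y h' (Finset.mem_union_right _ hy)
      have hMsw : rs (Equiv.swap x y) M = M := by
        rw [hM, map_mul, Mp_off b hxZ hyZ, rs_ex, comp_swap_off]
        · rw [hein]
          simp [hx]
        · rw [hein]
          simp [hy]
      have h1 := toDu_swap (Φ := Φ) (s := x) (t := y) (c := -1)
        (fun e => by rw [h.alt x y hxy ((hL x).1 hx) ((hL y).1 hy) e]; ring) (Pr T f * M)
      rw [map_mul, hMsw] at h1
      rw [h1]
      ring
    · -- the forms
      intro i hi s hs e1 h1s h1A h1L h1o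
      rw [hΘ, map_mul (Pr T), Pr_at T s (β i) (hβT i)]
      by_cases hT1 : ∀ t, ∀ k ∉ T, e1 t k = 0
      swap
      · push Not at hT1
        obtain ⟨t, k, hk, hne⟩ := hT1
        rw [Pr_mon_out T e1 hk hne, zero_mul, zero_mul, map_zero]
      rw [Pr_mon_in T e1 hT1]
      obtain ⟨i0, hi0, hji⟩ := hj i hi
      have hsL : ρ s = Rl.L := (hL s).1 hs
      have hsZ : s ∉ Z := fun h' => hZAL s h' (Finset.mem_union_right _ hs)
      have hsAL : s ∈ A ∪ L := Finset.mem_union_right _ hs
      have h4 := toDu_ex4 (Φ := Φ) (s := s) (S := cl ρ (Rl.gr i0)) (h.ex i0 hi0 s hsL)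
        (monomial (ex e1) 1 * at' s (β i) * M)
      have h5 : ∀ s' ∈ cl ρ (Rl.gr i0),
          toDu Φ (rs (Equiv.swap s' s) (monomial (ex e1) 1 * at' s (β i) * M)) =
            if s' ∈ Z then toDu Φ (monomial (ex e1) 1 * at' s (β i) * M) else 0 := by
        intro s' hs'
        have hρs' : ρ s' = Rl.gr i0 := by
          simpa [cl] using hs'
        have hs'G : s' ∈ G := (hG s').2 ⟨i0, hi0, hρs'⟩
        have hs'AL : s' ∉ A ∪ L := hGAL s' hs'G
        have hbs' : b s' = β i := by rw [hb i0 hi0 s' hρs', hji]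
        have hss' : s ≠ s' := fun h' => hs'AL (h' ▸ hsAL)
        have h1s' : e1 s' = 0 := h1o s' hs'AL
        split_ifs with hs'Z
        · -- the slot is replaced already
          congr 1
          have hein1 : ein s' = 0 := by
            rw [hein]
            simp [hs'Z]
          have hein2 : ein s = 0 := by
            rw [hein]
            simp only [hsAL, true_or, if_true]
          rw [hM, Mp_erase b hs'Z, hbs']
          simp only [map_mul, rs_ex, rs_at1, Equiv.swap_apply_left, Equiv.swap_apply_right]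
          rw [comp_swap_off h1s' h1s, comp_swap_off hein1 hein2,
            Mp_off b (Finset.notMem_erase s' Z) (fun h' => hsZ (Finset.mem_of_mem_erase h'))]
          ring
        · -- one more slot is replaced
          have hin : (G \ insert s' Z).card < m := by
            rw [← hm]
            apply Finset.card_lt_card
            rw [Finset.ssubset_iff_of_subset
              (Finset.sdiff_subset_sdiff (Finset.Subset.refl _) (Finset.subset_insert _ _))]
            refine ⟨s', Finset.mem_sdiff.2 ⟨hs'G, hs'Z⟩, ?_⟩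
            simp
          have hih := ih _ hin (insert s' Z) (Finset.insert_subset hs'G hZ) rfl
            (fun t => if t = s then e s' else if t ∈ A ∪ L then e1 t else e t) ?_ ?_ ?_
          · rw [← hih]
            congr 1
            rw [hM, Mp_insert b hs'Z, hbs']
            simp only [map_mul, rs_ex, rs_at1, Equiv.swap_apply_right]
            rw [comp_swap_off h1s' h1s, Mp_off b hs'Z hsZ]
            have h6 : (fun t => if t ∈ insert s' Z then 0 else
                (if t = s then e s' else if t ∈ A ∪ L then e1 t else e t)) =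
                e1 + ein ∘ Equiv.swap s' s := by
              funext t
              rw [Pi.add_apply, Function.comp_apply]
              by_cases hts : t = s
              · subst hts
                have : t ∉ insert s' Z := by
                  rw [Finset.mem_insert]
                  tauto
                rw [if_neg this, if_pos rfl, h1s, Equiv.swap_apply_right, hein]
                simp only [hs'AL, hs'Z, or_self, if_false]
                rw [zero_add]
              · by_cases hts' : t = s'
                · subst hts'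
                  rw [if_pos (Finset.mem_insert_self _ _), h1s', Equiv.swap_apply_left, hein]
                  simp only [hsAL, true_or, if_true]
                  rw [add_zero]
                · rw [Equiv.swap_apply_of_ne_of_ne hts' hts, if_neg hts, hein]
                  by_cases htAL : t ∈ A ∪ L
                  · have : t ∉ insert s' Z := by
                      rw [Finset.mem_insert]
                      rintro (h' | h')
                      · exact hts' h'
                      · exact hZAL t h' htAL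
                    rw [if_neg this]
                    simp only [htAL, true_or, if_true]
                    rw [add_zero]
                  · have h1t : e1 t = 0 := h1o t htAL
                    by_cases htZ : t ∈ Z
                    · rw [if_pos (Finset.mem_insert_of_mem htZ)]
                      simp only [htZ, or_true, if_true]
                      rw [h1t, add_zero]
                    · have : t ∉ insert s' Z := by
                        rw [Finset.mem_insert]
                        rintro (h' | h')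
                        · exact hts' h'
                        · exact htZ h'
                      rw [if_neg this]
                      simp only [htAL, htZ, or_self, if_false]
                      rw [h1t, zero_add]
            rw [h6, ← mon_mul]
            ring
          · intro t ht k hk
            split_ifs with h7 h8
            · exact heT s' (Finset.mem_union_right _ hs'G) k hk
            · exact hT1 t k hk
            · exact heT t ht k hk
          · intro t ht
            have h7 : t ≠ s := fun h' => hAL t ht (h' ▸ hs)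
            rw [if_neg h7, if_pos (Finset.mem_union_left _ ht)]
            exact h1A t ht
          · intro t ht
            split_ifs with h7 h8
            · exact heq s' (Finset.mem_union_right _ hs'G)
            · rw [Finset.mem_union] at ht
              rcases ht with ht | ht
              · exact h1L t ht h7
              · exact absurd h8 (hGAL t ht)
            · exact heq t ht
      rw [Finset.sum_congr rfl h5, Finset.sum_ite, Finset.sum_const_zero, add_zero,
        Finset.sum_const, nsmul_eq_mul] at h4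
      set x := toDu Φ (monomial (ex e1) 1 * at' s (β i) * M) with hx
      set n := ((cl ρ (Rl.gr i0)).filter (fun s' => s' ∈ Z)).card with hn
      have h8 : ((1 : ℂ) + n) * x = 0 := by
        rw [add_mul, one_mul]
        exact h4
      rcases mul_eq_zero.1 h8 with h9 | h9
      · exfalso
        have h10 : ((1 + n : ℕ) : ℂ) = 0 := by
          push_cast
          exact h9
        rw [Nat.cast_eq_zero] at h10
        omega
      · exact h9
    · intro t ht
      rw [if_pos (Finset.mem_union_left _ ht)]
      exact heA t ht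
    · intro t ht
      rw [if_pos (Finset.mem_union_right _ ht)]
      exact heq t (Finset.mem_union_left _ ht)
    · intro t ht
      rw [if_neg ht]
    · intro t ht k hk
      rw [if_pos ht]
      exact heT t (Finset.mem_union_left _ ht) k hk
  rw [hΘ, Pr_mon_in T _ ?_] at hkey
  · rw [← hkey]
    congr 1
    rw [hM]
    have h6 : (fun s => if s ∈ Z then 0 else e s) =
        (fun s => if s ∈ A ∪ L then e s else 0) + ein := by
      funext s
      rw [Pi.add_apply, hein]
      by_cases h7 : s ∈ A ∪ L
      · have h8 : s ∉ Z := fun h' => hZAL s h' h7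
        simp only [h7, h8, if_true, if_false, true_or]
        rw [add_zero]
      · by_cases h8 : s ∈ Z
        · simp only [h7, h8, if_true, if_false, or_true]
          rw [add_zero]
        · simp only [h7, h8, if_false, or_self]
          rw [zero_add]
    rw [h6, ← mon_mul]
    ring
  · intro s k hk
    split_ifs with h7
    · exact heT s (Finset.mem_union_left _ h7) k hk
    · rfl

end Main

end F16X

section F16

theorem FVc [Fintype ι] [DecidableEq ι] {q : ℕ} {ρ : ι → Rl} {C : Finset ℕ} {Φ : SF σ ι}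
    (h : Cls q ρ C Φ) (hK : 3 ≤ (cl ρ Rl.L).card) (hq : q + 2 ≤ (cl ρ Rl.L).card + C.card)
    (T : Finset σ) (hT : 2 * (T.card - 2) < (cl ρ Rl.L).card) (e : ι → σ → ℕ)
    (he : ∀ s ∈ actv ρ C, ∀ k ∉ T, e s k = 0) : Φ e = 0 := by
  classical
  by_cases hT2 : T.card ≤ 2
  · refine X7.two h hK hq e ((Finset.card_le_card ?_).trans hT2)
    intro k hk
    by_contra hcon
    refine (Finset.mem_filter.1 hk).2 ?_
    unfold wt
    rw [Finset.sum_apply]
    exact Finset.sum_eq_zero fun s hs => he s hs k hcon
  by_contra hne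
  set A : Finset ι := Finset.univ.filter (fun s => ρ s = Rl.F ∨ ρ s = Rl.G) with hAdef
  set G : Finset ι := Finset.univ.filter (fun s => ∃ i ∈ C, ρ s = Rl.gr i) with hGdef
  have hA : ∀ s, s ∈ A ↔ ρ s = Rl.F ∨ ρ s = Rl.G := fun s => by simp [hAdef]
  have hG : ∀ s, s ∈ G ↔ ∃ i ∈ C, ρ s = Rl.gr i := fun s => by simp [hGdef]
  have hL : ∀ s, s ∈ cl ρ Rl.L ↔ ρ s = Rl.L := fun s => by simp [cl]
  have hAL : Disjoint A (cl ρ Rl.L) := by
    rw [Finset.disjoint_left]
    intro s h1 h2
    rw [hA] at h1
    rw [hL] at h2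
    rw [h2] at h1
    rcases h1 with h1 | h1 <;> exact absurd h1 (by decide)
  obtain ⟨β, _, hβT, hFV⟩ := FVn (q := q) (c := C.card) (T := T) hAL (by omega) hT hq
  set j : ℕ → ℕ := fun i => if hi : i ∈ C then ((C.equivFin ⟨i, hi⟩ : Fin C.card) : ℕ) else 0
    with hjdef
  have hj : ∀ n < C.card, ∃ i ∈ C, j i = n := by
    intro n hn
    refine ⟨(C.equivFin.symm ⟨n, hn⟩ : C), (C.equivFin.symm ⟨n, hn⟩).2, ?_⟩
    rw [hjdef]
    simp
  set b : ι → MvPolynomial σ ℂ := fun s => match ρ s with
    | Rl.gr i => β (j i)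
    | _ => 0 with hbdef
  have hb : ∀ i ∈ C, ∀ s, ρ s = Rl.gr i → b s = β (j i) := by
    intro i _ s hs
    rw [hbdef]
    simp only [hs]
  have h1 := F16X.claim h hβT hA hL hG hFV b j hj hb _ ∅ (Finset.empty_subset _) rfl e ?_ ?_ ?_
  · apply hne
    rw [F16X.Mp, Finset.prod_empty, one_mul] at h1
    have h2 : (fun s => if s ∈ (∅ : Finset ι) then 0 else e s) = e := by
      funext s
      simp
    rw [h2, toDu_ex] at h1
    exact h1
  · intro s hs k hk
    refine he s ?_ k hk
    rw [Finset.mem_union, Finset.mem_union, hA, hL, hG] at hs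
    unfold actv
    rw [Finset.mem_filter]
    refine ⟨Finset.mem_univ _, ?_⟩
    tauto
  · intro t ht
    exact h.deg1 e hne t ((hA t).1 ht)
  · intro t ht
    refine h.degq e hne t ?_
    rw [Finset.mem_union, hL, hG] at ht
    exact ht

end F16

end Pool.Agent.H69.V2
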