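import Mathlib
import Pool.Agent.H69.VT.SDefs

/-!
Functionals on polynomials in the coordinates `σ` of finitely many slots `ι` (project V2).
-/

set_option linter.unusedSectionVars false

namespace Pool.Agent.H69.V2

open scoped BigOperators

open MvPolynomial

/-- polynomials in the coordinates `σ` of the slots `ι` -/
abbrev Pl (ι σ : Type) : Type := MvPolynomial (ι × σ) ℂ

/-- functionals -/
abbrev Du (ι σ : Type) : Type := Pl ι σ →ₗ[ℂ] ℂ

variable {ι κ σ τ R : Type} [Fintype σ] [DecidableEq σ] [Fintype τ] [DecidableEq τ]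

/-- the vector `u` in the slot `s` -/
noncomputable def li (s : ι) (u : σ → ℂ) : Pl ι σ := ∑ k, C (u k) * X (s, k)

/-- the minor of two slots and two vectors -/
noncomputable def d2 (s t : ι) (u v : σ → ℂ) : Pl ι σ := li s u * li t v - li s v * li t u

/-- the minor of three slots and three vectors -/
noncomputable def d3 (s t r : ι) (u v w : σ → ℂ) : Pl ι σ :=
  li s u * d2 t r v w - li s v * d2 t r u w + li s w * d2 t r u v

/-- the form `β` in the slot `s` -/
noncomputable def at' (s : ι) : MvPolynomial σ ℂ →ₐ[ℂ] Pl ι σ := rename (fun k => (s, k))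

/-- renaming of slots -/
noncomputable def rs (g : ι → κ) : Pl ι σ →ₐ[ℂ] Pl κ σ := rename (Prod.map g id)

/-- a linear map on vectors -/
def gv (g : σ → τ → ℂ) (u : σ → ℂ) : τ → ℂ := fun l => ∑ k, u k * g k l

/-- linear substitution: the coordinate vector `k` goes to `g k` -/
noncomputable def sb (g : σ → τ → ℂ) : Pl ι σ →ₐ[ℂ] Pl ι τ := aeval (fun p => li p.1 (g p.2))

/-- linear substitution in a form -/
noncomputable def sf (g : σ → τ → ℂ) : MvPolynomial σ ℂ →ₐ[ℂ] MvPolynomial τ ℂ :=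
  aeval (fun k => ∑ l, C (g k l) * X l)

/-- multihomogeneous polynomials -/
def Mh (d : ι → ℕ) (f : Pl ι σ) : Prop := ∀ e, coeff e f ≠ 0 → ∀ s, ∑ k, e (s, k) = d s

/-- homogeneous functionals -/
def Hg (dg : ι → ℕ) (Θ : Du ι σ) : Prop :=
  ∀ e : ι × σ →₀ ℕ, (∃ s, ∑ k, e (s, k) ≠ dg s) → Θ (monomial e 1) = 0

/-- functionals with two rows -/
def R2 (Θ : Du ι σ) : Prop :=
  ∀ s t r : ι, s ≠ t → s ≠ r → t ≠ r → ∀ (u v w : σ → ℂ) (f : Pl ι σ), Θ (f * d3 s t r u v w) = 0

/-- exchanging `z` and `z'` between two slots changes nothing -/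
def YY (z z' : σ → ℂ) (Θ : Du ι σ) : Prop :=
  ∀ s t : ι, s ≠ t → ∀ f : Pl ι σ, Θ (f * d2 s t z z') = 0

/-- the replacement of a coordinate `a` by `b`, as a derivation -/
noncomputable def Dv (a b : σ) : Derivation ℂ (Pl ι σ) (Pl ι σ) :=
  mkDerivation ℂ (fun p => if p.2 = a then X (p.1, b) else 0)

/-- `Dv` as a linear map -/
noncomputable def DvL (a b : σ) : Pl ι σ →ₗ[ℂ] Pl ι σ :=
  (Dv a b : Derivation ℂ (Pl ι σ) (Pl ι σ)).toLinearMap

/-- families of functionals with `j` labels -/
abbrev Fam (R σ : Type) : Type := ∀ j : ℕ, Du (R ⊕ Fin j) σ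

/-- degrees -/
def dgq (q : ℕ) (r : R → ℕ) (j : ℕ) : R ⊕ Fin j → ℕ := Sum.elim r (fun _ => q)

/-- alternating in the labels -/
def Alt [DecidableEq R] {j : ℕ} (Θ : Du (R ⊕ Fin j) σ) : Prop :=
  ∀ a b : Fin j, a ≠ b → ∀ f, Θ (rs (Equiv.swap (Sum.inr a) (Sum.inr b)) f) = - Θ f

/-- the families of the class -/
def DD (q : ℕ) (r : R → ℕ) (σ : Type) [Fintype σ] [DecidableEq σ] [DecidableEq R] :
    Submodule ℂ (Fam R σ) where
  carrier := {x | (∀ j, Hg (dgq q r j) (x j)) ∧ (∀ j, R2 (x j)) ∧ (∀ j, Alt (x j)) ∧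
    ∀ j, q + 2 ≤ j → x j = 0}
  add_mem' := by
    rintro x y ⟨h1, h2, h3, h4⟩ ⟨k1, k2, k3, k4⟩
    refine ⟨fun j e he => ?_, fun j s t r h h' h'' u v w f => ?_, fun j a b hab f => ?_,
      fun j hj => ?_⟩
    · simp only [Pi.add_apply, LinearMap.add_apply, h1 j e he, k1 j e he, add_zero]
    · simp only [Pi.add_apply, LinearMap.add_apply, h2 j s t r h h' h'' u v w f,
        k2 j s t r h h' h'' u v w f, add_zero]
    · simp only [Pi.add_apply, LinearMap.add_apply, h3 j a b hab f, k3 j a b hab f]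
      ring
    · simp only [Pi.add_apply, h4 j hj, k4 j hj, add_zero]
  zero_mem' := ⟨fun _ _ _ => rfl, fun _ _ _ _ _ _ _ _ _ _ _ => rfl,
    fun _ _ _ _ _ => by simp, fun _ _ => rfl⟩
  smul_mem' := by
    rintro c x ⟨h1, h2, h3, h4⟩
    refine ⟨fun j e he => ?_, fun j s t r h h' h'' u v w f => ?_, fun j a b hab f => ?_,
      fun j hj => ?_⟩
    · simp only [Pi.smul_apply, LinearMap.smul_apply, h1 j e he, smul_zero]
    · simp only [Pi.smul_apply, LinearMap.smul_apply, h2 j s t r h h' h'' u v w f, smul_zero]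
    · simp only [Pi.smul_apply, LinearMap.smul_apply, h3 j a b hab f, smul_neg]
    · simp only [Pi.smul_apply, h4 j hj, smul_zero]

/-- contraction with the form `β` -/
noncomputable def bb (β : MvPolynomial σ ℂ) : Fam R σ →ₗ[ℂ] Fam R σ where
  toFun x j := (x (j + 1)).comp ((LinearMap.mulRight ℂ (at' (Sum.inr 0) β)).comp
    (rs (Sum.map id Fin.succ)).toLinearMap)
  map_add' x y := by ext; simp
  map_smul' c x := by ext; simp

/-- families with the exchange property -/
def YD (z z' : σ → ℂ) : Submodule ℂ (Fam R σ) where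
  carrier := {x | ∀ j, YY z z' (x j)}
  add_mem' := by
    intro x y hx hy j s t hst f
    simp only [Pi.add_apply, LinearMap.add_apply, hx j s t hst f, hy j s t hst f, add_zero]
  zero_mem' := fun _ _ _ _ _ => rfl
  smul_mem' := by
    intro c x hx j s t hst f
    simp only [Pi.smul_apply, LinearMap.smul_apply, hx j s t hst f, smul_zero]

/-- families that kill `z` -/
def KK (z : σ → ℂ) : Submodule ℂ (Fam R σ) where
  carrier := {x | ∀ (j : ℕ) (s : R ⊕ Fin j) (f : Pl (R ⊕ Fin j) σ), x j (f * li s z) = 0}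
  add_mem' := by
    intro x y hx hy j s f
    simp only [Pi.add_apply, LinearMap.add_apply, hx j s f, hy j s f, add_zero]
  zero_mem' := fun _ _ _ => rfl
  smul_mem' := by
    intro c x hx j s f
    simp only [Pi.smul_apply, LinearMap.smul_apply, hx j s f, smul_zero]

/-- degrees with two more slots of degree one -/
def r2 (r : R → ℕ) : R ⊕ Fin 2 → ℕ := Sum.elim r (fun _ => 1)

/-- families that alternate in the two additional slots -/
def AL [DecidableEq R] : Submodule ℂ (Fam (R ⊕ Fin 2) σ) where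
  carrier := {x | ∀ j f, x j (rs (Equiv.swap (Sum.inl (Sum.inr 0)) (Sum.inl (Sum.inr 1))) f) =
    - x j f}
  add_mem' := by
    intro x y hx hy j f
    simp only [Pi.add_apply, LinearMap.add_apply, hx j f, hy j f]
    ring
  zero_mem' := fun _ _ => by simp
  smul_mem' := by
    intro c x hx j f
    simp only [Pi.smul_apply, LinearMap.smul_apply, hx j f, smul_neg]

/-- evaluation of the two additional slots -/
noncomputable def ev (z z' : σ → ℂ) : Fam (R ⊕ Fin 2) σ →ₗ[ℂ] Fam R σ where
  toFun x j := (x j).comp ((LinearMap.mulRight ℂ (li (Sum.inl (Sum.inr 0)) z *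
    li (Sum.inl (Sum.inr 1)) z')).comp (rs (Sum.map Sum.inl id)).toLinearMap)
  map_add' x y := by ext; simp
  map_smul' c x := by ext; simp

/-- product of functionals on different slots -/
noncomputable def pr (θ : Du ι σ) (η : Du κ σ) : Du (ι ⊕ κ) σ :=
  (basisMonomials ((ι ⊕ κ) × σ) ℂ).constr ℂ (fun e =>
    θ (monomial (e.comapDomain (fun p : ι × σ => (Sum.inl p.1, p.2))
      (fun p _ p' _ h => by
        simp only [Prod.mk.injEq, Sum.inl.injEq] at h
        exact Prod.ext h.1 h.2)) 1) *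
    η (monomial (e.comapDomain (fun p : κ × σ => (Sum.inr p.1, p.2))
      (fun p _ p' _ h => by
        simp only [Prod.mk.injEq, Sum.inr.injEq] at h
        exact Prod.ext h.1 h.2)) 1))

/-- the span of the functionals that factor through two variables -/
noncomputable def E2 (dg : ι → ℕ) : Submodule ℂ (Du ι σ) :=
  Submodule.span ℂ {Θ | ∃ (g : σ → Fin 2 → ℂ) (θ : Du ι (Fin 2)), Hg dg θ ∧
    Θ = θ.comp (sb g).toLinearMap}

/-- the determinant of the images of two vectors -/
def dt (g : σ → Fin 2 → ℂ) (z z' : σ → ℂ) : ℂ := gv g z 0 * gv g z' 1 - gv g z 1 * gv g z' 0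

/-- the exponent of a family of labels -/
noncomputable def ex [Fintype ι] (e : ι → σ → ℕ) : ι × σ →₀ ℕ :=
  Finsupp.equivFunOnFinite.symm (fun p => e p.1 p.2)

/-- slot functions as functionals -/
noncomputable def toDu (Φ : VT.SF σ ι) : Du ι σ :=
  (basisMonomials (ι × σ) ℂ).constr ℂ (fun e => Φ (fun s k => e (s, k)))

/-- functionals as slot functions -/
noncomputable def ofDu [Fintype ι] (Θ : Du ι σ) : VT.SF σ ι := fun e => Θ (monomial (ex e) 1)

/-- all labels with the degrees of `e0` on `act` that agree with `e0` outside of `act` -/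
def Bx [Fintype ι] [DecidableEq ι] (act : Finset ι) (e0 : ι → σ → ℕ) : Finset (ι → σ → ℕ) :=
  Fintype.piFinset (fun s =>
    if s ∈ act then Finset.piAntidiag Finset.univ (VT.dl (e0 s)) else {e0 s})

/-- product of factorials -/
def fac [Fintype ι] (e : ι → σ → ℕ) : ℂ := ∏ s, ∏ k, ((e s k).factorial : ℂ)

/-- the forms `β i`, `i < c`, stay independent after every surjection to two variables -/
def Good (c : ℕ) (β : ℕ → MvPolynomial σ ℂ) : Prop :=
  ∀ g : σ → Fin 2 → ℂ, Function.Surjective (gv g) →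
    LinearIndependent ℂ (fun i : Fin c => sf g (β i))

/-- the homology property of the operators `b i`, `i < c`, on a subspace -/
def XX {V : Type} [AddCommGroup V] [Module ℂ V] (c : ℕ) (b : ℕ → V →ₗ[ℂ] V)
    (D : Submodule ℂ V) : Prop :=
  ∀ k < c, ∀ x ∈ D, (∀ i ≤ k, b i x = 0) → ∃ y ∈ D, b k y = x ∧ ∀ i < k, b i y = 0

end Pool.Agent.H69.V2
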