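import Pool.Agent.H69.V2.F16
import Pool.Agent.H69.V2.C11
import Pool.Agent.H69.V2.C17

/-!
Conclusion of the slope 2 argument: the vanishing theorem for multilinear functionals with
columns holds for all `q`, and the strand `2 D - 1` of the skewed complex vanishes for all
`t ≤ 2 D - 2`.
-/

set_option linter.unusedSectionVars false

namespace Pool.Agent.H69.V2

open scoped BigOperators
open Pool.Agent.H69.VS Pool.Agent.H69.VT

variable {σ : Type} [Fintype σ] [DecidableEq σ]

theorem FVp_all (q : ℕ) : FVp q := fun _ _ _ _ _ _ _ _ _ h hK hq T hT e he =>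
  FVc h hK hq T hT e he

theorem Tallc {D : ℕ} (hD : 4 ≤ D) : ∀ t, t + 2 ≤ 2 * D → ∀ β : σ → ℕ,
    dg β = t * D + (2 * D - 1) → Van D t β := by
  intro t
  induction t using Nat.strong_induction_on with
  | _ t ih =>
    intro ht
    exact Tfinc hD ht (XPc_of hD ht (FVp_all _))
      (HV_of (by omega) fun r hr => ih r hr (by omega))

end Pool.Agent.H69.V2
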